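import Pool.Agent.H679R2.WH.Defs

/-!
# Finite probability
-/

set_option autoImplicit false

namespace Pool.Agent.H679R2.WH

open Pool.Agent.H520R2

theorem msr_pr {Ω : Type} [Fintype Ω] : Msr (pr : Set Ω → ℝ) := by
  refine ⟨by simp [pr], fun A => by unfold pr; positivity, fun A B h => ?_, fun A B => ?_⟩
  · unfold pr
    have h1 : A.ncard ≤ B.ncard := Set.ncard_le_ncard h (Set.toFinite _)
    have h2 : (A.ncard : ℝ) ≤ B.ncard := by exact_mod_cast h1
    gcongr
  · unfold pr
    have h1 : (A ∪ B).ncard ≤ A.ncard + B.ncard := Set.ncard_union_le A B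
    have h2 : ((A ∪ B).ncard : ℝ) ≤ A.ncard + B.ncard := by exact_mod_cast h1
    rw [← add_div]
    gcongr

theorem msr_prOn {Ω : Type} [Fintype Ω] (F : Set Ω) : Msr (prOn F) := by
  refine ⟨by simp [prOn], fun A => by unfold prOn; positivity, fun A B h => ?_, fun A B => ?_⟩
  · unfold prOn
    have h1 : (A ∩ F).ncard ≤ (B ∩ F).ncard :=
      Set.ncard_le_ncard (Set.inter_subset_inter_left F h) (Set.toFinite _)
    have h2 : ((A ∩ F).ncard : ℝ) ≤ (B ∩ F).ncard := by exact_mod_cast h1
    gcongr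
  · unfold prOn
    have h1 : ((A ∪ B) ∩ F).ncard ≤ (A ∩ F).ncard + (B ∩ F).ncard := by
      rw [Set.union_inter_distrib_right]
      exact Set.ncard_union_le _ _
    have h2 : (((A ∪ B) ∩ F).ncard : ℝ) ≤ (A ∩ F).ncard + (B ∩ F).ncard := by exact_mod_cast h1
    rw [← add_div]
    gcongr

theorem pr_le_one {Ω : Type} [Fintype Ω] (A : Set Ω) : pr A ≤ 1 := by
  unfold pr
  apply div_le_one_of_le₀ _ (by positivity)
  have h1 : A.ncard ≤ Fintype.card Ω := by
    have h := Set.ncard_le_ncard (Set.subset_univ A) (Set.toFinite _)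
    rw [Set.ncard_univ, Nat.card_eq_fintype_card] at h
    exact h
  exact_mod_cast h1

theorem pr_univ {Ω : Type} [Fintype Ω] [Nonempty Ω] : pr (Set.univ : Set Ω) = 1 := by
  unfold pr
  rw [Set.ncard_univ, Nat.card_eq_fintype_card]
  exact div_self (by exact_mod_cast Fintype.card_ne_zero)

theorem pr_prod {Ω₁ Ω₂ : Type} [Fintype Ω₁] [Fintype Ω₂] (A : Set Ω₁) (B : Set Ω₂) :
    pr {ω : Ω₁ × Ω₂ | ω.1 ∈ A ∧ ω.2 ∈ B} = pr A * pr B := by
  have h : {ω : Ω₁ × Ω₂ | ω.1 ∈ A ∧ ω.2 ∈ B} = A ×ˢ B := by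
    ext ω; simp [Set.mem_prod]
  rw [h]
  unfold pr
  rw [Set.ncard_prod, Fintype.card_prod]
  push_cast
  rw [div_mul_div_comm]

/-- The cardinality of a subset of a product as a sum over the first coordinate. -/
theorem ncard_prod_sum {Ω₁ Ω₂ : Type} [Fintype Ω₁] [Fintype Ω₂] (A : Set (Ω₁ × Ω₂)) :
    A.ncard = ∑ x : Ω₁, {y | (x, y) ∈ A}.ncard := by
  classical
  have h1 : A.ncard = (Finset.univ.filter (fun z => z ∈ A)).card := by
    rw [← Set.ncard_coe_finset]
    congr 1
    ext z; simp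
  have h2 : ∀ x : Ω₁, {y | (x, y) ∈ A}.ncard
      = (Finset.univ.filter (fun y => (x, y) ∈ A)).card := by
    intro x
    rw [← Set.ncard_coe_finset]
    congr 1
    ext z; simp
  rw [h1]
  simp_rw [h2, Finset.card_filter]
  rw [Fintype.sum_prod_type]

/-- Fubini. -/
theorem pr_eq_avg {Ω₁ Ω₂ : Type} [Fintype Ω₁] [Fintype Ω₂] (A : Set (Ω₁ × Ω₂)) :
    pr A = (∑ x : Ω₁, pr {y | (x, y) ∈ A}) / Fintype.card Ω₁ := by
  unfold pr
  rw [← Finset.sum_div, ncard_prod_sum A, Fintype.card_prod, div_div]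
  push_cast
  rw [mul_comm]

/-- Fubini. -/
theorem pr_fubini {Ω₁ Ω₂ : Type} [Fintype Ω₁] [Fintype Ω₂] (A : Set (Ω₁ × Ω₂)) (c : ℝ)
    (hc : 0 ≤ c) (h : ∀ x, pr {y | (x, y) ∈ A} ≤ c) : pr A ≤ c := by
  rw [pr_eq_avg]
  have h1 : ∑ x : Ω₁, pr {y | (x, y) ∈ A} ≤ Fintype.card Ω₁ * c := by
    calc ∑ x : Ω₁, pr {y | (x, y) ∈ A} ≤ ∑ _x : Ω₁, c := Finset.sum_le_sum fun x _ => h x
      _ = Fintype.card Ω₁ * c := by simp
  exact div_le_of_le_mul₀ (by positivity) hc (by rw [mul_comm]; exact h1)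

theorem pr_fubini_exists {Ω₁ Ω₂ : Type} [Fintype Ω₁] [Fintype Ω₂] [Nonempty Ω₁]
    (A : Set (Ω₁ × Ω₂)) (c : ℝ) (h : c ≤ pr A) : ∃ x, c ≤ pr {y | (x, y) ∈ A} := by
  by_contra hne
  push Not at hne
  rw [pr_eq_avg] at h
  have hpos : (0 : ℝ) < Fintype.card Ω₁ := by exact_mod_cast Fintype.card_pos
  rw [le_div_iff₀ hpos] at h
  have h1 : ∑ x : Ω₁, pr {y | (x, y) ∈ A} < ∑ _x : Ω₁, c :=
    Finset.sum_lt_sum_of_nonempty Finset.univ_nonempty fun x _ => hne x
  have h2 : ∑ _x : Ω₁, c = c * Fintype.card Ω₁ := by simp [mul_comm]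
  linarith

/-- Transport of probabilities along a bijection. -/
theorem pr_equiv {Ω₁ Ω₂ : Type} [Fintype Ω₁] [Fintype Ω₂] (e : Ω₁ ≃ Ω₂) (A : Set Ω₂) :
    pr {x | e x ∈ A} = pr A := by
  unfold pr
  rw [Fintype.card_congr e]
  congr 2
  have h : A = e '' {x | e x ∈ A} := by
    ext y
    constructor
    · intro hy
      exact ⟨e.symm y, by simpa using hy, by simp⟩
    · rintro ⟨x, hx, rfl⟩
      exact hx
  conv_rhs => rw [h]
  rw [Set.ncard_image_of_injective _ e.injective]

/-- Fubini for one coordinate of a function. -/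
theorem pr_coord {ι κ : Type} [Fintype ι] [DecidableEq ι] [Fintype κ] (i : ι)
    (A : Set (ι → κ)) :
    pr A = (∑ f : {j // j ≠ i} → κ, pr {y : κ | (fun j => if h : j = i then y else f ⟨j, h⟩) ∈ A}) /
      Fintype.card ({j // j ≠ i} → κ) := by
  classical
  let e : ({j // j ≠ i} → κ) × κ ≃ (ι → κ) :=
    { toFun := fun p j => if h : j = i then p.2 else p.1 ⟨j, h⟩
      invFun := fun g => (fun j => g j.1, g i)
      left_inv := by
        rintro ⟨f, y⟩
        ext j
        · simp [j.2]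
        · simp
      right_inv := by
        intro g
        ext j
        by_cases h : j = i
        · subst h; simp
        · simp [h] }
  rw [← pr_equiv e A, pr_eq_avg]
  rfl

theorem pr_update' {ι κ : Type} [Fintype ι] [DecidableEq ι] [Fintype κ] (A : Set (ι → κ)) (i : ι)
    (c : ℝ) (hc : 0 ≤ c) (h : ∀ ω, pr {y | Function.update ω i y ∈ A} ≤ c) : pr A ≤ c := by
  classical
  rw [pr_coord i A]
  rcases isEmpty_or_nonempty κ with hκ | ⟨⟨y0⟩⟩
  · have h0 : ∀ B : Set κ, pr B = 0 := by
      intro B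
      unfold pr
      have : B = ∅ := Set.eq_empty_of_isEmpty B
      rw [this]; simp
    simp [h0, hc]
  · have h1 : ∀ f : {j // j ≠ i} → κ,
        pr {y : κ | (fun j => if h : j = i then y else f ⟨j, h⟩) ∈ A} ≤ c := by
      intro f
      have h2 := h (fun j => if h : j = i then y0 else f ⟨j, h⟩)
      have h3 : {y | Function.update (fun j => if h : j = i then y0 else f ⟨j, h⟩) i y ∈ A}
          = {y : κ | (fun j => if h : j = i then y else f ⟨j, h⟩) ∈ A} := by
        ext y
        simp only [Set.mem_ofPred]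
        have : Function.update (fun j => if h : j = i then y0 else f ⟨j, h⟩) i y
            = (fun j => if h : j = i then y else f ⟨j, h⟩) := by
          funext j
          by_cases hj : j = i
          · subst hj; simp
          · simp [hj]
        rw [this]
      rw [h3] at h2
      exact h2
    have h4 : ∑ f : {j // j ≠ i} → κ,
        pr {y : κ | (fun j => if h : j = i then y else f ⟨j, h⟩) ∈ A}
        ≤ Fintype.card ({j // j ≠ i} → κ) * c := by
      calc _ ≤ ∑ _f : {j // j ≠ i} → κ, c := Finset.sum_le_sum fun x _ => h1 x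
        _ = _ := by simp
    exact div_le_of_le_mul₀ (by positivity) hc (by rw [mul_comm]; exact h4)

theorem pr_update {m : ℕ} {Ω : Type} [Fintype Ω] (A : Set (Fin m → Ω)) (j : Fin m) (c : ℝ)
    (hc : 0 ≤ c) (h : ∀ ω, pr {y | Function.update ω j y ∈ A} ≤ c) : pr A ≤ c :=
  pr_update' A j c hc h

/-- Finite union bound. -/
theorem Msr.finset_union {Ω S : Type} {m : Set Ω → ℝ} (hm : Msr m) (F : Finset S)
    (Ev : S → Set Ω) : m (⋃ τ ∈ F, Ev τ) ≤ ∑ τ ∈ F, m (Ev τ) := by
  classical
  induction F using Finset.induction_on with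
  | empty => simp [hm.empty]
  | insert a F ha ih =>
    rw [Finset.sum_insert ha, Finset.set_biUnion_insert]
    exact (hm.union _ _).trans (by linarith)

theorem pr_pi_bad {m : ℕ} {Ω : Type} [Fintype Ω] (G : Set Ω) :
    pr {ω : Fin m → Ω | ¬ ∀ j, ω j ∈ G} ≤ m * pr Gᶜ := by
  have h1 : {ω : Fin m → Ω | ¬ ∀ j, ω j ∈ G}
      ⊆ ⋃ j ∈ (Finset.univ : Finset (Fin m)), {ω : Fin m → Ω | ω j ∉ G} := by
    intro ω hω
    simp only [Set.mem_ofPred, not_forall] at hω
    obtain ⟨j, hj⟩ := hω
    simp only [Set.mem_iUnion]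
    exact ⟨j, Finset.mem_univ _, hj⟩
  refine (msr_pr.mono _ _ h1).trans ((msr_pr.finset_union _ _).trans ?_)
  have h2 : ∀ j ∈ (Finset.univ : Finset (Fin m)), pr {ω : Fin m → Ω | ω j ∉ G} ≤ pr Gᶜ := by
    intro j _
    apply pr_update _ j _ (msr_pr.nonneg _)
    intro ω
    apply msr_pr.mono
    intro y hy
    simpa using hy
  refine (Finset.sum_le_sum h2).trans ?_
  simp

theorem cyl {ι κ : Type} [Fintype ι] [DecidableEq ι] [Fintype κ] [Nonempty κ]
    (Z : Finset (ι × κ)) :
    pr {f : ι → κ | ∀ z ∈ Z, f z.1 = z.2} ≤ (1 / (Fintype.card κ : ℝ)) ^ Z.card := by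
  classical
  have hpos : (0 : ℝ) < Fintype.card κ := by exact_mod_cast Fintype.card_pos
  -- the finite set of pairs with distinct first coordinates
  by_cases hconf : ∃ z ∈ Z, ∃ z' ∈ Z, z.1 = z'.1 ∧ z.2 ≠ z'.2
  · obtain ⟨z, hz, z', hz', h1, h2⟩ := hconf
    have : {f : ι → κ | ∀ z ∈ Z, f z.1 = z.2} = ∅ := by
      ext f
      simp only [Set.mem_ofPred, Set.mem_empty_iff_false, iff_false]
      intro hf
      apply h2
      rw [← hf z hz, ← hf z' hz', h1]
    rw [this, msr_pr.empty]
    positivity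
  · push Not at hconf
    -- count functions
    let D : Finset ι := Z.image Prod.fst
    have hD : D.card = Z.card := by
      apply Finset.card_image_of_injOn
      intro z hz z' hz' h
      exact Prod.ext h (hconf z hz z' hz' h)
    let val : ι → κ := fun i => if h : ∃ a, (i, a) ∈ Z then h.choose else Classical.arbitrary κ
    have hval : ∀ z ∈ Z, val z.1 = z.2 := by
      intro z hz
      have hex : ∃ a, (z.1, a) ∈ Z := ⟨z.2, by simpa using hz⟩
      simp only [val, dif_pos hex]
      exact hconf _ hex.choose_spec _ hz rfl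
    have hset : {f : ι → κ | ∀ z ∈ Z, f z.1 = z.2}
        = ((Fintype.piFinset (fun i => if i ∈ D then {val i} else Finset.univ) : Finset (ι → κ)) :
          Set (ι → κ)) := by
      ext f
      simp only [Set.mem_ofPred, Finset.mem_coe, Fintype.mem_piFinset]
      constructor
      · intro hf i
        by_cases hi : i ∈ D
        · simp only [if_pos hi, Finset.mem_singleton]
          obtain ⟨z, hz, rfl⟩ := Finset.mem_image.1 hi
          rw [hf z hz, hval z hz]
        · simp [if_neg hi]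
      · intro hf z hz
        have h1 := hf z.1
        have hi : z.1 ∈ D := Finset.mem_image_of_mem _ hz
        simp only [if_pos hi, Finset.mem_singleton] at h1
        rw [h1, hval z hz]
    have hcard : ({f : ι → κ | ∀ z ∈ Z, f z.1 = z.2}).ncard
        * (Fintype.card κ) ^ Z.card = (Fintype.card κ) ^ (Fintype.card ι) := by
      rw [hset, Set.ncard_coe_finset, Fintype.card_piFinset]
      have h1 : ∀ i : ι, (if i ∈ D then ({val i} : Finset κ) else Finset.univ).card
          = if i ∈ D then 1 else Fintype.card κ := by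
        intro i
        split_ifs <;> simp
      simp_rw [h1]
      rw [Finset.prod_ite]
      simp only [Finset.prod_const_one, one_mul, Finset.prod_const]
      rw [← pow_add, ← hD]
      congr 1
      have h2 := Finset.card_filter_add_card_filter_not (s := (Finset.univ : Finset ι))
        (fun i => i ∈ D)
      have h3 : (Finset.univ.filter (fun i => i ∈ D)).card = D.card := by
        congr 1; ext i; simp
      rw [h3, Finset.card_univ] at h2
      omega
    have hcard' : (({f : ι → κ | ∀ z ∈ Z, f z.1 = z.2}).ncard : ℝ)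
        * (Fintype.card κ : ℝ) ^ Z.card = (Fintype.card κ : ℝ) ^ (Fintype.card ι) := by
      exact_mod_cast hcard
    unfold pr
    rw [Fintype.card_fun, one_div, inv_pow]
    push_cast
    rw [← hcard', div_le_iff₀ (by
      have : (0 : ℝ) < (Fintype.card κ : ℝ) ^ (Fintype.card ι) := by positivity
      rw [← hcard'] at this
      exact this)]
    have h5 : (0 : ℝ) < (Fintype.card κ : ℝ) ^ Z.card := by positivity
    rw [mul_comm (Set.ncard _ : ℝ), ← mul_assoc, inv_mul_cancel₀ h5.ne', one_mul]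

end Pool.Agent.H679R2.WH
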