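import Pool.Agent.H679R2.WH.Branch
import Pool.Agent.H679R2.WH.ProbA

/-!
# Second phase: the AND stage (task F1)
-/

set_option autoImplicit false

namespace Pool.Agent.H679R2.WH

open Pool.Agent.H520R2

theorem F1_union {Ω : Type} {m : Set Ω → ℝ} (hm : Msr m) {A : ℕ} {η : ℝ}
    (E : Fin A → Set Ω) (h : ∀ a, m (E a) ≤ η) : m (⋃ a, E a) ≤ A * η := by
  have key : ∀ s : Finset (Fin A), m (⋃ a ∈ s, E a) ≤ s.card * η := by
    intro s
    induction s using Finset.induction_on with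
    | empty => simp [hm.empty]
    | @insert a s ha ih =>
      rw [Finset.set_biUnion_insert, Finset.card_insert_of_notMem ha]
      have := hm.union (E a) (⋃ x ∈ s, E x)
      push_cast
      linarith [h a]
  have := key Finset.univ
  simpa using this

section
variable {n : ℕ} {ΩB ΩN : Type} [Fintype ΩB] [Fintype ΩN] (e : Env n ΩB ΩN)

theorem and_gen (d κ w : ℕ) (hd : 1 ≤ d) (hw : e.τ0.card ≤ w) (C : Set (Finset (Node n)))
    (hC : ∀ R ∈ C, R.card ≤ κ ∧ ∀ p ∈ R, p.length = d) :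
    prOn e.F {β | (∀ R ∈ C, ∃ p ∈ R, e.inP β p) ∧ ¬ ∃ τ : Finset (Node n), τ.card ≤ w ∧
      (∀ p ∈ τ, p.length = d ∧ e.inP β p) ∧ ∀ R ∈ C, ∃ p ∈ R, p ∈ τ} ≤
      (κ * e.θ) ^ (w - e.τ0.card) := by
  classical
  set X : Set ΩB := {β | (∀ R ∈ C, ∃ p ∈ R, e.inP β p) ∧ ¬ ∃ τ : Finset (Node n), τ.card ≤ w ∧
      (∀ p ∈ τ, p.length = d ∧ e.inP β p) ∧ ∀ R ∈ C, ∃ p ∈ R, p ∈ τ} with hX
  have hm : Msr (prOn e.F) := msr_prOn e.F
  have hθ := e.hθ
  have hκθ : (0 : ℝ) ≤ κ * e.θ := mul_nonneg (Nat.cast_nonneg _) hθ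
  have key := branch (S := Finset (Node n)) hm (X ∩ e.F)
    (fun σ => {β | ∀ p ∈ σ, e.inP β p}) (fun σ => e.θ ^ σ.card) (fun σ => σ.card)
    (fun σ => Disjoint σ e.τ0 ∧ ∀ p ∈ σ, p.length = d) (w - e.τ0.card) (κ * e.θ) hκθ
    (fun σ => pow_nonneg hθ _)
    (by
      rintro σ ⟨hdis, hlen⟩ -
      have h1 := e.spread σ (fun p hp h0 => by
        have := hlen p hp
        rw [h0] at this
        simp at this
        omega)
      rwa [Finset.sdiff_eq_self_of_disjoint hdis] at h1)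
    (by
      rintro σ ⟨hdis, hlen⟩ hcard
      by_cases hne : (X ∩ e.F) ∩ {β | ∀ p ∈ σ, e.inP β p} = ∅
      · exact Or.inl hne
      right
      obtain ⟨β0, ⟨hβX, hβF⟩, hβσ⟩ := Set.nonempty_iff_ne_empty.2 hne
      simp only [Set.mem_ofPred_eq] at hβσ
      -- the candidate
      set τ : Finset (Node n) := σ ∪ e.τ0.filter (fun p => p.length = d) with hτ
      have hτcard : τ.card ≤ w := by
        have h1 := Finset.card_union_le σ (e.τ0.filter (fun p => p.length = d))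
        have h2 := Finset.card_filter_le e.τ0 (fun p => p.length = d)
        have h3 : τ.card = (σ ∪ e.τ0.filter (fun p => p.length = d)).card := by rw [hτ]
        have hcard' : σ.card < w - e.τ0.card := hcard
        omega
      have hτp : ∀ p ∈ τ, p.length = d ∧ e.inP β0 p := by
        intro p hp
        rw [hτ, Finset.mem_union, Finset.mem_filter] at hp
        rcases hp with hp | ⟨hp, hpd⟩
        · exact ⟨hlen p hp, hβσ p hp⟩
        · exact ⟨hpd, e.hτ0 β0 hβF p hp⟩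
      have hR : ∃ R ∈ C, ∀ p ∈ R, p ∉ τ := by
        by_contra hcon
        push Not at hcon
        exact hβX.2 ⟨τ, hτcard, hτp, hcon⟩
      obtain ⟨R, hRC, hRτ⟩ := hR
      refine ⟨R.image (fun p => insert p σ), ?_, ?_, ?_⟩
      · intro τ' hτ'
        rw [Finset.mem_image] at hτ'
        obtain ⟨p, hp, rfl⟩ := hτ'
        have hpd := (hC R hRC).2 p hp
        have hpτ := hRτ p hp
        rw [hτ, Finset.mem_union, Finset.mem_filter] at hpτ
        push Not at hpτ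
        refine ⟨⟨?_, ?_⟩, ?_⟩
        · rw [Finset.disjoint_insert_left]
          exact ⟨fun h => hpτ.2 h hpd, hdis⟩
        · intro q hq
          rw [Finset.mem_insert] at hq
          rcases hq with rfl | hq
          · exact hpd
          · exact hlen q hq
        · exact Finset.card_insert_of_notMem hpτ.1
      · rintro β ⟨⟨hX', hF'⟩, hσ'⟩
        obtain ⟨p, hp, hpin⟩ := hX'.1 R hRC
        simp only [Set.mem_ofPred_eq] at hσ'
        simp only [Finset.mem_image, Set.mem_iUnion, Set.mem_ofPred_eq, exists_prop]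
        refine ⟨insert p σ, ⟨p, hp, rfl⟩, ?_⟩
        intro q hq
        rw [Finset.mem_insert] at hq
        rcases hq with rfl | hq
        · exact hpin
        · exact hσ' q hq
      · have h1 : ∀ τ' ∈ R.image (fun p => insert p σ), e.θ ^ τ'.card ≤ e.θ ^ (σ.card + 1) := by
          intro τ' hτ'
          rw [Finset.mem_image] at hτ'
          obtain ⟨p, hp, rfl⟩ := hτ'
          have hpτ := hRτ p hp
          rw [hτ, Finset.mem_union] at hpτ
          push Not at hpτ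
          rw [Finset.card_insert_of_notMem hpτ.1]
        have h2 := Finset.sum_le_card_nsmul _ _ _ h1
        have h3 : ((R.image (fun p => insert p σ)).card : ℝ) ≤ κ := by
          exact_mod_cast Finset.card_image_le.trans (hC R hRC).1
        rw [nsmul_eq_mul] at h2
        calc ∑ τ' ∈ R.image (fun p => insert p σ), e.θ ^ τ'.card
            ≤ ((R.image (fun p => insert p σ)).card : ℝ) * e.θ ^ (σ.card + 1) := h2
          _ ≤ κ * e.θ ^ (σ.card + 1) := mul_le_mul_of_nonneg_right h3 (pow_nonneg hθ _)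
          _ = κ * e.θ * e.θ ^ σ.card := by ring)
  have h0 := key ∅ ⟨Finset.disjoint_empty_left _, by simp⟩ (by simp)
  simp only [Finset.card_empty, Nat.sub_zero, pow_zero, mul_one, Finset.notMem_empty,
    false_imp_iff, implies_true, Set.ofPred_true, Set.inter_univ] at h0
  have h1 : prOn e.F X = prOn e.F (X ∩ e.F) := by
    unfold prOn
    rw [Set.inter_assoc, Set.inter_self]
  rw [h1]
  exact h0

theorem and_stage (d κ w A : ℕ) (hd : 1 ≤ d) (hw : e.τ0.card ≤ w) {ηP ηN : ℝ}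
    (GP : Fin A → ΩB → Prop) (GN : Fin A → ΩN → Prop)
    (h : ∀ a, HasC e (d + 1) κ ηP ηN (GP a) (GN a)) :
    HasT e d w (A * ηP + (κ * e.θ) ^ (w - e.τ0.card)) (A * ηN) (fun β => ∀ a, GP a β)
      (fun N => ∀ a, GN a N) := by
  classical
  choose C EP EN hEP hEN hC hpos hneg using h
  set C' : Set (Finset (Node n)) := {R' | ∃ a, ∃ R ∈ C a, R' = R.image Prod.fst} with hC'
  have hC'p : ∀ R ∈ C', R.card ≤ κ ∧ ∀ p ∈ R, p.length = d := by
    rintro R' ⟨a, R, hR, rfl⟩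
    refine ⟨Finset.card_image_le.trans (hC a R hR).1, ?_⟩
    intro p hp
    rw [Finset.mem_image] at hp
    obtain ⟨x, hx, rfl⟩ := hp
    have := (hC a R hR).2 x hx
    omega
  have hgen := and_gen e d κ w hd hw C' hC'p
  set X : Set ΩB := {β | (∀ R ∈ C', ∃ p ∈ R, e.inP β p) ∧ ¬ ∃ τ : Finset (Node n), τ.card ≤ w ∧
      (∀ p ∈ τ, p.length = d ∧ e.inP β p) ∧ ∀ R ∈ C', ∃ p ∈ R, p ∈ τ} with hX
  refine ⟨{τ | τ.card ≤ w ∧ (∀ p ∈ τ, p.length = d) ∧ ∀ R ∈ C', ∃ p ∈ R, p ∈ τ},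
    (⋃ a, EP a) ∪ X, ⋃ a, EN a, ?_, ?_, ?_, ?_, ?_⟩
  · have hm : Msr (prOn e.F) := msr_prOn e.F
    have h1 := F1_union hm EP hEP
    have h2 := hm.union (⋃ a, EP a) X
    linarith
  · exact F1_union msr_pr EN hEN
  · rintro τ ⟨h1, h2, -⟩
    exact ⟨h1, h2⟩
  · intro β hβF hβE hG
    simp only [Set.mem_union, Set.mem_iUnion, not_or, not_exists] at hβE
    obtain ⟨hβEP, hβX⟩ := hβE
    have h1 : ∀ R ∈ C', ∃ p ∈ R, e.inP β p := by
      rintro R' ⟨a, R, hR, rfl⟩
      obtain ⟨x, hx, hxin⟩ := hpos a β hβF (hβEP a) (hG a) R hR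
      exact ⟨x.1, Finset.mem_image_of_mem _ hx, hxin⟩
    have h2 : ∃ τ : Finset (Node n), τ.card ≤ w ∧
      (∀ p ∈ τ, p.length = d ∧ e.inP β p) ∧ ∀ R ∈ C', ∃ p ∈ R, p ∈ τ := by
      by_contra hcon
      exact hβX ⟨h1, hcon⟩
    obtain ⟨τ, hτ1, hτ2, hτ3⟩ := h2
    exact ⟨τ, ⟨hτ1, fun p hp => (hτ2 p hp).1, hτ3⟩, fun p hp => (hτ2 p hp).2⟩
  · rintro N hN τ ⟨-, hτd, hτC⟩ hsb a
    simp only [Set.mem_iUnion, not_exists] at hN
    refine hneg a N (hN a) ?_
    intro R hR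
    obtain ⟨p, hpR, hpτ⟩ := hτC (R.image Prod.fst) ⟨a, R, hR, rfl⟩
    rw [Finset.mem_image] at hpR
    obtain ⟨x, hxR, rfl⟩ := hpR
    refine ⟨x, hxR, ?_⟩
    intro hs
    have hlen := hτd x.1 hpτ
    have hns := hsb x.1 hpτ
    obtain ⟨q, a'⟩ := x
    cases q with
    | nil =>
      simp at hlen
      omega
    | cons y q =>
      obtain ⟨a1, b1⟩ := y
      exact hns (e.sbpar N a1 b1 q a' hs)

end

end Pool.Agent.H679R2.WH
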