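import Pool.Agent.H679R2.WH.Defs

/-! Task B: two-sided approximators of monotone programs. -/

set_option autoImplicit false

namespace Pool.Agent.H679R2.WH

open Pool.Agent.H520R2

private theorem B_pr_nonneg {Ω : Type} [Fintype Ω] (A : Set Ω) : 0 ≤ pr A := by
  unfold pr; positivity

private theorem B_pr_empty {Ω : Type} [Fintype Ω] : pr (∅ : Set Ω) = 0 := by
  simp [pr]

private theorem B_pr_union {Ω : Type} [Fintype Ω] (A B : Set Ω) : pr (A ∪ B) ≤ pr A + pr B := by
  unfold pr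
  rw [← add_div]
  apply div_le_div_of_nonneg_right _ (by positivity)
  exact_mod_cast Set.ncard_union_le A B

theorem Approx.mono' {ΩP ΩN V : Type} {Pos : ΩP → Set V} {Neg : ΩN → Set V} {W K : ℕ}
    {EP EP' : Set ΩP} {EN EN' : Set ΩN} {f : Set V → Bool} {D C : Set (Finset V)}
    (h : Approx Pos Neg W K EP EN f D C) (hP : EP ⊆ EP') (hN : EN ⊆ EN') :
    Approx Pos Neg W K EP' EN' f D C := by
  obtain ⟨h1, h2, h3, h4, h5⟩ := h
  exact ⟨h1, h2, h3, fun ω hω => h4 ω (fun h => hω (hP h)),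
    fun ω hω => h5 ω (fun h => hω (hN h))⟩

theorem approx_base {ΩP ΩN V : Type} {Pos : ΩP → Set V}
    {Neg : ΩN → Set V} {W K : ℕ} (hW : 1 ≤ W) (hK : 1 ≤ K) (EP : Set ΩP) (EN : Set ΩN)
    {f : Set V → Bool} (hf : f ∈ B0 V) : ∃ D C, Approx Pos Neg W K EP EN f D C := by
  rcases hf with ⟨b, rfl⟩ | ⟨v, hv⟩
  · cases b with
    | true =>
      refine ⟨{∅}, ∅, ?_, ?_, ?_, ?_, ?_⟩
      · intro T hT; rw [Set.mem_singleton_iff] at hT; subst hT; simp
      · intro R hR; exact absurd hR (Set.notMem_empty _)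
      · intro T _ R hR; exact absurd hR (Set.notMem_empty _)
      · intro ω _ _; exact ⟨∅, rfl, by simp⟩
      · intro ω _ _; rfl
    | false =>
      refine ⟨∅, {∅}, ?_, ?_, ?_, ?_, ?_⟩
      · intro T hT; exact absurd hT (Set.notMem_empty _)
      · intro R hR; rw [Set.mem_singleton_iff] at hR; subst hR; simp
      · intro T hT; exact absurd hT (Set.notMem_empty _)
      · intro ω _ h; exact absurd h (by simp)
      · intro ω _ h
        obtain ⟨v, hv, _⟩ := h ∅ rfl
        exact absurd hv (Finset.notMem_empty v)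
  · refine ⟨{{v}}, {{v}}, ?_, ?_, ?_, ?_, ?_⟩
    · intro T hT; rw [Set.mem_singleton_iff] at hT; subst hT; simpa using hW
    · intro T hT; rw [Set.mem_singleton_iff] at hT; subst hT; simpa using hK
    · intro T hT R hR
      rw [Set.mem_singleton_iff] at hT hR; subst hT; subst hR
      exact ⟨v, by simp, by simp⟩
    · intro ω _ h
      exact ⟨{v}, rfl, by simpa using (hv _).1 h⟩
    · intro ω _ h
      obtain ⟨u, hu, hu2⟩ := h {v} rfl
      rw [Finset.mem_singleton] at hu; subst hu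
      exact (hv _).2 hu2

theorem approx_prog {ΩP ΩN V : Type} [Fintype ΩP] [Fintype ΩN] {Pos : ΩP → Set V}
    {Neg : ΩN → Set V} {W K : ℕ} {εN εP : ℝ} (hW : 1 ≤ W) (hK : 1 ≤ K)
    (hN : SwitchN Neg W K εN) (hP : SwitchP Pos W K εP) {L : List (Set V → Bool)}
    (hL : MProg (B0 V) L) :
    ∃ (EP : Set ΩP) (EN : Set ΩN), pr EP ≤ L.length * εP ∧ pr EN ≤ L.length * εN ∧
      ∀ f, Av (B0 V) L f → ∃ D C, Approx Pos Neg W K EP EN f D C := by
  have hεN : 0 ≤ εN := le_trans (B_pr_nonneg _) (hN ∅ (by simp))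
  have hεP : 0 ≤ εP := le_trans (B_pr_nonneg _) (hP ∅ (by simp))
  induction hL with
  | nil =>
    refine ⟨∅, ∅, by simp [B_pr_empty], by simp [B_pr_empty], ?_⟩
    intro f hf
    rcases hf with hf | hf
    · exact approx_base hW hK _ _ hf
    · exact absurd hf (by simp)
  | @and L f g hL' hf hg ih =>
    obtain ⟨EP, EN, hEP, hEN, hall⟩ := ih
    obtain ⟨Df, Cf, f1, f2, f3, f4, f5⟩ := hall f hf
    obtain ⟨Dg, Cg, g1, g2, g3, g4, g5⟩ := hall g hg
    have hC : ∀ R ∈ Cf ∪ Cg, R.card ≤ K := by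
      rintro R (hR | hR)
      · exact f2 R hR
      · exact g2 R hR
    have hx := hP (Cf ∪ Cg) hC
    refine ⟨EP ∪ {ω | (∀ R ∈ Cf ∪ Cg, ∃ v ∈ R, v ∈ Pos ω) ∧
      ¬ ∃ T : Finset V, T.card ≤ W ∧ (T : Set V) ⊆ Pos ω ∧ ∀ R ∈ Cf ∪ Cg, ∃ v ∈ R, v ∈ T},
      EN, ?_, ?_, ?_⟩
    · refine (B_pr_union _ _).trans ?_
      simp only [List.length_cons]
      push_cast
      nlinarith
    · simp only [List.length_cons]
      push_cast
      nlinarith
    · intro h hh
      have hcase : Av (B0 V) L h ∨ h = (fun x => f x && g x) := by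
        rcases hh with hh | hh
        · exact Or.inl (Or.inl hh)
        · rcases List.mem_cons.1 hh with hh | hh
          · exact Or.inr hh
          · exact Or.inl (Or.inr hh)
      rcases hcase with hh | rfl
      · obtain ⟨D, C, hDC⟩ := hall h hh
        exact ⟨D, C, hDC.mono' Set.subset_union_left subset_rfl⟩
      · refine ⟨{T | T.card ≤ W ∧ ∀ R ∈ Cf ∪ Cg, ∃ v ∈ R, v ∈ T}, Cf ∪ Cg, ?_, hC, ?_, ?_, ?_⟩
        · intro T hT; exact hT.1
        · intro T hT R hR; exact hT.2 R hR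
        · intro ω hω hfg
          rw [Bool.and_eq_true] at hfg
          obtain ⟨Tf, hTf, hTf2⟩ := f4 ω (fun h => hω (Or.inl h)) hfg.1
          obtain ⟨Tg, hTg, hTg2⟩ := g4 ω (fun h => hω (Or.inl h)) hfg.2
          have hhit : ∀ R ∈ Cf ∪ Cg, ∃ v ∈ R, v ∈ Pos ω := by
            rintro R (hR | hR)
            · obtain ⟨v, hv, hv2⟩ := f3 Tf hTf R hR
              exact ⟨v, hv, hTf2 hv2⟩
            · obtain ⟨v, hv, hv2⟩ := g3 Tg hTg R hR
              exact ⟨v, hv, hTg2 hv2⟩
          by_contra hno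
          apply hω
          right
          refine ⟨hhit, ?_⟩
          rintro ⟨T, hT1, hT2, hT3⟩
          exact hno ⟨T, ⟨hT1, hT3⟩, hT2⟩
        · intro ω hω hhit
          rw [Bool.and_eq_true]
          exact ⟨f5 ω hω (fun R hR => hhit R (Or.inl hR)),
            g5 ω hω (fun R hR => hhit R (Or.inr hR))⟩
  | @or L f g hL' hf hg ih =>
    obtain ⟨EP, EN, hEP, hEN, hall⟩ := ih
    obtain ⟨Df, Cf, f1, f2, f3, f4, f5⟩ := hall f hf
    obtain ⟨Dg, Cg, g1, g2, g3, g4, g5⟩ := hall g hg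
    have hD : ∀ T ∈ Df ∪ Dg, T.card ≤ W := by
      rintro T (hT | hT)
      · exact f1 T hT
      · exact g1 T hT
    have hx := hN (Df ∪ Dg) hD
    refine ⟨EP, EN ∪ {ω | (∀ T ∈ Df ∪ Dg, ¬ ((T : Set V) ⊆ Neg ω)) ∧
      ∀ R : Finset V, R.card ≤ K → (∀ T ∈ Df ∪ Dg, ∃ v ∈ R, v ∈ T) → ∃ v ∈ R, v ∈ Neg ω},
      ?_, ?_, ?_⟩
    · simp only [List.length_cons]
      push_cast
      nlinarith
    · refine (B_pr_union _ _).trans ?_
      simp only [List.length_cons]
      push_cast
      nlinarith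
    · intro h hh
      have hcase : Av (B0 V) L h ∨ h = (fun x => f x || g x) := by
        rcases hh with hh | hh
        · exact Or.inl (Or.inl hh)
        · rcases List.mem_cons.1 hh with hh | hh
          · exact Or.inr hh
          · exact Or.inl (Or.inr hh)
      rcases hcase with hh | rfl
      · obtain ⟨D, C, hDC⟩ := hall h hh
        exact ⟨D, C, hDC.mono' subset_rfl Set.subset_union_left⟩
      · refine ⟨Df ∪ Dg, {R | R.card ≤ K ∧ ∀ T ∈ Df ∪ Dg, ∃ v ∈ R, v ∈ T}, hD, ?_, ?_, ?_, ?_⟩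
        · intro R hR; exact hR.1
        · intro T hT R hR; exact hR.2 T hT
        · intro ω hω hfg
          rw [Bool.or_eq_true] at hfg
          rcases hfg with hfg | hfg
          · obtain ⟨T, hT, hT2⟩ := f4 ω hω hfg
            exact ⟨T, Or.inl hT, hT2⟩
          · obtain ⟨T, hT, hT2⟩ := g4 ω hω hfg
            exact ⟨T, Or.inr hT, hT2⟩
        · intro ω hω hhit
          rw [Bool.or_eq_true]
          by_cases hT : ∃ T ∈ Df ∪ Dg, (T : Set V) ⊆ Neg ω
          · obtain ⟨T, hT1, hT2⟩ := hT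
            rcases hT1 with hT1 | hT1
            · left
              refine f5 ω (fun h => hω (Or.inl h)) (fun R hR => ?_)
              obtain ⟨v, hv, hv2⟩ := f3 T hT1 R hR
              exact ⟨v, hv, hT2 hv2⟩
            · right
              refine g5 ω (fun h => hω (Or.inl h)) (fun R hR => ?_)
              obtain ⟨v, hv, hv2⟩ := g3 T hT1 R hR
              exact ⟨v, hv, hT2 hv2⟩
          · exfalso
            apply hω
            right
            refine ⟨fun T hT1 hT2 => hT ⟨T, hT1, hT2⟩, ?_⟩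
            intro R hR hR2
            exact hhit R ⟨hR, hR2⟩

end Pool.Agent.H679R2.WH
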