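import Pool.Agent.H679R2.WH.BTO1

/-! Block theorem, odd source levels. -/

set_option autoImplicit false

namespace Pool.Agent.H679R2.WH

open Pool.Agent.H520R2

open G3 in
theorem BT_E {n k n1 d0 s : ℕ} (hn : 0 < n) (hs : 1 ≤ s) (hn1 : 0 < n1)
    (hk : 0 < k) (hkd : k ≤ d0) {W K S : ℕ} {εN εP : ℝ} (hW : 1 ≤ W) (hK : 1 ≤ K)
    (hSN : SwitchN (NegE : OmNE n k n1 d0 s → Set (Node n × Row k n1)) W K εN)
    (hSP : SwitchP (PosE : OmPE n k n1 s → Set (Node n × Row k n1)) W K εP)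
    (hεN : 0 ≤ εN) (hεP : 0 ≤ εP) (hεP2 : S * εP ≤ 1 / 2)
    {L : List (Set (Node n × Row k n1) → Bool)} (hL : MProg (B0 _) L) (hlen : L.length ≤ S)
    {A G : ℕ} (hA : 1 ≤ A) {Z : Type} [Fintype Z]
    (leaf : Z → List (Fin A × Fin A) → Fin A → Fin G → Set (Node n × Row k n1) → Bool)
    (hleaf : ∀ z l a j, Av (B0 _) L (leaf z l a j))
    (hpos : ∀ ω : OmPE n k n1 s, ∃ z, AE A (s - 1)
      (fun l => ∀ a, ∃ j, leaf z l a j (PosE ω) = true))
    (κ w c0 : ℕ) (hκ : G * K ≤ κ) (hc0 : 2 * (Fintype.card Z : ℝ) < (Real.sqrt n) ^ (c0 + 1))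
    (hw : c0 ≤ w)
    (hsmall : (A : ℝ) ^ (2 * s) * s * ((κ : ℝ) / Real.sqrt n) ^ (w - c0) < 1)
    (hκn : (κ : ℝ) / Real.sqrt n ≤ 1) :
    pr {ω : OmNE n k n1 d0 s | ¬ ∃ z, AE A (s - 1)
      (fun l => ∀ a, ∃ j, leaf z l a j (NegE ω) = true)} ≤
      (A : ℝ) ^ (2 * s) * (S * εN + s * ((w : ℝ) / n) ^ (κ + 1)) + w * k * k / d0 := by
  classical
  obtain ⟨r, rfl⟩ : ∃ r, s = r + 1 := ⟨s - 1, by omega⟩
  change ∀ ω : OmPE n k n1 (r + 1), ∃ z, AE A r
      (fun l => ∀ a, ∃ j, leaf z l a j (PosE ω) = true) at hpos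
  change pr {ω : OmNE n k n1 d0 (r + 1) | ¬ ∃ z, AE A r
      (fun l => ∀ a, ∃ j, leaf z l a j (NegE ω) = true)} ≤ _
  obtain ⟨EP, EN, hEP, hEN, happ⟩ := approx_prog hW hK hSN hSP hL
  choose D C hDC using fun z l a j => happ _ (hleaf z l a j)
  have hlenS : (L.length : ℝ) ≤ S := by exact_mod_cast hlen
  have hEP' : pr EP ≤ 1 / 2 :=
    (hEP.trans (mul_le_mul_of_nonneg_right hlenS hεP)).trans hεP2
  have hEN' : pr EN ≤ S * εN := hEN.trans (mul_le_mul_of_nonneg_right hlenS hεN)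
  have hd0 : 0 < d0 := lt_of_lt_of_le hk hkd
  have : Nonempty (Fin n) := ⟨⟨0, hn⟩⟩
  have : Nonempty (Fin k) := ⟨⟨0, hk⟩⟩
  have : Nonempty (Fin n1) := ⟨⟨0, hn1⟩⟩
  have : Nonempty (Fin d0) := ⟨⟨0, hd0⟩⟩
  -- pigeonhole
  obtain ⟨hZ, z, hz⟩ := pigeon EP hEP'
    (fun z => {ω : OmPE n k n1 (r + 1) | ω ∉ EP ∧
      AE A r (fun l => ∀ a, ∃ j, leaf z l a j (PosE ω) = true)})
    (fun ω hω => by
      obtain ⟨z, hz⟩ := hpos ω
      exact ⟨z, hω, hz⟩)
  set M : ℝ := 2 * (Fintype.card Z : ℝ) with hMdef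
  have hMpos : 0 < M := by positivity
  have hz' : 1 / M ≤ pr {ω : OmPE n k n1 (r + 1) | ω ∉ EP ∧
      AE A r (fun l => ∀ a, ∃ j, leaf z l a j (PosE ω) = true)} := by
    rw [div_le_iff₀ hMpos]; linarith
  obtain ⟨y, hl⟩ := pr_fubini_exists _ _ hz'
  set F0 : Set (NodeLT n (r + 1) × Fin n → Fin n) :=
    {β | (y, β) ∉ EP ∧ AE A r (fun l' => ∀ a, ∃ j, leaf z l' a j (PosE (y, β)) = true)}
    with hF0
  have hF0M : 1 ≤ M * pr F0 := by
    have h1 : 1 / M ≤ pr F0 := hl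
    rw [div_le_iff₀ hMpos] at h1; linarith
  have hnR : (0 : ℝ) < n := by exact_mod_cast hn
  have hsq : 0 < Real.sqrt n := Real.sqrt_pos.2 hnR
  have hsq1 : 1 ≤ Real.sqrt n := by
    rw [Real.one_le_sqrt]; exact_mod_cast hn
  set θ : ℝ := 1 / Real.sqrt n with hθdef
  have hθ : 0 < θ := by positivity
  have hθn : θ ^ 2 = 1 / n := by
    rw [hθdef, div_pow, one_pow, Real.sq_sqrt hnR.le]
  obtain ⟨τ0, hτne, hτM, hFne, hspread⟩ := spread_exists hn θ hθ hθn F0 M hF0M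
  have hτc : τ0.card ≤ c0 := by
    by_contra hcon
    push Not at hcon
    have h1 : (Real.sqrt n) ^ (c0 + 1) ≤ (Real.sqrt n) ^ τ0.card :=
      pow_le_pow_right₀ hsq1 hcon
    have h2 : (1 / θ) = Real.sqrt n := by rw [hθdef, one_div_one_div]
    rw [h2] at hτM
    linarith
  -- the environment
  let e : Env n (NodeLT n (r + 1) × Fin n → Fin n) (OmNE n k n1 d0 (r + 1)) :=
    { inP := fun β p => InP β p
      sb := fun N h => SB (fun a => ∃ i, (N.1 (a, (i, y i))).val < k) N.2.1 h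
      F := {β ∈ F0 | ∀ p ∈ τ0, InP β p}
      τ0 := τ0
      θ := θ
      hn := hn
      hθ := hθ.le
      hF := hFne
      hτ0 := fun β hβ => hβ.2
      spread := hspread
      par := fun β a b q h => InP_tail β (a, b) q h
      sbpar := fun N a b q a' h => SB_par _ _ a b q a' h
      sbpr := fun Z' hZ' => pr_SB hn
        (fun (u : Fin n × Row k n1 → Fin d0) a => ∃ i, (u (a, (i, y i))).val < k) Z' hZ' }
  have hew : e.τ0.card ≤ w := hτc.trans hw
  set X : ℝ := (κ * e.θ) ^ (w - e.τ0.card) with hX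
  have hX0 : 0 ≤ X := pow_nonneg (mul_nonneg (Nat.cast_nonneg _) hθ.le) _
  have hX1 : X ≤ ((κ : ℝ) / Real.sqrt n) ^ (w - c0) := by
    have h1 : κ * e.θ = (κ : ℝ) / Real.sqrt n := by
      change (κ : ℝ) * (1 / Real.sqrt n) = _
      ring
    rw [hX, h1]
    apply pow_le_pow_of_le_one (by positivity) hκn
    have : e.τ0.card ≤ c0 := hτc
    omega
  -- the base of the second phase
  have base : ∀ d, d = r + 1 → ∀ l' : List (Fin A × Fin A), HasT e d w X (S * εN)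
      (fun β => ∀ a, ∃ j, leaf z l' a j (PosE (y, β)) = true)
      (fun N => ∀ a, ∃ j, leaf z l' a j (NegE N) = true) := by
    rintro d rfl l'
    let bar : Finset (Node n × Row k n1) → Finset (Node n) := fun R =>
      (R.filter (fun x => x.1.length = r + 1 ∧ y x.2.1 = x.2.2)).image Prod.fst
    let Cb : Set (Finset (Node n)) := {Rb | ∃ (a : Fin A)
      (Rj : Fin G → Finset (Node n × Row k n1)), (∀ j, Rj j ∈ C z l' a j) ∧
        Rb = bar (Finset.univ.biUnion Rj)}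
    have hCb : ∀ R ∈ Cb, R.card ≤ κ ∧ ∀ p ∈ R, p.length = r + 1 := by
      rintro Rb ⟨a, Rj, hRj, rfl⟩
      refine ⟨(Finset.card_image_le.trans (Finset.card_filter_le _ _)).trans ?_, ?_⟩
      · have := Finset.card_biUnion_le_card_mul (Finset.univ : Finset (Fin G)) Rj K
          (fun j _ => (hDC z l' a j).2.1 _ (hRj j))
        have h2 : (Finset.univ.biUnion Rj).card ≤ G * K := by simpa using this
        exact h2.trans hκ
      · intro p hp
        obtain ⟨x, hx, rfl⟩ := Finset.mem_image.1 hp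
        exact (Finset.mem_filter.1 hx).2.1
    refine ⟨{τ | τ.card ≤ w ∧ (∀ p ∈ τ, p.length = r + 1) ∧ ∀ R ∈ Cb, ∃ p ∈ R, p ∈ τ},
      {β | (∀ R ∈ Cb, ∃ p ∈ R, e.inP β p) ∧ ¬ ∃ τ : Finset (Node n), τ.card ≤ w ∧
        (∀ p ∈ τ, p.length = r + 1 ∧ e.inP β p) ∧ ∀ R ∈ Cb, ∃ p ∈ R, p ∈ τ},
      EN, and_gen e (r + 1) κ w (by omega) hew Cb hCb, hEN', ?_, ?_, ?_⟩
    · rintro τ ⟨h1, h2, -⟩
      exact ⟨h1, h2⟩
    · intro β hβ hβE hG
      have hβEP : (y, β) ∉ EP := hβ.1.1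
      by_contra hcon
      apply hβE
      refine ⟨?_, ?_⟩
      · rintro Rb ⟨a, Rj, hRj, rfl⟩
        obtain ⟨j, hj⟩ := hG a
        obtain ⟨T', hT', hT'2⟩ := (hDC z l' a j).2.2.2.1 _ hβEP hj
        obtain ⟨v, hvR, hvT⟩ := (hDC z l' a j).2.2.1 T' hT' (Rj j) (hRj j)
        obtain ⟨h, hin, hval⟩ := hT'2 hvT
        refine ⟨v.1, Finset.mem_image.2 ⟨v, Finset.mem_filter.2
          ⟨Finset.mem_biUnion.2 ⟨j, Finset.mem_univ _, hvR⟩, h, hval⟩, rfl⟩, hin⟩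
      · rintro ⟨τ, h1, h2, h3⟩
        exact hcon ⟨τ, ⟨h1, fun p hp => (h2 p hp).1, h3⟩, fun p hp => (h2 p hp).2⟩
    · rintro N hN τ ⟨h1, h2, h3⟩ hsb
      by_contra hcon
      push Not at hcon
      obtain ⟨a, ha⟩ := hcon
      have hRj : ∀ j, ∃ R ∈ C z l' a j, ∀ v ∈ R, v ∉ NegE N := by
        intro j
        by_contra hno
        push Not at hno
        exact ha j ((hDC z l' a j).2.2.2.2 N hN hno)
      choose Rj hRj hRj2 using hRj
      obtain ⟨p, hp1, hp2⟩ := h3 (bar (Finset.univ.biUnion Rj)) ⟨a, Rj, hRj, rfl⟩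
      obtain ⟨v, hv, rfl⟩ := Finset.mem_image.1 hp1
      obtain ⟨hvR, h, hval⟩ := Finset.mem_filter.1 hv
      obtain ⟨j, -, hvj⟩ := Finset.mem_biUnion.1 hvR
      have hvN := hRj2 j v hvj
      have hvN' : ∃ (h : v.1.length = r + 1) (a : Fin n), ftop v.1 = some a ∧ Fol N.2.1 v.1 ∧
          (N.1 (a, v.2)).val = (N.2.2 ⟨v.1, h⟩).val := by
        by_contra hno
        exact hvN hno
      obtain ⟨_, a0, htop0, hFol, hval2⟩ := hvN'
      apply hsb _ hp2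
      obtain ⟨p, i, x2⟩ := v
      cases p with
      | nil => simp at h
      | cons x q =>
        obtain ⟨a'', b''⟩ := x
        have h6 : htop (q, a'') = a0 := Option.some_injective _ htop0
        simp only at hval
        subst hval
        refine ⟨⟨i, ?_⟩, hFol.1, hFol.2⟩
        show (N.1 (htop (q, a''), (i, y i))).val < k
        rw [h6]
        simp only at hval2
        rw [hval2]
        exact (N.2.2 _).isLt
  -- the recursion
  have hBT := AE_stage e κ w A hA hew hX0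
    (mul_nonneg (Nat.cast_nonneg _) hεN)
    r 1 le_rfl
    (fun l' β => ∀ a, ∃ j, leaf z l' a j (PosE (y, β)) = true)
    (fun l' N => ∀ a, ∃ j, leaf z l' a j (NegE N) = true)
    (fun l' _ => base (1 + r) (Nat.add_comm 1 r) l')
  obtain ⟨T, EP2, EN2, hP2, hN2, hT2, hpos2, hneg2⟩ := hBT
  have hA1 : (1 : ℝ) ≤ A := by exact_mod_cast hA
  have hlt : prOn e.F EP2 < 1 := by
    refine hP2.trans_lt (lt_of_le_of_lt ?_ hsmall)
    have h1 : X + (r : ℝ) * X = ((r + 1 : ℕ) : ℝ) * X := by push_cast; ring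
    rw [← hX, h1]
    have h2 : (A : ℝ) ^ (2 * r) ≤ (A : ℝ) ^ (2 * (r + 1)) :=
      pow_le_pow_right₀ hA1 (by omega)
    calc (A : ℝ) ^ (2 * r) * (((r + 1 : ℕ) : ℝ) * X)
        ≤ (A : ℝ) ^ (2 * (r + 1)) * (((r + 1 : ℕ) : ℝ) * ((κ : ℝ) / Real.sqrt n) ^ (w - c0)) := by
          gcongr
      _ = _ := by ring
  obtain ⟨β, hβF, hβE⟩ : ∃ β ∈ e.F, β ∉ EP2 := by
    by_contra hcon
    push Not at hcon
    have h1 : EP2 ∩ e.F = e.F := Set.inter_eq_right.2 hcon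
    have h2 : prOn e.F EP2 = 1 := by
      unfold prOn
      rw [h1]
      apply div_self
      have h3 : 0 < (e.F).ncard := (Set.ncard_pos (Set.toFinite _)).2 e.hF
      have : (0 : ℝ) < ((e.F).ncard : ℝ) := by exact_mod_cast h3
      exact this.ne'
    linarith
  obtain ⟨τ, hτT, hτin⟩ := hpos2 β hβF hβE hβF.1.2
  obtain ⟨hτw, hτ1⟩ := hT2 τ hτT
  -- the semi-bad event for the final certificate
  have hone : ∀ p ∈ τ, pr {N : OmNE n k n1 d0 (r + 1) | e.sb N (half e.hn p)} ≤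
      k * (k * (1 / d0)) := by
    intro p hp
    obtain ⟨⟨a, b⟩, rfl⟩ := List.length_eq_one_iff.1 (hτ1 p hp)
    have hsub : {N : OmNE n k n1 d0 (r + 1) | e.sb N (half e.hn [(a, b)])} ⊆
        ⋃ i : Fin k, ⋃ c : Fin k, {N : OmNE n k n1 d0 (r + 1) |
          N.1 ∈ {f : Fin n × Row k n1 → Fin d0 | ∀ z ∈ ({((a, (i, y i)), Fin.castLE hkd c)} :
            Finset ((Fin n × Row k n1) × Fin d0)), f z.1 = z.2} ∧ N.2 ∈ Set.univ} := by
      rintro N ⟨⟨i, hi⟩, -⟩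
      refine Set.mem_iUnion.2 ⟨i, Set.mem_iUnion.2 ⟨⟨_, hi⟩, ?_, trivial⟩⟩
      intro x hx
      rw [Finset.mem_singleton] at hx
      subst hx
      exact Fin.ext rfl
    refine (msr_pr.mono _ _ hsub).trans ((msr_iUnion msr_pr _).trans ?_)
    have h1 : ∀ i c : Fin k, pr {N : OmNE n k n1 d0 (r + 1) |
          N.1 ∈ {f : Fin n × Row k n1 → Fin d0 | ∀ z ∈ ({((a, (i, y i)), Fin.castLE hkd c)} :
            Finset ((Fin n × Row k n1) × Fin d0)), f z.1 = z.2} ∧ N.2 ∈ Set.univ} ≤ 1 / d0 := by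
      intro i c
      rw [pr_prod]
      have h2 := cyl ({((a, (i, y i)), Fin.castLE hkd c)} :
            Finset ((Fin n × Row k n1) × Fin d0))
      rw [Finset.card_singleton, pow_one, Fintype.card_fin] at h2
      have h3 := pr_le_one (Set.univ : Set ((NodeLT n (r + 1) → Fin n) ×
        (NodeEQ n (r + 1) → Fin k)))
      calc _ ≤ pr {f : Fin n × Row k n1 → Fin d0 | ∀ z ∈ ({((a, (i, y i)), Fin.castLE hkd c)} :
            Finset ((Fin n × Row k n1) × Fin d0)), f z.1 = z.2} * 1 :=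
            mul_le_mul_of_nonneg_left h3 (msr_pr.nonneg _)
        _ ≤ 1 / d0 := by rw [mul_one]; exact h2
    calc _ ≤ ∑ _i : Fin k, ((k : ℝ) * (1 / (d0 : ℝ))) := by
          refine Finset.sum_le_sum (fun i _ => ?_)
          refine (msr_iUnion msr_pr _).trans ?_
          calc _ ≤ ∑ _c : Fin k, (1 / (d0 : ℝ)) := Finset.sum_le_sum (fun c _ => h1 i c)
            _ = k * (1 / d0) := by simp
      _ = k * (k * (1 / d0)) := by simp
  have hfin : pr {ω : OmNE n k n1 d0 (r + 1) |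
      ¬ ∃ z, AE A r (fun l => ∀ a, ∃ j, leaf z l a j (NegE ω) = true)} ≤
      (A : ℝ) ^ (2 * r) * (S * εN + r * ((w : ℝ) / n) ^ (κ + 1)) + w * k * k / d0 := by
    have hsub : {ω : OmNE n k n1 d0 (r + 1) |
        ¬ ∃ z, AE A r (fun l => ∀ a, ∃ j, leaf z l a j (NegE ω) = true)} ⊆
        EN2 ∪ ⋃ p ∈ τ, {N : OmNE n k n1 d0 (r + 1) | e.sb N (half e.hn p)} := by
      intro N hN
      by_contra hcon
      rw [Set.mem_union, not_or] at hcon
      obtain ⟨hc1, hc2⟩ := hcon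
      apply hN
      refine ⟨z, hneg2 N hc1 τ hτT ?_⟩
      intro p hp hsb
      exact hc2 (Set.mem_iUnion₂.2 ⟨p, hp, hsb⟩)
    refine (msr_pr.mono _ _ hsub).trans ((msr_pr.union _ _).trans (add_le_add hN2 ?_))
    refine (msr_finset msr_pr _ _).trans ?_
    calc _ ≤ ∑ _p ∈ τ, ((k : ℝ) * (k * (1 / d0))) := Finset.sum_le_sum hone
      _ = τ.card * ((k : ℝ) * (k * (1 / d0))) := by simp
      _ ≤ w * ((k : ℝ) * (k * (1 / d0))) := by
        apply mul_le_mul_of_nonneg_right _ (by positivity)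
        exact_mod_cast hτw
      _ = w * k * k / d0 := by ring
  refine hfin.trans (add_le_add_left ?_ _)
  have hA0 : (0 : ℝ) ≤ A := by linarith
  have hY : (0 : ℝ) ≤ ((w : ℝ) / n) ^ (κ + 1) := by positivity
  have hS : (0 : ℝ) ≤ S * εN := mul_nonneg (Nat.cast_nonneg _) hεN
  refine mul_le_mul (pow_le_pow_right₀ hA1 (by omega)) ?_ (by positivity) (by positivity)
  have : (r : ℝ) * ((w : ℝ) / n) ^ (κ + 1) ≤ ((r + 1 : ℕ) : ℝ) * ((w : ℝ) / n) ^ (κ + 1) := by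
    apply mul_le_mul_of_nonneg_right _ hY
    push_cast; linarith
  linarith

end Pool.Agent.H679R2.WH
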