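import Pool.Agent.H679R2.WH.ProbA
import Pool.Agent.H679R2.WH.Approx

/-!
# Block theorem, two levels
-/

set_option autoImplicit false

namespace Pool.Agent.H679R2.WH

open Pool.Agent.H520R2

private theorem g2_union {Ω X : Type} {m : Set Ω → ℝ} (hm : Msr m) (T : Finset X)
    (E : X → Set Ω) (c : ℝ) (h : ∀ x ∈ T, m (E x) ≤ c) :
    m {ω | ∃ x ∈ T, ω ∈ E x} ≤ T.card * c := by
  classical
  induction T using Finset.induction_on with
  | empty =>
    have : {ω : Ω | ∃ x ∈ (∅ : Finset X), ω ∈ E x} = ∅ := by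
      ext ω; simp
    rw [this, hm.empty]
    simp
  | insert a T ha ih =>
    have h1 : {ω : Ω | ∃ x ∈ insert a T, ω ∈ E x} ⊆ E a ∪ {ω | ∃ x ∈ T, ω ∈ E x} := by
      rintro ω ⟨x, hx, hω⟩
      rcases Finset.mem_insert.mp hx with rfl | hx
      · exact Or.inl hω
      · exact Or.inr ⟨x, hx, hω⟩
    refine (hm.mono _ _ h1).trans ((hm.union _ _).trans ?_)
    rw [Finset.card_insert_of_notMem ha]
    have h2 := h a (Finset.mem_insert_self a T)
    have h3 := ih (fun x hx => h x (Finset.mem_insert_of_mem hx))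
    push_cast
    linarith

private theorem g2_cyl {n k n1 d0 : ℕ} (hd0 : 0 < d0) (x : Node n × Fin n × Row k n1)
    (h : x.1.length = 0) :
    pr {N : OmNO n k n1 d0 0 | x ∉ NegO N} ≤ 1 / (d0 : ℝ) := by
  classical
  haveI : Nonempty (Fin d0) := ⟨⟨0, hd0⟩⟩
  have h1d : (0 : ℝ) ≤ 1 / (d0 : ℝ) := by positivity
  refine pr_fubini _ _ h1d (fun M => ?_)
  refine pr_fubini _ _ h1d (fun as => ?_)
  have h2 := cyl (ι := NodeEQ n 0 × Fin n × Row k n1) (κ := Fin d0)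
    {((⟨x.1, h⟩, x.2.1, x.2.2), ⟨0, hd0⟩)}
  have hle : ({y | as ∈ {y_1 | (M, y_1, y) ∈ {N : OmNO n k n1 d0 0 | x ∉ NegO N}}} : Set _) ⊆
      {f : NodeEQ n 0 × Fin n × Row k n1 → Fin d0 | ∀ z ∈ ({((⟨x.1, h⟩, x.2.1, x.2.2), ⟨0, hd0⟩)} :
        Finset ((NodeEQ n 0 × Fin n × Row k n1) × Fin d0)), f z.1 = z.2} := by
    intro y hy z hz
    rw [Finset.mem_singleton] at hz
    subst hz
    simp only [Set.mem_setOf_eq, NegO, not_not] at hy
    obtain ⟨h', _, _, h5⟩ := hy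
    exact Fin.ext h5
  refine (msr_pr.mono _ _ hle).trans (h2.trans ?_)
  simp

theorem BT_O0 {n k n1 d0 : ℕ} (hn : 0 < n) (hn1 : 0 < n1) (hk : 0 < k) (hd0 : 0 < d0)
    {W K S : ℕ} {εN εP : ℝ} (hW : 1 ≤ W) (hK : 1 ≤ K)
    (hSN : SwitchN (NegO : OmNO n k n1 d0 0 → Set (Node n × Fin n × Row k n1)) W K εN)
    (hSP : SwitchP (PosO : OmPO n k n1 0 → Set (Node n × Fin n × Row k n1)) W K εP)
    (hεN : 0 ≤ εN) (hεP : 0 ≤ εP) (hεP2 : S * εP ≤ 1 / 2)
    {L : List (Set (Node n × Fin n × Row k n1) → Bool)} (hL : MProg (B0 _) L)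
    (hlen : L.length ≤ S) {G : ℕ} {Z : Type}
    (leaf : Z → Fin G → Set (Node n × Fin n × Row k n1) → Bool)
    (hleaf : ∀ z j, Av (B0 _) L (leaf z j))
    (hpos : ∀ ω : OmPO n k n1 0, ∃ z, ∀ j, leaf z j (PosO ω) = true) :
    pr {ω : OmNO n k n1 d0 0 | ¬ ∃ z, ∀ j, leaf z j (NegO ω) = true} ≤
      S * εN + G * W / d0 := by
  classical
  obtain ⟨EP, EN, hEP, hEN, happ⟩ := approx_prog hW hK hSN hSP hL
  haveI : Nonempty (Fin n) := ⟨⟨0, hn⟩⟩
  haveI : Nonempty (Fin n1) := ⟨⟨0, hn1⟩⟩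
  haveI : Nonempty (Fin k) := ⟨⟨0, hk⟩⟩
  haveI : Nonempty (OmPO n k n1 0) := inferInstance
  have hlen' : (L.length : ℝ) ≤ S := by exact_mod_cast hlen
  -- a positive test outside the exceptional set
  have hex : ∃ ω : OmPO n k n1 0, ω ∉ EP := by
    by_contra hcon
    push Not at hcon
    have h1 : EP = Set.univ := Set.eq_univ_of_forall hcon
    have h2 := pr_univ (Ω := OmPO n k n1 0)
    rw [h1, h2] at hEP
    have h3 : (L.length : ℝ) * εP ≤ S * εP := mul_le_mul_of_nonneg_right hlen' hεP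
    linarith
  obtain ⟨ω, hω⟩ := hex
  obtain ⟨z, hz⟩ := hpos ω
  choose D C hDC using fun j => happ (leaf z j) (hleaf z j)
  have hT : ∀ j, ∃ T ∈ D j, (T : Set (Node n × Fin n × Row k n1)) ⊆ PosO ω := fun j =>
    (hDC j).2.2.2.1 ω hω (hz j)
  choose T hTD hTP using hT
  let U : Finset (Node n × Fin n × Row k n1) := Finset.univ.biUnion T
  have hUcard : U.card ≤ G * W := by
    refine (Finset.card_biUnion_le).trans ?_
    refine (Finset.sum_le_card_nsmul _ _ W (fun j _ => (hDC j).1 _ (hTD j))).trans ?_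
    simp
  have hUlen : ∀ x ∈ U, x.1.length = 0 := by
    intro x hx
    obtain ⟨j, _, hj⟩ := Finset.mem_biUnion.mp hx
    exact (hTP j hj).choose
  have hsub : {N : OmNO n k n1 d0 0 | ¬ ∃ z, ∀ j, leaf z j (NegO N) = true} ⊆
      EN ∪ {N | ∃ x ∈ U, N ∈ {N : OmNO n k n1 d0 0 | x ∉ NegO N}} := by
    intro N hN
    by_contra hcon
    rw [Set.mem_union, not_or] at hcon
    obtain ⟨h1, h2⟩ := hcon
    simp only [Set.mem_setOf_eq, not_exists, not_and, not_not] at h2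
    refine hN ⟨z, fun j => ?_⟩
    refine (hDC j).2.2.2.2 N h1 (fun R hR => ?_)
    obtain ⟨v, hvR, hvT⟩ := (hDC j).2.2.1 (T j) (hTD j) R hR
    exact ⟨v, hvR, h2 v (Finset.mem_biUnion.mpr ⟨j, Finset.mem_univ j, hvT⟩)⟩
  refine (msr_pr.mono _ _ hsub).trans ((msr_pr.union _ _).trans ?_)
  have h1d : (0 : ℝ) ≤ 1 / (d0 : ℝ) := by positivity
  have h4 := g2_union msr_pr U (fun x => {N : OmNO n k n1 d0 0 | x ∉ NegO N}) (1 / (d0 : ℝ))
    (fun x hx => g2_cyl hd0 x (hUlen x hx))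
  have h5 : (U.card : ℝ) * (1 / (d0 : ℝ)) ≤ G * W / d0 := by
    have : (U.card : ℝ) ≤ G * W := by exact_mod_cast hUcard
    calc (U.card : ℝ) * (1 / (d0 : ℝ)) ≤ (G * W) * (1 / (d0 : ℝ)) :=
          mul_le_mul_of_nonneg_right this h1d
      _ = _ := by ring
  have h6 : (L.length : ℝ) * εN ≤ S * εN := mul_le_mul_of_nonneg_right hlen' hεN
  linarith

end Pool.Agent.H679R2.WH
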