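import Pool.Agent.H679R2.WH.Defs
import Pool.Agent.H679R2.WH.ProbA

/-! # Nodes (task C1) -/

set_option autoImplicit false

namespace Pool.Agent.H679R2.WH

open Pool.Agent.H520R2 Pool.Agent.H679R2.WH

theorem InP_tail {n s : ℕ} (β : NodeLT n s × Fin n → Fin n) (x : Fin n × Fin n) (q : Node n) :
    InP β (x :: q) → InP β q := by
  obtain ⟨a, b⟩ := x
  exact fun h => h.1

theorem pr_inP {n s : ℕ} (hn : 0 < n) (τ : Finset (Node n)) (h : ∀ p ∈ τ, p ≠ []) :
    pr {β : NodeLT n s × Fin n → Fin n | ∀ p ∈ τ, InP β p} ≤ (1 / (n : ℝ)) ^ τ.card := by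
  classical
  by_cases hall : ∀ p ∈ τ, ∃ z : (NodeLT n s × Fin n) × Fin n, (z.1.2, z.2) :: z.1.1.1 = p
  · let g : (NodeLT n s × Fin n) × Fin n → Node n := fun z => (z.1.2, z.2) :: z.1.1.1
    have hg : Function.Injective g := by
      rintro ⟨⟨q, a⟩, b⟩ ⟨⟨q', a'⟩, b'⟩ h
      simp only [g, List.cons.injEq, Prod.mk.injEq] at h
      obtain ⟨⟨rfl, rfl⟩, h2⟩ := h
      have : q = q' := Subtype.ext h2
      subst this
      rfl
    let Z : Finset ((NodeLT n s × Fin n) × Fin n) := Finset.univ.filter (fun z => g z ∈ τ)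
    have hZ : Z.card = τ.card := by
      rw [← Finset.card_image_of_injective Z hg]
      congr 1
      ext p
      simp only [Finset.mem_image, Z, Finset.mem_filter, Finset.mem_univ, true_and]
      constructor
      · rintro ⟨z, hz, rfl⟩
        exact hz
      · intro hp
        obtain ⟨z, hz⟩ := hall p hp
        exact ⟨z, by rw [show g z = p from hz]; exact hp, hz⟩
    have : Nonempty (Fin n) := ⟨⟨0, hn⟩⟩
    have hc := cyl Z
    rw [Fintype.card_fin, hZ] at hc
    refine le_trans (msr_pr.mono _ _ ?_) hc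
    intro β hβ z hz
    have hz' : g z ∈ τ := (Finset.mem_filter.1 hz).2
    have h1 := hβ (g z) hz'
    obtain ⟨_, hl, h2⟩ := h1
    exact h2
  · push Not at hall
    obtain ⟨p, hp, hp2⟩ := hall
    have he : {β : NodeLT n s × Fin n → Fin n | ∀ p ∈ τ, InP β p} = ∅ := by
      rw [Set.eq_empty_iff_forall_notMem]
      intro β hβ
      have h1 := hβ p hp
      rcases p with _ | ⟨⟨a, b⟩, q⟩
      · exact h _ hp rfl
      · obtain ⟨_, hl, h2⟩ := h1
        exact hp2 ((⟨q, hl⟩, a), b) rfl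
    rw [he, msr_pr.empty]
    positivity

theorem SB_par {n s : ℕ} (K : Fin n → Prop) (as : NodeLT n s → Fin n) (a b : Fin n)
    (q : Node n) (a' : Fin n) : SB K as ((a, b) :: q, a') → SB K as (q, a) := by
  rintro ⟨h1, h2, -⟩
  refine ⟨?_, h2.1, h2.2⟩
  rcases q with _ | ⟨x, q⟩
  · simpa [htop] using h1
  · have e1 : htop ((a, b) :: x :: q, a') = htop (x :: q, a) := by
      have hne : (x :: q).getLast? ≠ none := by simp
      obtain ⟨y, hy⟩ := Option.ne_none_iff_exists'.1 hne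
      have hy2 : ((a, b) :: x :: q).getLast? = some y := by
        rw [List.getLast?_cons_cons, hy]
      simp only [htop, hy, hy2]
      rfl
    rw [← e1]
    exact h1

/-- semi-bad half nodes: the cylinder on the middle coordinate -/
theorem pr_SB_aux {n s : ℕ} (hn : 0 < n) (Z : Finset (HNode n)) :
    pr {as : NodeLT n s → Fin n | ∀ x ∈ Z, ∃ hl : x.1.length < s, as ⟨x.1, hl⟩ = x.2} ≤
      (1 / (n : ℝ)) ^ Z.card := by
  classical
  by_cases hall : ∀ x ∈ Z, x.1.length < s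
  · let g : NodeLT n s × Fin n → HNode n := fun z => (z.1.1, z.2)
    have hg : Function.Injective g := by
      rintro ⟨q, a⟩ ⟨q', a'⟩ h
      simp only [g, Prod.mk.injEq] at h
      obtain ⟨h2, rfl⟩ := h
      have : q = q' := Subtype.ext h2
      subst this
      rfl
    let Y : Finset (NodeLT n s × Fin n) := Finset.univ.filter (fun z => g z ∈ Z)
    have hY : Y.card = Z.card := by
      rw [← Finset.card_image_of_injective Y hg]
      congr 1
      ext p
      simp only [Finset.mem_image, Y, Finset.mem_filter, Finset.mem_univ, true_and]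
      constructor
      · rintro ⟨z, hz, rfl⟩
        exact hz
      · intro hp
        exact ⟨(⟨p.1, hall p hp⟩, p.2), hp, rfl⟩
    have : Nonempty (Fin n) := ⟨⟨0, hn⟩⟩
    have hc := cyl Y
    rw [Fintype.card_fin, hY] at hc
    refine le_trans (msr_pr.mono _ _ ?_) hc
    intro as has z hz
    have hz' : g z ∈ Z := (Finset.mem_filter.1 hz).2
    obtain ⟨hl, h2⟩ := has (g z) hz'
    exact h2
  · push Not at hall
    obtain ⟨p, hp, hp2⟩ := hall
    have he : {as : NodeLT n s → Fin n | ∀ x ∈ Z, ∃ hl : x.1.length < s, as ⟨x.1, hl⟩ = x.2}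
        = ∅ := by
      rw [Set.eq_empty_iff_forall_notMem]
      intro as has
      obtain ⟨hl, -⟩ := has p hp
      omega
    rw [he, msr_pr.empty]
    positivity

theorem pr_SB {n s : ℕ} {Ω₁ Ω₃ : Type} [Fintype Ω₁] [Fintype Ω₃] (hn : 0 < n)
    (K : Ω₁ → Fin n → Prop) (Z : Finset (HNode n)) (h : ∀ x ∈ Z, x.1 ≠ []) :
    pr {N : Ω₁ × (NodeLT n s → Fin n) × Ω₃ | ∀ x ∈ Z, SB (K N.1) N.2.1 x} ≤
      (1 / (n : ℝ)) ^ Z.card := by
  refine pr_fubini _ _ (by positivity) ?_
  intro x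
  set A' : Set (NodeLT n s → Fin n) :=
    {as : NodeLT n s → Fin n | ∀ x ∈ Z, ∃ hl : x.1.length < s, as ⟨x.1, hl⟩ = x.2} with hA'
  have h1 : pr {y : (NodeLT n s → Fin n) × Ω₃ | y.1 ∈ A' ∧ y.2 ∈ (Set.univ : Set Ω₃)} ≤
      (1 / (n : ℝ)) ^ Z.card := by
    rw [pr_prod]
    have h2 := pr_SB_aux (s := s) hn Z
    have h3 : pr (Set.univ : Set Ω₃) ≤ 1 := pr_le_one _
    have h4 : 0 ≤ pr A' := msr_pr.nonneg _
    have h5 : 0 ≤ pr (Set.univ : Set Ω₃) := msr_pr.nonneg _
    calc pr A' * pr (Set.univ : Set Ω₃) ≤ pr A' * 1 := by gcongr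
      _ = pr A' := mul_one _
      _ ≤ _ := h2
  refine le_trans (msr_pr.mono _ _ ?_) h1
  intro y hy
  refine ⟨?_, Set.mem_univ _⟩
  intro z hz
  have h2 := hy z hz
  rcases h2.2.2 with h3 | h3
  · exact absurd h3 (h z hz)
  · exact h3

end Pool.Agent.H679R2.WH
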