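import Pool.Agent.H679R2.WH.AndStage

/-!
# Second phase: the OR stage and the recursion (task F2)
-/

set_option autoImplicit false

namespace Pool.Agent.H679R2.WH

open Pool.Agent.H520R2

section
variable {n : ℕ} {ΩB ΩN : Type} [Fintype ΩB] [Fintype ΩN] (e : Env n ΩB ΩN)

theorem F2_bad (d κ w A : ℕ) (T : Fin A → Set (Finset (Node n)))
    (hT : ∀ b, ∀ τ ∈ T b, τ.card ≤ w ∧ ∀ p ∈ τ, p.length = d) (hd : 2 ≤ d) :
    pr {N | (∀ b, ∀ τ ∈ T b, ∃ p ∈ τ, e.sb N (half e.hn p)) ∧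
      ∀ R : Finset (HNode n), (R.card ≤ κ ∧ (∀ h ∈ R, h.1.length + 1 = d) ∧
        ∀ b, ∀ τ ∈ T b, ∃ p ∈ τ, half e.hn p ∈ R) → ∃ h ∈ R, ¬ e.sb N h} ≤
      ((w : ℝ) / n) ^ (κ + 1) := by
  classical
  set X : Set ΩN := {N | (∀ b, ∀ τ ∈ T b, ∃ p ∈ τ, e.sb N (half e.hn p)) ∧
      ∀ R : Finset (HNode n), (R.card ≤ κ ∧ (∀ h ∈ R, h.1.length + 1 = d) ∧
        ∀ b, ∀ τ ∈ T b, ∃ p ∈ τ, half e.hn p ∈ R) → ∃ h ∈ R, ¬ e.sb N h} with hX
  have h1n : (0 : ℝ) ≤ 1 / (n : ℝ) := by positivity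
  have key := branch (S := Finset (HNode n)) (msr_pr (Ω := ΩN)) X
    (fun Z => {N | ∀ h ∈ Z, e.sb N h}) (fun Z => (1 / (n : ℝ)) ^ Z.card) (fun Z => Z.card)
    (fun Z => ∀ h ∈ Z, h.1.length + 1 = d) (κ + 1) ((w : ℝ) / n) (by positivity)
    (fun Z => pow_nonneg h1n _)
    (by
      rintro Z hZ -
      refine e.sbpr Z ?_
      intro h hh h0
      have := hZ h hh
      rw [h0] at this
      simp at this
      omega)
    (by
      rintro Z hZ hcard
      by_cases hne : X ∩ {N | ∀ h ∈ Z, e.sb N h} = ∅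
      · exact Or.inl hne
      right
      obtain ⟨N0, hNX, hNZ⟩ := Set.nonempty_iff_ne_empty.2 hne
      simp only [Set.mem_ofPred_eq] at hNZ
      have hcard' : Z.card < κ + 1 := hcard
      have hτ : ∃ b, ∃ τ ∈ T b, ∀ p ∈ τ, half e.hn p ∉ Z := by
        by_contra hcon
        push Not at hcon
        obtain ⟨h, hh, hs⟩ := hNX.2 Z ⟨by omega, hZ, hcon⟩
        exact hs (hNZ h hh)
      obtain ⟨b, τ, hτT, hτZ⟩ := hτ
      refine ⟨τ.image (fun p => insert (half e.hn p) Z), ?_, ?_, ?_⟩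
      · intro Z' hZ'
        rw [Finset.mem_image] at hZ'
        obtain ⟨p, hp, rfl⟩ := hZ'
        refine ⟨?_, Finset.card_insert_of_notMem (hτZ p hp)⟩
        intro h hh
        rw [Finset.mem_insert] at hh
        rcases hh with rfl | hh
        · have := (hT b τ hτT).2 p hp
          cases p with
          | nil => simp at this; omega
          | cons y q =>
            simpa [half] using this
        · exact hZ h hh
      · rintro N ⟨hX', hZ'⟩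
        obtain ⟨p, hp, hps⟩ := hX'.1 b τ hτT
        simp only [Set.mem_ofPred_eq] at hZ'
        simp only [Finset.mem_image, Set.mem_iUnion, Set.mem_ofPred_eq, exists_prop]
        refine ⟨insert (half e.hn p) Z, ⟨p, hp, rfl⟩, ?_⟩
        intro h hh
        rw [Finset.mem_insert] at hh
        rcases hh with rfl | hh
        · exact hps
        · exact hZ' h hh
      · have h1 : ∀ Z' ∈ τ.image (fun p => insert (half e.hn p) Z),
            (1 / (n : ℝ)) ^ Z'.card ≤ (1 / (n : ℝ)) ^ (Z.card + 1) := by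
          intro Z' hZ'
          rw [Finset.mem_image] at hZ'
          obtain ⟨p, hp, rfl⟩ := hZ'
          rw [Finset.card_insert_of_notMem (hτZ p hp)]
        have h2 := Finset.sum_le_card_nsmul _ _ _ h1
        have h3 : ((τ.image (fun p => insert (half e.hn p) Z)).card : ℝ) ≤ w := by
          exact_mod_cast Finset.card_image_le.trans (hT b τ hτT).1
        rw [nsmul_eq_mul] at h2
        calc ∑ Z' ∈ τ.image (fun p => insert (half e.hn p) Z), (1 / (n : ℝ)) ^ Z'.card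
            ≤ ((τ.image (fun p => insert (half e.hn p) Z)).card : ℝ) *
              (1 / (n : ℝ)) ^ (Z.card + 1) := h2
          _ ≤ w * (1 / (n : ℝ)) ^ (Z.card + 1) := mul_le_mul_of_nonneg_right h3 (pow_nonneg h1n _)
          _ = (w : ℝ) / n * (1 / (n : ℝ)) ^ Z.card := by ring)
  have h0 := key ∅ (by simp) (by simp)
  simp only [Finset.card_empty, Nat.sub_zero, pow_zero, mul_one, Finset.notMem_empty,
    false_imp_iff, implies_true, Set.ofPred_true, Set.inter_univ] at h0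
  exact h0

theorem or_stage (d κ w A : ℕ) (hd : 2 ≤ d) {ηP ηN : ℝ} (GP : Fin A → ΩB → Prop)
    (GN : Fin A → ΩN → Prop) (h : ∀ b, HasT e d w ηP ηN (GP b) (GN b)) :
    HasC e d κ (A * ηP) (A * ηN + ((w : ℝ) / n) ^ (κ + 1)) (fun β => ∃ b, GP b β)
      (fun N => ∃ b, GN b N) := by
  classical
  choose T EP EN hEP hEN hT hpos hneg using h
  have hbad := F2_bad e d κ w A T hT hd
  set X : Set ΩN := {N | (∀ b, ∀ τ ∈ T b, ∃ p ∈ τ, e.sb N (half e.hn p)) ∧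
      ∀ R : Finset (HNode n), (R.card ≤ κ ∧ (∀ h ∈ R, h.1.length + 1 = d) ∧
        ∀ b, ∀ τ ∈ T b, ∃ p ∈ τ, half e.hn p ∈ R) → ∃ h ∈ R, ¬ e.sb N h} with hX
  refine ⟨{R | R.card ≤ κ ∧ (∀ h ∈ R, h.1.length + 1 = d) ∧
      ∀ b, ∀ τ ∈ T b, ∃ p ∈ τ, half e.hn p ∈ R}, ⋃ b, EP b, (⋃ b, EN b) ∪ X, ?_, ?_, ?_, ?_, ?_⟩
  · exact F1_union (msr_prOn e.F) EP hEP
  · have h1 := F1_union (msr_pr (Ω := ΩN)) EN hEN
    have h2 := (msr_pr (Ω := ΩN)).union (⋃ b, EN b) X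
    linarith
  · rintro R ⟨h1, h2, -⟩
    exact ⟨h1, h2⟩
  · rintro β hβF hβE ⟨b, hb⟩ R ⟨-, -, hR⟩
    simp only [Set.mem_iUnion, not_exists] at hβE
    obtain ⟨τ, hτ, hτin⟩ := hpos b β hβF (hβE b) hb
    obtain ⟨p, hp, hpR⟩ := hR b τ hτ
    refine ⟨half e.hn p, hpR, ?_⟩
    have hlen := (hT b τ hτ).2 p hp
    have hin := hτin p hp
    cases p with
    | nil => simp at hlen; omega
    | cons y q =>
      obtain ⟨a1, b1⟩ := y
      exact e.par β a1 b1 q hin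
  · rintro N hN hR
    simp only [Set.mem_union, Set.mem_iUnion, not_or, not_exists] at hN
    obtain ⟨hN1, hN2⟩ := hN
    have h1 : ∃ b, ∃ τ ∈ T b, ∀ p ∈ τ, ¬ e.sb N (half e.hn p) := by
      by_contra hcon
      push Not at hcon
      exact hN2 ⟨hcon, hR⟩
    obtain ⟨b, τ, hτ, hp⟩ := h1
    exact ⟨b, hneg b N (hN1 b) τ hτ hp⟩

theorem F2_mono {d w : ℕ} {ηP ηN ηP' ηN' : ℝ} {GP : ΩB → Prop} {GN : ΩN → Prop}
    (h : HasT e d w ηP ηN GP GN) (h1 : ηP ≤ ηP') (h2 : ηN ≤ ηN') :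
    HasT e d w ηP' ηN' GP GN := by
  obtain ⟨T, EP, EN, a, b, c⟩ := h
  exact ⟨T, EP, EN, a.trans h1, b.trans h2, c⟩

theorem AE_stage (κ w A : ℕ) (hA : 1 ≤ A) (hw : e.τ0.card ≤ w) {ηP ηN : ℝ} (h1 : 0 ≤ ηP)
    (h2 : 0 ≤ ηN) (r : ℕ) : ∀ (d : ℕ) (_ : 1 ≤ d) (GP : List (Fin A × Fin A) → ΩB → Prop)
    (GN : List (Fin A × Fin A) → ΩN → Prop)
    (_ : ∀ l, l.length = r → HasT e (d + r) w ηP ηN (GP l) (GN l)),
    HasT e d w ((A : ℝ) ^ (2 * r) * (ηP + r * (κ * e.θ) ^ (w - e.τ0.card)))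
      ((A : ℝ) ^ (2 * r) * (ηN + r * ((w : ℝ) / n) ^ (κ + 1)))
      (fun β => AE A r (fun l => GP l β)) (fun N => AE A r (fun l => GN l N)) := by
  have hX : (0 : ℝ) ≤ (κ * e.θ) ^ (w - e.τ0.card) :=
    pow_nonneg (mul_nonneg (Nat.cast_nonneg _) e.hθ) _
  have hY : (0 : ℝ) ≤ ((w : ℝ) / n) ^ (κ + 1) := by positivity
  have hA1 : (1 : ℝ) ≤ A := by exact_mod_cast hA
  set X := (κ * e.θ) ^ (w - e.τ0.card) with hXd
  set Y := ((w : ℝ) / n) ^ (κ + 1) with hYd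
  induction r with
  | zero =>
    intro d hd GP GN h
    have h0 := h [] rfl
    simpa [AE] using h0
  | succ r ih =>
    intro d hd GP GN h
    have h3 : ∀ a b, HasT e (d + 1) w ((A : ℝ) ^ (2 * r) * (ηP + r * X))
        ((A : ℝ) ^ (2 * r) * (ηN + r * Y)) (fun β => AE A r (fun l => GP ((a, b) :: l) β))
        (fun N => AE A r (fun l => GN ((a, b) :: l) N)) := by
      intro a b
      refine ih (d + 1) (by omega) (fun l => GP ((a, b) :: l)) (fun l => GN ((a, b) :: l)) ?_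
      intro l hl
      have := h ((a, b) :: l) (by simp [hl])
      rwa [show d + (r + 1) = d + 1 + r by ring] at this
    have h4 : ∀ a, HasC e (d + 1) κ (A * ((A : ℝ) ^ (2 * r) * (ηP + r * X)))
        (A * ((A : ℝ) ^ (2 * r) * (ηN + r * Y)) + Y)
        (fun β => ∃ b, AE A r (fun l => GP ((a, b) :: l) β))
        (fun N => ∃ b, AE A r (fun l => GN ((a, b) :: l) N)) := fun a =>
      or_stage e (d + 1) κ w A (by omega) _ _ (h3 a)
    have h5 := and_stage e d κ w A hd hw _ _ h4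
    have hAp : (1 : ℝ) ≤ (A : ℝ) ^ (2 * (r + 1)) := one_le_pow₀ hA1
    have hAp2 : (A : ℝ) ≤ (A : ℝ) ^ (2 * (r + 1)) := by
      have : (A : ℝ) ^ 1 ≤ (A : ℝ) ^ (2 * (r + 1)) := pow_le_pow_right₀ hA1 (by omega)
      simpa using this
    refine F2_mono e h5 ?_ ?_
    · push_cast
      have : (A : ℝ) ^ (2 * (r + 1)) = A * (A * (A : ℝ) ^ (2 * r)) := by ring
      have h6 : X ≤ (A : ℝ) ^ (2 * (r + 1)) * X := by nlinarith
      calc (A : ℝ) * (A * ((A : ℝ) ^ (2 * r) * (ηP + r * X))) + X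
          = (A : ℝ) ^ (2 * (r + 1)) * (ηP + r * X) + X := by rw [this]; ring
        _ ≤ (A : ℝ) ^ (2 * (r + 1)) * (ηP + r * X) + (A : ℝ) ^ (2 * (r + 1)) * X := by linarith
        _ = (A : ℝ) ^ (2 * (r + 1)) * (ηP + (r + 1) * X) := by ring
    · push_cast
      have : (A : ℝ) ^ (2 * (r + 1)) = A * (A * (A : ℝ) ^ (2 * r)) := by ring
      have h6 : A * Y ≤ (A : ℝ) ^ (2 * (r + 1)) * Y := mul_le_mul_of_nonneg_right hAp2 hY
      calc (A : ℝ) * (A * ((A : ℝ) ^ (2 * r) * (ηN + r * Y)) + Y)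
          = (A : ℝ) ^ (2 * (r + 1)) * (ηN + r * Y) + A * Y := by rw [this]; ring
        _ ≤ (A : ℝ) ^ (2 * (r + 1)) * (ηN + r * Y) + (A : ℝ) ^ (2 * (r + 1)) * Y := by linarith
        _ = (A : ℝ) ^ (2 * (r + 1)) * (ηN + (r + 1) * Y) := by ring

end

end Pool.Agent.H679R2.WH
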