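import Pool.Agent.H679R2.WH.Nodes

/-!
# Task C2 (helper880): spread
-/

set_option autoImplicit false

namespace Pool.Agent.H679R2.WH

theorem C2_length {n s : ℕ} (β : NodeLT n s × Fin n → Fin n) :
    ∀ p : Node n, InP β p → p.length ≤ s
  | [], _ => Nat.zero_le _
  | (a, b) :: q, h => by
    obtain ⟨_, hl, _⟩ := h
    exact hl

/-- the event -/
def C2E {n s : ℕ} (F0 : Set (NodeLT n s × Fin n → Fin n)) (τ : Finset (Node n)) :
    Set (NodeLT n s × Fin n → Fin n) := {β ∈ F0 | ∀ p ∈ τ, InP β p}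

/-- `spread_exists` from `pr_inP` -/
theorem C2_spread {n s : ℕ} (hn : 0 < n)
    (hinP : ∀ (τ : Finset (Node n)) (_ : ∀ p ∈ τ, p ≠ []),
      pr {β : NodeLT n s × Fin n → Fin n | ∀ p ∈ τ, InP β p} ≤ (1 / (n : ℝ)) ^ τ.card)
    (θ : ℝ) (hθ : 0 < θ) (hθn : θ ^ 2 = 1 / n)
    (F0 : Set (NodeLT n s × Fin n → Fin n)) (M : ℝ) (hM : 1 ≤ M * pr F0) :
    ∃ τ0 : Finset (Node n), (∀ p ∈ τ0, p ≠ []) ∧ (1 / θ) ^ τ0.card ≤ M ∧
      {β ∈ F0 | ∀ p ∈ τ0, InP β p}.Nonempty ∧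
      ∀ σ : Finset (Node n), (∀ p ∈ σ, p ≠ []) →
        prOn {β ∈ F0 | ∀ p ∈ τ0, InP β p} {β | ∀ p ∈ σ, InP β p} ≤ θ ^ (σ \ τ0).card := by
  classical
  have hprnn : 0 ≤ pr F0 := by unfold pr; positivity
  have hprpos : 0 < pr F0 := by
    rcases hprnn.eq_or_lt with h | h
    · rw [← h, mul_zero] at hM
      linarith
    · exact h
  have hMpos : 0 < M := by
    by_contra h
    push Not at h
    nlinarith
  have hcard : (0 : ℝ) < F0.ncard := by
    unfold pr at hprpos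
    by_contra h
    have h0 : (F0.ncard : ℝ) = 0 := le_antisymm (not_lt.1 h) (by positivity)
    rw [h0, zero_div] at hprpos
    exact lt_irrefl _ hprpos
  have hΩ : (0 : ℝ) < Fintype.card (NodeLT n s × Fin n → Fin n) := by
    unfold pr at hprpos
    by_contra h
    have h0 : (Fintype.card (NodeLT n s × Fin n → Fin n) : ℝ) = 0 :=
      le_antisymm (not_lt.1 h) (by positivity)
    rw [h0, div_zero] at hprpos
    exact lt_irrefl _ hprpos
  -- heavy sets
  set Hv : Set (Finset (Node n)) := {τ | (∀ p ∈ τ, p ≠ []) ∧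
    (F0.ncard : ℝ) * θ ^ τ.card ≤ (C2E F0 τ).ncard} with hHv
  have hpos : ∀ τ ∈ Hv, 0 < (C2E F0 τ).ncard := by
    intro τ hτ
    have h1 : (0 : ℝ) < (C2E F0 τ).ncard :=
      lt_of_lt_of_le (mul_pos hcard (pow_pos hθ _)) hτ.2
    exact_mod_cast h1
  have hfin : Hv.Finite := by
    have hL : {q : Node n | q.length ≤ s}.Finite := List.finite_length_le _ _
    refine (hL.toFinset.powerset.finite_toSet).subset ?_
    intro τ hτ
    rw [Finset.mem_coe, Finset.mem_powerset]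
    intro p hp
    rw [Set.Finite.mem_toFinset]
    obtain ⟨β, hβ⟩ := (Set.ncard_pos (Set.toFinite _)).1 (hpos τ hτ)
    exact C2_length β p (hβ.2 p hp)
  have hne : Hv.Nonempty := by
    refine ⟨∅, by simp, ?_⟩
    have : C2E F0 ∅ = F0 := by
      unfold C2E
      ext β
      simp
    rw [this]
    simp
  obtain ⟨τ0, hτ0, hmax⟩ := Set.exists_max_image Hv Finset.card hfin hne
  have hF1 : 0 < (C2E F0 τ0).ncard := hpos τ0 hτ0
  have hF1R : (0 : ℝ) < (C2E F0 τ0).ncard := by exact_mod_cast hF1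
  refine ⟨τ0, hτ0.1, ?_, (Set.ncard_pos (Set.toFinite _)).1 hF1, ?_⟩
  · -- bound of the core
    have h1 : ((C2E F0 τ0).ncard : ℝ) ≤
        ({β : NodeLT n s × Fin n → Fin n | ∀ p ∈ τ0, InP β p}.ncard : ℝ) := by
      exact_mod_cast Set.ncard_le_ncard (fun β (hβ : β ∈ C2E F0 τ0) => hβ.2) (Set.toFinite _)
    have h2 := hinP τ0 hτ0.1
    have h3 : pr F0 * θ ^ τ0.card ≤ (1 / (n : ℝ)) ^ τ0.card := by
      refine le_trans ?_ h2
      unfold pr
      rw [div_mul_eq_mul_div]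
      exact div_le_div_of_nonneg_right (hτ0.2.trans h1) hΩ.le
    rw [← hθn, ← pow_mul, two_mul, pow_add] at h3
    have h4 : pr F0 ≤ θ ^ τ0.card := le_of_mul_le_mul_right h3 (pow_pos hθ _)
    have h5 : 1 ≤ M * θ ^ τ0.card := hM.trans (mul_le_mul_of_nonneg_left h4 hMpos.le)
    rw [one_div, inv_pow]
    rw [inv_le_iff_one_le_mul₀ (pow_pos hθ _)]
    exact h5
  · -- spread
    intro σ hσ
    have hE : {β | ∀ p ∈ σ, InP β p} ∩ {β ∈ F0 | ∀ p ∈ τ0, InP β p} = C2E F0 (τ0 ∪ σ) := by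
      unfold C2E
      ext β
      simp only [Set.mem_inter_iff, Set.mem_ofPred_eq, Finset.mem_union]
      constructor
      · rintro ⟨h1, h2, h3⟩
        exact ⟨h2, fun p hp => hp.elim (h3 p) (h1 p)⟩
      · rintro ⟨h1, h2⟩
        exact ⟨fun p hp => h2 p (Or.inr hp), h1, fun p hp => h2 p (Or.inl hp)⟩
    unfold prOn
    rw [hE]
    change ((C2E F0 (τ0 ∪ σ)).ncard : ℝ) / ((C2E F0 τ0).ncard : ℝ) ≤ _
    rw [div_le_iff₀ hF1R]
    by_cases hs : σ \ τ0 = ∅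
    · rw [hs, Finset.card_empty, pow_zero, one_mul]
      have hu : τ0 ∪ σ = τ0 := Finset.union_eq_left.2 (Finset.sdiff_eq_empty_iff_subset.1 hs)
      rw [hu]
    · have hcu : (τ0 ∪ σ).card = τ0.card + (σ \ τ0).card := by
        rw [← Finset.union_sdiff_self_eq_union, Finset.card_union_of_disjoint
          Finset.disjoint_sdiff]
      have hlt : τ0.card < (τ0 ∪ σ).card := by
        have := Finset.card_pos.2 (Finset.nonempty_iff_ne_empty.2 hs)
        omega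
      have hnot : τ0 ∪ σ ∉ Hv := fun h => absurd (hmax _ h) (not_le.2 hlt)
      have hnodes : ∀ p ∈ τ0 ∪ σ, p ≠ [] := by
        intro p hp
        rcases Finset.mem_union.1 hp with hp | hp
        · exact hτ0.1 p hp
        · exact hσ p hp
      have hlight : ((C2E F0 (τ0 ∪ σ)).ncard : ℝ) < F0.ncard * θ ^ (τ0 ∪ σ).card := by
        by_contra h
        exact hnot ⟨hnodes, not_lt.1 h⟩
      rw [hcu, pow_add, ← mul_assoc] at hlight
      refine hlight.le.trans ?_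
      rw [mul_comm (θ ^ (σ \ τ0).card)]
      exact mul_le_mul_of_nonneg_right hτ0.2 (by positivity)

theorem spread_exists {n s : ℕ} (hn : 0 < n) (θ : ℝ) (hθ : 0 < θ) (hθn : θ ^ 2 = 1 / n)
    (F0 : Set (NodeLT n s × Fin n → Fin n)) (M : ℝ) (hM : 1 ≤ M * pr F0) :
    ∃ τ0 : Finset (Node n), (∀ p ∈ τ0, p ≠ []) ∧ (1 / θ) ^ τ0.card ≤ M ∧
      {β ∈ F0 | ∀ p ∈ τ0, InP β p}.Nonempty ∧
      ∀ σ : Finset (Node n), (∀ p ∈ σ, p ≠ []) →
        prOn {β ∈ F0 | ∀ p ∈ τ0, InP β p} {β | ∀ p ∈ σ, InP β p} ≤ θ ^ (σ \ τ0).card :=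
  C2_spread hn (fun τ h => pr_inP hn τ h) θ hθ hθn F0 M hM

end Pool.Agent.H679R2.WH
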