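import Pool.Agent.H679R2.WH.Defs
import Pool.Agent.H679R2.WH.ProbA
import Pool.Agent.H679R2.WH.Approx
import Pool.Agent.H679R2.WH.Nodes
import Pool.Agent.H679R2.WH.Spread
import Pool.Agent.H679R2.WH.AndStage
import Pool.Agent.H679R2.WH.OrStage

/-! Block theorem, even source levels. -/

set_option autoImplicit false

namespace Pool.Agent.H679R2.WH

open Pool.Agent.H520R2

namespace G3

theorem msr_finset {Ω : Type} {m : Set Ω → ℝ} (hm : Msr m) {ι : Type} (s : Finset ι)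
    (f : ι → Set Ω) : m (⋃ i ∈ s, f i) ≤ ∑ i ∈ s, m (f i) := by
  classical
  induction s using Finset.induction_on with
  | empty => simp [hm.empty]
  | insert a s ha ih =>
    rw [Finset.set_biUnion_insert, Finset.sum_insert ha]
    exact (hm.union _ _).trans (by linarith)

theorem msr_iUnion {Ω : Type} {m : Set Ω → ℝ} (hm : Msr m) {ι : Type} [Fintype ι]
    (f : ι → Set Ω) : m (⋃ i, f i) ≤ ∑ i, m (f i) := by
  have h := msr_finset hm Finset.univ f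
  simpa using h

theorem pr_equiv {Ω Ω' : Type} [Fintype Ω] [Fintype Ω'] (e : Ω ≃ Ω') (A : Set Ω') :
    pr {x | e x ∈ A} = pr A := by
  unfold pr
  rw [Fintype.card_congr e]
  congr 2
  have h : A = e '' {x | e x ∈ A} := by
    ext y
    constructor
    · intro hy
      exact ⟨e.symm y, by simpa using hy, by simp⟩
    · rintro ⟨x, hx, rfl⟩
      exact hx
  conv_rhs => rw [h]
  rw [Set.ncard_image_of_injective _ e.injective]

theorem AE_snoc (A : ℕ) (r : ℕ) : ∀ (G : List (Fin A × Fin A) → Prop),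
    AE A (r + 1) G ↔ AE A r (fun l => ∀ a, ∃ b, G (l ++ [(a, b)])) := by
  induction r with
  | zero => intro G; rfl
  | succ r ih =>
    intro G
    change (∀ a, ∃ b, AE A (r + 1) (fun l => G ((a, b) :: l))) ↔
      (∀ a, ∃ b, AE A r (fun l => ∀ a', ∃ b', G (((a, b) :: l) ++ [(a', b')])))
    constructor
    · intro h a
      obtain ⟨b, hb⟩ := h a
      exact ⟨b, (ih _).1 hb⟩
    · intro h a
      obtain ⟨b, hb⟩ := h a
      exact ⟨b, (ih _).2 hb⟩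

/-- Pigeonhole over finitely many events that cover the complement of a small event. -/
theorem pigeon {Ω Z : Type} [Fintype Ω] [Nonempty Ω] [Fintype Z] (EP : Set Ω)
    (hEP : pr EP ≤ 1 / 2) (P : Z → Set Ω) (hP : ∀ ω, ω ∉ EP → ∃ z, ω ∈ P z) :
    0 < (Fintype.card Z : ℝ) ∧ ∃ z, 1 ≤ 2 * (Fintype.card Z : ℝ) * pr (P z) := by
  have hu : (1 : ℝ) ≤ pr EP + ∑ z, pr (P z) := by
    rw [← pr_univ (Ω := Ω)]
    have h1 : (Set.univ : Set Ω) ⊆ EP ∪ ⋃ z, P z := by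
      intro ω _
      by_cases h : ω ∈ EP
      · exact Or.inl h
      · obtain ⟨z, hz⟩ := hP ω h
        exact Or.inr (Set.mem_iUnion.2 ⟨z, hz⟩)
    refine (msr_pr.mono _ _ h1).trans ((msr_pr.union _ _).trans ?_)
    have := msr_iUnion (msr_pr (Ω := Ω)) P
    linarith
  have hs : (1 / 2 : ℝ) ≤ ∑ z, pr (P z) := by linarith
  have hcard : 0 < Fintype.card Z := by
    rcases Nat.eq_zero_or_pos (Fintype.card Z) with h | h
    · exfalso
      have := Fintype.card_eq_zero_iff.1 h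
      rw [Finset.univ_eq_empty, Finset.sum_empty] at hs
      linarith
    · exact h
  have hcard' : (0 : ℝ) < (Fintype.card Z : ℝ) := by exact_mod_cast hcard
  refine ⟨hcard', ?_⟩
  by_contra hcon
  push Not at hcon
  have h2 : ∑ z, pr (P z) < 1 / 2 := by
    have h3 : ∀ z ∈ (Finset.univ : Finset Z), pr (P z) < 1 / (2 * (Fintype.card Z : ℝ)) := by
      intro z _
      rw [lt_div_iff₀ (by positivity)]
      have := hcon z
      linarith
    have hne : (Finset.univ : Finset Z).Nonempty :=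
      Finset.univ_nonempty_iff.2 (Fintype.card_pos_iff.1 hcard)
    have h4 := Finset.sum_lt_sum_of_nonempty hne h3
    refine h4.trans_le ?_
    rw [Finset.sum_const, nsmul_eq_mul, Finset.card_univ]
    apply le_of_eq
    field_simp
  linarith

end G3

open G3 in
theorem BT_O1 {n k n1 d0 s : ℕ} (hn : 0 < n) (hs : 1 ≤ s) (hn1 : 0 < n1)
    (hk : 0 < k) (hd0 : 0 < d0) {W K S : ℕ} {εN εN2 εP : ℝ} (hW : 1 ≤ W) (hK : 1 ≤ K)
    (hSN : SwitchN (NegO : OmNO n k n1 d0 s → Set (Node n × Fin n × Row k n1)) W K εN)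
    (hSP : SwitchP (PosO : OmPO n k n1 s → Set (Node n × Fin n × Row k n1)) W K εP)
    (hεN : 0 ≤ εN) (hεP : 0 ≤ εP) (hεP2 : S * εP ≤ 1 / 2)
    {L : List (Set (Node n × Fin n × Row k n1) → Bool)} (hL : MProg (B0 _) L)
    (hlen : L.length ≤ S) {A G : ℕ} (hA : 1 ≤ A) {Z : Type} [Fintype Z]
    (leaf : Z → List (Fin A × Fin A) → Fin G → Set (Node n × Fin n × Row k n1) → Bool)
    (hleaf : ∀ z l j, Av (B0 _) L (leaf z l j))
    (hpos : ∀ ω : OmPO n k n1 s, ∃ z, AE A s (fun l => ∀ j, leaf z l j (PosO ω) = true))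
    (κ w c0 : ℕ)
    (hSN2 : SwitchN (NegO : OmNO n k n1 d0 s → Set (Node n × Fin n × Row k n1)) (G * W) κ εN2)
    (hεN2 : 0 ≤ εN2)
    (hc0 : 2 * (Fintype.card Z : ℝ) < (Real.sqrt n) ^ (c0 + 1)) (hw : c0 ≤ w)
    (hsmall : (A : ℝ) ^ (2 * s) * s * ((κ : ℝ) / Real.sqrt n) ^ (w - c0) < 1)
    (hκn : (κ : ℝ) / Real.sqrt n ≤ 1) :
    pr {ω : OmNO n k n1 d0 s | ¬ ∃ z, AE A s (fun l => ∀ j, leaf z l j (NegO ω) = true)} ≤
      (A : ℝ) ^ (2 * s) * (S * εN + εN2 + s * ((w : ℝ) / n) ^ (κ + 1)) + w * k / d0 := by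
  classical
  obtain ⟨r, rfl⟩ : ∃ r, s = r + 1 := ⟨s - 1, by omega⟩
  obtain ⟨EP, EN, hEP, hEN, happ⟩ := approx_prog hW hK hSN hSP hL
  choose D C hDC using fun z l j => happ _ (hleaf z l j)
  have hlenS : (L.length : ℝ) ≤ S := by exact_mod_cast hlen
  have hEP' : pr EP ≤ 1 / 2 :=
    (hEP.trans (mul_le_mul_of_nonneg_right hlenS hεP)).trans hεP2
  have hEN' : pr EN ≤ S * εN := hEN.trans (mul_le_mul_of_nonneg_right hlenS hεN)
  have : Nonempty (Fin n) := ⟨⟨0, hn⟩⟩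
  have : Nonempty (Fin k) := ⟨⟨0, hk⟩⟩
  have : Nonempty (Fin n1) := ⟨⟨0, hn1⟩⟩
  have : Nonempty (Fin d0) := ⟨⟨0, hd0⟩⟩
  -- pigeonhole
  obtain ⟨hZ, z, hz⟩ := pigeon EP hEP'
    (fun z => {ω : OmPO n k n1 (r + 1) | ω ∉ EP ∧
      AE A (r + 1) (fun l => ∀ j, leaf z l j (PosO ω) = true)})
    (fun ω hω => by
      obtain ⟨z, hz⟩ := hpos ω
      exact ⟨z, hω, hz⟩)
  set M : ℝ := 2 * (Fintype.card Z : ℝ) with hMdef
  have hMpos : 0 < M := by positivity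
  have hz' : 1 / M ≤ pr {ω : OmPO n k n1 (r + 1) | ω ∉ EP ∧
      AE A (r + 1) (fun l => ∀ j, leaf z l j (PosO ω) = true)} := by
    rw [div_le_iff₀ hMpos]; linarith
  obtain ⟨y, hy⟩ := pr_fubini_exists _ _ hz'
  rw [← pr_equiv (Equiv.prodComm _ _)] at hy
  obtain ⟨l, hl⟩ := pr_fubini_exists _ _ hy
  set F0 : Set (NodeLT n (r + 1) × Fin n → Fin n) :=
    {β | (y, β, l) ∉ EP ∧ AE A (r + 1) (fun l' => ∀ j, leaf z l' j (PosO (y, β, l)) = true)}
    with hF0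
  have hF0M : 1 ≤ M * pr F0 := by
    have h1 : 1 / M ≤ pr F0 := hl
    rw [div_le_iff₀ hMpos] at h1; linarith
  have hnR : (0 : ℝ) < n := by exact_mod_cast hn
  have hsq : 0 < Real.sqrt n := Real.sqrt_pos.2 hnR
  have hsq1 : 1 ≤ Real.sqrt n := by
    rw [Real.one_le_sqrt]; exact_mod_cast hn
  set θ : ℝ := 1 / Real.sqrt n with hθdef
  have hθ : 0 < θ := by positivity
  have hθn : θ ^ 2 = 1 / n := by
    rw [hθdef, div_pow, one_pow, Real.sq_sqrt hnR.le]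
  obtain ⟨τ0, hτne, hτM, hFne, hspread⟩ := spread_exists hn θ hθ hθn F0 M hF0M
  have hτc : τ0.card ≤ c0 := by
    by_contra hcon
    push Not at hcon
    have h1 : (Real.sqrt n) ^ (c0 + 1) ≤ (Real.sqrt n) ^ τ0.card :=
      pow_le_pow_right₀ hsq1 hcon
    have h2 : (1 / θ) = Real.sqrt n := by rw [hθdef, one_div_one_div]
    rw [h2] at hτM
    linarith
  -- the environment
  let e : Env n (NodeLT n (r + 1) × Fin n → Fin n) (OmNO n k n1 d0 (r + 1)) :=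
    { inP := fun β p => InP β p
      sb := fun N h => SB (fun a => ∃ i, (N.1 (a, (i, y i))).val = 0) N.2.1 h
      F := {β ∈ F0 | ∀ p ∈ τ0, InP β p}
      τ0 := τ0
      θ := θ
      hn := hn
      hθ := hθ.le
      hF := hFne
      hτ0 := fun β hβ => hβ.2
      spread := hspread
      par := fun β a b q h => InP_tail β (a, b) q h
      sbpar := fun N a b q a' h => SB_par _ _ a b q a' h
      sbpr := fun Z' hZ' => pr_SB hn
        (fun (u : Fin n × Row k n1 → Fin d0) a => ∃ i, (u (a, (i, y i))).val = 0) Z' hZ' }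
  have hew : e.τ0.card ≤ w := hτc.trans hw
  set X : ℝ := (κ * e.θ) ^ (w - e.τ0.card) with hX
  have hX0 : 0 ≤ X := pow_nonneg (mul_nonneg (Nat.cast_nonneg _) hθ.le) _
  have hX1 : X ≤ ((κ : ℝ) / Real.sqrt n) ^ (w - c0) := by
    have h1 : κ * e.θ = (κ : ℝ) / Real.sqrt n := by
      change (κ : ℝ) * (1 / Real.sqrt n) = _
      ring
    rw [hX, h1]
    apply pow_le_pow_of_le_one (by positivity) hκn
    have : e.τ0.card ≤ c0 := hτc
    omega
  -- the base of the second phase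
  have base : ∀ d, d = r + 1 → ∀ l' : List (Fin A × Fin A), HasT e d w X (S * εN + A * εN2)
      (fun β => ∀ a, ∃ b, ∀ j, leaf z (l' ++ [(a, b)]) j (PosO (y, β, l)) = true)
      (fun N => ∀ a, ∃ b, ∀ j, leaf z (l' ++ [(a, b)]) j (NegO N) = true) := by
    rintro d rfl l'
    let D' : Fin A → Set (Finset (Node n × Fin n × Row k n1)) := fun a =>
      {T | ∃ (b : Fin A) (Tj : Fin G → Finset (Node n × Fin n × Row k n1)),
        (∀ j, Tj j ∈ D z (l' ++ [(a, b)]) j) ∧ T = Finset.univ.biUnion Tj}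
    have hD' : ∀ a, ∀ T ∈ D' a, T.card ≤ G * W := by
      rintro a T ⟨b, Tj, hTj, rfl⟩
      have := Finset.card_biUnion_le_card_mul (Finset.univ : Finset (Fin G)) Tj W
        (fun j _ => (hDC z _ j).1 _ (hTj j))
      simpa using this
    let ENa : Fin A → Set (OmNO n k n1 d0 (r + 1)) := fun a =>
      {N | (∀ T ∈ D' a, ¬ ((T : Set (Node n × Fin n × Row k n1)) ⊆ NegO N)) ∧
        ∀ R : Finset (Node n × Fin n × Row k n1), R.card ≤ κ →
          (∀ T ∈ D' a, ∃ v ∈ R, v ∈ T) → ∃ v ∈ R, v ∈ NegO N}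
    have hENa : ∀ a, pr (ENa a) ≤ εN2 := fun a => hSN2 (D' a) (hD' a)
    let bar : Finset (Node n × Fin n × Row k n1) → Finset (Node n) := fun R =>
      (R.filter (fun x => ∃ h : x.1.length = r + 1,
        x.2.2 = (l (⟨x.1, h⟩, x.2.1), y (l (⟨x.1, h⟩, x.2.1))))).image Prod.fst
    let Cb : Set (Finset (Node n)) := {Rb | ∃ (a : Fin A)
      (R : Finset (Node n × Fin n × Row k n1)), R.card ≤ κ ∧
        (∀ T ∈ D' a, ∃ v ∈ R, v ∈ T) ∧ Rb = bar R}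
    have hCb : ∀ R ∈ Cb, R.card ≤ κ ∧ ∀ p ∈ R, p.length = r + 1 := by
      rintro Rb ⟨a, R, hR, hR2, rfl⟩
      refine ⟨(Finset.card_image_le.trans (Finset.card_filter_le _ _)).trans hR, ?_⟩
      intro p hp
      obtain ⟨x, hx, rfl⟩ := Finset.mem_image.1 hp
      exact (Finset.mem_filter.1 hx).2.1
    refine ⟨{τ | τ.card ≤ w ∧ (∀ p ∈ τ, p.length = r + 1) ∧ ∀ R ∈ Cb, ∃ p ∈ R, p ∈ τ},
      {β | (∀ R ∈ Cb, ∃ p ∈ R, e.inP β p) ∧ ¬ ∃ τ : Finset (Node n), τ.card ≤ w ∧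
        (∀ p ∈ τ, p.length = r + 1 ∧ e.inP β p) ∧ ∀ R ∈ Cb, ∃ p ∈ R, p ∈ τ},
      EN ∪ ⋃ a, ENa a, and_gen e (r + 1) κ w (by omega) hew Cb hCb, ?_, ?_, ?_, ?_⟩
    · refine (msr_pr.union _ _).trans ?_
      have h1 := msr_iUnion (msr_pr (Ω := OmNO n k n1 d0 (r + 1))) ENa
      have h2 : ∑ a, pr (ENa a) ≤ A * εN2 := by
        calc ∑ a, pr (ENa a) ≤ ∑ _a : Fin A, εN2 := Finset.sum_le_sum (fun a _ => hENa a)
          _ = A * εN2 := by simp
      linarith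
    · rintro τ ⟨h1, h2, -⟩
      exact ⟨h1, h2⟩
    · intro β hβ hβE hG
      have hβEP : (y, β, l) ∉ EP := hβ.1.1
      by_contra hcon
      apply hβE
      refine ⟨?_, ?_⟩
      · rintro Rb ⟨a, R, hR, hR2, rfl⟩
        obtain ⟨b, hb⟩ := hG a
        choose Tj hTj hTj2 using fun j => (hDC z (l' ++ [(a, b)]) j).2.2.2.1 _ hβEP (hb j)
        obtain ⟨v, hvR, hvT⟩ := hR2 (Finset.univ.biUnion Tj) ⟨b, Tj, hTj, rfl⟩
        obtain ⟨j, -, hvj⟩ := Finset.mem_biUnion.1 hvT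
        obtain ⟨h, hin, hval⟩ := hTj2 j hvj
        refine ⟨v.1, Finset.mem_image.2 ⟨v, Finset.mem_filter.2 ⟨hvR, h, hval⟩, rfl⟩, hin⟩
      · rintro ⟨τ, h1, h2, h3⟩
        exact hcon ⟨τ, ⟨h1, fun p hp => (h2 p hp).1, h3⟩, fun p hp => (h2 p hp).2⟩
    · rintro N hN τ ⟨h1, h2, h3⟩ hsb
      by_contra hcon
      push Not at hcon
      obtain ⟨a, ha⟩ := hcon
      have hNEN : N ∉ EN := fun h => hN (Or.inl h)
      have hNa : N ∉ ENa a := fun h => hN (Or.inr (Set.mem_iUnion.2 ⟨a, h⟩))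
      have hT : ∀ T ∈ D' a, ¬ ((T : Set (Node n × Fin n × Row k n1)) ⊆ NegO N) := by
        rintro T ⟨b, Tj, hTj, rfl⟩ hsub
        obtain ⟨j, hj⟩ := ha b
        apply hj
        apply (hDC z (l' ++ [(a, b)]) j).2.2.2.2 N hNEN
        intro R hR
        obtain ⟨v, hvR, hvT⟩ := (hDC z (l' ++ [(a, b)]) j).2.2.1 (Tj j) (hTj j) R hR
        exact ⟨v, hvR, hsub (Finset.mem_coe.2 (Finset.mem_biUnion.2 ⟨j, Finset.mem_univ _, hvT⟩))⟩
      have hR : ∃ R : Finset (Node n × Fin n × Row k n1), R.card ≤ κ ∧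
          (∀ T ∈ D' a, ∃ v ∈ R, v ∈ T) ∧ ∀ v ∈ R, v ∉ NegO N := by
        by_contra hno
        push Not at hno
        exact hNa ⟨hT, fun R hR1 hR2 => hno R hR1 hR2⟩
      obtain ⟨R, hR1, hR2, hR3⟩ := hR
      obtain ⟨p, hp1, hp2⟩ := h3 (bar R) ⟨a, R, hR1, hR2, rfl⟩
      obtain ⟨v, hv, rfl⟩ := Finset.mem_image.1 hp1
      obtain ⟨hvR, h, hval⟩ := Finset.mem_filter.1 hv
      have hvN := hR3 v hvR
      have hvN' : ∃ h : v.1.length = r + 1, Mk N.1 v.1 v.2.2 ∧ Fol N.2.1 v.1 ∧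
          (N.2.2 (⟨v.1, h⟩, v.2.1, v.2.2)).val = 0 := by
        by_contra hno
        exact hvN hno
      obtain ⟨_, hMk, hFol, -⟩ := hvN'
      apply hsb _ hp2
      obtain ⟨p, a', v2⟩ := v
      cases p with
      | nil => simp at h
      | cons x q =>
        obtain ⟨a'', b''⟩ := x
        refine ⟨⟨(l (⟨(a'', b'') :: q, h⟩, a')), ?_⟩, hFol.1, hFol.2⟩
        have h5 := hMk (htop (q, a'')) rfl
        simp only at hval
        rw [hval] at h5
        exact h5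
  -- the recursion
  have hBT := AE_stage e κ w A hA hew hX0
    (add_nonneg (mul_nonneg (Nat.cast_nonneg _) hεN) (mul_nonneg (Nat.cast_nonneg _) hεN2))
    r 1 le_rfl
    (fun l' β => ∀ a, ∃ b, ∀ j, leaf z (l' ++ [(a, b)]) j (PosO (y, β, l)) = true)
    (fun l' N => ∀ a, ∃ b, ∀ j, leaf z (l' ++ [(a, b)]) j (NegO N) = true)
    (fun l' _ => base (1 + r) (Nat.add_comm 1 r) l')
  obtain ⟨T, EP2, EN2, hP2, hN2, hT2, hpos2, hneg2⟩ := hBT
  have hA1 : (1 : ℝ) ≤ A := by exact_mod_cast hA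
  have hlt : prOn e.F EP2 < 1 := by
    refine hP2.trans_lt (lt_of_le_of_lt ?_ hsmall)
    have h1 : X + (r : ℝ) * X = ((r + 1 : ℕ) : ℝ) * X := by push_cast; ring
    rw [← hX, h1]
    have h2 : (A : ℝ) ^ (2 * r) ≤ (A : ℝ) ^ (2 * (r + 1)) :=
      pow_le_pow_right₀ hA1 (by omega)
    calc (A : ℝ) ^ (2 * r) * (((r + 1 : ℕ) : ℝ) * X)
        ≤ (A : ℝ) ^ (2 * (r + 1)) * (((r + 1 : ℕ) : ℝ) * ((κ : ℝ) / Real.sqrt n) ^ (w - c0)) := by
          gcongr
      _ = _ := by ring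
  obtain ⟨β, hβF, hβE⟩ : ∃ β ∈ e.F, β ∉ EP2 := by
    by_contra hcon
    push Not at hcon
    have h1 : EP2 ∩ e.F = e.F := Set.inter_eq_right.2 hcon
    have h2 : prOn e.F EP2 = 1 := by
      unfold prOn
      rw [h1]
      apply div_self
      have h3 : 0 < (e.F).ncard := (Set.ncard_pos (Set.toFinite _)).2 e.hF
      have : (0 : ℝ) < ((e.F).ncard : ℝ) := by exact_mod_cast h3
      exact this.ne'
    linarith
  obtain ⟨τ, hτT, hτin⟩ := hpos2 β hβF hβE ((AE_snoc A r _).1 hβF.1.2)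
  obtain ⟨hτw, hτ1⟩ := hT2 τ hτT
  -- the semi-bad event for the final certificate
  have hone : ∀ p ∈ τ, pr {N : OmNO n k n1 d0 (r + 1) | e.sb N (half e.hn p)} ≤ k * (1 / d0) := by
    intro p hp
    obtain ⟨⟨a, b⟩, rfl⟩ := List.length_eq_one_iff.1 (hτ1 p hp)
    have hsub : {N : OmNO n k n1 d0 (r + 1) | e.sb N (half e.hn [(a, b)])} ⊆
        ⋃ i : Fin k, {N : OmNO n k n1 d0 (r + 1) |
          N.1 ∈ {f : Fin n × Row k n1 → Fin d0 | ∀ z ∈ ({((a, (i, y i)), (⟨0, hd0⟩ : Fin d0))} :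
            Finset ((Fin n × Row k n1) × Fin d0)), f z.1 = z.2} ∧ N.2 ∈ Set.univ} := by
      rintro N ⟨⟨i, hi⟩, -⟩
      refine Set.mem_iUnion.2 ⟨i, ?_, trivial⟩
      intro x hx
      rw [Finset.mem_singleton] at hx
      subst hx
      exact Fin.ext hi
    refine (msr_pr.mono _ _ hsub).trans ((msr_iUnion msr_pr _).trans ?_)
    have h1 : ∀ i : Fin k, pr {N : OmNO n k n1 d0 (r + 1) |
          N.1 ∈ {f : Fin n × Row k n1 → Fin d0 | ∀ z ∈ ({((a, (i, y i)), (⟨0, hd0⟩ : Fin d0))} :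
            Finset ((Fin n × Row k n1) × Fin d0)), f z.1 = z.2} ∧ N.2 ∈ Set.univ} ≤ 1 / d0 := by
      intro i
      rw [pr_prod]
      have h2 := cyl ({((a, (i, y i)), (⟨0, hd0⟩ : Fin d0))} :
            Finset ((Fin n × Row k n1) × Fin d0))
      rw [Finset.card_singleton, pow_one, Fintype.card_fin] at h2
      have h3 := pr_le_one (Set.univ : Set ((NodeLT n (r + 1) → Fin n) ×
        (NodeEQ n (r + 1) × Fin n × Row k n1 → Fin d0)))
      calc _ ≤ pr {f : Fin n × Row k n1 → Fin d0 | ∀ z ∈ ({((a, (i, y i)), (⟨0, hd0⟩ : Fin d0))} :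
            Finset ((Fin n × Row k n1) × Fin d0)), f z.1 = z.2} * 1 :=
            mul_le_mul_of_nonneg_left h3 (msr_pr.nonneg _)
        _ ≤ 1 / d0 := by rw [mul_one]; exact h2
    calc _ ≤ ∑ _i : Fin k, (1 / (d0 : ℝ)) := Finset.sum_le_sum (fun i _ => h1 i)
      _ = k * (1 / d0) := by simp
  have hfin : pr {ω : OmNO n k n1 d0 (r + 1) |
      ¬ ∃ z, AE A (r + 1) (fun l => ∀ j, leaf z l j (NegO ω) = true)} ≤
      (A : ℝ) ^ (2 * r) * ((S * εN + A * εN2) + r * ((w : ℝ) / n) ^ (κ + 1)) + w * k / d0 := by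
    have hsub : {ω : OmNO n k n1 d0 (r + 1) |
        ¬ ∃ z, AE A (r + 1) (fun l => ∀ j, leaf z l j (NegO ω) = true)} ⊆
        EN2 ∪ ⋃ p ∈ τ, {N : OmNO n k n1 d0 (r + 1) | e.sb N (half e.hn p)} := by
      intro N hN
      by_contra hcon
      rw [Set.mem_union, not_or] at hcon
      obtain ⟨hc1, hc2⟩ := hcon
      apply hN
      refine ⟨z, (AE_snoc A r _).2 (hneg2 N hc1 τ hτT ?_)⟩
      intro p hp hsb
      exact hc2 (Set.mem_iUnion₂.2 ⟨p, hp, hsb⟩)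
    refine (msr_pr.mono _ _ hsub).trans ((msr_pr.union _ _).trans (add_le_add hN2 ?_))
    refine (msr_finset msr_pr _ _).trans ?_
    calc _ ≤ ∑ _p ∈ τ, ((k : ℝ) * (1 / d0)) := Finset.sum_le_sum hone
      _ = τ.card * ((k : ℝ) * (1 / d0)) := by simp
      _ ≤ w * ((k : ℝ) * (1 / d0)) := by
        apply mul_le_mul_of_nonneg_right _ (by positivity)
        exact_mod_cast hτw
      _ = w * k / d0 := by ring
  refine hfin.trans (add_le_add_left ?_ _)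
  have hA0 : (0 : ℝ) ≤ A := by linarith
  have hY : (0 : ℝ) ≤ ((w : ℝ) / n) ^ (κ + 1) := by positivity
  have hS : (0 : ℝ) ≤ S * εN := mul_nonneg (Nat.cast_nonneg _) hεN
  have h1 : (S * εN + A * εN2) + r * ((w : ℝ) / n) ^ (κ + 1) ≤
      (A : ℝ) ^ 2 * (S * εN + εN2 + ((r + 1 : ℕ) : ℝ) * ((w : ℝ) / n) ^ (κ + 1)) := by
    have hA2 : (1 : ℝ) ≤ (A : ℝ) ^ 2 := one_le_pow₀ hA1
    have hA3 : (A : ℝ) ≤ (A : ℝ) ^ 2 := by nlinarith
    push_cast
    have e1 : S * εN ≤ (A : ℝ) ^ 2 * (S * εN) := le_mul_of_one_le_left hS hA2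
    have e2 : (A : ℝ) * εN2 ≤ (A : ℝ) ^ 2 * εN2 := mul_le_mul_of_nonneg_right hA3 hεN2
    have e3 : (r : ℝ) * ((w : ℝ) / n) ^ (κ + 1) ≤
        (A : ℝ) ^ 2 * (((r : ℝ) + 1) * ((w : ℝ) / n) ^ (κ + 1)) := by
      calc (r : ℝ) * ((w : ℝ) / n) ^ (κ + 1) ≤ ((r : ℝ) + 1) * ((w : ℝ) / n) ^ (κ + 1) := by
            apply mul_le_mul_of_nonneg_right _ hY; linarith
        _ ≤ _ := le_mul_of_one_le_left (by positivity) hA2
    calc _ ≤ (A : ℝ) ^ 2 * (S * εN) + (A : ℝ) ^ 2 * εN2 +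
          (A : ℝ) ^ 2 * (((r : ℝ) + 1) * ((w : ℝ) / n) ^ (κ + 1)) := by linarith
      _ = _ := by ring
  calc (A : ℝ) ^ (2 * r) * ((S * εN + A * εN2) + r * ((w : ℝ) / n) ^ (κ + 1))
      ≤ (A : ℝ) ^ (2 * r) * ((A : ℝ) ^ 2 *
        (S * εN + εN2 + ((r + 1 : ℕ) : ℝ) * ((w : ℝ) / n) ^ (κ + 1))) :=
        mul_le_mul_of_nonneg_left h1 (by positivity)
    _ = _ := by rw [Nat.mul_add, pow_add]; ring

end Pool.Agent.H679R2.WH
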