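import Pool.Agent.H679R2.WH.Defs

/-! Blueprint: all statements with `sorry` (not imported by any hand-in). -/

set_option autoImplicit false

namespace Pool.Agent.H679R2.WH.BP

open Pool.Agent.H520R2 Pool.Agent.H679R2.WH

/-! ### Task A : finite probability and branching -/

theorem msr_pr {Ω : Type} [Fintype Ω] : Msr (pr : Set Ω → ℝ) := by
  sorry

theorem msr_prOn {Ω : Type} [Fintype Ω] (F : Set Ω) : Msr (prOn F) := by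
  sorry

theorem pr_le_one {Ω : Type} [Fintype Ω] (A : Set Ω) : pr A ≤ 1 := by
  sorry

theorem pr_univ {Ω : Type} [Fintype Ω] [Nonempty Ω] : pr (Set.univ : Set Ω) = 1 := by
  sorry

theorem pr_prod {Ω₁ Ω₂ : Type} [Fintype Ω₁] [Fintype Ω₂] (A : Set Ω₁) (B : Set Ω₂) :
    pr {ω : Ω₁ × Ω₂ | ω.1 ∈ A ∧ ω.2 ∈ B} = pr A * pr B := by
  sorry

/-- Fubini. -/
theorem pr_fubini {Ω₁ Ω₂ : Type} [Fintype Ω₁] [Fintype Ω₂] (A : Set (Ω₁ × Ω₂)) (c : ℝ)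
    (hc : 0 ≤ c) (h : ∀ x, pr {y | (x, y) ∈ A} ≤ c) : pr A ≤ c := by
  sorry

theorem pr_fubini_exists {Ω₁ Ω₂ : Type} [Fintype Ω₁] [Fintype Ω₂] [Nonempty Ω₁]
    (A : Set (Ω₁ × Ω₂)) (c : ℝ) (h : c ≤ pr A) : ∃ x, c ≤ pr {y | (x, y) ∈ A} := by
  sorry

theorem cyl {ι κ : Type} [Fintype ι] [DecidableEq ι] [Fintype κ] [Nonempty κ]
    (Z : Finset (ι × κ)) :
    pr {f : ι → κ | ∀ z ∈ Z, f z.1 = z.2} ≤ (1 / (Fintype.card κ : ℝ)) ^ Z.card := by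
  sorry

theorem branch {Ω S : Type} {m : Set Ω → ℝ} (hm : Msr m) (B : Set Ω) (Ev : S → Set Ω)
    (wt : S → ℝ) (rk : S → ℕ) (Inv : S → Prop) (r : ℕ) (ρ : ℝ) (hρ : 0 ≤ ρ)
    (hwt0 : ∀ σ, 0 ≤ wt σ)
    (hwt : ∀ σ, Inv σ → rk σ = r → m (Ev σ) ≤ wt σ)
    (hstep : ∀ σ, Inv σ → rk σ < r → B ∩ Ev σ = ∅ ∨ ∃ F : Finset S,
      (∀ τ ∈ F, Inv τ ∧ rk τ = rk σ + 1) ∧ (B ∩ Ev σ ⊆ ⋃ τ ∈ F, Ev τ) ∧
      ∑ τ ∈ F, wt τ ≤ ρ * wt σ) :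
    ∀ σ, Inv σ → rk σ ≤ r → m (B ∩ Ev σ) ≤ ρ ^ (r - rk σ) * wt σ := by
  sorry

theorem branch2 {Ω S : Type} {m : Set Ω → ℝ} (hm : Msr m) (B : Set Ω) (Ev : S → Set Ω)
    (wt : S → ℝ) (ra rb : S → ℕ) (Inv : S → Prop) (w1 w2 : ℕ) (a b α γ : ℝ)
    (ha : 0 ≤ a) (hb : 0 ≤ b) (hα : 0 < α) (hγ : 0 < γ)
    (hα2 : a + b * α ≤ α) (hγ2 : a * γ + b ≤ γ)
    (hwt0 : ∀ σ, 0 ≤ wt σ)
    (hwt : ∀ σ, Inv σ → m (Ev σ) ≤ wt σ)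
    (hstep : ∀ σ, Inv σ → ra σ < w1 → rb σ < w2 → B ∩ Ev σ = ∅ ∨ ∃ FA FB : Finset S,
      (∀ τ ∈ FA, Inv τ ∧ ra τ = ra σ + 1 ∧ rb τ = rb σ) ∧
      (∀ τ ∈ FB, Inv τ ∧ ra τ = ra σ ∧ rb τ = rb σ + 1) ∧
      (B ∩ Ev σ ⊆ (⋃ τ ∈ FA, Ev τ) ∪ ⋃ τ ∈ FB, Ev τ) ∧
      ∑ τ ∈ FA, wt τ ≤ a * wt σ ∧ ∑ τ ∈ FB, wt τ ≤ b * wt σ) :
    ∀ σ, Inv σ → ra σ ≤ w1 → rb σ ≤ w2 →
      m (B ∩ Ev σ) ≤ (α ^ (w1 - ra σ) + γ ^ (w2 - rb σ)) * wt σ := by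
  sorry

/-! ### Task B : two-sided approximators of monotone programs -/

theorem approx_prog {ΩP ΩN V : Type} [Fintype ΩP] [Fintype ΩN] {Pos : ΩP → Set V}
    {Neg : ΩN → Set V} {W K : ℕ} {εN εP : ℝ} (hW : 1 ≤ W) (hK : 1 ≤ K)
    (hN : SwitchN Neg W K εN) (hP : SwitchP Pos W K εP) {L : List (Set V → Bool)}
    (hL : MProg (B0 V) L) :
    ∃ (EP : Set ΩP) (EN : Set ΩN), pr EP ≤ L.length * εP ∧ pr EN ≤ L.length * εN ∧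
      ∀ f, Av (B0 V) L f → ∃ D C, Approx Pos Neg W K EP EN f D C := by
  sorry

/-! ### Task C : nodes -/

theorem pr_inP {n s : ℕ} (hn : 0 < n) (τ : Finset (Node n)) (h : ∀ p ∈ τ, p ≠ []) :
    pr {β : NodeLT n s × Fin n → Fin n | ∀ p ∈ τ, InP β p} ≤ (1 / (n : ℝ)) ^ τ.card := by
  sorry

theorem spread_exists {n s : ℕ} (hn : 0 < n) (θ : ℝ) (hθ : 0 < θ) (hθn : θ ^ 2 = 1 / n)
    (F0 : Set (NodeLT n s × Fin n → Fin n)) (M : ℝ) (hM : 1 ≤ M * pr F0) :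
    ∃ τ0 : Finset (Node n), (∀ p ∈ τ0, p ≠ []) ∧ (1 / θ) ^ τ0.card ≤ M ∧
      {β ∈ F0 | ∀ p ∈ τ0, InP β p}.Nonempty ∧
      ∀ σ : Finset (Node n), (∀ p ∈ σ, p ≠ []) →
        prOn {β ∈ F0 | ∀ p ∈ τ0, InP β p} {β | ∀ p ∈ σ, InP β p} ≤ θ ^ (σ \ τ0).card := by
  sorry

theorem InP_tail {n s : ℕ} (β : NodeLT n s × Fin n → Fin n) (x : Fin n × Fin n) (q : Node n) :
    InP β (x :: q) → InP β q := by
  sorry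

theorem SB_par {n s : ℕ} (K : Fin n → Prop) (as : NodeLT n s → Fin n) (a b : Fin n)
    (q : Node n) (a' : Fin n) : SB K as ((a, b) :: q, a') → SB K as (q, a) := by
  sorry

theorem pr_SB {n s : ℕ} {Ω₁ Ω₃ : Type} [Fintype Ω₁] [Fintype Ω₃] (hn : 0 < n)
    (K : Ω₁ → Fin n → Prop) (Z : Finset (HNode n)) (h : ∀ x ∈ Z, x.1 ≠ []) :
    pr {N : Ω₁ × (NodeLT n s → Fin n) × Ω₃ | ∀ x ∈ Z, SB (K N.1) N.2.1 x} ≤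
      (1 / (n : ℝ)) ^ Z.card := by
  sorry

/-! ### Task D : switching for the odd source levels -/

theorem switchN_E {n k n1 d0 s W K r : ℕ} (hk : 0 < k) (hkd : k ≤ d0) (hn : 0 < n)
    (hr : r * r ≤ K) :
    SwitchN (NegE : OmNE n k n1 d0 s → Set (Node n × Row k n1)) W K (((W : ℝ) / k) ^ r) := by
  sorry

theorem switchP_E {n k n1 s W K w : ℕ} (hs : 1 ≤ s) (hn1 : 0 < n1) (hn : n1 ≤ n)
    (hw : w * w ≤ W) :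
    SwitchP (PosE : OmPE n k n1 s → Set (Node n × Row k n1)) W K (((K : ℝ) / n1) ^ w) := by
  sorry

/-! ### Task E : switching for the even source levels -/

theorem switchN_O {n k n1 d0 s W K : ℕ} (hd : 0 < d0) (hn : 0 < n) :
    SwitchN (NegO : OmNO n k n1 d0 s → Set (Node n × Fin n × Row k n1)) W K
      (((W : ℝ) / d0) ^ (K + 1)) := by
  sorry

theorem switchP_O {n k n1 s W K w1 w2 : ℕ} (hn1 : 0 < n1) (hn : n1 ≤ n) (hk : 0 < k)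
    (hW : K * w2 ≤ W) (hw1 : 2 * w1 ≤ k) (hK : 1 ≤ K)
    (hsmall : (K : ℝ) / n1 ≤ (1 / 2) ^ (K + 1)) :
    SwitchP (PosO : OmPO n k n1 s → Set (Node n × Fin n × Row k n1)) W K
      ((2 ^ K * K / n1) ^ w1 + (1 - (1 / 2) ^ (K + 1)) ^ w2) := by
  sorry

/-! ### Task F : second phase -/

section
variable {n : ℕ} {ΩB ΩN : Type} [Fintype ΩB] [Fintype ΩN] (e : Env n ΩB ΩN)

theorem and_gen (d κ w : ℕ) (hd : 1 ≤ d) (hw : e.τ0.card ≤ w) (C : Set (Finset (Node n)))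
    (hC : ∀ R ∈ C, R.card ≤ κ ∧ ∀ p ∈ R, p.length = d) :
    prOn e.F {β | (∀ R ∈ C, ∃ p ∈ R, e.inP β p) ∧ ¬ ∃ τ : Finset (Node n), τ.card ≤ w ∧
      (∀ p ∈ τ, p.length = d ∧ e.inP β p) ∧ ∀ R ∈ C, ∃ p ∈ R, p ∈ τ} ≤
      (κ * e.θ) ^ (w - e.τ0.card) := by
  sorry

theorem or_stage (d κ w A : ℕ) (hd : 2 ≤ d) {ηP ηN : ℝ} (GP : Fin A → ΩB → Prop)
    (GN : Fin A → ΩN → Prop) (h : ∀ b, HasT e d w ηP ηN (GP b) (GN b)) :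
    HasC e d κ (A * ηP) (A * ηN + ((w : ℝ) / n) ^ (κ + 1)) (fun β => ∃ b, GP b β)
      (fun N => ∃ b, GN b N) := by
  sorry

theorem and_stage (d κ w A : ℕ) (hd : 1 ≤ d) (hw : e.τ0.card ≤ w) {ηP ηN : ℝ}
    (GP : Fin A → ΩB → Prop) (GN : Fin A → ΩN → Prop)
    (h : ∀ a, HasC e (d + 1) κ ηP ηN (GP a) (GN a)) :
    HasT e d w (A * ηP + (κ * e.θ) ^ (w - e.τ0.card)) (A * ηN) (fun β => ∀ a, GP a β)
      (fun N => ∀ a, GN a N) := by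
  sorry

theorem AE_stage (κ w A : ℕ) (hA : 1 ≤ A) (hw : e.τ0.card ≤ w) {ηP ηN : ℝ} (h1 : 0 ≤ ηP)
    (h2 : 0 ≤ ηN) (r : ℕ) : ∀ (d : ℕ) (_ : 1 ≤ d) (GP : List (Fin A × Fin A) → ΩB → Prop)
    (GN : List (Fin A × Fin A) → ΩN → Prop)
    (_ : ∀ l, l.length = r → HasT e (d + r) w ηP ηN (GP l) (GN l)),
    HasT e d w ((A : ℝ) ^ (2 * r) * (ηP + r * (κ * e.θ) ^ (w - e.τ0.card)))
      ((A : ℝ) ^ (2 * r) * (ηN + r * ((w : ℝ) / n) ^ (κ + 1)))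
      (fun β => AE A r (fun l => GP l β)) (fun N => AE A r (fun l => GN l N)) := by
  sorry

end

/-! ### Task G : the block theorems -/

theorem BT_E {n k n1 d0 s : ℕ} (hn : 0 < n) (hs : 1 ≤ s) (hn1 : 0 < n1)
    (hk : 0 < k) (hkd : k ≤ d0) {W K S : ℕ} {εN εP : ℝ} (hW : 1 ≤ W) (hK : 1 ≤ K)
    (hSN : SwitchN (NegE : OmNE n k n1 d0 s → Set (Node n × Row k n1)) W K εN)
    (hSP : SwitchP (PosE : OmPE n k n1 s → Set (Node n × Row k n1)) W K εP)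
    (hεN : 0 ≤ εN) (hεP : 0 ≤ εP) (hεP2 : S * εP ≤ 1 / 2)
    {L : List (Set (Node n × Row k n1) → Bool)} (hL : MProg (B0 _) L) (hlen : L.length ≤ S)
    {A G : ℕ} (hA : 1 ≤ A) {Z : Type} [Fintype Z]
    (leaf : Z → List (Fin A × Fin A) → Fin A → Fin G → Set (Node n × Row k n1) → Bool)
    (hleaf : ∀ z l a j, Av (B0 _) L (leaf z l a j))
    (hpos : ∀ ω : OmPE n k n1 s, ∃ z, AE A (s - 1)
      (fun l => ∀ a, ∃ j, leaf z l a j (PosE ω) = true))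
    (κ w c0 : ℕ) (hκ : G * K ≤ κ) (hc0 : 2 * (Fintype.card Z : ℝ) < (Real.sqrt n) ^ (c0 + 1))
    (hw : c0 ≤ w)
    (hsmall : (A : ℝ) ^ (2 * s) * s * ((κ : ℝ) / Real.sqrt n) ^ (w - c0) < 1)
    (hκn : (κ : ℝ) / Real.sqrt n ≤ 1) :
    pr {ω : OmNE n k n1 d0 s | ¬ ∃ z, AE A (s - 1)
      (fun l => ∀ a, ∃ j, leaf z l a j (NegE ω) = true)} ≤
      (A : ℝ) ^ (2 * s) * (S * εN + s * ((w : ℝ) / n) ^ (κ + 1)) + w * k * k / d0 := by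
  sorry

theorem BT_O0 {n k n1 d0 : ℕ} (hn : 0 < n) (hn1 : 0 < n1) (hk : 0 < k) (hd0 : 0 < d0)
    {W K S : ℕ} {εN εP : ℝ} (hW : 1 ≤ W) (hK : 1 ≤ K)
    (hSN : SwitchN (NegO : OmNO n k n1 d0 0 → Set (Node n × Fin n × Row k n1)) W K εN)
    (hSP : SwitchP (PosO : OmPO n k n1 0 → Set (Node n × Fin n × Row k n1)) W K εP)
    (hεN : 0 ≤ εN) (hεP : 0 ≤ εP) (hεP2 : S * εP ≤ 1 / 2)
    {L : List (Set (Node n × Fin n × Row k n1) → Bool)} (hL : MProg (B0 _) L)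
    (hlen : L.length ≤ S) {G : ℕ} {Z : Type}
    (leaf : Z → Fin G → Set (Node n × Fin n × Row k n1) → Bool)
    (hleaf : ∀ z j, Av (B0 _) L (leaf z j))
    (hpos : ∀ ω : OmPO n k n1 0, ∃ z, ∀ j, leaf z j (PosO ω) = true) :
    pr {ω : OmNO n k n1 d0 0 | ¬ ∃ z, ∀ j, leaf z j (NegO ω) = true} ≤
      S * εN + G * W / d0 := by
  sorry

theorem BT_O1 {n k n1 d0 s : ℕ} (hn : 0 < n) (hs : 1 ≤ s) (hn1 : 0 < n1)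
    (hk : 0 < k) (hd0 : 0 < d0) {W K S : ℕ} {εN εN2 εP : ℝ} (hW : 1 ≤ W) (hK : 1 ≤ K)
    (hSN : SwitchN (NegO : OmNO n k n1 d0 s → Set (Node n × Fin n × Row k n1)) W K εN)
    (hSP : SwitchP (PosO : OmPO n k n1 s → Set (Node n × Fin n × Row k n1)) W K εP)
    (hεN : 0 ≤ εN) (hεP : 0 ≤ εP) (hεP2 : S * εP ≤ 1 / 2)
    {L : List (Set (Node n × Fin n × Row k n1) → Bool)} (hL : MProg (B0 _) L)
    (hlen : L.length ≤ S) {A G : ℕ} (hA : 1 ≤ A) {Z : Type} [Fintype Z]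
    (leaf : Z → List (Fin A × Fin A) → Fin G → Set (Node n × Fin n × Row k n1) → Bool)
    (hleaf : ∀ z l j, Av (B0 _) L (leaf z l j))
    (hpos : ∀ ω : OmPO n k n1 s, ∃ z, AE A s (fun l => ∀ j, leaf z l j (PosO ω) = true))
    (κ w c0 : ℕ)
    (hSN2 : SwitchN (NegO : OmNO n k n1 d0 s → Set (Node n × Fin n × Row k n1)) (G * W) κ εN2)
    (hεN2 : 0 ≤ εN2)
    (hc0 : 2 * (Fintype.card Z : ℝ) < (Real.sqrt n) ^ (c0 + 1)) (hw : c0 ≤ w)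
    (hsmall : (A : ℝ) ^ (2 * s) * s * ((κ : ℝ) / Real.sqrt n) ^ (w - c0) < 1)
    (hκn : (κ : ℝ) / Real.sqrt n ≤ 1) :
    pr {ω : OmNO n k n1 d0 s | ¬ ∃ z, AE A s (fun l => ∀ j, leaf z l j (NegO ω) = true)} ≤
      (A : ℝ) ^ (2 * s) * (S * εN + εN2 + s * ((w : ℝ) / n) ^ (κ + 1)) + w * k / d0 := by
  sorry

/-! ### Task H : killing -/

theorem kill_E {n k n1 d0 s : ℕ} (σ : Fin n) (hk : 0 < k) (hkd : k ≤ d0) :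
    pr {ω : OmNE n k n1 d0 s | ¬ ∀ S : Finset (Row k n1), S.card = k →
      ∃ a, a ≠ σ ∧ ∀ c : Fin k, ∃ v ∈ S, (ω.1 (a, v)).val = c.val} ≤
      ((k * n1 : ℕ) : ℝ) ^ k * Real.exp (-((n - 1 : ℕ) : ℝ) / (d0 : ℝ) ^ k) := by
  sorry

theorem kill_O {n k n1 d0 s : ℕ} (σ : Fin n) (hd : 0 < d0) :
    pr {ω : OmNO n k n1 d0 s | ¬ ∀ S : Finset (Row k n1), S.card = k →
      (∃ a, a ≠ σ ∧ ∀ v ∈ S, (ω.1 (a, v)).val = 0) ∧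
      ∀ p : NodeEQ n s, ∃ a, ∀ v ∈ S, (ω.2.2 (p, a, v)).val = 0} ≤
      ((k * n1 : ℕ) : ℝ) ^ k * ((n : ℝ) ^ (2 * s) + 1) *
        Real.exp (-((n - 1 : ℕ) : ℝ) / (d0 : ℝ) ^ k) := by
  sorry

end Pool.Agent.H679R2.WH.BP
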