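import Mathlib

/-!
# Numerical side conditions
-/

set_option autoImplicit false

namespace Pool.Agent.H679R2.WH

/-- Side conditions for an odd number of source levels. -/
def NumE (n k n1 d0 s A N g S0 : ℕ) : Prop :=
  0 < n ∧ 1 ≤ s ∧ 0 < n1 ∧ n1 ≤ n ∧ 0 < k ∧ k ≤ d0 ∧ 1 ≤ A ∧
  ∃ S W K r w κ w' c0 : ℕ, S0 + A ^ (2 * s - 1) * (2 * N + 1) ^ 2 ≤ S ∧
    1 ≤ W ∧ 1 ≤ K ∧ r * r ≤ K ∧ w * w ≤ W ∧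
    (S : ℝ) * ((K : ℝ) / n1) ^ w ≤ 1 / 2 ∧
    (2 * g + 1) * K ≤ κ ∧ 2 * (N : ℝ) ^ g < (Real.sqrt n) ^ (c0 + 1) ∧ c0 ≤ w' ∧
    (A : ℝ) ^ (2 * s) * s * ((κ : ℝ) / Real.sqrt n) ^ (w' - c0) < 1 ∧
    (κ : ℝ) / Real.sqrt n ≤ 1 ∧
    (A : ℝ) ^ (2 * s) * (S * ((W : ℝ) / k) ^ r + s * ((w' : ℝ) / n) ^ (κ + 1)) +
      w' * k * k / d0 ≤ 1 / 4

/-- Side conditions for an even number (at least four) of source levels. -/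
def NumO (n k n1 d0 s A N g S0 : ℕ) : Prop :=
  0 < n ∧ 1 ≤ s ∧ 0 < n1 ∧ n1 ≤ n ∧ 0 < k ∧ 0 < d0 ∧ 1 ≤ A ∧
  ∃ S W K w1 w2 κ w' c0 : ℕ, S0 + A ^ (2 * s) * (2 * N + 1) ^ 2 ≤ S ∧
    1 ≤ W ∧ 1 ≤ K ∧ K * w2 ≤ W ∧ 2 * w1 ≤ k ∧ (K : ℝ) / n1 ≤ (1 / 2) ^ (K + 1) ∧
    (S : ℝ) * ((2 ^ K * K / n1) ^ w1 + (1 - (1 / 2) ^ (K + 1)) ^ w2) ≤ 1 / 2 ∧
    2 * (N : ℝ) ^ g < (Real.sqrt n) ^ (c0 + 1) ∧ c0 ≤ w' ∧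
    (A : ℝ) ^ (2 * s) * s * ((κ : ℝ) / Real.sqrt n) ^ (w' - c0) < 1 ∧
    (κ : ℝ) / Real.sqrt n ≤ 1 ∧
    (A : ℝ) ^ (2 * s) * (S * ((W : ℝ) / d0) ^ (K + 1) +
      ((((2 * g + 1) * W : ℕ) : ℝ) / d0) ^ (κ + 1) + s * ((w' : ℝ) / n) ^ (κ + 1)) +
      w' * k / d0 ≤ 1 / 4

/-- Side conditions for two source levels. -/
def NumO0 (n k n1 d0 N g S0 : ℕ) : Prop :=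
  0 < n ∧ 0 < n1 ∧ n1 ≤ n ∧ 0 < k ∧ 0 < d0 ∧
  ∃ S W K w1 w2 : ℕ, S0 + 2 * (2 * N + 1) ^ 4 ≤ S ∧
    1 ≤ W ∧ 1 ≤ K ∧ K * w2 ≤ W ∧ 2 * w1 ≤ k ∧ (K : ℝ) / n1 ≤ (1 / 2) ^ (K + 1) ∧
    (S : ℝ) * ((2 ^ K * K / n1) ^ w1 + (1 - (1 / 2) ^ (K + 1)) ^ w2) ≤ 1 / 2 ∧
    (S : ℝ) * ((W : ℝ) / d0) ^ (K + 1) + (((2 * g + 1) ^ 2 : ℕ) : ℝ) * W / d0 ≤ 1 / 4

end Pool.Agent.H679R2.WH
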