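import Pool.Agent.H679R2.WH.Codes
import Pool.Agent.H679R2.WH.Nums

/-! Blueprint, part 2: all statements with `sorry` (not imported by any hand-in). -/

set_option autoImplicit false

namespace Pool.Agent.H679R2.WH.BP2

open Pool.Agent.H520R2 Pool.Agent.H520R2.NM Pool.Agent.H679R2.WH

/-! ### Task I : flips -/

theorem pr_update {m : ℕ} {Ω : Type} [Fintype Ω] (A : Set (Fin m → Ω)) (j : Fin m) (c : ℝ)
    (hc : 0 ≤ c) (h : ∀ ω, pr {y | Function.update ω j y ∈ A} ≤ c) : pr A ≤ c := by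
  sorry

theorem pr_pi_bad {m : ℕ} {Ω : Type} [Fintype Ω] (G : Set Ω) :
    pr {ω : Fin m → Ω | ¬ ∀ j, ω j ∈ G} ≤ m * pr Gᶜ := by
  sorry

theorem flip_abs {ι O V ΩP ΩN : Type} [Fintype O] [Fintype ΩN] [Nonempty ΩN] {M m : ℕ}
    (C : Circuit ι M) (out : O → Wire ι M) (inst : (Fin m → Set V) → ι → Bool)
    (hmono : ∀ Y Y', (∀ j, Y j ⊆ Y' j) → inst Y ≤ inst Y')
    (hcoord : ∀ (Y : Fin m → Set V) (j : Fin m) (i : ι),
      (∃ b, ∀ Z, inst (Function.update Y j Z) i = b) ∨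
      ∃ v, ∀ Z, inst (Function.update Y j Z) i = true ↔ v ∈ Z)
    (Src : (ι → Bool) → Prop) (hSrc : ∀ x y, x ≤ y → Src x → Src y)
    (Tgt : (O → Bool) → Prop) (hTgt : ∀ r, Tgt r → Tgt (fun _ => true))
    (hred : ∀ x, Src x ↔ Tgt (fun o => (out o).eval x (C.vals x)))
    (Pos : ΩP → Set V) (Neg : ΩN → Set V)
    (hpos : ∀ Y j ω, Src (inst (Function.update Y j (Pos ω))))
    (Good : Set (Fin m → ΩN)) (hneg : ∀ ω ∈ Good, ¬ Src (inst (fun j => Neg (ω j))))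
    (hkill : pr Goodᶜ ≤ 1 / 4)
    (hBT : ∀ (L : List (Set V → Bool)) (r : O → Set V → Bool), MProg (B0 V) L →
      L.length ≤ C.size + C.fanins.sum + Fintype.card O → (∀ o, Av (B0 V) L (r o)) →
      (∀ ω, Tgt (fun o => r o (Pos ω))) → pr {ω | ¬ Tgt (fun o => r o (Neg ω))} ≤ 1 / 4) :
    m < 2 * (C.fanins.map (· + 1)).prod := by
  sorry

theorem sum_le_prod (l : List ℕ) : l.sum ≤ (l.map (· + 1)).prod := by
  sorry

/-! ### Task J : interval gates -/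

theorem gap_and {V : Type} {L : List (Set V → Bool)} (hL : MProg (B0 V) L) {M : ℕ}
    (f : Fin M → Set V → Bool) (hf : ∀ i, Av (B0 V) L (f i)) :
    ∃ L', MProg (B0 V) (L' ++ L) ∧ L'.length ≤ M ^ 2 ∧ ∀ a b : ℕ,
      ∃ h : Set V → Bool, Av (B0 V) (L' ++ L) h ∧
        ∀ x, h x = true ↔ ∀ i : Fin M, a ≤ i.val → i.val < b → f i x = true := by
  sorry

theorem gap_or {V : Type} {L : List (Set V → Bool)} (hL : MProg (B0 V) L) {M : ℕ}
    (f : Fin M → Set V → Bool) (hf : ∀ i, Av (B0 V) L (f i)) :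
    ∃ L', MProg (B0 V) (L' ++ L) ∧ L'.length ≤ M ^ 2 ∧ ∀ a b : ℕ,
      ∃ h : Set V → Bool, Av (B0 V) (L' ++ L) h ∧
        ∀ x, h x = true ↔ ∃ i : Fin M, a ≤ i.val ∧ i.val < b ∧ f i x = true := by
  sorry

theorem units (N : ℕ) : ∃ e : Fin (2 * N) ≃ Fin N × Bool, ∀ (g : ℕ) (S : Finset (Fin N)),
    S.card = g →
    (∃ I : Fin (2 * g + 1) → ℕ × ℕ, ∀ i, ¬ lit S (e i) ↔ ∃ j, (I j).1 ≤ i.val ∧ i.val < (I j).2) ∧
    (∃ I : Fin (2 * g + 1) → ℕ × ℕ, ∀ i, lit S (e i) ↔ ∃ j, (I j).1 ≤ i.val ∧ i.val < (I j).2) := by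
  sorry

/-! ### Task K : leaves (uses J) -/

theorem leaf_and {V : Type} {L : List (Set V → Bool)} (hL : MProg (B0 V) L) {A N d : ℕ} (g : ℕ)
    (r : CIdx A N d → Set V → Bool) (hr : ∀ o, Av (B0 V) L (r o)) :
    ∃ L', MProg (B0 V) (L' ++ L) ∧ L'.length ≤ A ^ d * (2 * N + 1) ^ 2 ∧
      ∃ leaf : {S : Finset (Fin N) // S.card = g} → (Fin d → Fin A) → Fin (2 * g + 1) →
          Set V → Bool,
        (∀ z p j, Av (B0 V) (L' ++ L) (leaf z p j)) ∧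
        ∀ z p x, (∀ l, r (p, l) x = true ∨ lit z.1 l) ↔ ∀ j, leaf z p j x = true := by
  sorry

theorem leaf_or {V : Type} {L : List (Set V → Bool)} (hL : MProg (B0 V) L) {A N d : ℕ} (g : ℕ)
    (r : CIdx A N d → Set V → Bool) (hr : ∀ o, Av (B0 V) L (r o)) :
    ∃ L', MProg (B0 V) (L' ++ L) ∧ L'.length ≤ A ^ d * (2 * N + 1) ^ 2 ∧
      ∃ leaf : {S : Finset (Fin N) // S.card = g} → (Fin d → Fin A) → Fin (2 * g + 1) →
          Set V → Bool,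
        (∀ z p j, Av (B0 V) (L' ++ L) (leaf z p j)) ∧
        ∀ z p x, (∃ l, r (p, l) x = true ∧ lit z.1 l) ↔ ∃ j, leaf z p j x = true := by
  sorry

theorem leaf_pair {V : Type} {L : List (Set V → Bool)} (hL : MProg (B0 V) L) {N : ℕ} (g : ℕ)
    (r : (Fin N × Bool) × (Fin N × Bool) → Set V → Bool) (hr : ∀ o, Av (B0 V) L (r o)) :
    ∃ L', MProg (B0 V) (L' ++ L) ∧ L'.length ≤ 2 * (2 * N + 1) ^ 4 ∧
      ∃ leaf : {S : Finset (Fin N) // S.card = g} → Fin ((2 * g + 1) ^ 2) → Set V → Bool,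
        (∀ z j, Av (B0 V) (L' ++ L) (leaf z j)) ∧
        ∀ z x, (∀ l l', r (l, l') x = true ∨ lit z.1 l ∨ lit z.1 l') ↔
          ∀ j, leaf z j x = true := by
  sorry

/-! ### Task L : formulas and alternating prefixes -/

theorem Val_mono {A N d : ℕ} (S : Finset (Fin N)) (b : Bool) (x y : CIdx A N d → Bool)
    (h : x ≤ y) : Val S d b x → Val S d b y := by
  sorry

theorem Val_even {A N : ℕ} (hA : 0 < A) (S : Finset (Fin N)) (r : ℕ)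
    (x : CIdx A N (2 * r) → Bool) :
    Val S (2 * r) true x ↔
      AE A r (fun l => ∀ l', x (pth hA (2 * r) (flat l), l') = true ∨ lit S l') := by
  sorry

theorem Val_odd {A N : ℕ} (hA : 0 < A) (S : Finset (Fin N)) (r : ℕ)
    (x : CIdx A N (2 * r + 1) → Bool) :
    Val S (2 * r + 1) true x ↔
      AE A r (fun l => ∀ a, ∃ l', x (pth hA (2 * r + 1) (flat l ++ [a]), l') = true ∧
        lit S l') := by
  sorry

/-! ### Task M : games on nodes -/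

theorem AE_imp {A r : ℕ} (G G' : List (Fin A × Fin A) → Prop)
    (h : ∀ l, l.length = r → G l → G' l) : AE A r G → AE A r G' := by
  sorry

theorem nodeOf_pth {n s d : ℕ} (hn : 0 < n) (l : List (Fin n × Fin n)) (hl : l.length = s)
    (hd : 2 * s ≤ d) (l' : List (Fin n)) :
    nodeOf s (ext hn (pth hn d (flat l ++ l'))) = l.reverse := by
  sorry

theorem ext_pth_last {n s : ℕ} (hn : 0 < n) (l : List (Fin n × Fin n)) (hl : l.length = s)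
    (a : Fin n) : ext hn (pth hn (2 * s + 1) (flat l ++ [a])) (2 * s) = a := by
  sorry

theorem AE_pos {n s : ℕ} (β : NodeLT n s × Fin n → Fin n) (G : Node n → Prop)
    (h : ∀ p, p.length = s → InP β p → G p) : AE n s (fun l => G l.reverse) := by
  sorry

theorem AE_neg {n s : ℕ} (hs : 1 ≤ s) (as : NodeLT n s → Fin n) (a1 : Fin n)
    (G : Node n → Prop) (h : AE n s (fun l => G l.reverse)) :
    ∃ p, p.length = s ∧ ftop p = some a1 ∧ Fol as p ∧ G p := by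
  sorry

/-- Redirect the first answer to `σ`. -/
theorem redirect {n s : ℕ} (hs : 1 ≤ s) (β : NodeLT n s × Fin n → Fin n) (σ j : Fin n) :
    ∃ β' : NodeLT n s × Fin n → Fin n, ∀ p, p.length = s → InP β' p →
      (ftop p = some σ ∧ fsnd p = j.val) ∨ (ftop p ≠ some σ ∧ InP β p) := by
  sorry

/-! ### Task N : the sources (uses L, M) -/

theorem instE_mono {n k n1 m s : ℕ} (hn : 0 < n) (rv : Fin m × Row k n1 → Fin n) (σ : Fin n)
    (Y Y' : Fin m → Set (Node n × Row k n1)) (h : ∀ j, Y j ⊆ Y' j) :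
    (instE hn rv σ Y : CIdx n n (2 * s) → Bool) ≤ instE hn rv σ Y' := by
  sorry

theorem instE_coord {n k n1 m s : ℕ} (hn : 0 < n) (rv : Fin m × Row k n1 → Fin n)
    (hrv : Function.Injective rv) (σ : Fin n) (Y : Fin m → Set (Node n × Row k n1))
    (j : Fin m) (i : CIdx n n (2 * s)) :
    (∃ b, ∀ Z, instE hn rv σ (Function.update Y j Z) i = b) ∨
      ∃ v, ∀ Z, instE hn rv σ (Function.update Y j Z) i = true ↔ v ∈ Z := by
  sorry

theorem instE_pos {n k n1 m s : ℕ} (hn : 0 < n) (hs : 1 ≤ s) (rv : Fin m × Row k n1 → Fin n)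
    (hrv : Function.Injective rv) (hm : m ≤ n) (σ : Fin n)
    (Y : Fin m → Set (Node n × Row k n1)) (j : Fin m) (ω : OmPE n k n1 s) :
    WSat (2 * s) k (instE hn rv σ (Function.update Y j (PosE ω))) := by
  sorry

theorem instE_neg {n k n1 d0 m s : ℕ} (hn : 0 < n) (hs : 1 ≤ s) (hk : 0 < k)
    (rv : Fin m × Row k n1 → Fin n) (hrv : Function.Injective rv) (σ : Fin n)
    (ω : Fin m → OmNE n k n1 d0 s) (h : ∀ j, GoodE σ (ω j)) :
    ¬ WSat (2 * s) k (instE hn rv σ (fun j => NegE (ω j))) := by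
  sorry

/-! ### Task O : even sources (uses L, M) -/

theorem instO_mono {n k n1 m s : ℕ} (hn : 0 < n) (rv : Fin m × Row k n1 → Fin n) (σ : Fin n)
    (Y Y' : Fin m → Set (Node n × Fin n × Row k n1)) (h : ∀ j, Y j ⊆ Y' j) :
    (instO hn rv σ Y : CIdx n n (2 * s + 1) → Bool) ≤ instO hn rv σ Y' := by
  sorry

theorem instO_coord {n k n1 m s : ℕ} (hn : 0 < n) (rv : Fin m × Row k n1 → Fin n)
    (hrv : Function.Injective rv) (σ : Fin n) (Y : Fin m → Set (Node n × Fin n × Row k n1))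
    (j : Fin m) (i : CIdx n n (2 * s + 1)) :
    (∃ b, ∀ Z, instO hn rv σ (Function.update Y j Z) i = b) ∨
      ∃ v, ∀ Z, instO hn rv σ (Function.update Y j Z) i = true ↔ v ∈ Z := by
  sorry

theorem instO_pos {n k n1 m s : ℕ} (hn : 0 < n) (hs : 1 ≤ s) (hk : 0 < k)
    (rv : Fin m × Row k n1 → Fin n)
    (hrv : Function.Injective rv) (hm : m ≤ n) (σ : Fin n)
    (Y : Fin m → Set (Node n × Fin n × Row k n1)) (j : Fin m) (ω : OmPO n k n1 s) :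
    WSat (2 * s + 1) k (instO hn rv σ (Function.update Y j (PosO ω))) := by
  sorry

theorem instO_neg {n k n1 d0 m s : ℕ} (hn : 0 < n) (hs : 1 ≤ s) (hk : 0 < k) (hkn : k ≤ n)
    (rv : Fin m × Row k n1 → Fin n) (hrv : Function.Injective rv) (σ : Fin n)
    (ω : Fin m → OmNO n k n1 d0 s) (h : ∀ j, GoodO σ (ω j)) :
    ¬ WSat (2 * s + 1) k (instO hn rv σ (fun j => NegO (ω j))) := by
  sorry

theorem instO0_mono {n k n1 m : ℕ} (rv : Fin m × Row k n1 → Fin n)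
    (Y Y' : Fin m → Set (Node n × Fin n × Row k n1)) (h : ∀ j, Y j ⊆ Y' j) :
    (instO0 rv Y : CIdx n n 1 → Bool) ≤ instO0 rv Y' := by
  sorry

theorem instO0_coord {n k n1 m : ℕ} (rv : Fin m × Row k n1 → Fin n)
    (hrv : Function.Injective rv) (Y : Fin m → Set (Node n × Fin n × Row k n1))
    (j : Fin m) (i : CIdx n n 1) :
    (∃ b, ∀ Z, instO0 rv (Function.update Y j Z) i = b) ∨
      ∃ v, ∀ Z, instO0 rv (Function.update Y j Z) i = true ↔ v ∈ Z := by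
  sorry

theorem instO0_pos {n k n1 m : ℕ} (rv : Fin m × Row k n1 → Fin n)
    (hrv : Function.Injective rv) (Y : Fin m → Set (Node n × Fin n × Row k n1)) (j : Fin m)
    (ω : OmPO n k n1 0) : WSat 1 k (instO0 rv (Function.update Y j (PosO ω))) := by
  sorry

theorem instO0_neg {n k n1 d0 m : ℕ} (rv : Fin m × Row k n1 → Fin n)
    (hrv : Function.Injective rv) (ω : Fin m → OmNO n k n1 d0 0) (h : Good0 ω) :
    ¬ WSat 1 k (instO0 rv (fun j => NegO (ω j))) := by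
  sorry

/-! ### Task H0 : killing for two levels -/

theorem kill_0 {m n k n1 d0 : ℕ} (hd : 0 < d0) :
    pr {ω : Fin m → OmNO n k n1 d0 0 | ¬ Good0 ω} ≤
      ((m * (k * n1) + 1 : ℕ) : ℝ) ^ k * Real.exp (-(n : ℝ) / (d0 : ℝ) ^ k) := by
  sorry

/-! ### Task Q : numerics -/

theorem num_E (s c q : ℕ) (hs : 1 ≤ s) (hq : 1 ≤ q) : ∃ k : ℕ, 0 < k ∧ ∀ F g : ℕ, ∃ n0 : ℕ,
    ∀ n ≥ n0, ∃ m n1 d0 : ℕ, m * (k * n1) ≤ n ∧ k ≤ n ∧
      (∀ P : ℕ, P ^ q ≤ n ^ (q - 1) → 2 * P ≤ m) ∧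
      (m : ℝ) * (((k * n1 : ℕ) : ℝ) ^ k * Real.exp (-((n - 1 : ℕ) : ℝ) / (d0 : ℝ) ^ k)) ≤ 1 / 4 ∧
      ∀ A N S0 : ℕ, 1 ≤ A → A ≤ F * n ^ c → N ≤ F * n ^ c →
        S0 ≤ F * n ^ c + n + 2 * N * A ^ (2 * s - 1) → NumE n k n1 d0 s A N g S0 := by
  sorry

theorem num_O (s c q : ℕ) (hs : 1 ≤ s) (hq : 1 ≤ q) : ∃ k : ℕ, 0 < k ∧ ∀ F g : ℕ, ∃ n0 : ℕ,
    ∀ n ≥ n0, ∃ m n1 d0 : ℕ, m * (k * n1) ≤ n ∧ k ≤ n ∧
      (∀ P : ℕ, P ^ q ≤ n ^ (q - 1) → 2 * P ≤ m) ∧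
      (m : ℝ) * (((k * n1 : ℕ) : ℝ) ^ k * ((n : ℝ) ^ (2 * s) + 1) *
        Real.exp (-((n - 1 : ℕ) : ℝ) / (d0 : ℝ) ^ k)) ≤ 1 / 4 ∧
      ∀ A N S0 : ℕ, 1 ≤ A → A ≤ F * n ^ c → N ≤ F * n ^ c →
        S0 ≤ F * n ^ c + n + 2 * N * A ^ (2 * s) → NumO n k n1 d0 s A N g S0 := by
  sorry

theorem num_O0 (c q : ℕ) (hq : 1 ≤ q) : ∃ k : ℕ, 0 < k ∧ ∀ F g : ℕ, ∃ n0 : ℕ,
    ∀ n ≥ n0, ∃ m n1 d0 : ℕ, m * (k * n1) ≤ n ∧ k ≤ n ∧
      (∀ P : ℕ, P ^ q ≤ n ^ (q - 1) → 2 * P ≤ m) ∧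
      ((m * (k * n1) + 1 : ℕ) : ℝ) ^ k * Real.exp (-(n : ℝ) / (d0 : ℝ) ^ k) ≤ 1 / 4 ∧
      ∀ N S0 : ℕ, N ≤ F * n ^ c →
        S0 ≤ F * n ^ c + n + (2 * N) ^ 2 → NumO0 n k n1 d0 N g S0 := by
  sorry

/-! ### Task T : targets (uses D-G, K, L) -/

theorem tgt_E {n k n1 d0 r A N g S0 : ℕ} (hnum : NumE n k n1 d0 (r + 1) A N g S0)
    (L : List (Set (Node n × Row k n1) → Bool))
    (f : CIdx A N (2 * r + 1) → Set (Node n × Row k n1) → Bool) (hL : MProg (B0 _) L)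
    (hlen : L.length ≤ S0) (hf : ∀ o, Av (B0 _) L (f o))
    (hpos : ∀ ω : OmPE n k n1 (r + 1), WSat (2 * r + 1) g (fun o => f o (PosE ω))) :
    pr {ω : OmNE n k n1 d0 (r + 1) | ¬ WSat (2 * r + 1) g (fun o => f o (NegE ω))} ≤ 1 / 4 := by
  sorry

theorem tgt_O {n k n1 d0 s A N g S0 : ℕ} (hnum : NumO n k n1 d0 s A N g S0)
    (L : List (Set (Node n × Fin n × Row k n1) → Bool))
    (f : CIdx A N (2 * s) → Set (Node n × Fin n × Row k n1) → Bool) (hL : MProg (B0 _) L)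
    (hlen : L.length ≤ S0) (hf : ∀ o, Av (B0 _) L (f o))
    (hpos : ∀ ω : OmPO n k n1 s, WSat (2 * s) g (fun o => f o (PosO ω))) :
    pr {ω : OmNO n k n1 d0 s | ¬ WSat (2 * s) g (fun o => f o (NegO ω))} ≤ 1 / 4 := by
  sorry

theorem tgt_O0 {n k n1 d0 N g S0 : ℕ} (hnum : NumO0 n k n1 d0 N g S0)
    (L : List (Set (Node n × Fin n × Row k n1) → Bool))
    (f : (Fin N × Bool) × (Fin N × Bool) → Set (Node n × Fin n × Row k n1) → Bool)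
    (hL : MProg (B0 _) L) (hlen : L.length ≤ S0) (hf : ∀ o, Av (B0 _) L (f o))
    (hpos : ∀ ω : OmPO n k n1 0, WSat2 g (fun o => f o (PosO ω))) :
    pr {ω : OmNO n k n1 d0 0 | ¬ WSat2 g (fun o => f o (NegO ω))} ≤ 1 / 4 := by
  sorry

/-! ### Task V : the theorems -/

/-- Levels `t = 2 (r + 1)`. -/
theorem main_E (r c q : ℕ) (hq : 1 ≤ q) : ∃ k : ℕ, ∀ F g : ℕ, ∃ n0 : ℕ, ∀ n ≥ n0,
    ∀ A N : ℕ, A ≤ F * n ^ c → N ≤ F * n ^ c →
    ∀ (M : ℕ) (C : Circuit (CIdx n n (2 * (r + 1))) M)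
      (out : CIdx A N (2 * r + 1) → Wire (CIdx n n (2 * (r + 1))) M),
      C.size ≤ F * n ^ c → (C.fanins.map (· + 1)).prod ^ q ≤ n ^ (q - 1) →
      ¬ ∀ x, WSat (2 * (r + 1)) k x ↔ WSat (2 * r + 1) g (fun o => (out o).eval x (C.vals x)) := by
  sorry

/-- Levels `t = 2 s + 1`, `s ≥ 1`. -/
theorem main_O (s c q : ℕ) (hs : 1 ≤ s) (hq : 1 ≤ q) : ∃ k : ℕ, ∀ F g : ℕ, ∃ n0 : ℕ, ∀ n ≥ n0,
    ∀ A N : ℕ, A ≤ F * n ^ c → N ≤ F * n ^ c →
    ∀ (M : ℕ) (C : Circuit (CIdx n n (2 * s + 1)) M)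
      (out : CIdx A N (2 * s) → Wire (CIdx n n (2 * s + 1)) M),
      C.size ≤ F * n ^ c → (C.fanins.map (· + 1)).prod ^ q ≤ n ^ (q - 1) →
      ¬ ∀ x, WSat (2 * s + 1) k x ↔ WSat (2 * s) g (fun o => (out o).eval x (C.vals x)) := by
  sorry

/-- Level `t = 1`. -/
theorem main_1 (c q : ℕ) (hq : 1 ≤ q) : ∃ k : ℕ, ∀ F g : ℕ, ∃ n0 : ℕ, ∀ n ≥ n0,
    ∀ N : ℕ, N ≤ F * n ^ c →
    ∀ (M : ℕ) (C : Circuit (CIdx n n 1) M)
      (out : (Fin N × Bool) × (Fin N × Bool) → Wire (CIdx n n 1) M),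
      C.size ≤ F * n ^ c → (C.fanins.map (· + 1)).prod ^ q ≤ n ^ (q - 1) →
      ¬ ∀ x, WSat 1 k x ↔ WSat2 g (fun o => (out o).eval x (C.vals x)) := by
  sorry

end Pool.Agent.H679R2.WH.BP2
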