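import Pool.Agent.H679R2.WH.Codes2
import Pool.Agent.H679R2.WH.Nums

/-! Blueprint, part 3 (instances with addresses): all statements with `sorry`. -/

set_option autoImplicit false

namespace Pool.Agent.H679R2.WH.BP3

open Pool.Agent.H520R2 Pool.Agent.H520R2.NM Pool.Agent.H679R2.WH

/-! ### Task S1 -/

theorem realz_exists {n h b k n1 co : ℕ} (h1 : h * b + 1 + (co + k) + k * h + co ≤ n)
    (h2 : co * h + h * (k * n1) ≤ n) (h3 : h ≤ n) :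
    ∃ (dc : Fin n → Ch h b) (vc : Fin n → Vr h k n1), Realz co dc vc := by
  sorry

theorem ixE_exists {h s m : ℕ} (hh : 0 < h) (hm : m ≤ h ^ (2 * s + 1)) (hm0 : 0 < m) :
    ∃ ix : Node h × Fin h → Fin m, ∀ j, ∃ ad γ, ad.length = s ∧ ix (ad, γ) = j := by
  sorry

theorem ixO_exists {h s m : ℕ} (hh : 0 < h) (hm : m ≤ h ^ (2 * s + 2)) (hm0 : 0 < m) :
    ∃ ix : Node h × Fin h × Fin h → Fin m,
      ∀ j, ∃ ad α γ, ad.length = s ∧ ix (ad, α, γ) = j := by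
  sorry

/-! ### Task S2 : monotonicity and coordinates -/

theorem instE2_mono {n h b k n1 m s : ℕ} (hn : 0 < n) (dc : Fin n → Ch h b)
    (vc : Fin n → Vr h k n1) (ix : Node h × Fin h → Fin m)
    (Y Y' : Fin m → Set (Node b × Row k n1)) (hY : ∀ j, Y j ⊆ Y' j) :
    (instE2 hn dc vc ix Y : CIdx n n (2 * s) → Bool) ≤ instE2 hn dc vc ix Y' := by
  sorry

theorem instE2_coord {n h b k n1 m s : ℕ} (hn : 0 < n) (dc : Fin n → Ch h b)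
    (vc : Fin n → Vr h k n1) (ix : Node h × Fin h → Fin m)
    (Y : Fin m → Set (Node b × Row k n1)) (j : Fin m) (i : CIdx n n (2 * s)) :
    (∃ c, ∀ Z, instE2 hn dc vc ix (Function.update Y j Z) i = c) ∨
      ∃ v, ∀ Z, instE2 hn dc vc ix (Function.update Y j Z) i = true ↔ v ∈ Z := by
  sorry

theorem instO2_mono {n h b k n1 m s : ℕ} (hn : 0 < n) (dc : Fin n → Ch h b)
    (vc : Fin n → Vr h k n1) (ix : Node h × Fin h × Fin h → Fin m)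
    (Y Y' : Fin m → Set (Node b × Fin b × Row k n1)) (hY : ∀ j, Y j ⊆ Y' j) :
    (instO2 hn dc vc ix Y : CIdx n n (2 * s + 1) → Bool) ≤ instO2 hn dc vc ix Y' := by
  sorry

theorem instO2_coord {n h b k n1 m s : ℕ} (hn : 0 < n) (dc : Fin n → Ch h b)
    (vc : Fin n → Vr h k n1) (ix : Node h × Fin h × Fin h → Fin m)
    (Y : Fin m → Set (Node b × Fin b × Row k n1)) (j : Fin m) (i : CIdx n n (2 * s + 1)) :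
    (∃ c, ∀ Z, instO2 hn dc vc ix (Function.update Y j Z) i = c) ∨
      ∃ v, ∀ Z, instO2 hn dc vc ix (Function.update Y j Z) i = true ↔ v ∈ Z := by
  sorry

/-! ### Task S3 : odd case, positive instances -/

theorem instE2_pos {n h b k n1 m s : ℕ} (hn : 0 < n) (hs : 1 ≤ s) (dc : Fin n → Ch h b)
    (vc : Fin n → Vr h k n1) (R : Realz (2 * s) dc vc) (ix : Node h × Fin h → Fin m)
    (hix : ∀ j, ∃ ad γ, ad.length = s ∧ ix (ad, γ) = j)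
    (Y : Fin m → Set (Node b × Row k n1)) (j : Fin m) (ω : OmPE b k n1 s) :
    WSat (2 * s) (2 * s + k) (instE2 hn dc vc ix (Function.update Y j (PosE ω))) := by
  sorry

/-! ### Task S4 : odd case, negative instances -/

theorem instE2_neg {n h b k n1 d0 m s : ℕ} (hn : 0 < n) (hs : 1 ≤ s) (hk : 0 < k) (hh : 0 < h)
    (dc : Fin n → Ch h b)
    (vc : Fin n → Vr h k n1) (R : Realz (2 * s) dc vc) (ix : Node h × Fin h → Fin m)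
    (σ : Fin b) (ω : Fin m → OmNE b k n1 d0 s) (hgood : ∀ j, GoodE σ (ω j)) :
    ¬ WSat (2 * s) (2 * s + k) (instE2 hn dc vc ix (fun j => NegE (ω j))) := by
  sorry

/-! ### Task S5 : even case, positive instances (`s = 0` allowed) -/

theorem instO2_pos {n h b k n1 m s : ℕ} (hn : 0 < n) (hk : 0 < k) (dc : Fin n → Ch h b)
    (vc : Fin n → Vr h k n1) (R : Realz (2 * s + 2) dc vc)
    (ix : Node h × Fin h × Fin h → Fin m)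
    (hix : ∀ j, ∃ ad α γ, ad.length = s ∧ ix (ad, α, γ) = j)
    (Y : Fin m → Set (Node b × Fin b × Row k n1)) (j : Fin m) (ω : OmPO b k n1 s) :
    WSat (2 * s + 1) (2 * s + 2 + k) (instO2 hn dc vc ix (Function.update Y j (PosO ω))) := by
  sorry

/-! ### Task S6 : even case, negative instances (`s = 0` allowed) -/

theorem instO2_neg {n h b k n1 d0 m s : ℕ} (hn : 0 < n) (hk : 0 < k) (hh : 0 < h)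
    (dc : Fin n → Ch h b)
    (vc : Fin n → Vr h k n1) (R : Realz (2 * s + 2) dc vc)
    (ix : Node h × Fin h × Fin h → Fin m)
    (σ : Fin b) (ω : Fin m → OmNO b k n1 d0 s) (hgood : ∀ j, GoodO σ (ω j)) :
    ¬ WSat (2 * s + 1) (2 * s + 2 + k) (instO2 hn dc vc ix (fun j => NegO (ω j))) := by
  sorry

/-! ### Numerics, version 2 (Q1, Q2, Q3) -/

theorem num_E2 (s c q : ℕ) (hs : 1 ≤ s) (hq : 1 ≤ q) : ∃ k : ℕ, 0 < k ∧ ∀ F g e : ℕ,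
    ∃ n0 : ℕ, ∀ n ≥ n0, ∃ m n1 d0 : ℕ, m * (k * n1) ≤ n ∧ k ≤ n ∧
      (∀ P : ℕ, P ^ q ≤ n ^ (q - 1) → 2 * P ≤ m) ∧
      (m : ℝ) * (((k * n1 : ℕ) : ℝ) ^ k * Real.exp (-((n - 1 : ℕ) : ℝ) / (d0 : ℝ) ^ k)) ≤ 1 / 4 ∧
      (n : ℝ) ^ e * (((k * n1 : ℕ) : ℝ) ^ k *
        Real.exp (-((n - 1 : ℕ) : ℝ) / (d0 : ℝ) ^ k)) ≤ 1 / 4 ∧
      ∀ A N S0 : ℕ, 1 ≤ A → A ≤ F * n ^ c → N ≤ F * n ^ c →
        S0 ≤ F * n ^ c + n + 2 * N * A ^ (2 * s - 1) → NumE n k n1 d0 s A N g S0 := by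
  sorry

theorem num_O2 (s c q : ℕ) (hs : 1 ≤ s) (hq : 1 ≤ q) : ∃ k : ℕ, 0 < k ∧ ∀ F g e : ℕ,
    ∃ n0 : ℕ, ∀ n ≥ n0, ∃ m n1 d0 : ℕ, m * (k * n1) ≤ n ∧ k ≤ n ∧
      (∀ P : ℕ, P ^ q ≤ n ^ (q - 1) → 2 * P ≤ m) ∧
      (m : ℝ) * (((k * n1 : ℕ) : ℝ) ^ k * ((n : ℝ) ^ (2 * s) + 1) *
        Real.exp (-((n - 1 : ℕ) : ℝ) / (d0 : ℝ) ^ k)) ≤ 1 / 4 ∧
      (n : ℝ) ^ e * (((k * n1 : ℕ) : ℝ) ^ k * ((n : ℝ) ^ (2 * s) + 1) *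
        Real.exp (-((n - 1 : ℕ) : ℝ) / (d0 : ℝ) ^ k)) ≤ 1 / 4 ∧
      ∀ A N S0 : ℕ, 1 ≤ A → A ≤ F * n ^ c → N ≤ F * n ^ c →
        S0 ≤ F * n ^ c + n + 2 * N * A ^ (2 * s) → NumO n k n1 d0 s A N g S0 := by
  sorry

theorem num_O02 (c q : ℕ) (hq : 1 ≤ q) : ∃ k : ℕ, 0 < k ∧ ∀ F g e : ℕ, ∃ n0 : ℕ,
    ∀ n ≥ n0, ∃ m n1 d0 : ℕ, m * (k * n1) ≤ n ∧ k ≤ n ∧
      (∀ P : ℕ, P ^ q ≤ n ^ (q - 1) → 2 * P ≤ m) ∧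
      ((m * (k * n1) + 1 : ℕ) : ℝ) ^ k * Real.exp (-(n : ℝ) / (d0 : ℝ) ^ k) ≤ 1 / 4 ∧
      (n : ℝ) ^ e * (((k * n1 : ℕ) : ℝ) ^ k * ((n : ℝ) ^ (2 * 0) + 1) *
        Real.exp (-((n - 1 : ℕ) : ℝ) / (d0 : ℝ) ^ k)) ≤ 1 / 4 ∧
      ∀ N S0 : ℕ, N ≤ F * n ^ c →
        S0 ≤ F * n ^ c + n + (2 * N) ^ 2 → NumO0 n k n1 d0 N g S0 := by
  sorry

/-! ### Task P0 : splitting n -/

theorem split_n (q C B : ℕ) (hq : 1 ≤ q) (hC : 1 ≤ C) : ∃ n0 : ℕ, ∀ n ≥ n0, ∃ b h : ℕ,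
    B ≤ b ∧ 1 ≤ b ∧ 1 ≤ h ∧ b ^ (2 * q) ≤ n ∧ n ≤ (2 * b) ^ (2 * q) ∧ C * (h * b) ≤ n ∧
    2 ^ q * n ^ (q - 1) ≤ h ^ q := by
  sorry

/-! ### Tasks P1, P2, P3 : final parameters (use P0 and num_E2, num_O2, num_O02) -/

theorem par_E (s c q : ℕ) (hs : 1 ≤ s) (hq : 1 ≤ q) : ∃ k : ℕ, 0 < k ∧ ∀ F g : ℕ, ∃ n0 : ℕ,
    ∀ n ≥ n0, ∃ h b n1 d0 : ℕ, 0 < h ∧
      h * b + 1 + (2 * s + k) + k * h + 2 * s ≤ n ∧ 2 * s * h + h * (k * n1) ≤ n ∧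
      (∀ P : ℕ, P ^ q ≤ n ^ ((2 * s + 1) * (q - 1)) → 2 * P ≤ h ^ (2 * s + 1)) ∧
      ((h ^ (2 * s + 1) : ℕ) : ℝ) * (((k * n1 : ℕ) : ℝ) ^ k *
        Real.exp (-((b - 1 : ℕ) : ℝ) / (d0 : ℝ) ^ k)) ≤ 1 / 4 ∧
      ∀ A N S0 : ℕ, 1 ≤ A → A ≤ F * n ^ c → N ≤ F * n ^ c →
        S0 ≤ F * n ^ c + n ^ (2 * s + 1) + 2 * N * A ^ (2 * s - 1) →
        NumE b k n1 d0 s A N g S0 := by
  sorry

theorem par_O (s c q : ℕ) (hs : 1 ≤ s) (hq : 1 ≤ q) : ∃ k : ℕ, 0 < k ∧ ∀ F g : ℕ, ∃ n0 : ℕ,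
    ∀ n ≥ n0, ∃ h b n1 d0 : ℕ, 0 < h ∧
      h * b + 1 + (2 * s + 2 + k) + k * h + (2 * s + 2) ≤ n ∧
      (2 * s + 2) * h + h * (k * n1) ≤ n ∧
      (∀ P : ℕ, P ^ q ≤ n ^ ((2 * s + 2) * (q - 1)) → 2 * P ≤ h ^ (2 * s + 2)) ∧
      ((h ^ (2 * s + 2) : ℕ) : ℝ) * (((k * n1 : ℕ) : ℝ) ^ k * ((b : ℝ) ^ (2 * s) + 1) *
        Real.exp (-((b - 1 : ℕ) : ℝ) / (d0 : ℝ) ^ k)) ≤ 1 / 4 ∧
      ∀ A N S0 : ℕ, 1 ≤ A → A ≤ F * n ^ c → N ≤ F * n ^ c →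
        S0 ≤ F * n ^ c + n ^ (2 * s + 2) + 2 * N * A ^ (2 * s) →
        NumO b k n1 d0 s A N g S0 := by
  sorry

theorem par_O0 (c q : ℕ) (hq : 1 ≤ q) : ∃ k : ℕ, 0 < k ∧ ∀ F g : ℕ, ∃ n0 : ℕ,
    ∀ n ≥ n0, ∃ h b n1 d0 : ℕ, 0 < h ∧
      h * b + 1 + (2 + k) + k * h + 2 ≤ n ∧ 2 * h + h * (k * n1) ≤ n ∧
      (∀ P : ℕ, P ^ q ≤ n ^ (2 * (q - 1)) → 2 * P ≤ h ^ 2) ∧
      ((h ^ 2 : ℕ) : ℝ) * (((k * n1 : ℕ) : ℝ) ^ k * ((b : ℝ) ^ (2 * 0) + 1) *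
        Real.exp (-((b - 1 : ℕ) : ℝ) / (d0 : ℝ) ^ k)) ≤ 1 / 4 ∧
      ∀ N S0 : ℕ, N ≤ F * n ^ c →
        S0 ≤ F * n ^ c + n ^ 2 + (2 * N) ^ 2 → NumO0 b k n1 d0 N g S0 := by
  sorry

end Pool.Agent.H679R2.WH.BP3
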