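import Pool.Agent.H679R2.WH.ProbA

/-!
# Branching lemmas
-/

set_option autoImplicit false

namespace Pool.Agent.H679R2.WH

open Pool.Agent.H520R2

theorem branch {Ω S : Type} {m : Set Ω → ℝ} (hm : Msr m) (B : Set Ω) (Ev : S → Set Ω)
    (wt : S → ℝ) (rk : S → ℕ) (Inv : S → Prop) (r : ℕ) (ρ : ℝ) (hρ : 0 ≤ ρ)
    (hwt0 : ∀ σ, 0 ≤ wt σ)
    (hwt : ∀ σ, Inv σ → rk σ = r → m (Ev σ) ≤ wt σ)
    (hstep : ∀ σ, Inv σ → rk σ < r → B ∩ Ev σ = ∅ ∨ ∃ F : Finset S,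
      (∀ τ ∈ F, Inv τ ∧ rk τ = rk σ + 1) ∧ (B ∩ Ev σ ⊆ ⋃ τ ∈ F, Ev τ) ∧
      ∑ τ ∈ F, wt τ ≤ ρ * wt σ) :
    ∀ σ, Inv σ → rk σ ≤ r → m (B ∩ Ev σ) ≤ ρ ^ (r - rk σ) * wt σ := by
  have key : ∀ j, ∀ σ, Inv σ → rk σ + j = r → m (B ∩ Ev σ) ≤ ρ ^ j * wt σ := by
    intro j
    induction j with
    | zero =>
      intro σ hσ hr
      rw [pow_zero, one_mul]
      exact (hm.mono _ _ Set.inter_subset_right).trans (hwt σ hσ (by omega))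
    | succ j ih =>
      intro σ hσ hr
      rcases hstep σ hσ (by omega) with h0 | ⟨F, hF, hsub, hsum⟩
      · rw [h0, hm.empty]
        exact mul_nonneg (pow_nonneg hρ _) (hwt0 σ)
      · have h1 : B ∩ Ev σ ⊆ ⋃ τ ∈ F, (B ∩ Ev τ) := by
          intro x hx
          have h2 := hsub hx
          simp only [Set.mem_iUnion] at h2 ⊢
          obtain ⟨τ, hτ, hx2⟩ := h2
          exact ⟨τ, hτ, hx.1, hx2⟩
        calc m (B ∩ Ev σ) ≤ m (⋃ τ ∈ F, (B ∩ Ev τ)) := hm.mono _ _ h1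
          _ ≤ ∑ τ ∈ F, m (B ∩ Ev τ) := hm.finset_union F _
          _ ≤ ∑ τ ∈ F, ρ ^ j * wt τ := Finset.sum_le_sum (fun τ hτ =>
              ih τ (hF τ hτ).1 (by have := (hF τ hτ).2; omega))
          _ = ρ ^ j * ∑ τ ∈ F, wt τ := by rw [Finset.mul_sum]
          _ ≤ ρ ^ j * (ρ * wt σ) := mul_le_mul_of_nonneg_left hsum (pow_nonneg hρ _)
          _ = ρ ^ (j + 1) * wt σ := by ring
  intro σ hσ hr
  exact key (r - rk σ) σ hσ (by omega)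

theorem branch2 {Ω S : Type} {m : Set Ω → ℝ} (hm : Msr m) (B : Set Ω) (Ev : S → Set Ω)
    (wt : S → ℝ) (ra rb : S → ℕ) (Inv : S → Prop) (w1 w2 : ℕ) (a b α γ : ℝ)
    (ha : 0 ≤ a) (hb : 0 ≤ b) (hα : 0 < α) (hγ : 0 < γ)
    (hα2 : a + b * α ≤ α) (hγ2 : a * γ + b ≤ γ)
    (hwt0 : ∀ σ, 0 ≤ wt σ)
    (hwt : ∀ σ, Inv σ → m (Ev σ) ≤ wt σ)
    (hstep : ∀ σ, Inv σ → ra σ < w1 → rb σ < w2 → B ∩ Ev σ = ∅ ∨ ∃ FA FB : Finset S,
      (∀ τ ∈ FA, Inv τ ∧ ra τ = ra σ + 1 ∧ rb τ = rb σ) ∧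
      (∀ τ ∈ FB, Inv τ ∧ ra τ = ra σ ∧ rb τ = rb σ + 1) ∧
      (B ∩ Ev σ ⊆ (⋃ τ ∈ FA, Ev τ) ∪ ⋃ τ ∈ FB, Ev τ) ∧
      ∑ τ ∈ FA, wt τ ≤ a * wt σ ∧ ∑ τ ∈ FB, wt τ ≤ b * wt σ) :
    ∀ σ, Inv σ → ra σ ≤ w1 → rb σ ≤ w2 →
      m (B ∩ Ev σ) ≤ (α ^ (w1 - ra σ) + γ ^ (w2 - rb σ)) * wt σ := by
  have key : ∀ n, ∀ i j, i + j = n → ∀ σ, Inv σ → ra σ + i = w1 → rb σ + j = w2 →
      m (B ∩ Ev σ) ≤ (α ^ i + γ ^ j) * wt σ := by
    intro n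
    induction n using Nat.strong_induction_on with
    | _ n ih =>
    intro i j hn σ hσ hi hj
    have hbase : m (B ∩ Ev σ) ≤ wt σ :=
      (hm.mono _ _ Set.inter_subset_right).trans (hwt σ hσ)
    have hw := hwt0 σ
    rcases Nat.eq_zero_or_pos i with rfl | hipos
    · have h1 : 0 ≤ γ ^ j * wt σ := by positivity
      rw [pow_zero, add_mul, one_mul]
      linarith
    rcases Nat.eq_zero_or_pos j with rfl | hjpos
    · have h1 : 0 ≤ α ^ i * wt σ := by positivity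
      rw [pow_zero, add_mul, one_mul]
      linarith
    obtain ⟨i, rfl⟩ : ∃ i', i = i' + 1 := ⟨i - 1, by omega⟩
    obtain ⟨j, rfl⟩ : ∃ j', j = j' + 1 := ⟨j - 1, by omega⟩
    rcases hstep σ hσ (by omega) (by omega) with h0 | ⟨FA, FB, hFA, hFB, hsub, hsA, hsB⟩
    · rw [h0, hm.empty]
      positivity
    · have h1 : B ∩ Ev σ ⊆ (⋃ τ ∈ FA, (B ∩ Ev τ)) ∪ ⋃ τ ∈ FB, (B ∩ Ev τ) := by
        intro x hx
        rcases hsub hx with h2 | h2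
        · left
          simp only [Set.mem_iUnion] at h2 ⊢
          obtain ⟨τ, hτ, hx2⟩ := h2
          exact ⟨τ, hτ, hx.1, hx2⟩
        · right
          simp only [Set.mem_iUnion] at h2 ⊢
          obtain ⟨τ, hτ, hx2⟩ := h2
          exact ⟨τ, hτ, hx.1, hx2⟩
      have hA : m (⋃ τ ∈ FA, (B ∩ Ev τ)) ≤ (α ^ i + γ ^ (j + 1)) * (a * wt σ) := by
        calc m (⋃ τ ∈ FA, (B ∩ Ev τ)) ≤ ∑ τ ∈ FA, m (B ∩ Ev τ) := hm.finset_union FA _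
          _ ≤ ∑ τ ∈ FA, (α ^ i + γ ^ (j + 1)) * wt τ := Finset.sum_le_sum (fun τ hτ =>
              ih (i + (j + 1)) (by omega) i (j + 1) rfl τ (hFA τ hτ).1
                (by have := (hFA τ hτ).2.1; omega) (by have := (hFA τ hτ).2.2; omega))
          _ = (α ^ i + γ ^ (j + 1)) * ∑ τ ∈ FA, wt τ := by rw [Finset.mul_sum]
          _ ≤ _ := mul_le_mul_of_nonneg_left hsA (by positivity)
      have hB : m (⋃ τ ∈ FB, (B ∩ Ev τ)) ≤ (α ^ (i + 1) + γ ^ j) * (b * wt σ) := by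
        calc m (⋃ τ ∈ FB, (B ∩ Ev τ)) ≤ ∑ τ ∈ FB, m (B ∩ Ev τ) := hm.finset_union FB _
          _ ≤ ∑ τ ∈ FB, (α ^ (i + 1) + γ ^ j) * wt τ := Finset.sum_le_sum (fun τ hτ =>
              ih ((i + 1) + j) (by omega) (i + 1) j rfl τ (hFB τ hτ).1
                (by have := (hFB τ hτ).2.1; omega) (by have := (hFB τ hτ).2.2; omega))
          _ = (α ^ (i + 1) + γ ^ j) * ∑ τ ∈ FB, wt τ := by rw [Finset.mul_sum]
          _ ≤ _ := mul_le_mul_of_nonneg_left hsB (by positivity)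
      have h2 := (hm.mono _ _ h1).trans (hm.union _ _)
      have h3 : α ^ i * (a + b * α) ≤ α ^ i * α :=
        mul_le_mul_of_nonneg_left hα2 (by positivity)
      have h4 : γ ^ j * (a * γ + b) ≤ γ ^ j * γ :=
        mul_le_mul_of_nonneg_left hγ2 (by positivity)
      calc m (B ∩ Ev σ) ≤ (α ^ i + γ ^ (j + 1)) * (a * wt σ)
            + (α ^ (i + 1) + γ ^ j) * (b * wt σ) := by linarith
        _ = (α ^ i * (a + b * α) + γ ^ j * (a * γ + b)) * wt σ := by ring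
        _ ≤ (α ^ i * α + γ ^ j * γ) * wt σ := mul_le_mul_of_nonneg_right (by linarith) hw
        _ = (α ^ (i + 1) + γ ^ (j + 1)) * wt σ := by ring
  intro σ hσ h1 h2
  exact key _ (w1 - ra σ) (w2 - rb σ) rfl σ hσ (by omega) (by omega)

end Pool.Agent.H679R2.WH
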