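import Mathlib
import Pool.Agent.H520R2.NM

/-!
# Weighted satisfiability hierarchy and monotone reductions: definitions
-/

set_option autoImplicit false

namespace Pool.Agent.H679R2.WH

open Pool.Agent.H520R2

/-! ### Finite probability -/

/-- The uniform probability of an event on a finite type. -/
noncomputable def pr {Ω : Type} [Fintype Ω] (A : Set Ω) : ℝ := (A.ncard : ℝ) / Fintype.card Ω

/-- The uniform probability of the event `A` on the finite set `F`. -/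
noncomputable def prOn {Ω : Type} (F : Set Ω) (A : Set Ω) : ℝ := ((A ∩ F).ncard : ℝ) / F.ncard

/-- A monotone subadditive set function. -/
structure Msr {Ω : Type} (m : Set Ω → ℝ) : Prop where
  empty : m ∅ = 0
  nonneg : ∀ A, 0 ≤ m A
  mono : ∀ A B, A ⊆ B → m A ≤ m B
  union : ∀ A B, m (A ∪ B) ≤ m A + m B

/-! ### Terms, clauses, approximators -/

/-- Base functions: constants and the variables `v ∈ Y`. -/
def B0 (V : Type) : Set (Set V → Bool) :=
  {f | (∃ b, f = fun _ => b) ∨ ∃ v, ∀ Y : Set V, f Y = true ↔ v ∈ Y}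

/-- Every family of terms of size at most `W` all falsified by a random `Neg ω` has, up to
probability `ε`, a falsified clause of size at most `K` that meets all terms. -/
def SwitchN {Ω V : Type} [Fintype Ω] (Neg : Ω → Set V) (W K : ℕ) (ε : ℝ) : Prop :=
  ∀ D : Set (Finset V), (∀ T ∈ D, T.card ≤ W) →
    pr {ω | (∀ T ∈ D, ¬ ((T : Set V) ⊆ Neg ω)) ∧
      ∀ R : Finset V, R.card ≤ K → (∀ T ∈ D, ∃ v ∈ R, v ∈ T) → ∃ v ∈ R, v ∈ Neg ω} ≤ ε

/-- Every family of clauses of size at most `K` all satisfied by a random `Pos ω` has, up to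
probability `ε`, a true term of size at most `W` that meets all clauses. -/
def SwitchP {Ω V : Type} [Fintype Ω] (Pos : Ω → Set V) (W K : ℕ) (ε : ℝ) : Prop :=
  ∀ C : Set (Finset V), (∀ R ∈ C, R.card ≤ K) →
    pr {ω | (∀ R ∈ C, ∃ v ∈ R, v ∈ Pos ω) ∧
      ¬ ∃ T : Finset V, T.card ≤ W ∧ (T : Set V) ⊆ Pos ω ∧ ∀ R ∈ C, ∃ v ∈ R, v ∈ T} ≤ ε

/-- The pair `D` (terms), `C` (clauses) approximates `f` outside the exceptional sets. -/
def Approx {ΩP ΩN V : Type} (Pos : ΩP → Set V) (Neg : ΩN → Set V) (W K : ℕ)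
    (EP : Set ΩP) (EN : Set ΩN) (f : Set V → Bool) (D C : Set (Finset V)) : Prop :=
  (∀ T ∈ D, T.card ≤ W) ∧ (∀ R ∈ C, R.card ≤ K) ∧ (∀ T ∈ D, ∀ R ∈ C, ∃ v ∈ R, v ∈ T) ∧
  (∀ ω, ω ∉ EP → f (Pos ω) = true → ∃ T ∈ D, (T : Set V) ⊆ Pos ω) ∧
  (∀ ω, ω ∉ EN → (∀ R ∈ C, ∃ v ∈ R, v ∈ Neg ω) → f (Neg ω) = true)

/-! ### Nodes -/

/-- A node `(a_d, b_d) :: ... :: (a_1, b_1) :: []` of depth `d` (last pair first). -/
abbrev Node (n : ℕ) := List (Fin n × Fin n)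

/-- A half node `(q, a)`: the node `q` followed by a universal choice `a`. -/
abbrev HNode (n : ℕ) := Node n × Fin n

/-- Nodes of depth less than `s`. -/
def NodeLT (n s : ℕ) : Type := {q : Node n // q.length < s}

/-- Nodes of depth `s`. -/
def NodeEQ (n s : ℕ) : Type := {q : Node n // q.length = s}

noncomputable instance (n s : ℕ) : Fintype (NodeLT n s) :=
  (List.finite_length_lt (Fin n × Fin n) s).fintype

noncomputable instance (n s : ℕ) : Fintype (NodeEQ n s) :=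
  (List.finite_length_eq (Fin n × Fin n) s).fintype

noncomputable instance (n s : ℕ) : DecidableEq (NodeLT n s) := Classical.decEq _
noncomputable instance (n s : ℕ) : DecidableEq (NodeEQ n s) := Classical.decEq _

/-- The first universal choice of a half node. -/
def htop {n : ℕ} (h : HNode n) : Fin n := (h.1.getLast?.map Prod.fst).getD h.2

/-- The first universal choice of a node (none for the root). -/
def ftop {n : ℕ} : Node n → Option (Fin n)
  | [] => none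
  | (a, _) :: q => some (htop (q, a))

/-- The node lies on the tree chosen by `β`. -/
def InP {n s : ℕ} (β : NodeLT n s × Fin n → Fin n) : Node n → Prop
  | [] => True
  | (a, b) :: q => InP β q ∧ ∃ h : q.length < s, β (⟨q, h⟩, a) = b

/-- The universal choices of the node (after the first one) follow `as`. -/
def Fol {n s : ℕ} (as : NodeLT n s → Fin n) : Node n → Prop
  | [] => True
  | (a, _) :: q => Fol as q ∧ (q = [] ∨ ∃ h : q.length < s, as ⟨q, h⟩ = a)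

/-- The half node is semi-bad: the first choice is in `K` and the path follows `as`. -/
def SB {n s : ℕ} (K : Fin n → Prop) (as : NodeLT n s → Fin n) (h : HNode n) : Prop :=
  K (htop h) ∧ Fol as h.1 ∧ (h.1 = [] ∨ ∃ hl : h.1.length < s, as ⟨h.1, hl⟩ = h.2)

/-- Rows: a colour and a value. -/
abbrev Row (k n1 : ℕ) := Fin k × Fin n1

/-! ### Test distributions, odd source level (`t = 2 s`) -/

abbrev OmPE (n k n1 s : ℕ) := (Fin k → Fin n1) × (NodeLT n s × Fin n → Fin n)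

/-- Positive tests. -/
def PosE {n k n1 s : ℕ} (ω : OmPE n k n1 s) : Set (Node n × Row k n1) :=
  {x | x.1.length = s ∧ InP ω.2 x.1 ∧ ω.1 x.2.1 = x.2.2}

abbrev OmNE (n k n1 d0 s : ℕ) :=
  (Fin n × Row k n1 → Fin d0) × (NodeLT n s → Fin n) × (NodeEQ n s → Fin k)

/-- Negative tests. -/
def NegE {n k n1 d0 s : ℕ} (ω : OmNE n k n1 d0 s) : Set (Node n × Row k n1) :=
  {x | ¬ ∃ (h : x.1.length = s) (a : Fin n), ftop x.1 = some a ∧ Fol ω.2.1 x.1 ∧
    (ω.1 (a, x.2)).val = (ω.2.2 ⟨x.1, h⟩).val}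

/-! ### Test distributions, even source level (`t = 2 s + 1`) -/

abbrev OmPO (n k n1 s : ℕ) :=
  (Fin k → Fin n1) × (NodeLT n s × Fin n → Fin n) × (NodeEQ n s × Fin n → Fin k)

/-- Positive tests. -/
def PosO {n k n1 s : ℕ} (ω : OmPO n k n1 s) : Set (Node n × Fin n × Row k n1) :=
  {x | ∃ h : x.1.length = s, InP ω.2.1 x.1 ∧
    x.2.2 = (ω.2.2 (⟨x.1, h⟩, x.2.1), ω.1 (ω.2.2 (⟨x.1, h⟩, x.2.1)))}

abbrev OmNO (n k n1 d0 s : ℕ) :=
  (Fin n × Row k n1 → Fin d0) × (NodeLT n s → Fin n) × (NodeEQ n s × Fin n × Row k n1 → Fin d0)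

/-- Marked rows: the root (`s = 0`) marks everything. -/
def Mk {n k n1 d0 : ℕ} (M : Fin n × Row k n1 → Fin d0) (p : Node n) (v : Row k n1) : Prop :=
  ∀ a, ftop p = some a → (M (a, v)).val = 0

/-- Negative tests. -/
def NegO {n k n1 d0 s : ℕ} (ω : OmNO n k n1 d0 s) : Set (Node n × Fin n × Row k n1) :=
  {x | ¬ ∃ h : x.1.length = s, Mk ω.1 x.1 x.2.2 ∧ Fol ω.2.1 x.1 ∧
    (ω.2.2 (⟨x.1, h⟩, x.2.1, x.2.2)).val = 0}

/-! ### Alternating prefixes -/

/-- `∀ a_1 ∃ b_1 ... ∀ a_r ∃ b_r, G [(a_1,b_1), ..., (a_r,b_r)]`. -/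
def AE (A : ℕ) : ℕ → (List (Fin A × Fin A) → Prop) → Prop
  | 0, G => G []
  | r + 1, G => ∀ a, ∃ b, AE A r (fun l => G ((a, b) :: l))

/-! ### Environment of the second phase -/

/-- The data of the second phase: a random choice tree (uniform on `F`), random semi-bad half
nodes, a core `τ0`. -/
structure Env (n : ℕ) (ΩB ΩN : Type) [Fintype ΩB] [Fintype ΩN] where
  inP : ΩB → Node n → Prop
  sb : ΩN → HNode n → Prop
  F : Set ΩB
  τ0 : Finset (Node n)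
  θ : ℝ
  hn : 0 < n
  hθ : 0 ≤ θ
  hF : F.Nonempty
  hτ0 : ∀ β ∈ F, ∀ p ∈ τ0, inP β p
  spread : ∀ σ : Finset (Node n), (∀ p ∈ σ, p ≠ []) →
    prOn F {β | ∀ p ∈ σ, inP β p} ≤ θ ^ (σ \ τ0).card
  par : ∀ β a b q, inP β ((a, b) :: q) → inP β q
  sbpar : ∀ N a b q a', sb N ((a, b) :: q, a') → sb N (q, a)
  sbpr : ∀ Z : Finset (HNode n), (∀ h ∈ Z, h.1 ≠ []) →
    pr {N | ∀ h ∈ Z, sb N h} ≤ (1 / (n : ℝ)) ^ Z.card

/-- The half node of a node (junk for the root). -/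
def half {n : ℕ} (hn : 0 < n) : Node n → HNode n
  | [] => ([], ⟨0, hn⟩)
  | (a, _) :: q => (q, a)

section
variable {n : ℕ} {ΩB ΩN : Type} [Fintype ΩB] [Fintype ΩN] (e : Env n ΩB ΩN)

/-- Certificates of depth `d`. -/
def HasT (d w : ℕ) (ηP ηN : ℝ) (GP : ΩB → Prop) (GN : ΩN → Prop) : Prop :=
  ∃ (T : Set (Finset (Node n))) (EP : Set ΩB) (EN : Set ΩN),
    prOn e.F EP ≤ ηP ∧ pr EN ≤ ηN ∧
    (∀ τ ∈ T, τ.card ≤ w ∧ ∀ p ∈ τ, p.length = d) ∧
    (∀ β ∈ e.F, β ∉ EP → GP β → ∃ τ ∈ T, ∀ p ∈ τ, e.inP β p) ∧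
    (∀ N, N ∉ EN → ∀ τ ∈ T, (∀ p ∈ τ, ¬ e.sb N (half e.hn p)) → GN N)

/-- Clauses of depth `d`. -/
def HasC (d κ : ℕ) (ηP ηN : ℝ) (GP : ΩB → Prop) (GN : ΩN → Prop) : Prop :=
  ∃ (C : Set (Finset (HNode n))) (EP : Set ΩB) (EN : Set ΩN),
    prOn e.F EP ≤ ηP ∧ pr EN ≤ ηN ∧
    (∀ R ∈ C, R.card ≤ κ ∧ ∀ h ∈ R, h.1.length + 1 = d) ∧
    (∀ β ∈ e.F, β ∉ EP → GP β → ∀ R ∈ C, ∃ h ∈ R, e.inP β h.1) ∧
    (∀ N, N ∉ EN → (∀ R ∈ C, ∃ h ∈ R, ¬ e.sb N h) → GN N)

end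

end Pool.Agent.H679R2.WH
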