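import Mathlib
import Pool.Agent.H679R2.WH.Defs

/-!
# Codes of formulas and the weighted satisfiability problems

`CIdx A N d` indexes the bits of the code of a formula of `Γ_{d+1,1}` (or `Δ_{d+1,1}`) over the
`N` variables `Fin N` all of whose gates, apart from those on the literal level, have fan-in `A`.
-/

set_option autoImplicit false

namespace Pool.Agent.H679R2.WH

/-- The literal `(v, true)` is the variable `v`, the literal `(v, false)` is its negation; `lit S l`
says that `l` is true under the assignment whose set of true variables is `S`. -/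
def lit {N : ℕ} (S : Finset (Fin N)) (l : Fin N × Bool) : Prop :=
  (l.2 = true ∧ l.1 ∈ S) ∨ (l.2 = false ∧ l.1 ∉ S)

/-- Indices of the bits of a code: a path of `d` choices out of `A` and a literal. -/
abbrev CIdx (A N d : ℕ) : Type := (Fin d → Fin A) × (Fin N × Bool)

/-- The value, under the assignment `S`, of the formula of `Γ_{d+1,1}` (second argument `true`) or
`Δ_{d+1,1}` (second argument `false`) with code `x`. On the literal level, the code of a
conjunction has bit `false` exactly at its literals, the code of a disjunction has bit `true`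
exactly at its literals. -/
def Val {A N : ℕ} (S : Finset (Fin N)) : (d : ℕ) → Bool → (CIdx A N d → Bool) → Prop
  | 0, true, x => ∀ l : Fin N × Bool, x (Fin.elim0, l) = true ∨ lit S l
  | 0, false, x => ∃ l : Fin N × Bool, x (Fin.elim0, l) = true ∧ lit S l
  | d + 1, true, x => ∀ a : Fin A, Val S d false (fun i => x (Fin.cons a i.1, i.2))
  | d + 1, false, x => ∃ a : Fin A, Val S d true (fun i => x (Fin.cons a i.1, i.2))

/-- The formula of `Γ_{d+1,1}` with code `x` is `k`-satisfiable. -/
def WSat {A N : ℕ} (d k : ℕ) (x : CIdx A N d → Bool) : Prop :=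
  ∃ S : Finset (Fin N), S.card = k ∧ Val S d true x

/-- The 2-CNF with code `x` is `k`-satisfiable: the clause `{l, l'}` is present if and only if
the bit `(l, l')` is `false`. -/
def WSat2 {N : ℕ} (k : ℕ) (x : (Fin N × Bool) × (Fin N × Bool) → Bool) : Prop :=
  ∃ S : Finset (Fin N), S.card = k ∧
    ∀ l l' : Fin N × Bool, x (l, l') = true ∨ lit S l ∨ lit S l'

/-- The flattened list of the choices. -/
def flat {A : ℕ} : List (Fin A × Fin A) → List (Fin A)
  | [] => []
  | (a, b) :: l => a :: b :: flat l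

/-- The path with the choices in the list (junk `0` if the list is too short). -/
def pth {A : ℕ} (hA : 0 < A) (d : ℕ) (l : List (Fin A)) : Fin d → Fin A :=
  fun i => l.getD i.val ⟨0, hA⟩

/-- The node of a path. -/
def nodeOf {n : ℕ} (s : ℕ) (p : ℕ → Fin n) : Node n :=
  (List.ofFn (fun i : Fin s => (p (2 * i.val), p (2 * i.val + 1)))).reverse

/-- Extend a path by junk. -/
def ext {n d : ℕ} (hn : 0 < n) (p : Fin d → Fin n) : ℕ → Fin n :=
  fun i => if h : i < d then p ⟨i, h⟩ else ⟨0, hn⟩

/-- The first existential choice. -/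
def fsnd {n : ℕ} (q : Node n) : ℕ := (q.getLast?.map (fun x => x.2.val)).getD 0

open Classical in
/-- The instances with an odd number of levels (`Γ_{2s+1,1}`). -/
noncomputable def instE {n k n1 m s : ℕ} (hn : 0 < n) (rv : Fin m × Row k n1 → Fin n)
    (σ : Fin n) (Y : Fin m → Set (Node n × Row k n1)) : CIdx n n (2 * s) → Bool :=
  fun i => i.2.2 || decide (∃ j x, rv (j, x) = i.2.1 ∧
    (if ftop (nodeOf s (ext hn i.1)) = some σ then fsnd (nodeOf s (ext hn i.1)) = j.val
      else (nodeOf s (ext hn i.1), x) ∈ Y j))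

open Classical in
/-- The instances with an even number of levels (`Γ_{2s+2,1}`, `s ≥ 1`). -/
noncomputable def instO {n k n1 m s : ℕ} (hn : 0 < n) (rv : Fin m × Row k n1 → Fin n)
    (σ : Fin n) (Y : Fin m → Set (Node n × Fin n × Row k n1)) :
    CIdx n n (2 * s + 1) → Bool :=
  fun i => i.2.2 && decide (∃ j x, rv (j, x) = i.2.1 ∧
    (if ftop (nodeOf s (ext hn i.1)) = some σ then
        (ext hn i.1 (2 * s)).val < k →
          (fsnd (nodeOf s (ext hn i.1)) = j.val ∧ x.1.val = (ext hn i.1 (2 * s)).val)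
      else (nodeOf s (ext hn i.1), ext hn i.1 (2 * s), x) ∈ Y j))

open Classical in
/-- The instances with two levels (CNF). -/
noncomputable def instO0 {n k n1 m : ℕ} (rv : Fin m × Row k n1 → Fin n)
    (Y : Fin m → Set (Node n × Fin n × Row k n1)) : CIdx n n 1 → Bool :=
  fun i => i.2.2 && decide (∃ j x, rv (j, x) = i.2.1 ∧ ([], i.1 0, x) ∈ Y j)

/-- The killing event for `NegE`. -/
def GoodE {n k n1 d0 s : ℕ} (σ : Fin n) (ω : OmNE n k n1 d0 s) : Prop :=
  ∀ S : Finset (Row k n1), S.card = k →
    ∃ a, a ≠ σ ∧ ∀ c : Fin k, ∃ v ∈ S, (ω.1 (a, v)).val = c.val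

/-- The killing event for `NegO`. -/
def GoodO {n k n1 d0 s : ℕ} (σ : Fin n) (ω : OmNO n k n1 d0 s) : Prop :=
  ∀ S : Finset (Row k n1), S.card = k →
    (∃ a, a ≠ σ ∧ ∀ v ∈ S, (ω.1 (a, v)).val = 0) ∧
    ∀ p : NodeEQ n s, ∃ a, ∀ v ∈ S, (ω.2.2 (p, a, v)).val = 0

/-- The killing event for two levels. -/
def Good0 {m n k n1 d0 : ℕ} (ω : Fin m → OmNO n k n1 d0 0) : Prop :=
  ∀ S : Finset (Fin m × Row k n1), S.card ≤ k →
    ∃ a, ∀ v ∈ S, ((ω v.1).2.2 (⟨[], rfl⟩, a, v.2)).val = 0

end Pool.Agent.H679R2.WH
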