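import Pool.Agent.H679R2.WH.Codes

/-!
# Instances with addresses (many independent blocks)
-/

set_option autoImplicit false

namespace Pool.Agent.H679R2.WH

/-- The meaning of a choice. -/
inductive Ch (h b : ℕ) : Type
  | reg (α : Fin h) (x : Fin b)
  | skip
  | grp (g : ℕ)
  | con (c γ : ℕ)
  | chk (i : ℕ)
  | junk

/-- The meaning of a variable. -/
inductive Vr (h k n1 : ℕ) : Type
  | ad (c : ℕ) (j : Fin h)
  | rw (γ : Fin h) (x : Row k n1)
  | none

/-- The group of a variable: the address coordinates `c < co`, then the colours. -/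
def Vr.grp {h k n1 : ℕ} (co : ℕ) : Vr h k n1 → Option ℕ
  | .ad c _ => if c < co then some c else Option.none
  | .rw _ x => some (co + x.1.val)
  | .none => Option.none

/-- All meanings are realized. -/
structure Realz {n h b k n1 : ℕ} (co : ℕ) (dc : Fin n → Ch h b) (vc : Fin n → Vr h k n1) :
    Prop where
  reg : ∀ α x, ∃ a, dc a = .reg α x
  skip : ∃ a, dc a = .skip
  grp : ∀ g < co + k, ∃ a, dc a = .grp g
  grp' : ∀ a g, dc a = .grp g → g < co + k
  con : ∀ c < k, ∀ γ < h, ∃ a, dc a = .con c γ
  con' : ∀ a c γ, dc a = .con c γ → c < k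
  chk : ∀ i < co, ∃ a, dc a = .chk i
  ad : ∀ c < co, ∀ j, ∃ v, vc v = .ad c j
  rw : ∀ γ x, ∃ v, vc v = .rw γ x
  hn : h ≤ n

/-- The result of walking along a path. -/
inductive Rs (h b : ℕ) : Type
  | leaf (ad : Node h) (nd : Node b)
  | skip (i : ℕ) (α : Fin h)
  | fail
  | triv

/-- Walk along a path (outermost pair first), collecting addresses and local choices. -/
def walk {n h b : ℕ} (dc : Fin n → Ch h b) : List (Fin n × Fin n) → Node h → Node b → Rs h b
  | [], ad, nd => .leaf ad nd
  | (a, a') :: l, ad, nd =>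
    match dc a with
    | .reg α x =>
      match dc a' with
      | .reg β y => walk dc l ((α, β) :: ad) ((x, y) :: nd)
      | .skip => .skip ad.length α
      | _ => .fail
    | _ => .triv

/-- May the variable be true at the end of the walk? (odd case) -/
def okE {h b k n1 : ℕ} (co : ℕ) (Y : Node h → Fin h → Set (Node b × Row k n1)) :
    Rs h b → Vr h k n1 → Prop
  | .triv, w => w.grp co ≠ Option.none
  | .fail, _ => False
  | .skip i α, w => w.grp co ≠ Option.none ∧ ∀ j, w = .ad (2 * i) j → j ≠ α
  | .leaf ad nd, w => w.grp co ≠ Option.none ∧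
      (∀ i p j, ad.reverse[i]? = some p → w = .ad (2 * i + 1) j → j = p.2) ∧
      ∀ γ x, w = .rw γ x → (nd, x) ∈ Y ad γ

/-- May the variable be true on the path `l`? (odd case) -/
def bitE {n h b k n1 : ℕ} (dc : Fin n → Ch h b) (vc : Fin n → Vr h k n1) (co : ℕ)
    (Y : Node h → Fin h → Set (Node b × Row k n1)) (l : List (Fin n × Fin n)) (v : Fin n) :
    Prop :=
  match l with
  | [] => False
  | (a, a') :: l' =>
    match dc a with
    | .grp g => (vc v).grp co ≠ Option.none ∧ ((vc v).grp co = some g → v = a')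
    | .con _ _ => (vc v).grp co ≠ Option.none ∧ ∀ γ x, vc v = .rw γ x → γ.val = a'.val
    | _ => okE co Y (walk dc ((a, a') :: l') [] []) (vc v)

/-- Auxiliary: a walk that is not finished properly. -/
def okR {h b k n1 : ℕ} (r : Rs h b) (w : Vr h k n1) (P : Node h → Node b → Prop) : Prop :=
  match r with
  | .triv => True
  | .fail => False
  | .skip i α => ∃ j, w = .ad (2 * i) j ∧ j ≠ α
  | .leaf ad nd => P ad nd

/-- Does the variable satisfy the clause at the end of the walk, with last choice `z`?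
(even case) -/
def okO {h b k n1 : ℕ} (s : ℕ) (Y : Node h → Fin h → Fin h → Set (Node b × Fin b × Row k n1))
    (r : Rs h b) (z : Ch h b) (w : Vr h k n1) : Prop :=
  match z with
  | .grp g => w.grp (2 * s + 2) = some g
  | .con c γ => (∃ γ', w = .ad (2 * s + 1) γ' ∧ γ'.val ≠ γ) ∨
      ∃ γ' x, w = .rw γ' x ∧ γ'.val = γ ∧ x.1.val = c
  | .chk i => okR r w (fun ad _ => ∀ p, ad.reverse[i]? = some p → w = .ad (2 * i + 1) p.2)
  | .reg α x => okR r w (fun ad nd => (∃ j, w = .ad (2 * s) j ∧ j ≠ α) ∨
      ∃ γ y, w = .rw γ y ∧ (nd, x, y) ∈ Y ad α γ)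
  | _ => okR r w (fun _ _ => True)

open Classical in
/-- Source instances, odd number of levels. Only the negative literals occur. -/
noncomputable def instE2 {n h b k n1 m s : ℕ} (hn : 0 < n) (dc : Fin n → Ch h b)
    (vc : Fin n → Vr h k n1) (ix : Node h × Fin h → Fin m)
    (Y : Fin m → Set (Node b × Row k n1)) : CIdx n n (2 * s) → Bool :=
  fun i => i.2.2 || decide (bitE dc vc (2 * s) (fun ad γ => Y (ix (ad, γ)))
    (nodeOf s (ext hn i.1)).reverse i.2.1)

open Classical in
/-- Source instances, even number of levels. Only the positive literals occur. -/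
noncomputable def instO2 {n h b k n1 m s : ℕ} (hn : 0 < n) (dc : Fin n → Ch h b)
    (vc : Fin n → Vr h k n1) (ix : Node h × Fin h × Fin h → Fin m)
    (Y : Fin m → Set (Node b × Fin b × Row k n1)) : CIdx n n (2 * s + 1) → Bool :=
  fun i => i.2.2 && decide (okO s (fun ad α γ => Y (ix (ad, α, γ)))
    (walk dc (nodeOf s (ext hn i.1)).reverse [] []) (dc (ext hn i.1 (2 * s))) (vc i.2.1))

end Pool.Agent.H679R2.WH
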