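import Pool.Agent.H679R2.WH.Codes2

/-!
# Instances with addresses: monotonicity and coordinates
-/

set_option autoImplicit false

namespace Pool.Agent.H679R2.WH

theorem okE_mono {h b k n1 : ℕ} (co : ℕ) (Y Y' : Node h → Fin h → Set (Node b × Row k n1))
    (hY : ∀ ad γ, Y ad γ ⊆ Y' ad γ) (r : Rs h b) (w : Vr h k n1) (hr : okE co Y r w) :
    okE co Y' r w := by
  cases r with
  | leaf ad nd => exact ⟨hr.1, hr.2.1, fun γ x hw => hY _ _ (hr.2.2 γ x hw)⟩
  | skip i α => exact hr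
  | fail => exact hr
  | triv => exact hr

theorem okE_dep {h b k n1 : ℕ} (co : ℕ) (r : Rs h b) (w : Vr h k n1) :
    (∃ P : Prop, ∀ Y, okE co Y r w ↔ P) ∨
      ∃ ad γ v, ∀ Y : Node h → Fin h → Set (Node b × Row k n1), okE co Y r w ↔ v ∈ Y ad γ := by
  cases r with
  | leaf ad nd =>
    by_cases hP : w.grp co ≠ Option.none ∧
        (∀ i p j, ad.reverse[i]? = some p → w = .ad (2 * i + 1) j → j = p.2)
    · cases w with
      | ad c j =>
        left
        refine ⟨True, fun Y => ⟨fun _ => trivial, fun _ => ⟨hP.1, hP.2, ?_⟩⟩⟩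
        intro γ x hw
        cases hw
      | rw γ x =>
        right
        refine ⟨ad, γ, (nd, x), fun Y => ⟨fun hh => hh.2.2 γ x rfl, fun hv => ⟨hP.1, hP.2, ?_⟩⟩⟩
        intro γ' x' hw
        cases hw
        exact hv
      | none =>
        left
        refine ⟨True, fun Y => ⟨fun _ => trivial, fun _ => ⟨hP.1, hP.2, ?_⟩⟩⟩
        intro γ x hw
        cases hw
    · left
      exact ⟨False, fun Y => ⟨fun hh => hP ⟨hh.1, hh.2.1⟩, fun hh => hh.elim⟩⟩
  | skip i α => exact Or.inl ⟨_, fun Y => Iff.rfl⟩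
  | fail => exact Or.inl ⟨_, fun Y => Iff.rfl⟩
  | triv => exact Or.inl ⟨_, fun Y => Iff.rfl⟩

theorem bitE_mono {n h b k n1 : ℕ} (dc : Fin n → Ch h b) (vc : Fin n → Vr h k n1) (co : ℕ)
    (Y Y' : Node h → Fin h → Set (Node b × Row k n1)) (hY : ∀ ad γ, Y ad γ ⊆ Y' ad γ)
    (l : List (Fin n × Fin n)) (v : Fin n) (hb : bitE dc vc co Y l v) :
    bitE dc vc co Y' l v := by
  cases l with
  | nil => exact hb
  | cons x l =>
    obtain ⟨a, a'⟩ := x
    simp only [bitE] at hb ⊢
    cases hd : dc a <;> rw [hd] at hb <;> simp only at hb ⊢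
    all_goals first
      | exact hb
      | exact okE_mono co Y Y' hY _ _ hb

theorem bitE_dep {n h b k n1 : ℕ} (dc : Fin n → Ch h b) (vc : Fin n → Vr h k n1) (co : ℕ)
    (l : List (Fin n × Fin n)) (v : Fin n) :
    (∃ P : Prop, ∀ Y, bitE dc vc co Y l v ↔ P) ∨
      ∃ ad γ w, ∀ Y : Node h → Fin h → Set (Node b × Row k n1),
        bitE dc vc co Y l v ↔ w ∈ Y ad γ := by
  cases l with
  | nil => exact Or.inl ⟨False, fun Y => Iff.rfl⟩
  | cons x l =>
    obtain ⟨a, a'⟩ := x
    simp only [bitE]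
    cases hd : dc a <;> simp only
    all_goals first
      | exact Or.inl ⟨_, fun Y => Iff.rfl⟩
      | exact okE_dep co _ _

theorem okO_mono {h b k n1 : ℕ} (s : ℕ)
    (Y Y' : Node h → Fin h → Fin h → Set (Node b × Fin b × Row k n1))
    (hY : ∀ ad α γ, Y ad α γ ⊆ Y' ad α γ) (r : Rs h b) (z : Ch h b) (w : Vr h k n1)
    (hr : okO s Y r z w) : okO s Y' r z w := by
  unfold okO at hr ⊢
  cases z with
  | reg α x =>
    cases r with
    | leaf ad nd =>
      rcases hr with hr | ⟨γ, y, h1, h2⟩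
      · exact Or.inl hr
      · exact Or.inr ⟨γ, y, h1, hY _ _ _ h2⟩
    | skip i α => exact hr
    | fail => exact hr
    | triv => exact hr
  | skip => exact hr
  | grp g => exact hr
  | con c γ => exact hr
  | chk i => exact hr
  | junk => exact hr

theorem okO_dep {h b k n1 : ℕ} (s : ℕ) (r : Rs h b) (z : Ch h b) (w : Vr h k n1) :
    (∃ P : Prop, ∀ Y, okO s Y r z w ↔ P) ∨
      ∃ ad α γ v, ∀ Y : Node h → Fin h → Fin h → Set (Node b × Fin b × Row k n1),
        okO s Y r z w ↔ v ∈ Y ad α γ := by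
  unfold okO
  cases z with
  | reg α x =>
    cases r with
    | leaf ad nd =>
      cases w with
      | ad c j =>
        left
        refine ⟨∃ j', (Vr.ad c j : Vr h k n1) = .ad (2 * s) j' ∧ j' ≠ α, fun Y => ?_⟩
        simp only [okR]
        constructor
        · rintro (h1 | ⟨γ, y, h1, _⟩)
          · exact h1
          · cases h1
        · exact Or.inl
      | rw γ y =>
        right
        refine ⟨ad, α, γ, (nd, x, y), fun Y => ?_⟩
        simp only [okR]
        constructor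
        · rintro (⟨j, h1, _⟩ | ⟨γ', y', h1, h2⟩)
          · cases h1
          · cases h1
            exact h2
        · intro h1
          exact Or.inr ⟨γ, y, rfl, h1⟩
      | none =>
        left
        refine ⟨False, fun Y => ?_⟩
        simp only [okR]
        constructor
        · rintro (⟨j, h1, _⟩ | ⟨γ', y', h1, h2⟩)
          · cases h1
          · cases h1
        · exact False.elim
    | skip i α => exact Or.inl ⟨_, fun Y => Iff.rfl⟩
    | fail => exact Or.inl ⟨_, fun Y => Iff.rfl⟩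
    | triv => exact Or.inl ⟨_, fun Y => Iff.rfl⟩
  | skip => exact Or.inl ⟨_, fun Y => Iff.rfl⟩
  | grp g => exact Or.inl ⟨_, fun Y => Iff.rfl⟩
  | con c γ => exact Or.inl ⟨_, fun Y => Iff.rfl⟩
  | chk i => exact Or.inl ⟨_, fun Y => Iff.rfl⟩
  | junk => exact Or.inl ⟨_, fun Y => Iff.rfl⟩

private theorem ble {a b : Bool} (h : a = true → b = true) : a ≤ b := by
  cases a <;> cases b <;> simp_all

theorem instE2_iff {n h b k n1 m s : ℕ} (hn : 0 < n) (dc : Fin n → Ch h b)
    (vc : Fin n → Vr h k n1) (ix : Node h × Fin h → Fin m)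
    (Y : Fin m → Set (Node b × Row k n1)) (i : CIdx n n (2 * s)) :
    instE2 hn dc vc ix Y i = true ↔ i.2.2 = true ∨
      bitE dc vc (2 * s) (fun ad γ => Y (ix (ad, γ))) (nodeOf s (ext hn i.1)).reverse i.2.1 := by
  unfold instE2
  simp only [Bool.or_eq_true, decide_eq_true_iff]

theorem instO2_iff {n h b k n1 m s : ℕ} (hn : 0 < n) (dc : Fin n → Ch h b)
    (vc : Fin n → Vr h k n1) (ix : Node h × Fin h × Fin h → Fin m)
    (Y : Fin m → Set (Node b × Fin b × Row k n1)) (i : CIdx n n (2 * s + 1)) :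
    instO2 hn dc vc ix Y i = true ↔ i.2.2 = true ∧
      okO s (fun ad α γ => Y (ix (ad, α, γ)))
        (walk dc (nodeOf s (ext hn i.1)).reverse [] []) (dc (ext hn i.1 (2 * s))) (vc i.2.1) := by
  unfold instO2
  simp only [Bool.and_eq_true, decide_eq_true_iff]

theorem instE2_mono {n h b k n1 m s : ℕ} (hn : 0 < n) (dc : Fin n → Ch h b)
    (vc : Fin n → Vr h k n1) (ix : Node h × Fin h → Fin m)
    (Y Y' : Fin m → Set (Node b × Row k n1)) (hY : ∀ j, Y j ⊆ Y' j) :
    (instE2 hn dc vc ix Y : CIdx n n (2 * s) → Bool) ≤ instE2 hn dc vc ix Y' := by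
  intro i
  apply ble
  rw [instE2_iff, instE2_iff]
  rintro (h1 | h1)
  · exact Or.inl h1
  · exact Or.inr (bitE_mono _ _ _ _ _ (fun ad γ => hY _) _ _ h1)

theorem instE2_coord {n h b k n1 m s : ℕ} (hn : 0 < n) (dc : Fin n → Ch h b)
    (vc : Fin n → Vr h k n1) (ix : Node h × Fin h → Fin m)
    (Y : Fin m → Set (Node b × Row k n1)) (j : Fin m) (i : CIdx n n (2 * s)) :
    (∃ c, ∀ Z, instE2 hn dc vc ix (Function.update Y j Z) i = c) ∨
      ∃ v, ∀ Z, instE2 hn dc vc ix (Function.update Y j Z) i = true ↔ v ∈ Z := by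
  by_cases hi : i.2.2 = true
  · left
    exact ⟨true, fun Z => (instE2_iff ..).2 (Or.inl hi)⟩
  rcases bitE_dep dc vc (2 * s) (nodeOf s (ext hn i.1)).reverse i.2.1 with ⟨P, hP⟩ | ⟨ad, γ, w, hw⟩
  · left
    refine ⟨instE2 hn dc vc ix Y i, fun Z => ?_⟩
    rw [Bool.eq_iff_iff, instE2_iff, instE2_iff, hP, hP]
  · by_cases hj : ix (ad, γ) = j
    · right
      refine ⟨w, fun Z => ?_⟩
      rw [instE2_iff, hw, hj, Function.update_self]
      simp [hi]
    · left
      refine ⟨instE2 hn dc vc ix Y i, fun Z => ?_⟩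
      rw [Bool.eq_iff_iff, instE2_iff, instE2_iff, hw, hw, Function.update_of_ne hj]

theorem instO2_mono {n h b k n1 m s : ℕ} (hn : 0 < n) (dc : Fin n → Ch h b)
    (vc : Fin n → Vr h k n1) (ix : Node h × Fin h × Fin h → Fin m)
    (Y Y' : Fin m → Set (Node b × Fin b × Row k n1)) (hY : ∀ j, Y j ⊆ Y' j) :
    (instO2 hn dc vc ix Y : CIdx n n (2 * s + 1) → Bool) ≤ instO2 hn dc vc ix Y' := by
  intro i
  apply ble
  rw [instO2_iff, instO2_iff]
  rintro ⟨h1, h2⟩
  exact ⟨h1, okO_mono _ _ _ (fun ad α γ => hY _) _ _ _ h2⟩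

theorem instO2_coord {n h b k n1 m s : ℕ} (hn : 0 < n) (dc : Fin n → Ch h b)
    (vc : Fin n → Vr h k n1) (ix : Node h × Fin h × Fin h → Fin m)
    (Y : Fin m → Set (Node b × Fin b × Row k n1)) (j : Fin m) (i : CIdx n n (2 * s + 1)) :
    (∃ c, ∀ Z, instO2 hn dc vc ix (Function.update Y j Z) i = c) ∨
      ∃ v, ∀ Z, instO2 hn dc vc ix (Function.update Y j Z) i = true ↔ v ∈ Z := by
  by_cases hi : i.2.2 = true
  · rcases okO_dep s (walk dc (nodeOf s (ext hn i.1)).reverse [] []) (dc (ext hn i.1 (2 * s)))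
      (vc i.2.1) with ⟨P, hP⟩ | ⟨ad, α, γ, w, hw⟩
    · left
      refine ⟨instO2 hn dc vc ix Y i, fun Z => ?_⟩
      rw [Bool.eq_iff_iff, instO2_iff, instO2_iff, hP, hP]
    · by_cases hj : ix (ad, α, γ) = j
      · right
        refine ⟨w, fun Z => ?_⟩
        rw [instO2_iff, hw, hj, Function.update_self]
        simp [hi]
      · left
        refine ⟨instO2 hn dc vc ix Y i, fun Z => ?_⟩
        rw [Bool.eq_iff_iff, instO2_iff, instO2_iff, hw, hw, Function.update_of_ne hj]
  · left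
    refine ⟨false, fun Z => ?_⟩
    rw [← Bool.not_eq_true, instO2_iff]
    exact fun hh => hi hh.1

end Pool.Agent.H679R2.WH
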