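import Pool.Agent.H679R2.WH.Codes

/-!
# Games on nodes (Task M, helper354)
-/

set_option autoImplicit false

namespace Pool.Agent.H679R2.WH

theorem AE_imp {A r : ℕ} (G G' : List (Fin A × Fin A) → Prop)
    (h : ∀ l, l.length = r → G l → G' l) : AE A r G → AE A r G' := by
  induction r generalizing G G' with
  | zero => exact h [] rfl
  | succ r ih =>
    intro hG a
    obtain ⟨b, hb⟩ := hG a
    exact ⟨b, ih _ _ (fun l hl => h ((a, b) :: l) (by simp [hl])) hb⟩

private theorem M_getD {A : ℕ} (l : List (Fin A × Fin A)) (l' : List (Fin A)) (d : Fin A)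
    (i : ℕ) (hi : i < l.length) :
    (flat l ++ l').getD (2 * i) d = (l.get ⟨i, hi⟩).1 ∧
      (flat l ++ l').getD (2 * i + 1) d = (l.get ⟨i, hi⟩).2 := by
  induction l generalizing i with
  | nil => simp at hi
  | cons x l ih =>
    obtain ⟨a, b⟩ := x
    cases i with
    | zero => simp [flat]
    | succ i =>
      have hi' : i < l.length := by simpa using hi
      have := ih i hi'
      have e1 : 2 * (i + 1) = 2 * i + 1 + 1 := by ring
      have e2 : 2 * (i + 1) + 1 = 2 * i + 1 + 1 + 1 := by ring
      rw [e2, e1]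
      simp only [flat, List.cons_append, List.getD_cons_succ]
      simpa using this

private theorem M_flat_length {A : ℕ} (l : List (Fin A × Fin A)) :
    (flat l).length = 2 * l.length := by
  induction l with
  | nil => rfl
  | cons x l ih =>
    obtain ⟨a, b⟩ := x
    simp only [flat, List.length_cons, ih]
    ring

theorem nodeOf_pth {n s d : ℕ} (hn : 0 < n) (l : List (Fin n × Fin n)) (hl : l.length = s)
    (hd : 2 * s ≤ d) (l' : List (Fin n)) :
    nodeOf s (ext hn (pth hn d (flat l ++ l'))) = l.reverse := by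
  unfold nodeOf
  congr 1
  subst hl
  apply List.ext_get
  · simp
  · intro i h1 h2
    have h := M_getD l l' ⟨0, hn⟩ i h2
    have e1 : 2 * i < d := by omega
    have e2 : 2 * i + 1 < d := by omega
    simp only [List.get_eq_getElem, List.getElem_ofFn, ext, e1, e2, dite_true, pth]
    rw [h.1, h.2]
    rfl

theorem ext_pth_last {n s : ℕ} (hn : 0 < n) (l : List (Fin n × Fin n)) (hl : l.length = s)
    (a : Fin n) : ext hn (pth hn (2 * s + 1) (flat l ++ [a])) (2 * s) = a := by
  have e1 : 2 * s < 2 * s + 1 := by omega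
  simp only [ext, e1, dite_true, pth]
  have := M_flat_length l
  rw [hl] at this
  rw [List.getD_append_right _ _ _ _ (by omega), this]
  simp

private theorem M_AE_pos {n s : ℕ} (β : NodeLT n s × Fin n → Fin n) (G : Node n → Prop)
    (h : ∀ p, p.length = s → InP β p → G p) (r : ℕ) (q : Node n) (hq : InP β q)
    (hr : q.length + r = s) : AE n r (fun l => G (l.reverse ++ q)) := by
  induction r generalizing q with
  | zero =>
    simp only [AE, List.reverse_nil, List.nil_append]
    exact h q (by omega) hq
  | succ r ih =>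
    intro a
    have hlt : q.length < s := by omega
    refine ⟨β (⟨q, hlt⟩, a), ?_⟩
    have := ih ((a, β (⟨q, hlt⟩, a)) :: q) ⟨hq, hlt, rfl⟩ (by simp; omega)
    simpa using this

theorem AE_pos {n s : ℕ} (β : NodeLT n s × Fin n → Fin n) (G : Node n → Prop)
    (h : ∀ p, p.length = s → InP β p → G p) : AE n s (fun l => G l.reverse) := by
  simpa using M_AE_pos β G h s [] trivial (by simp)

theorem M_ftop_cons {n : ℕ} (a b : Fin n) (q : Node n) (hq : q ≠ []) :
    ftop ((a, b) :: q) = ftop q := by
  match q, hq with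
  | (c, d) :: q, _ =>
    simp only [ftop, htop]
    cases q with
    | nil => simp
    | cons x q => simp [List.getLast?_cons]

theorem M_fsnd_cons {n : ℕ} (x : Fin n × Fin n) (q : Node n) (hq : q ≠ []) :
    fsnd (x :: q) = fsnd q := by
  match q, hq with
  | y :: q, _ => simp [fsnd, List.getLast?_cons_cons]

private theorem M_AE_neg {n s : ℕ} (as : NodeLT n s → Fin n) (a1 : Fin n)
    (G : Node n → Prop) (r : ℕ) (q : Node n) (hq0 : q ≠ []) (hq : Fol as q)
    (ht : ftop q = some a1) (hr : q.length + r = s)
    (h : AE n r (fun l => G (l.reverse ++ q))) :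
    ∃ p, p.length = s ∧ ftop p = some a1 ∧ Fol as p ∧ G p := by
  induction r generalizing q with
  | zero =>
    simp only [AE, List.reverse_nil, List.nil_append] at h
    exact ⟨q, by omega, ht, hq, h⟩
  | succ r ih =>
    have hlt : q.length < s := by omega
    obtain ⟨b, hb⟩ := h (as ⟨q, hlt⟩)
    refine ih ((as ⟨q, hlt⟩, b) :: q) (by simp) ⟨hq, Or.inr ⟨hlt, rfl⟩⟩ ?_ (by simp; omega) ?_
    · rw [M_ftop_cons _ _ _ hq0, ht]
    · simpa using hb

theorem AE_neg {n s : ℕ} (hs : 1 ≤ s) (as : NodeLT n s → Fin n) (a1 : Fin n)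
    (G : Node n → Prop) (h : AE n s (fun l => G l.reverse)) :
    ∃ p, p.length = s ∧ ftop p = some a1 ∧ Fol as p ∧ G p := by
  obtain ⟨r, rfl⟩ : ∃ r, s = r + 1 := ⟨s - 1, by omega⟩
  obtain ⟨b, hb⟩ := h a1
  refine M_AE_neg as a1 G r [(a1, b)] (by simp) ⟨trivial, Or.inl rfl⟩ ?_ (by simp; omega) ?_
  · simp [ftop, htop]
  · simpa using hb

/-- Redirect the first answer to `σ`. -/
theorem redirect {n s : ℕ} (hs : 1 ≤ s) (β : NodeLT n s × Fin n → Fin n) (σ j : Fin n) :
    ∃ β' : NodeLT n s × Fin n → Fin n, ∀ p, p.length = s → InP β' p →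
      (ftop p = some σ ∧ fsnd p = j.val) ∨ (ftop p ≠ some σ ∧ InP β p) := by
  refine ⟨fun x => if x.1.1 = [] ∧ x.2 = σ then j else β x, ?_⟩
  intro p hp hin
  have key : ∀ p : Node n, p ≠ [] →
      InP (fun x : NodeLT n s × Fin n => if x.1.1 = [] ∧ x.2 = σ then j else β x) p →
      (ftop p = some σ ∧ fsnd p = j.val) ∨ (ftop p ≠ some σ ∧ InP β p) := by
    intro p
    induction p with
    | nil => intro h; exact absurd rfl h
    | cons x q ih =>
      obtain ⟨a, b⟩ := x
      intro _ hin
      obtain ⟨hq, hlt, hb⟩ := hin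
      by_cases hq0 : q = []
      · subst hq0
        by_cases ha : a = σ
        · left
          subst ha
          simp only [true_and, if_true] at hb
          subst hb
          simp [ftop, htop, fsnd]
        · right
          simp only [ha, and_false, if_false] at hb
          refine ⟨by simp [ftop, htop, ha], trivial, hlt, hb⟩
      · simp only [hq0, false_and, if_false] at hb
        rcases ih hq0 hq with ⟨h1, h2⟩ | ⟨h1, h2⟩
        · left
          rw [M_ftop_cons _ _ _ hq0, M_fsnd_cons _ _ hq0]
          exact ⟨h1, h2⟩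
        · right
          rw [M_ftop_cons _ _ _ hq0]
          exact ⟨h1, h2, hlt, hb⟩
  exact key p (by rintro rfl; simp at hp; omega) hin

end Pool.Agent.H679R2.WH
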