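import Pool.Agent.H679R2.WH.Val
import Pool.Agent.H679R2.WH.Games
import Pool.Agent.H679R2.WH.Codes2

/-!
# Instances with addresses, odd case, negative instances (Task S4, helper454)
-/

set_option autoImplicit false

namespace Pool.Agent.H679R2.WH

private theorem S4_inst {n h b k n1 m s : ℕ} (hn : 0 < n) (dc : Fin n → Ch h b)
    (vc : Fin n → Vr h k n1) (ix : Node h × Fin h → Fin m)
    (Y : Fin m → Set (Node b × Row k n1)) (i : CIdx n n (2 * s)) :
    instE2 hn dc vc ix Y i = true ↔ (i.2.2 = true ∨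
      bitE dc vc (2 * s) (fun ad γ => Y (ix (ad, γ)))
        (nodeOf s (ext hn i.1)).reverse i.2.1) := by
  unfold instE2
  simp only [Bool.or_eq_true, decide_eq_true_iff]

private theorem S4_val {n h b k n1 m s : ℕ} (hn : 0 < n) (dc : Fin n → Ch h b)
    (vc : Fin n → Vr h k n1) (ix : Node h × Fin h → Fin m)
    (Y : Fin m → Set (Node b × Row k n1)) (S : Finset (Fin n)) :
    Val S (2 * s) true (instE2 hn dc vc ix Y : CIdx n n (2 * s) → Bool) ↔
      AE n s (fun l => ∀ v ∈ S, bitE dc vc (2 * s) (fun ad γ => Y (ix (ad, γ))) l v) := by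
  rw [Val_even hn]
  have hnode : ∀ l : List (Fin n × Fin n), l.length = s →
      (nodeOf s (ext hn (pth hn (2 * s) (flat l)))).reverse = l := by
    intro l hl
    have := nodeOf_pth hn l hl le_rfl []
    rw [List.append_nil] at this
    rw [this, List.reverse_reverse]
  constructor
  · refine AE_imp _ _ fun l hl h v hv => ?_
    have h1 := h (v, false)
    rw [S4_inst] at h1
    simp only [hnode l hl] at h1
    rcases h1 with (h1 | h1) | h1
    · simp at h1
    · exact h1
    · rcases h1 with h1 | h1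
      · simp at h1
      · exact absurd hv h1.2
  · refine AE_imp _ _ fun l hl h l' => ?_
    obtain ⟨v, b⟩ := l'
    rw [S4_inst]
    simp only [hnode l hl]
    cases b with
    | true => exact Or.inl (Or.inl rfl)
    | false =>
      by_cases hv : v ∈ S
      · exact Or.inl (Or.inr (h v hv))
      · exact Or.inr (Or.inr ⟨rfl, hv⟩)

private theorem S4_AE_ex {n r : ℕ} (hn : 0 < n) (G : List (Fin n × Fin n) → Prop)
    (h : AE n r G) : ∃ l, G l := by
  induction r generalizing G with
  | zero => exact ⟨[], h⟩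
  | succ r ih =>
    obtain ⟨b, hb⟩ := h ⟨0, hn⟩
    obtain ⟨l, hl⟩ := ih _ hb
    exact ⟨_, hl⟩

/-- The game on the walk is lost, one step. -/
private theorem S4_step {n h b k n1 s co : ℕ} (hn : 0 < n)
    (dc : Fin n → Ch h b) (vc : Fin n → Vr h k n1)
    (Y : Node h → Fin h → Set (Node b × Row k n1))
    (S : Finset (Fin n)) (A : ℕ → Fin h) (as : NodeLT b s → Fin b) (a0 : Fin b)
    (hA : ∀ c < 2 * s, ∃ v ∈ S, vc v = .ad c (A c)) (r : ℕ)
    (ih : ∀ (ad : Node h) (nd : Node b), ad.length + r = s →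
      (∀ i p, ad.reverse[i]? = some p → p.1 = A (2 * i)) → nd.length = ad.length →
      (nd ≠ [] → ftop nd = some a0) → Fol as nd →
      ¬ AE n r (fun l => ∀ v ∈ S, okE co Y (walk dc l ad nd) (vc v)))
    (ad : Node h) (nd : Node b) (hlen : ad.length + (r + 1) = s)
    (had : ∀ i p, ad.reverse[i]? = some p → p.1 = A (2 * i))
    (hnd : nd.length = ad.length) (hft : nd ≠ [] → ftop nd = some a0) (hfol : Fol as nd)
    (x : Fin b) (hx0 : nd = [] → x = a0)
    (hx1 : nd ≠ [] → ∃ hl : nd.length < s, as ⟨nd, hl⟩ = x)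
    (a a' : Fin n) (ha : dc a = .reg (A (2 * ad.length)) x)
    (hAE : AE n r (fun l => ∀ v ∈ S, okE co Y (walk dc ((a, a') :: l) ad nd) (vc v))) :
    False := by
  have hs : ad.length < s := by omega
  cases ha' : dc a' with
  | reg β y =>
    refine ih ((A (2 * ad.length), β) :: ad) ((x, y) :: nd) (by simp; omega) ?_ (by simp [hnd])
      ?_ ?_ ?_
    · intro i p hp
      rw [List.reverse_cons] at hp
      rcases lt_trichotomy i ad.length with hi | hi | hi
      · rw [List.getElem?_append_left (by simpa using hi)] at hp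
        exact had i p hp
      · subst hi
        rw [List.getElem?_append_right (by simp)] at hp
        simp at hp
        rw [← hp]
      · rw [List.getElem?_eq_none (by simp; omega)] at hp
        simp at hp
    · intro _
      by_cases h0 : nd = []
      · subst h0
        rw [← hx0 rfl]
        simp [ftop, htop]
      · rw [M_ftop_cons _ _ _ h0]
        exact hft h0
    · refine ⟨hfol, ?_⟩
      by_cases h0 : nd = []
      · exact Or.inl h0
      · exact Or.inr (hx1 h0)
    · refine AE_imp _ _ (fun l _ hl v hv => ?_) hAE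
      have := hl v hv
      simpa only [walk, ha, ha'] using this
  | skip =>
    obtain ⟨l, hl⟩ := S4_AE_ex hn _ hAE
    obtain ⟨v, hv, hvc⟩ := hA (2 * ad.length) (by omega)
    have := hl v hv
    simp only [walk, ha, ha', okE] at this
    exact this.2 _ hvc rfl
  | grp g =>
    obtain ⟨l, hl⟩ := S4_AE_ex hn _ hAE
    obtain ⟨v, hv, hvc⟩ := hA (2 * ad.length) (by omega)
    have := hl v hv
    simp only [walk, ha, ha', okE] at this
  | con c γ =>
    obtain ⟨l, hl⟩ := S4_AE_ex hn _ hAE
    obtain ⟨v, hv, hvc⟩ := hA (2 * ad.length) (by omega)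
    have := hl v hv
    simp only [walk, ha, ha', okE] at this
  | chk i =>
    obtain ⟨l, hl⟩ := S4_AE_ex hn _ hAE
    obtain ⟨v, hv, hvc⟩ := hA (2 * ad.length) (by omega)
    have := hl v hv
    simp only [walk, ha, ha', okE] at this
  | junk =>
    obtain ⟨l, hl⟩ := S4_AE_ex hn _ hAE
    obtain ⟨v, hv, hvc⟩ := hA (2 * ad.length) (by omega)
    have := hl v hv
    simp only [walk, ha, ha', okE] at this

/-- The game on the walk is lost. -/
private theorem S4_game {n h b k n1 d0 m s : ℕ} (hn : 0 < n)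
    (dc : Fin n → Ch h b) (vc : Fin n → Vr h k n1) (R : Realz (2 * s) dc vc)
    (ix : Node h × Fin h → Fin m) (ω : Fin m → OmNE b k n1 d0 s)
    (S : Finset (Fin n)) (A : ℕ → Fin h) (γ : Fin h) (X : Fin k → Fin n1) (a0 : Fin b)
    (hA : ∀ c < 2 * s, ∃ v ∈ S, vc v = .ad c (A c))
    (hX : ∀ i, ∃ v ∈ S, vc v = .rw γ (i, X i))
    (hc : ∀ c : Fin k, ∃ i : Fin k, ((ω (ix (nodeOf s A, γ))).1 (a0, (i, X i))).val = c.val)
    (r : ℕ) (ad : Node h) (nd : Node b) (hlen : ad.length + r = s)
    (had : ∀ i p, ad.reverse[i]? = some p → p.1 = A (2 * i))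
    (hnd : nd.length = ad.length) (hs : 1 ≤ s) (hft : nd ≠ [] → ftop nd = some a0)
    (hfol : Fol (ω (ix (nodeOf s A, γ))).2.1 nd) :
    ¬ AE n r (fun l => ∀ v ∈ S, okE (2 * s) (fun ad γ => NegE (ω (ix (ad, γ))))
      (walk dc l ad nd) (vc v)) := by
  induction r generalizing ad nd with
  | zero =>
    intro hG
    have hG' : ∀ v ∈ S, okE (2 * s) (fun ad γ => NegE (ω (ix (ad, γ)))) (.leaf ad nd) (vc v) := hG
    simp only [okE] at hG'
    have hadl : ad.length = s := by omega
    have had2 : ad.reverse = List.ofFn (fun i : Fin s => (A (2 * i.val), A (2 * i.val + 1))) := by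
      apply List.ext_getElem?
      intro i
      by_cases hi : i < s
      · have hi' : i < ad.reverse.length := by simpa [hadl] using hi
        obtain ⟨p, hp⟩ : ∃ p, ad.reverse[i]? = some p := ⟨_, List.getElem?_eq_getElem hi'⟩
        have h1 := had i p hp
        obtain ⟨v, hv, hvc⟩ := hA (2 * i + 1) (by omega)
        have h2 := (hG' v hv).2.1 i p _ hp hvc
        rw [hp, List.getElem?_ofFn]
        simp only [hi, dite_true, Option.some.injEq]
        exact Prod.ext h1 h2.symm
      · rw [List.getElem?_eq_none (by simp [hadl]; omega),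
          List.getElem?_eq_none (by simp; omega)]
    have had3 : ad = nodeOf s A := by
      unfold nodeOf
      rw [← had2, List.reverse_reverse]
    have hnd0 : nd ≠ [] := by
      intro h0
      rw [h0] at hnd
      simp only [List.length_nil] at hnd
      omega
    have hnds : nd.length = s := by omega
    obtain ⟨i, hi⟩ := hc ((ω (ix (nodeOf s A, γ))).2.2 ⟨nd, hnds⟩)
    obtain ⟨v, hv, hvc⟩ := hX i
    have h3 := (hG' v hv).2.2 γ _ hvc
    rw [had3] at h3
    exact h3 ⟨hnds, a0, hft hnd0, hfol, hi⟩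
  | succ r ih =>
    intro hG
    have hs' : nd.length < s := by omega
    by_cases h0 : nd = []
    · obtain ⟨a, ha⟩ := R.reg (A (2 * ad.length)) a0
      obtain ⟨a', ha'⟩ := hG a
      exact S4_step hn dc vc _ S A (ω (ix (nodeOf s A, γ))).2.1 a0 hA r
        (fun ad nd h1 h2 h3 h4 h5 => ih ad nd h1 h2 h3 h4 h5) ad nd hlen had hnd hft hfol a0
        (fun _ => rfl) (fun h => absurd h0 h) a a' ha ha'
    · obtain ⟨a, ha⟩ := R.reg (A (2 * ad.length)) ((ω (ix (nodeOf s A, γ))).2.1 ⟨nd, hs'⟩)
      obtain ⟨a', ha'⟩ := hG a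
      exact S4_step hn dc vc _ S A (ω (ix (nodeOf s A, γ))).2.1 a0 hA r
        (fun ad nd h1 h2 h3 h4 h5 => ih ad nd h1 h2 h3 h4 h5) ad nd hlen had hnd hft hfol _
        (fun h => absurd h h0) (fun _ => ⟨hs', rfl⟩) a a' ha ha'

theorem instE2_neg {n h b k n1 d0 m s : ℕ} (hn : 0 < n) (hs : 1 ≤ s) (hk : 0 < k) (hh : 0 < h)
    (dc : Fin n → Ch h b)
    (vc : Fin n → Vr h k n1) (R : Realz (2 * s) dc vc) (ix : Node h × Fin h → Fin m)
    (σ : Fin b) (ω : Fin m → OmNE b k n1 d0 s) (hgood : ∀ j, GoodE σ (ω j)) :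
    ¬ WSat (2 * s) (2 * s + k) (instE2 hn dc vc ix (fun j => NegE (ω j))) := by
  rintro ⟨S, hcard, hval⟩
  rw [S4_val] at hval
  obtain ⟨r, hr⟩ : ∃ r, s = r + 1 := ⟨s - 1, by omega⟩
  have hAE : ∀ a, ∃ a', AE n r (fun l => ∀ v ∈ S, bitE dc vc (2 * s)
      (fun ad γ => NegE (ω (ix (ad, γ)))) ((a, a') :: l) v) := by
    have h1 := hval
    rw [show AE n s = AE n (r + 1) from by rw [hr]] at h1
    exact h1
  -- the groups
  have hgrp : ∀ g < 2 * s + k, ∃ a', ∀ v ∈ S, (vc v).grp (2 * s) ≠ Option.none ∧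
      ((vc v).grp (2 * s) = some g → v = a') := by
    intro g hg
    obtain ⟨a, ha⟩ := R.grp g hg
    obtain ⟨a', ha'⟩ := hAE a
    obtain ⟨l, hl⟩ := S4_AE_ex hn _ ha'
    refine ⟨a', fun v hv => ?_⟩
    have := hl v hv
    simpa only [bitE, ha] using this
  have hgrp0 : ∀ v ∈ S, (vc v).grp (2 * s) ≠ Option.none := by
    obtain ⟨a', ha'⟩ := hgrp 0 (by omega)
    exact fun v hv => (ha' v hv).1
  have hlt : ∀ w : Vr h k n1, ∀ g, w.grp (2 * s) = some g → g < 2 * s + k := by
    intro w g hw
    cases w with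
    | ad c j =>
      simp only [Vr.grp] at hw
      split_ifs at hw with hc
      simp only [Option.some.injEq] at hw
      omega
    | rw γ x =>
      simp only [Vr.grp, Option.some.injEq] at hw
      have := x.1.2
      omega
    | none => simp [Vr.grp] at hw
  have hsurj : ∀ g < 2 * s + k, ∃ v ∈ S, (vc v).grp (2 * s) = some g := by
    classical
    let f : Fin n → ℕ := fun v => ((vc v).grp (2 * s)).getD 0
    have hf : ∀ v ∈ S, (vc v).grp (2 * s) = some (f v) := by
      intro v hv
      obtain ⟨g, hg⟩ := Option.ne_none_iff_exists'.1 (hgrp0 v hv)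
      simp only [f, hg, Option.getD_some]
    have hinj : Set.InjOn f S := by
      intro v hv v' hv' hvv
      have h1 := hf v hv
      have h2 := hf v' hv'
      obtain ⟨a', ha'⟩ := hgrp (f v) (hlt _ _ h1)
      rw [(ha' v hv).2 h1, (ha' v' hv').2 (by rw [h2, hvv])]
    have himg : S.image f = Finset.range (2 * s + k) := by
      apply Finset.eq_of_subset_of_card_le
      · intro g hg
        rw [Finset.mem_image] at hg
        obtain ⟨v, hv, rfl⟩ := hg
        exact Finset.mem_range.2 (hlt _ _ (hf v hv))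
      · rw [Finset.card_image_of_injOn hinj, hcard, Finset.card_range]
    intro g hg
    have : g ∈ S.image f := by rw [himg]; exact Finset.mem_range.2 hg
    rw [Finset.mem_image] at this
    obtain ⟨v, hv, hvg⟩ := this
    exact ⟨v, hv, by rw [hf v hv, hvg]⟩
  -- addresses
  have hA' : ∀ c, ∃ j : Fin h, c < 2 * s → ∃ v ∈ S, vc v = .ad c j := by
    intro c
    by_cases hc : c < 2 * s
    · obtain ⟨v, hv, hg⟩ := hsurj c (by omega)
      cases hw : vc v with
      | ad c' j =>
        rw [hw] at hg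
        simp only [Vr.grp] at hg
        split_ifs at hg with h1
        simp only [Option.some.injEq] at hg
        subst hg
        exact ⟨j, fun _ => ⟨v, hv, hw⟩⟩
      | rw γ x =>
        rw [hw] at hg
        simp only [Vr.grp, Option.some.injEq] at hg
        omega
      | none =>
        rw [hw] at hg
        simp [Vr.grp] at hg
    · exact ⟨⟨0, hh⟩, fun h => absurd h hc⟩
  choose A hA using hA'
  have hX' : ∀ i : Fin k, ∃ (γ : Fin h) (y : Fin n1), ∃ v ∈ S, vc v = .rw γ (i, y) := by
    intro i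
    obtain ⟨v, hv, hg⟩ := hsurj (2 * s + i.val) (by omega)
    cases hw : vc v with
    | ad c' j =>
      rw [hw] at hg
      simp only [Vr.grp] at hg
      split_ifs at hg with h1
      simp only [Option.some.injEq] at hg
      omega
    | rw γ x =>
      rw [hw] at hg
      simp only [Vr.grp, Option.some.injEq] at hg
      have hxi : x.1 = i := Fin.ext (by omega)
      refine ⟨γ, x.2, v, hv, ?_⟩
      rw [hw, ← hxi]
    | none =>
      rw [hw] at hg
      simp [Vr.grp] at hg
  choose Γ X hX using hX'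
  obtain ⟨a1, ha1⟩ := R.con 0 hk 0 hh
  obtain ⟨a1', ha1'⟩ := hAE a1
  obtain ⟨l1, hl1⟩ := S4_AE_ex hn _ ha1'
  have hΓ : ∀ i, Γ i = Γ ⟨0, hk⟩ := by
    have key : ∀ i, (Γ i).val = a1'.val := by
      intro i
      obtain ⟨v, hv, hvc⟩ := hX i
      have := hl1 v hv
      simp only [bitE, ha1] at this
      exact this.2 _ _ hvc
    intro i
    exact Fin.ext (by rw [key i, key])
  classical
  obtain ⟨a0, -, hc⟩ := hgood (ix (nodeOf s A, Γ ⟨0, hk⟩))
    (Finset.univ.image (fun i : Fin k => (i, X i))) (by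
      rw [Finset.card_image_of_injective, Finset.card_univ, Fintype.card_fin]
      intro i i' h
      simp only [Prod.mk.injEq] at h
      exact h.1)
  have hc' : ∀ c : Fin k, ∃ i : Fin k,
      ((ω (ix (nodeOf s A, Γ ⟨0, hk⟩))).1 (a0, (i, X i))).val = c.val := by
    intro c
    obtain ⟨v, hv, hvc⟩ := hc c
    rw [Finset.mem_image] at hv
    obtain ⟨i, -, rfl⟩ := hv
    exact ⟨i, hvc⟩
  have hX2 : ∀ i, ∃ v ∈ S, vc v = .rw (Γ ⟨0, hk⟩) (i, X i) := by
    intro i
    obtain ⟨v, hv, hvc⟩ := hX i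
    exact ⟨v, hv, by rw [hvc, hΓ i]⟩
  obtain ⟨a, ha⟩ := R.reg (A (2 * ([] : Node h).length)) a0
  obtain ⟨a', ha'⟩ := hAE a
  refine S4_step hn dc vc (fun ad γ => NegE (ω (ix (ad, γ)))) S A
    (ω (ix (nodeOf s A, Γ ⟨0, hk⟩))).2.1 a0 (fun c hc => hA c hc) r
    (fun ad nd h1 h2 h3 h4 h5 => S4_game hn dc vc R ix ω S A (Γ ⟨0, hk⟩) X a0
      (fun c hc => hA c hc) hX2 hc' r ad nd h1 h2 h3 hs h4 h5) [] [] (by simp; omega)
    (by simp) rfl (fun h => absurd rfl h) trivial a0 (fun _ => rfl) (fun h => absurd rfl h)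
    a a' ha (co := 2 * s) ?_
  refine AE_imp _ _ (fun l _ hl v hv => ?_) ha'
  have := hl v hv
  simpa only [bitE, ha] using this

end Pool.Agent.H679R2.WH
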