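import Pool.Agent.H679R2.WH.Games

/-!
# Formulas and alternating prefixes
-/

set_option autoImplicit false

namespace Pool.Agent.H679R2.WH

theorem Val_mono {A N d : ℕ} (S : Finset (Fin N)) (b : Bool) (x y : CIdx A N d → Bool)
    (h : x ≤ y) : Val S d b x → Val S d b y := by
  induction d generalizing b with
  | zero =>
    cases b with
    | true =>
      simp only [Val]
      intro hx l
      rcases hx l with h1 | h1
      · left
        have := h (Fin.elim0, l)
        rw [h1] at this
        exact top_le_iff.mp this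
      · exact Or.inr h1
    | false =>
      simp only [Val]
      rintro ⟨l, h1, h2⟩
      refine ⟨l, ?_, h2⟩
      have := h (Fin.elim0, l)
      rw [h1] at this
      exact top_le_iff.mp this
  | succ d ih =>
    cases b with
    | true =>
      simp only [Val]
      intro hx a
      exact ih false _ _ (fun i => h _) (hx a)
    | false =>
      simp only [Val]
      rintro ⟨a, hx⟩
      exact ⟨a, ih true _ _ (fun i => h _) hx⟩

theorem AE_congr {A r : ℕ} (G G' : List (Fin A × Fin A) → Prop)
    (h : ∀ l, l.length = r → (G l ↔ G' l)) : AE A r G ↔ AE A r G' :=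
  ⟨AE_imp G G' (fun l hl => (h l hl).mp), AE_imp G' G (fun l hl => (h l hl).mpr)⟩

theorem pth_cons {A : ℕ} (hA : 0 < A) (d : ℕ) (a : Fin A) (l : List (Fin A)) :
    pth hA (d + 1) (a :: l) = Fin.cons a (pth hA d l) := by
  funext i
  refine Fin.cases ?_ (fun i => ?_) i
  · simp [pth]
  · simp [pth]

theorem Val_even {A N : ℕ} (hA : 0 < A) (S : Finset (Fin N)) (r : ℕ)
    (x : CIdx A N (2 * r) → Bool) :
    Val S (2 * r) true x ↔
      AE A r (fun l => ∀ l', x (pth hA (2 * r) (flat l), l') = true ∨ lit S l') := by
  induction r with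
  | zero =>
    show (∀ l : Fin N × Bool, x (Fin.elim0, l) = true ∨ lit S l) ↔ _
    have : (pth hA (2 * 0) (flat []) : Fin (2 * 0) → Fin A) = Fin.elim0 := by
      funext i; exact i.elim0
    simp only [AE, this]
  | succ r ih =>
    show (∀ a : Fin A, ∃ b : Fin A, Val S (2 * r) true
      (fun i => x (Fin.cons a (Fin.cons b i.1), i.2))) ↔ _
    simp only [AE]
    refine forall_congr' fun a => exists_congr fun b => ?_
    rw [ih]
    refine AE_congr _ _ fun l _ => ?_
    have : pth hA (2 * (r + 1)) (flat ((a, b) :: l)) =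
        Fin.cons a (Fin.cons b (pth hA (2 * r) (flat l))) := by
      show pth hA (2 * r + 1 + 1) (a :: b :: flat l) = _
      rw [pth_cons, pth_cons]
    rw [this]

theorem Val_odd {A N : ℕ} (hA : 0 < A) (S : Finset (Fin N)) (r : ℕ)
    (x : CIdx A N (2 * r + 1) → Bool) :
    Val S (2 * r + 1) true x ↔
      AE A r (fun l => ∀ a, ∃ l', x (pth hA (2 * r + 1) (flat l ++ [a]), l') = true ∧
        lit S l') := by
  induction r with
  | zero =>
    show (∀ a : Fin A, ∃ l : Fin N × Bool, x (Fin.cons a Fin.elim0, l) = true ∧ lit S l) ↔ _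
    simp only [AE]
    refine forall_congr' fun a => ?_
    have : (pth hA (2 * 0 + 1) (flat [] ++ [a]) : Fin (2 * 0 + 1) → Fin A) =
        Fin.cons a Fin.elim0 := by
      show pth hA (0 + 1) (a :: []) = _
      rw [pth_cons]
      congr 1
      funext i; exact i.elim0
    rw [this]
  | succ r ih =>
    show (∀ a : Fin A, ∃ b : Fin A, Val S (2 * r + 1) true
      (fun i => x (Fin.cons a (Fin.cons b i.1), i.2))) ↔ _
    simp only [AE]
    refine forall_congr' fun a => exists_congr fun b => ?_
    rw [ih]
    refine AE_congr _ _ fun l _ => forall_congr' fun c => ?_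
    have : pth hA (2 * (r + 1) + 1) (flat ((a, b) :: l) ++ [c]) =
        Fin.cons a (Fin.cons b (pth hA (2 * r + 1) (flat l ++ [c]))) := by
      show pth hA (2 * r + 1 + 1 + 1) (a :: b :: (flat l ++ [c])) = _
      rw [pth_cons, pth_cons]
    rw [this]

end Pool.Agent.H679R2.WH
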