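import Pool.Agent.H679R2.WH.Codes2
import Pool.Agent.H679R2.WH.Val
import Pool.Agent.H679R2.WH.Games

/-!
# Sources with addresses, odd number of levels: positive instances
-/

set_option autoImplicit false

namespace Pool.Agent.H679R2.WH

theorem S3_inst {n h b k n1 m s : ℕ} (hn : 0 < n) (dc : Fin n → Ch h b)
    (vc : Fin n → Vr h k n1) (ix : Node h × Fin h → Fin m)
    (Y : Fin m → Set (Node b × Row k n1)) (i : CIdx n n (2 * s)) :
    instE2 hn dc vc ix Y i = true ↔ (i.2.2 = true ∨ bitE dc vc (2 * s)
      (fun ad γ => Y (ix (ad, γ))) (nodeOf s (ext hn i.1)).reverse i.2.1) := by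
  unfold instE2
  simp only [Bool.or_eq_true, decide_eq_true_iff]

theorem S3_val {n h b k n1 m s : ℕ} (hn : 0 < n) (dc : Fin n → Ch h b)
    (vc : Fin n → Vr h k n1) (ix : Node h × Fin h → Fin m)
    (Y : Fin m → Set (Node b × Row k n1)) (S : Finset (Fin n)) :
    Val S (2 * s) true (instE2 hn dc vc ix Y : CIdx n n (2 * s) → Bool) ↔
      AE n s (fun l => ∀ v ∈ S, bitE dc vc (2 * s) (fun ad γ => Y (ix (ad, γ))) l v) := by
  rw [Val_even hn]
  have hnode : ∀ l : List (Fin n × Fin n), l.length = s →
      (nodeOf s (ext hn (pth hn (2 * s) (flat l)))).reverse = l := by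
    intro l hl
    have := nodeOf_pth hn l hl le_rfl []
    rw [List.append_nil] at this
    rw [this, List.reverse_reverse]
  constructor
  · refine AE_imp _ _ fun l hl h v hv => ?_
    have h1 := h (v, false)
    rw [S3_inst] at h1
    simp only [hnode l hl] at h1
    rcases h1 with (h1 | h1) | h1
    · simp at h1
    · exact h1
    · rcases h1 with h1 | h1
      · simp at h1
      · exact absurd hv h1.2
  · refine AE_imp _ _ fun l hl h l' => ?_
    obtain ⟨v, b⟩ := l'
    rw [S3_inst]
    simp only [hnode l hl]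
    cases b with
    | true => exact Or.inl (Or.inl rfl)
    | false =>
      by_cases hv : v ∈ S
      · exact Or.inl (Or.inr (h v hv))
      · exact Or.inr (Or.inr ⟨rfl, hv⟩)

theorem S3_AE_true {n : ℕ} (hn : 0 < n) (r : ℕ) (G : List (Fin n × Fin n) → Prop)
    (h : ∀ l, G l) : AE n r G := by
  induction r generalizing G with
  | zero => exact h []
  | succ r ih => exact fun a => ⟨⟨0, hn⟩, ih _ (fun l => h _)⟩

/-- The satisfying set. -/
theorem S3_set {n h b k n1 s : ℕ} {dc : Fin n → Ch h b}
    {vc : Fin n → Vr h k n1} (R : Realz (2 * s) dc vc) (ad0 : Node h) (had : ad0.length = s)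
    (γ : Fin h) (y : Fin k → Fin n1) :
    ∃ S : Finset (Fin n), S.card = 2 * s + k ∧
      (∀ v ∈ S, (vc v).grp (2 * s) ≠ none) ∧
      (∀ v ∈ S, ∀ c j, vc v = .ad c j → ∀ i p, ad0.reverse[i]? = some p →
        (c = 2 * i → j = p.1) ∧ (c = 2 * i + 1 → j = p.2)) ∧
      (∀ v ∈ S, ∀ γ' x, vc v = .rw γ' x → γ' = γ ∧ y x.1 = x.2) ∧
      (∀ g, g < 2 * s + k → ∃ v0, ∀ v ∈ S, (vc v).grp (2 * s) = some g → v = v0) := by
  classical
  have hlen : ad0.reverse.length = s := by rw [List.length_reverse, had]
  let A : Fin (2 * s) → Fin h := fun g =>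
    if g.val % 2 = 0 then (ad0.reverse[g.val / 2]'(by omega)).1
    else (ad0.reverse[g.val / 2]'(by omega)).2
  choose vA hvA using fun g : Fin (2 * s) => R.ad g.val g.isLt (A g)
  choose vR hvR using fun i : Fin k => R.rw γ (i, y i)
  have hgA : ∀ g, (vc (vA g)).grp (2 * s) = some g.val := by
    intro g
    rw [hvA]
    simp only [Vr.grp]
    rw [if_pos g.isLt]
  have hgR : ∀ i, (vc (vR i)).grp (2 * s) = some (2 * s + i.val) := by
    intro i
    rw [hvR]
    rfl
  have hinj : Function.Injective (Sum.elim vA vR : Fin (2 * s) ⊕ Fin k → Fin n) := by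
    rintro (g | i) (g' | i') h
    · simp only [Sum.elim_inl] at h
      have h1 := hgA g
      rw [h, hgA g'] at h1
      simp only [Option.some.injEq] at h1
      rw [Fin.ext h1.symm]
    · simp only [Sum.elim_inl, Sum.elim_inr] at h
      have h1 := hgA g
      rw [h, hgR i'] at h1
      simp only [Option.some.injEq] at h1
      have := g.isLt
      omega
    · simp only [Sum.elim_inl, Sum.elim_inr] at h
      have h1 := hgR i
      rw [h, hgA g'] at h1
      simp only [Option.some.injEq] at h1
      have := g'.isLt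
      omega
    · simp only [Sum.elim_inr] at h
      have h1 := hgR i
      rw [h, hgR i'] at h1
      simp only [Option.some.injEq] at h1
      have h2 : i = i' := Fin.ext (by omega)
      rw [h2]
  refine ⟨Finset.univ.image (Sum.elim vA vR), ?_, ?_, ?_, ?_, ?_⟩
  · rw [Finset.card_image_of_injective _ hinj, Finset.card_univ, Fintype.card_sum,
      Fintype.card_fin, Fintype.card_fin]
  · intro v hv
    obtain ⟨t, -, rfl⟩ := Finset.mem_image.1 hv
    rcases t with g | i
    · rw [Sum.elim_inl, hgA]; simp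
    · rw [Sum.elim_inr, hgR]; simp
  · intro v hv c j hc i p hp
    obtain ⟨t, -, rfl⟩ := Finset.mem_image.1 hv
    rcases t with g | i'
    · rw [Sum.elim_inl, hvA, Vr.ad.injEq] at hc
      obtain ⟨hc1, hc2⟩ := hc
      have hi : i < ad0.reverse.length := by
        by_contra hcon
        rw [List.getElem?_eq_none (by omega)] at hp
        simp at hp
      rw [List.getElem?_eq_getElem hi, Option.some.injEq] at hp
      constructor
      · intro h
        rw [← hc2, ← hp]
        simp only [A]
        rw [if_pos (by omega)]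
        have e : g.val / 2 = i := by omega
        simp only [e]
      · intro h
        rw [← hc2, ← hp]
        simp only [A]
        rw [if_neg (by omega)]
        have e : g.val / 2 = i := by omega
        simp only [e]
    · rw [Sum.elim_inr, hvR] at hc
      simp at hc
  · intro v hv γ' x hc
    obtain ⟨t, -, rfl⟩ := Finset.mem_image.1 hv
    rcases t with g | i'
    · rw [Sum.elim_inl, hvA] at hc
      simp at hc
    · rw [Sum.elim_inr, hvR, Vr.rw.injEq] at hc
      obtain ⟨h1, h2⟩ := hc
      rw [← h2]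
      exact ⟨h1.symm, rfl⟩
  · intro g hg
    by_cases hg2 : g < 2 * s
    · refine ⟨vA ⟨g, hg2⟩, fun v hv hvg => ?_⟩
      obtain ⟨t, -, rfl⟩ := Finset.mem_image.1 hv
      rcases t with g' | i'
      · rw [Sum.elim_inl, hgA, Option.some.injEq] at hvg
        subst hvg
        rfl
      · rw [Sum.elim_inr, hgR, Option.some.injEq] at hvg
        omega
    · refine ⟨vR ⟨g - 2 * s, by omega⟩, fun v hv hvg => ?_⟩
      obtain ⟨t, -, rfl⟩ := Finset.mem_image.1 hv
      rcases t with g' | i'
      · rw [Sum.elim_inl, hgA, Option.some.injEq] at hvg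
        have := g'.isLt
        omega
      · rw [Sum.elim_inr, hgR, Option.some.injEq] at hvg
        rw [Sum.elim_inr]
        congr 1
        exact Fin.ext (by simp only; omega)

private theorem S3_gen {n h b k n1 s : ℕ} (hn : 0 < n) {dc : Fin n → Ch h b}
    {vc : Fin n → Vr h k n1} (R : Realz (2 * s) dc vc) (ad0 : Node h) (had : ad0.length = s)
    (γ : Fin h) (ω : OmPE b k n1 s) (Y' : Node h → Fin h → Set (Node b × Row k n1))
    (hY : Y' ad0 γ = PosE ω) (S : Finset (Fin n))
    (hG : ∀ v ∈ S, (vc v).grp (2 * s) ≠ none)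
    (hA : ∀ v ∈ S, ∀ c j, vc v = .ad c j → ∀ i p, ad0.reverse[i]? = some p →
        (c = 2 * i → j = p.1) ∧ (c = 2 * i + 1 → j = p.2))
    (hR : ∀ v ∈ S, ∀ γ' x, vc v = .rw γ' x → γ' = γ ∧ ω.1 x.1 = x.2) :
    ∀ (r : ℕ) (ad : Node h) (nd : Node b) (rest : Node h), ad0 = rest ++ ad →
      nd.length = ad.length → InP ω.2 nd → ad.length + r = s →
      AE n r (fun l => ∀ v ∈ S, okE (2 * s) Y' (walk dc l ad nd) (vc v)) := by
  intro r
  induction r with
  | zero =>
    intro ad nd rest had0 hnd hin hr
    have hrest : rest = [] := by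
      rw [had0, List.length_append] at had
      exact List.eq_nil_of_length_eq_zero (by omega)
    subst hrest
    rw [List.nil_append] at had0
    subst had0
    intro v hv
    simp only [walk, okE]
    refine ⟨hG v hv, fun i p j hp hw => ((hA v hv _ _ hw i p hp).2 rfl), fun γ' x hw => ?_⟩
    obtain ⟨h1, h2⟩ := hR v hv γ' x hw
    subst h1
    rw [hY]
    exact ⟨by rw [hnd, had], hin, h2⟩
  | succ r ih =>
    intro ad nd rest had0 hnd hin hr a
    have hreg : ∀ α x, dc a = .reg α x → ∃ a', AE n r (fun l => ∀ v ∈ S,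
        okE (2 * s) Y' (walk dc ((a, a') :: l) ad nd) (vc v)) := by
      intro α x ha
      -- the next entry of the address
      have hrl : rest.length = r + 1 := by
        rw [had0, List.length_append] at had
        omega
      obtain ⟨rest', p, hp⟩ : ∃ rest' p, rest = rest' ++ [p] := by
        rcases List.eq_nil_or_concat rest with h0 | ⟨l, p, h0⟩
        · rw [h0] at hrl; simp at hrl
        · exact ⟨l, p, by simpa using h0⟩
      have hget : ad0.reverse[ad.length]? = some p := by
        rw [had0, hp]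
        simp only [List.reverse_append, List.reverse_cons, List.reverse_nil, List.nil_append]
        rw [List.getElem?_append_right (by simp)]
        simp
      by_cases hα : α = p.1
      · have hlt : nd.length < s := by omega
        obtain ⟨a', ha'⟩ := R.reg p.2 (ω.2 (⟨nd, hlt⟩, x))
        refine ⟨a', ?_⟩
        simp only [walk, ha, ha']
        have hpp : (α, p.2) = p := by rw [hα]
        rw [hpp]
        refine ih (p :: ad) ((x, _) :: nd) rest' ?_ ?_ ?_ ?_
        · rw [had0, hp]; simp
        · simp [hnd]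
        · exact ⟨hin, hlt, rfl⟩
        · simp only [List.length_cons]; omega
      · obtain ⟨a', ha'⟩ := R.skip
        refine ⟨a', ?_⟩
        simp only [walk, ha, ha']
        refine S3_AE_true hn r _ (fun l v hv => ?_)
        simp only [okE]
        refine ⟨hG v hv, fun j hw hj => ?_⟩
        have := (hA v hv _ _ hw _ _ hget).1 rfl
        exact hα (by rw [← hj, this])
    have htriv : (∀ α x, dc a ≠ .reg α x) → ∃ a', AE n r (fun l => ∀ v ∈ S,
        okE (2 * s) Y' (walk dc ((a, a') :: l) ad nd) (vc v)) := by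
      intro ha
      refine ⟨⟨0, hn⟩, S3_AE_true hn r _ (fun l v hv => ?_)⟩
      have hw : walk dc ((a, ⟨0, hn⟩) :: l) ad nd = .triv := by
        simp only [walk]
      rw [hw]
      exact hG v hv
    by_cases hreg' : ∃ α x, dc a = .reg α x
    · obtain ⟨α, x, hax⟩ := hreg'
      exact hreg α x hax
    · push Not at hreg'
      exact htriv hreg'

theorem instE2_pos {n h b k n1 m s : ℕ} (hn : 0 < n) (hs : 1 ≤ s) (dc : Fin n → Ch h b)
    (vc : Fin n → Vr h k n1) (R : Realz (2 * s) dc vc) (ix : Node h × Fin h → Fin m)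
    (hix : ∀ j, ∃ ad γ, ad.length = s ∧ ix (ad, γ) = j)
    (Y : Fin m → Set (Node b × Row k n1)) (j : Fin m) (ω : OmPE b k n1 s) :
    WSat (2 * s) (2 * s + k) (instE2 hn dc vc ix (Function.update Y j (PosE ω))) := by
  obtain ⟨ad0, γ, had, hj⟩ := hix j
  obtain ⟨S, hcard, hG, hA, hR, hel⟩ := S3_set R ad0 had γ ω.1
  refine ⟨S, hcard, ?_⟩
  rw [S3_val]
  have hgen := S3_gen hn R ad0 had γ ω
    (fun ad γ => Function.update Y j (PosE ω) (ix (ad, γ)))
    (by simp only [hj, Function.update_self]) S hG hA hR s [] [] ad0 (by simp) rfl trivial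
    (by simp)
  obtain ⟨r, rfl⟩ : ∃ r, s = r + 1 := ⟨s - 1, by omega⟩
  intro a
  have hother : (∀ g, dc a ≠ .grp g) → (∀ c γ, dc a ≠ .con c γ) → ∃ a', AE n r (fun l => ∀ v ∈ S,
      bitE dc vc (2 * (r + 1)) (fun ad γ => Function.update Y j (PosE ω) (ix (ad, γ)))
        ((a, a') :: l) v) := by
    intro h1 h2
    obtain ⟨a', ha'⟩ := hgen a
    refine ⟨a', AE_imp _ _ (fun l _ hl v hv => ?_) ha'⟩
    have h3 := hl v hv
    cases hdc : dc a with
    | reg α x => simp only [bitE, hdc]; exact h3
    | skip => simp only [bitE, hdc]; exact h3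
    | grp g => exact absurd hdc (h1 g)
    | con c γ => exact absurd hdc (h2 c γ)
    | chk i => simp only [bitE, hdc]; exact h3
    | junk => simp only [bitE, hdc]; exact h3
  cases hdc : dc a with
  | grp g =>
    obtain ⟨v0, hv0⟩ := hel g (R.grp' a g hdc)
    refine ⟨v0, S3_AE_true hn r _ (fun l v hv => ?_)⟩
    simp only [bitE, hdc]
    exact ⟨hG v hv, hv0 v hv⟩
  | con c γ0 =>
    refine ⟨⟨γ.val, lt_of_lt_of_le γ.isLt R.hn⟩, S3_AE_true hn r _ (fun l v hv => ?_)⟩
    simp only [bitE, hdc]
    refine ⟨hG v hv, fun γ' x hw => ?_⟩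
    rw [(hR v hv γ' x hw).1]
  | reg α x => exact hother (by simp [hdc]) (by simp [hdc])
  | skip => exact hother (by simp [hdc]) (by simp [hdc])
  | chk i => exact hother (by simp [hdc]) (by simp [hdc])
  | junk => exact hother (by simp [hdc]) (by simp [hdc])

end Pool.Agent.H679R2.WH
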