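import Pool.Agent.H679R2.WH.Codes2
import Pool.Agent.H679R2.WH.Val
import Pool.Agent.H679R2.WH.Games
import Pool.Agent.H679R2.WH.Inst2Basic

/-!
# Even sources with addresses, negative instances (task S6, helper368)
-/

set_option autoImplicit false

namespace Pool.Agent.H679R2.WH

private theorem S6_AE_exists {A r : ℕ} (hA : 0 < A) (G : List (Fin A × Fin A) → Prop)
    (h : AE A r G) : ∃ l, l.length = r ∧ G l := by
  induction r generalizing G with
  | zero => exact ⟨[], rfl, h⟩
  | succ r ih =>
    obtain ⟨b, hb⟩ := h ⟨0, hA⟩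
    obtain ⟨l, hl, hG⟩ := ih _ hb
    exact ⟨(⟨0, hA⟩, b) :: l, by simp [hl], hG⟩

/-- The main induction: no strategy survives the killing choices. -/
private theorem S6_main {n h b k n1 d0 s : ℕ} (hn : 0 < n)
    (dc : Fin n → Ch h b) (vc : Fin n → Vr h k n1) (R : Realz (2 * s + 2) dc vc)
    (Y : Node h → Fin h → Fin h → Set (Node b × Fin b × Row k n1))
    (S : Finset (Fin n)) (S' : Finset (Row k n1)) (ac : ℕ → Fin h)
    (F1 : ∀ c < 2 * s + 2, ∀ v ∈ S, ∀ j, vc v = .ad c j → j = ac c)
    (F2 : ∀ v ∈ S, ∀ γ x, vc v = .rw γ x → γ = ac (2 * s + 1) ∧ x ∈ S')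
    (ad0 : Node h) (had0 : ∀ i, i < s → ad0.reverse[i]? = some (ac (2 * i), ac (2 * i + 1)))
    (had0l : ad0.length = s)
    (ω : OmNO b k n1 d0 s) (hY : Y ad0 (ac (2 * s)) (ac (2 * s + 1)) = NegO ω)
    (a1 : Fin b) (h1 : ∀ v ∈ S', (ω.1 (a1, v)).val = 0)
    (h2 : ∀ p : NodeEQ b s, ∃ a, ∀ v ∈ S', (ω.2.2 (p, a, v)).val = 0)
    (r : ℕ) (ad : Node h) (nd : Node b) (hr : ad.length + r = s) (hlen : nd.length = ad.length)
    (hfirst : ∀ i p, ad.reverse[i]? = some p → p.1 = ac (2 * i))
    (hFol : Fol ω.2.1 nd) (htop' : nd ≠ [] → ftop nd = some a1)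
    (hAE : AE n r (fun l => ∀ z, ∃ v ∈ S, okO s Y (walk dc l ad nd) (dc z) (vc v))) : False := by
  induction r generalizing ad nd with
  | zero =>
    have hG : ∀ z, ∃ v ∈ S, okO s Y (.leaf ad nd) (dc z) (vc v) := hAE
    by_cases hsec : ∀ i p, ad.reverse[i]? = some p → p.2 = ac (2 * i + 1)
    · have hadeq : ad = ad0 := by
        have hrev : ad.reverse = ad0.reverse := by
          apply List.ext_getElem?
          intro i
          by_cases hi : i < s
          · rw [had0 i hi]
            have hi' : i < ad.reverse.length := by rw [List.length_reverse]; omega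
            have e1 : ad.reverse[i]? = some (ad.reverse[i]) := List.getElem?_eq_getElem hi'
            rw [e1]
            exact congrArg some (Prod.ext (hfirst i _ e1) (hsec i _ e1))
          · rw [List.getElem?_eq_none (by rw [List.length_reverse]; omega),
              List.getElem?_eq_none (by rw [List.length_reverse]; omega)]
        exact List.reverse_injective hrev
      subst hadeq
      have hnd : nd.length = s := by omega
      obtain ⟨x, hx⟩ := h2 ⟨nd, hnd⟩
      obtain ⟨z, hz⟩ := R.reg (ac (2 * s)) x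
      obtain ⟨v, hv, hok⟩ := hG z
      rw [hz] at hok
      rcases hok with ⟨j, hj1, hj2⟩ | ⟨γ, y, hy1, hy2⟩
      · exact hj2 (F1 _ (by omega) v hv j hj1)
      · obtain ⟨hγ, hyS⟩ := F2 v hv γ y hy1
        subst hγ
        rw [hY] at hy2
        apply hy2
        refine ⟨hnd, ?_, hFol, hx y hyS⟩
        intro a ha
        by_cases hn0 : nd = []
        · subst hn0
          simp [ftop] at ha
        · have e : ftop nd = some a := ha
          rw [htop' hn0] at e
          have e' : a1 = a := Option.some.inj e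
          subst e'
          exact h1 y hyS
    · push Not at hsec
      obtain ⟨i, p, hp1, hp2⟩ := hsec
      have hi : i < s := by
        obtain ⟨hi, -⟩ := List.getElem?_eq_some_iff.1 hp1
        rw [List.length_reverse] at hi
        omega
      obtain ⟨z, hz⟩ := R.chk i (by omega)
      obtain ⟨v, hv, hok⟩ := hG z
      rw [hz] at hok
      have hok' : ∀ p, ad.reverse[i]? = some p → vc v = .ad (2 * i + 1) p.2 := hok
      exact hp2 (F1 _ (by omega) v hv _ (hok' p hp1))
  | succ r ih =>
    have hlt : nd.length < s := by omega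
    classical
    set x : Fin b := if nd = [] then a1 else ω.2.1 ⟨nd, hlt⟩ with hx
    obtain ⟨a, ha⟩ := R.reg (ac (2 * ad.length)) x
    obtain ⟨a', ha'⟩ := hAE a
    obtain ⟨z0, hz0⟩ := R.skip
    cases hdc : dc a' with
    | reg β y =>
      have hw : ∀ l, walk dc ((a, a') :: l) ad nd =
          walk dc l ((ac (2 * ad.length), β) :: ad) ((x, y) :: nd) := by
        intro l
        simp only [walk, ha, hdc]
      simp only [hw] at ha'
      refine ih ((ac (2 * ad.length), β) :: ad) ((x, y) :: nd) (by simp; omega)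
        (by simp [hlen]) ?_ ?_ ?_ ha'
      · intro i p hp
        rw [List.reverse_cons, List.getElem?_append] at hp
        split_ifs at hp with h3
        · exact hfirst i p hp
        · rw [List.length_reverse] at hp h3
          have h4 : i - ad.length = 0 := by
            by_contra h5
            have : 1 ≤ i - ad.length := by omega
            rw [List.getElem?_eq_none (by simpa using this)] at hp
            exact absurd hp (by simp)
          have h5 : i = ad.length := by omega
          rw [h4] at hp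
          simp only [List.getElem?_cons_zero, Option.some.injEq] at hp
          rw [← hp, h5]
      · refine ⟨hFol, ?_⟩
        by_cases hn0 : nd = []
        · exact Or.inl hn0
        · right
          refine ⟨hlt, ?_⟩
          rw [hx, if_neg hn0]
      · intro _
        by_cases hn0 : nd = []
        · subst hn0
          simp [ftop, htop, hx]
        · rw [M_ftop_cons _ _ _ hn0]
          exact htop' hn0
    | skip =>
      obtain ⟨l, -, hl⟩ := S6_AE_exists hn _ ha'
      obtain ⟨v, hv, hok⟩ := hl z0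
      have hw : walk dc ((a, a') :: l) ad nd = .skip ad.length (ac (2 * ad.length)) := by
        simp only [walk, ha, hdc]
      rw [hw, hz0] at hok
      obtain ⟨j, hj1, hj2⟩ := hok
      exact hj2 (F1 _ (by omega) v hv j hj1)
    | grp g =>
      obtain ⟨l, -, hl⟩ := S6_AE_exists hn _ ha'
      obtain ⟨v, hv, hok⟩ := hl z0
      have hw : walk dc ((a, a') :: l) ad nd = .fail := by
        simp only [walk, ha, hdc]
      rw [hw, hz0] at hok
      exact hok
    | con c γ =>
      obtain ⟨l, -, hl⟩ := S6_AE_exists hn _ ha'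
      obtain ⟨v, hv, hok⟩ := hl z0
      have hw : walk dc ((a, a') :: l) ad nd = .fail := by
        simp only [walk, ha, hdc]
      rw [hw, hz0] at hok
      exact hok
    | chk i =>
      obtain ⟨l, -, hl⟩ := S6_AE_exists hn _ ha'
      obtain ⟨v, hv, hok⟩ := hl z0
      have hw : walk dc ((a, a') :: l) ad nd = .fail := by
        simp only [walk, ha, hdc]
      rw [hw, hz0] at hok
      exact hok
    | junk =>
      obtain ⟨l, -, hl⟩ := S6_AE_exists hn _ ha'
      obtain ⟨v, hv, hok⟩ := hl z0
      have hw : walk dc ((a, a') :: l) ad nd = .fail := by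
        simp only [walk, ha, hdc]
      rw [hw, hz0] at hok
      exact hok

theorem instO2_neg {n h b k n1 d0 m s : ℕ} (hn : 0 < n) (hk : 0 < k) (hh : 0 < h)
    (dc : Fin n → Ch h b)
    (vc : Fin n → Vr h k n1) (R : Realz (2 * s + 2) dc vc)
    (ix : Node h × Fin h × Fin h → Fin m)
    (σ : Fin b) (ω : Fin m → OmNO b k n1 d0 s) (hgood : ∀ j, GoodO σ (ω j)) :
    ¬ WSat (2 * s + 1) (2 * s + 2 + k) (instO2 hn dc vc ix (fun j => NegO (ω j))) := by
  classical
  rintro ⟨S, hS, hV⟩
  rw [Val_odd hn] at hV
  set Y : Node h → Fin h → Fin h → Set (Node b × Fin b × Row k n1) :=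
    fun ad α γ => NegO (ω (ix (ad, α, γ))) with hYdef
  have key : AE n s (fun l => ∀ z, ∃ v ∈ S, okO s Y (walk dc l [] []) (dc z) (vc v)) := by
    refine AE_imp _ _ ?_ hV
    intro l hl hG z
    obtain ⟨l', e1, e2⟩ := hG z
    rw [instO2_iff] at e1
    have e3 := nodeOf_pth (s := s) (d := 2 * s + 1) hn l hl (by omega) [z]
    have e4 := ext_pth_last (s := s) hn l hl z
    simp only [e3, e4, List.reverse_reverse] at e1
    refine ⟨l'.1, ?_, e1.2⟩
    rcases e2 with e2 | e2
    · exact e2.2
    · rw [e1.1] at e2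
      exact absurd e2.1 (by simp)
  obtain ⟨l0, -, hl0⟩ := S6_AE_exists hn _ key
  -- one element of each group
  have hgrp : ∀ g : Fin (2 * s + 2 + k), ∃ v ∈ S, (vc v).grp (2 * s + 2) = some g.val := by
    intro g
    obtain ⟨z, hz⟩ := R.grp g.val g.2
    obtain ⟨v, hv, hok⟩ := hl0 z
    rw [hz] at hok
    exact ⟨v, hv, hok⟩
  choose vg hvg1 hvg2 using hgrp
  have hinj : Function.Injective vg := by
    intro g g' hgg
    have e1 := hvg2 g
    rw [hgg, hvg2 g'] at e1
    exact (Fin.ext (Option.some.inj e1)).symm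
  have himg : Finset.univ.image vg = S := by
    apply Finset.eq_of_subset_of_card_le
    · intro v hv
      obtain ⟨g, -, rfl⟩ := Finset.mem_image.1 hv
      exact hvg1 g
    · rw [hS, Finset.card_image_of_injective _ hinj]
      simp
  have huniq : ∀ v ∈ S, ∀ v' ∈ S, (vc v).grp (2 * s + 2) = (vc v').grp (2 * s + 2) → v = v' := by
    intro v hv v' hv' e
    rw [← himg] at hv hv'
    obtain ⟨g, -, rfl⟩ := Finset.mem_image.1 hv
    obtain ⟨g', -, rfl⟩ := Finset.mem_image.1 hv'
    rw [hvg2, hvg2] at e
    rw [Fin.ext (Option.some.inj e)]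
  -- the address coordinates
  have had : ∀ c, ∃ j : Fin h, c < 2 * s + 2 → ∃ v ∈ S, vc v = .ad c j := by
    intro c
    by_cases hc : c < 2 * s + 2
    · have e1 := hvg2 ⟨c, by omega⟩
      have e2 := hvg1 ⟨c, by omega⟩
      cases hvc : vc (vg ⟨c, by omega⟩) with
      | ad c' j =>
        rw [hvc] at e1
        simp only [Vr.grp] at e1
        split_ifs at e1 with e3
        have e4 : c' = c := Option.some.inj e1
        subst e4
        exact ⟨j, fun _ => ⟨_, e2, hvc⟩⟩
      | rw γ x =>
        rw [hvc] at e1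
        simp only [Vr.grp] at e1
        have e4 : 2 * s + 2 + x.1.val = c := Option.some.inj e1
        omega
      | none =>
        rw [hvc] at e1
        simp [Vr.grp] at e1
    · exact ⟨⟨0, hh⟩, fun hc' => absurd hc' hc⟩
  choose ac hac using had
  have F1 : ∀ c < 2 * s + 2, ∀ v ∈ S, ∀ j, vc v = .ad c j → j = ac c := by
    intro c hc v hv j hj
    obtain ⟨v', hv', hj'⟩ := hac c hc
    have e : v = v' := by
      apply huniq v hv v' hv'
      rw [hj, hj']
      simp [Vr.grp, hc]
    subst e
    rw [hj] at hj'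
    injection hj'
  -- the rows
  have hrow : ∀ c : Fin k, ∃ x : Row k n1, x.1 = c ∧ ∃ v ∈ S, vc v = .rw (ac (2 * s + 1)) x := by
    intro c
    obtain ⟨z, hz⟩ := R.con c.val c.2 (ac (2 * s + 1)).val (ac (2 * s + 1)).2
    obtain ⟨v, hv, hok⟩ := hl0 z
    rw [hz] at hok
    rcases hok with ⟨γ', e1, e2⟩ | ⟨γ', x, e1, e2, e3⟩
    · exact absurd (congrArg Fin.val (F1 _ (by omega) v hv γ' e1)) e2
    · have e4 : γ' = ac (2 * s + 1) := Fin.ext e2
      subst e4
      exact ⟨x, Fin.ext e3, v, hv, e1⟩
  choose xc hxc1 hxc2 using hrow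
  set S' : Finset (Row k n1) := Finset.univ.image xc with hS'def
  have hS' : S'.card = k := by
    rw [hS'def, Finset.card_image_of_injective]
    · simp
    · intro c c' e
      rw [← hxc1 c, ← hxc1 c', e]
  have F2 : ∀ v ∈ S, ∀ γ x, vc v = .rw γ x → γ = ac (2 * s + 1) ∧ x ∈ S' := by
    intro v hv γ x hx
    obtain ⟨v', hv', hx'⟩ := hxc2 x.1
    have e : v = v' := by
      apply huniq v hv v' hv'
      rw [hx, hx']
      simp [Vr.grp, hxc1]
    subst e
    rw [hx] at hx'
    injection hx' with e1 e2
    refine ⟨e1, ?_⟩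
    rw [e2]
    exact Finset.mem_image_of_mem _ (Finset.mem_univ _)
  set ad0 : Node h := (List.ofFn (fun i : Fin s => (ac (2 * i.val), ac (2 * i.val + 1)))).reverse
    with had0def
  obtain ⟨⟨a1, -, h1⟩, h2⟩ := hgood (ix (ad0, ac (2 * s), ac (2 * s + 1))) S' hS'
  refine S6_main hn dc vc R Y S S' ac F1 F2 ad0 ?_ ?_ (ω (ix (ad0, ac (2 * s), ac (2 * s + 1))))
    rfl a1 h1 h2 s [] [] (by simp) rfl ?_ trivial (fun h => absurd rfl h) key
  · intro i hi
    rw [had0def, List.reverse_reverse]
    simp [List.getElem?_ofFn, hi]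
  · simp [had0def]
  · intro i p hp
    simp at hp

end Pool.Agent.H679R2.WH
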