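import Pool.Agent.H679R2.WH.Codes2
import Pool.Agent.H679R2.WH.Val
import Pool.Agent.H679R2.WH.Games

/-!
# Sources with addresses, even case, positive instances (task S5, helper99)
-/

set_option autoImplicit false

namespace Pool.Agent.H679R2.WH

/-- The bit of `instO2` at the path of a list. -/
theorem instO2_bit {n h b k n1 m s : ℕ} (hn : 0 < n) (dc : Fin n → Ch h b)
    (vc : Fin n → Vr h k n1) (ix : Node h × Fin h × Fin h → Fin m)
    (Y : Fin m → Set (Node b × Fin b × Row k n1))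
    (l : List (Fin n × Fin n)) (hl : l.length = s) (a : Fin n) (l' : Fin n × Bool) :
    (instO2 hn dc vc ix Y : CIdx n n (2 * s + 1) → Bool)
        (pth hn (2 * s + 1) (flat l ++ [a]), l') = true
      ↔ l'.2 = true ∧ okO s (fun ad α γ => Y (ix (ad, α, γ)))
        (walk dc l [] []) (dc a) (vc l'.1) := by
  have h1 := nodeOf_pth (s := s) (d := 2 * s + 1) hn l hl (by omega) [a]
  have h2 := ext_pth_last (s := s) hn l hl a
  simp only [instO2, h1, h2, List.reverse_reverse, Bool.and_eq_true, decide_eq_true_eq]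

theorem AE_const2 {A : ℕ} (hA : 0 < A) (P : Prop) (hP : P) (r : ℕ)
    (G : List (Fin A × Fin A) → Prop) (h : ∀ l, P → G l) : AE A r G := by
  induction r generalizing G with
  | zero => exact h [] hP
  | succ r ih =>
    intro a
    exact ⟨⟨0, hA⟩, ih _ (fun l => h _)⟩

/-- The value of `instO2` as a game. -/
theorem Val_instO2 {n h b k n1 m s : ℕ} (hn : 0 < n) (dc : Fin n → Ch h b)
    (vc : Fin n → Vr h k n1) (ix : Node h × Fin h × Fin h → Fin m)
    (Y : Fin m → Set (Node b × Fin b × Row k n1)) (S : Finset (Fin n)) :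
    Val S (2 * s + 1) true (instO2 hn dc vc ix Y : CIdx n n (2 * s + 1) → Bool) ↔
      AE n s (fun l => ∀ a, ∃ v ∈ S, okO s (fun ad α γ => Y (ix (ad, α, γ)))
        (walk dc l [] []) (dc a) (vc v)) := by
  rw [Val_odd hn]
  constructor
  · refine AE_imp _ _ ?_
    intro l hl hG a
    obtain ⟨l', h1, h2⟩ := hG a
    have h3 := (instO2_bit hn dc vc ix Y l hl a l').1 h1
    refine ⟨l'.1, ?_, h3.2⟩
    rcases h2 with h2 | h2
    · exact h2.2
    · rw [h3.1] at h2
      exact absurd h2.1 (by simp)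
  · refine AE_imp _ _ ?_
    intro l hl hG a
    obtain ⟨v, h1, h2⟩ := hG a
    exact ⟨(v, true), (instO2_bit hn dc vc ix Y l hl a (v, true)).2 ⟨rfl, h2⟩,
      Or.inl ⟨rfl, h1⟩⟩

/-- The address coordinates. -/
def coordO2 {h : ℕ} (s : ℕ) (ad0 : Node h) (αs γ0 : Fin h) (g : ℕ) : Fin h :=
  match ad0.reverse[g / 2]? with
  | some p => if g % 2 = 0 then p.1 else p.2
  | none => if g = 2 * s then αs else γ0

theorem coordO2_even {h : ℕ} (s : ℕ) (ad0 : Node h) (αs γ0 : Fin h) (i : ℕ)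
    (p : Fin h × Fin h) (hp : ad0.reverse[i]? = some p) :
    coordO2 s ad0 αs γ0 (2 * i) = p.1 := by
  have h1 : 2 * i / 2 = i := by omega
  have h2 : 2 * i % 2 = 0 := by omega
  simp [coordO2, h1, hp]

theorem coordO2_odd {h : ℕ} (s : ℕ) (ad0 : Node h) (αs γ0 : Fin h) (i : ℕ)
    (p : Fin h × Fin h) (hp : ad0.reverse[i]? = some p) :
    coordO2 s ad0 αs γ0 (2 * i + 1) = p.2 := by
  have h1 : (2 * i + 1) / 2 = i := by omega
  have h2 : (2 * i + 1) % 2 = 1 := by omega
  simp [coordO2, h1, h2, hp]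

theorem coordO2_s {h : ℕ} (s : ℕ) (ad0 : Node h) (h0 : ad0.length = s) (αs γ0 : Fin h) :
    coordO2 s ad0 αs γ0 (2 * s) = αs := by
  have h1 : 2 * s / 2 = s := by omega
  have h2 : ad0.reverse[s]? = none := by
    rw [List.getElem?_eq_none_iff]; simp [h0]
  simp [coordO2, h1, h2]

theorem coordO2_s1 {h : ℕ} (s : ℕ) (ad0 : Node h) (h0 : ad0.length = s) (αs γ0 : Fin h) :
    coordO2 s ad0 αs γ0 (2 * s + 1) = γ0 := by
  have h1 : (2 * s + 1) / 2 = s := by omega
  have h2 : ad0.reverse[s]? = none := by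
    rw [List.getElem?_eq_none_iff]; simp [h0]
  simp [coordO2, h1, h2]

/-- The chosen set of variables. -/
theorem instO2_set {n h b k n1 s : ℕ} (dc : Fin n → Ch h b)
    (vc : Fin n → Vr h k n1) (R : Realz (2 * s + 2) dc vc) (c : ℕ → Fin h) (γ0 : Fin h)
    (y : Fin k → Fin n1) :
    ∃ S : Finset (Fin n), S.card = 2 * s + 2 + k ∧
      (∀ g < 2 * s + 2, ∃ v ∈ S, vc v = .ad g (c g)) ∧
      (∀ i : Fin k, ∃ v ∈ S, vc v = .rw γ0 (i, y i)) := by
  classical
  have hex : ∀ g : Fin (2 * s + 2 + k), ∃ v : Fin n, (vc v).grp (2 * s + 2) = some g.val ∧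
      (g.val < 2 * s + 2 → vc v = .ad g.val (c g.val)) ∧
      (∀ i : Fin k, g.val = 2 * s + 2 + i.val → vc v = .rw γ0 (i, y i)) := by
    intro g
    by_cases hg : g.val < 2 * s + 2
    · obtain ⟨v, hv⟩ := R.ad g.val hg (c g.val)
      refine ⟨v, ?_, fun _ => hv, fun i hi => by omega⟩
      rw [hv]
      simp [Vr.grp, hg]
    · have h1 : g.val - (2 * s + 2) < k := by have := g.2; omega
      obtain ⟨v, hv⟩ := R.rw γ0 (⟨g.val - (2 * s + 2), h1⟩, y ⟨g.val - (2 * s + 2), h1⟩)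
      refine ⟨v, ?_, fun h => absurd h hg, ?_⟩
      · rw [hv]
        simp only [Vr.grp, Option.some.injEq]
        omega
      · intro i hi
        have h2 : (⟨g.val - (2 * s + 2), h1⟩ : Fin k) = i := by
          apply Fin.ext
          show g.val - (2 * s + 2) = i.val
          omega
        rw [hv, h2]
  choose el hel1 hel2 hel3 using hex
  have hinj : Function.Injective el := by
    intro g g' hgg
    have h1 := hel1 g
    rw [hgg, hel1 g'] at h1
    exact (Fin.ext (Option.some.inj h1)).symm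
  refine ⟨Finset.univ.image el, ?_, ?_, ?_⟩
  · rw [Finset.card_image_of_injective _ hinj]
    simp
  · intro g hg
    exact ⟨el ⟨g, by omega⟩, Finset.mem_image_of_mem _ (Finset.mem_univ _), hel2 ⟨g, by omega⟩ hg⟩
  · intro i
    have hi := i.2
    exact ⟨el ⟨2 * s + 2 + i.val, by omega⟩, Finset.mem_image_of_mem _ (Finset.mem_univ _),
      hel3 ⟨2 * s + 2 + i.val, by omega⟩ i rfl⟩

/-- The last choice. -/
theorem instO2_last {n h b k n1 s : ℕ} (vc : Fin n → Vr h k n1) (c : ℕ → Fin h) (αs γ0 : Fin h)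
    (hcs : c (2 * s) = αs) (hcs1 : c (2 * s + 1) = γ0)
    (y : Fin k → Fin n1) (S : Finset (Fin n))
    (hS1 : ∀ g < 2 * s + 2, ∃ v ∈ S, vc v = .ad g (c g))
    (hS2 : ∀ i : Fin k, ∃ v ∈ S, vc v = .rw γ0 (i, y i))
    (Y' : Node h → Fin h → Fin h → Set (Node b × Fin b × Row k n1)) (r : Rs h b)
    (hr : r = .triv ∨ (∃ i α, r = .skip i α ∧ i < s ∧ c (2 * i) ≠ α) ∨
      ∃ ad nd, r = .leaf ad nd ∧ ad.length = s ∧
        (∀ i p, ad.reverse[i]? = some p → i < s → c (2 * i + 1) = p.2) ∧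
        ∀ x, ∃ i : Fin k, (nd, x, (i, y i)) ∈ Y' ad αs γ0)
    (z : Ch h b) (hz1 : ∀ g, z = .grp g → g < 2 * s + 2 + k)
    (hz2 : ∀ c' γ, z = .con c' γ → c' < k) :
    ∃ v ∈ S, okO s Y' r z (vc v) := by
  have htriv : r = .triv →
      ∃ v ∈ S, ∀ P : Node h → Node b → Prop, okR r (vc v) P := by
    intro hr
    obtain ⟨v, hv, -⟩ := hS1 0 (by omega)
    refine ⟨v, hv, fun P => ?_⟩
    rw [hr]
    trivial
  have hskip : (∃ i α, r = .skip i α ∧ i < s ∧ c (2 * i) ≠ α) →
      ∃ v ∈ S, ∀ P : Node h → Node b → Prop, okR r (vc v) P := by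
    rintro ⟨i, α, hr, hi, hα⟩
    obtain ⟨v, hv, hv2⟩ := hS1 (2 * i) (by omega)
    refine ⟨v, hv, fun P => ?_⟩
    rw [hr]
    exact ⟨c (2 * i), hv2, hα⟩
  cases z with
  | grp g =>
    have hg := hz1 g rfl
    by_cases hg2 : g < 2 * s + 2
    · obtain ⟨v, hv, hv2⟩ := hS1 g hg2
      refine ⟨v, hv, ?_⟩
      simp only [okO, hv2, Vr.grp, if_pos hg2]
    · obtain ⟨v, hv, hv2⟩ := hS2 ⟨g - (2 * s + 2), by omega⟩
      refine ⟨v, hv, ?_⟩
      simp only [okO, hv2, Vr.grp, Option.some.injEq]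
      omega
  | con c' γ =>
    have hc := hz2 c' γ rfl
    by_cases hγ : γ0.val = γ
    · obtain ⟨v, hv, hv2⟩ := hS2 ⟨c', hc⟩
      exact ⟨v, hv, Or.inr ⟨γ0, _, hv2, hγ, rfl⟩⟩
    · obtain ⟨v, hv, hv2⟩ := hS1 (2 * s + 1) (by omega)
      rw [hcs1] at hv2
      exact ⟨v, hv, Or.inl ⟨γ0, hv2, hγ⟩⟩
  | chk i =>
    rcases hr with hr | hr | ⟨ad, nd, hr, had, hodd, -⟩
    · obtain ⟨v, hv, hP⟩ := htriv hr
      exact ⟨v, hv, hP _⟩
    · obtain ⟨v, hv, hP⟩ := hskip hr
      exact ⟨v, hv, hP _⟩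
    · by_cases hi : i < s
      · obtain ⟨v, hv, hv2⟩ := hS1 (2 * i + 1) (by omega)
        refine ⟨v, hv, ?_⟩
        rw [hr]
        intro p hp
        rw [hv2, hodd i p hp hi]
      · obtain ⟨v, hv, hv2⟩ := hS1 0 (by omega)
        refine ⟨v, hv, ?_⟩
        rw [hr]
        intro p hp
        have : ad.reverse[i]? = none := by
          rw [List.getElem?_eq_none_iff]; simp [had]; omega
        rw [this] at hp
        exact absurd hp (by simp)
  | reg α x =>
    rcases hr with hr | hr | ⟨ad, nd, hr, had, -, hY⟩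
    · obtain ⟨v, hv, hP⟩ := htriv hr
      exact ⟨v, hv, hP _⟩
    · obtain ⟨v, hv, hP⟩ := hskip hr
      exact ⟨v, hv, hP _⟩
    · by_cases hα : α = αs
      · obtain ⟨i, hi⟩ := hY x
        obtain ⟨v, hv, hv2⟩ := hS2 i
        refine ⟨v, hv, ?_⟩
        rw [hr]
        right
        refine ⟨γ0, _, hv2, ?_⟩
        rw [hα]
        exact hi
      · obtain ⟨v, hv, hv2⟩ := hS1 (2 * s) (by omega)
        rw [hcs] at hv2
        refine ⟨v, hv, ?_⟩
        rw [hr]
        left
        exact ⟨αs, hv2, fun h => hα h.symm⟩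
  | skip =>
    rcases hr with hr | hr | ⟨ad, nd, hr, had, -, hY⟩
    · obtain ⟨v, hv, hP⟩ := htriv hr
      exact ⟨v, hv, hP _⟩
    · obtain ⟨v, hv, hP⟩ := hskip hr
      exact ⟨v, hv, hP _⟩
    · obtain ⟨v, hv, -⟩ := hS1 0 (by omega)
      refine ⟨v, hv, ?_⟩
      rw [hr]
      trivial
  | junk =>
    rcases hr with hr | hr | ⟨ad, nd, hr, had, -, hY⟩
    · obtain ⟨v, hv, hP⟩ := htriv hr
      exact ⟨v, hv, hP _⟩
    · obtain ⟨v, hv, hP⟩ := hskip hr
      exact ⟨v, hv, hP _⟩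
    · obtain ⟨v, hv, -⟩ := hS1 0 (by omega)
      refine ⟨v, hv, ?_⟩
      rw [hr]
      trivial

theorem walk_triv2 {n h b : ℕ} (dc : Fin n → Ch h b) (a a' : Fin n)
    (ha : ∀ α x, dc a ≠ .reg α x) (l : List (Fin n × Fin n)) (ad : Node h) (nd : Node b) :
    walk dc ((a, a') :: l) ad nd = .triv := by
  unfold walk
  split
  · rename_i α x h
    exact absurd h (ha α x)
  · rfl

/-- The game is won. -/
theorem instO2_game {n h b k n1 s : ℕ} (hn : 0 < n) (dc : Fin n → Ch h b)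
    (vc : Fin n → Vr h k n1) (R : Realz (2 * s + 2) dc vc) (Q : Rs h b → Prop)
    (β : NodeLT b s × Fin b → Fin b) (ad0 : Node h) (h0 : ad0.length = s)
    (hQ1 : Q .triv)
    (hQ2 : ∀ i α p, i < s → ad0.reverse[i]? = some p → p.1 ≠ α → Q (.skip i α))
    (hQ3 : ∀ nd, nd.length = s → InP β nd → Q (.leaf ad0 nd))
    (r : ℕ) : ∀ (pre ad : Node h) (nd : Node b), ad0 = pre ++ ad → nd.length = ad.length →
      ad.length + r = s → InP β nd → AE n r (fun l => Q (walk dc l ad nd)) := by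
  induction r with
  | zero =>
    intro pre ad nd hpre hnd hr hin
    have hp : pre = [] := by
      have h1 := congrArg List.length hpre
      rw [List.length_append] at h1
      exact List.length_eq_zero_iff.1 (by omega)
    rw [hp, List.nil_append] at hpre
    show Q (walk dc [] ad nd)
    rw [← hpre]
    exact hQ3 nd (by omega) hin
  | succ r ih =>
    intro pre ad nd hpre hnd hr hin
    have hpne : pre ≠ [] := by
      rintro rfl
      have h1 := congrArg List.length hpre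
      simp at h1
      omega
    obtain ⟨pre', p, rfl⟩ : ∃ pre' p, pre = pre' ++ [p] :=
      ⟨pre.dropLast, pre.getLast hpne, (List.dropLast_append_getLast hpne).symm⟩
    have hpre2 : ad0 = pre' ++ (p :: ad) := by simpa using hpre
    have hget : ad0.reverse[ad.length]? = some p := by
      rw [hpre2]
      simp
    intro a
    show ∃ a', AE n r (fun l => Q (walk dc ((a, a') :: l) ad nd))
    by_cases ha : ∃ α x, dc a = .reg α x
    · obtain ⟨α, x, ha⟩ := ha
      by_cases hα : α = p.1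
      · have hlt : nd.length < s := by omega
        obtain ⟨a', ha'⟩ := R.reg p.2 (β (⟨nd, hlt⟩, x))
        refine ⟨a', ?_⟩
        have h1 : ∀ l, walk dc ((a, a') :: l) ad nd =
            walk dc l ((α, p.2) :: ad) ((x, β (⟨nd, hlt⟩, x)) :: nd) := by
          intro l
          conv_lhs => unfold walk
          simp only [ha, ha']
        simp only [h1]
        have h2 : ((α, p.2) : Fin h × Fin h) = p := by rw [hα]
        rw [h2]
        refine ih pre' (p :: ad) _ hpre2 (by simp [hnd]) (by simp; omega) ?_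
        exact ⟨hin, hlt, rfl⟩
      · obtain ⟨a', ha'⟩ := R.skip
        refine ⟨a', ?_⟩
        have h1 : ∀ l, walk dc ((a, a') :: l) ad nd = .skip ad.length α := by
          intro l
          unfold walk
          simp only [ha, ha']
        refine AE_const2 hn True trivial r _ (fun l _ => ?_)
        show Q (walk dc ((a, a') :: l) ad nd)
        rw [h1]
        exact hQ2 _ _ p (by omega) hget (fun h => hα h.symm)
    · refine ⟨⟨0, hn⟩, ?_⟩
      refine AE_const2 hn True trivial r _ (fun l _ => ?_)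
      show Q (walk dc ((a, ⟨0, hn⟩) :: l) ad nd)
      rw [walk_triv2 dc a _ (fun α x h => ha ⟨α, x, h⟩)]
      exact hQ1

set_option linter.unusedVariables false in
theorem instO2_pos {n h b k n1 m s : ℕ} (hn : 0 < n) (hk : 0 < k) (dc : Fin n → Ch h b)
    (vc : Fin n → Vr h k n1) (R : Realz (2 * s + 2) dc vc)
    (ix : Node h × Fin h × Fin h → Fin m)
    (hix : ∀ j, ∃ ad α γ, ad.length = s ∧ ix (ad, α, γ) = j)
    (Y : Fin m → Set (Node b × Fin b × Row k n1)) (j : Fin m) (ω : OmPO b k n1 s) :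
    WSat (2 * s + 1) (2 * s + 2 + k) (instO2 hn dc vc ix (Function.update Y j (PosO ω))) := by
  classical
  obtain ⟨ad0, αs, γ0, h0, hj⟩ := hix j
  obtain ⟨S, hS, hS1, hS2⟩ := instO2_set dc vc R (coordO2 s ad0 αs γ0) γ0 ω.1
  refine ⟨S, hS, ?_⟩
  rw [Val_instO2]
  have hlast := instO2_last (b := b) vc (coordO2 s ad0 αs γ0) αs γ0 (coordO2_s s ad0 h0 αs γ0)
    (coordO2_s1 s ad0 h0 αs γ0) ω.1 S hS1 hS2
    (fun ad α γ => Function.update Y j (PosO ω) (ix (ad, α, γ)))
  refine instO2_game hn dc vc R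
    (fun r => ∀ a, ∃ v ∈ S, okO s (fun ad α γ => Function.update Y j (PosO ω) (ix (ad, α, γ)))
        r (dc a) (vc v)) ω.2.1 ad0 h0 ?_ ?_ ?_ s ad0 [] [] (by simp) rfl (by simp) trivial
  · intro a
    exact hlast _ (Or.inl rfl) (dc a) (R.grp' a) (R.con' a)
  · intro i α p hi hp hne a
    refine hlast _ (Or.inr (Or.inl ⟨i, α, rfl, hi, ?_⟩)) (dc a) (R.grp' a) (R.con' a)
    rw [coordO2_even s ad0 αs γ0 i p hp]
    exact hne
  · intro nd hnd hin a
    refine hlast _ (Or.inr (Or.inr ⟨ad0, nd, rfl, h0, ?_, ?_⟩)) (dc a) (R.grp' a) (R.con' a)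
    · intro i p hp _
      exact coordO2_odd s ad0 αs γ0 i p hp
    · intro x
      refine ⟨ω.2.2 (⟨nd, hnd⟩, x), ?_⟩
      simp only [hj, Function.update_self]
      exact ⟨hnd, hin, rfl⟩

end Pool.Agent.H679R2.WH
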