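import Pool.Agent.H679R2.WH.Codes

/-! Task H: killing. -/

set_option autoImplicit false

namespace Pool.Agent.H679R2.WH

open Pool.Agent.H520R2

private theorem H_pr_empty {Ω : Type} [Fintype Ω] : pr (∅ : Set Ω) = 0 := by
  simp [pr]

private theorem H_pr_union {Ω : Type} [Fintype Ω] (A B : Set Ω) : pr (A ∪ B) ≤ pr A + pr B := by
  unfold pr
  rw [← add_div]
  apply div_le_div_of_nonneg_right _ (by positivity)
  exact_mod_cast Set.ncard_union_le A B

private theorem H_pr_mono {Ω : Type} [Fintype Ω] {A B : Set Ω} (h : A ⊆ B) : pr A ≤ pr B := by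
  unfold pr
  apply div_le_div_of_nonneg_right _ (by positivity)
  exact_mod_cast Set.ncard_le_ncard h (Set.toFinite _)

private theorem H_pr_biUnion {Ω ι : Type} [Fintype Ω] (F : Finset ι) (A : ι → Set Ω) (b : ℝ)
    (h : ∀ S ∈ F, pr (A S) ≤ b) : pr (⋃ S ∈ F, A S) ≤ F.card * b := by
  classical
  induction F using Finset.induction_on with
  | empty => simp [H_pr_empty]
  | @insert S F hS ih =>
    rw [Finset.set_biUnion_insert, Finset.card_insert_of_notMem hS]
    refine (H_pr_union _ _).trans ?_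
    have h1 := h S (Finset.mem_insert_self _ _)
    have h2 := ih (fun T hT => h T (Finset.mem_insert_of_mem hT))
    push_cast
    linarith

/-- Independence by overwriting. -/
theorem kill_abs {Ω A : Type} [Fintype Ω] [DecidableEq Ω] (Pat : A → Ω → Prop)
    (φ : A → Ω → Ω) (M : ℕ) (hM : 0 < M) (h1 : ∀ a ω, Pat a (φ a ω))
    (h2 : ∀ a a' ω, a' ≠ a → (Pat a' (φ a ω) ↔ Pat a' ω))
    (h3 : ∀ a ω0, (Finset.univ.filter (fun ω => φ a ω = ω0)).card ≤ M) (I : Finset A) :
    pr {ω | ∀ a ∈ I, ¬ Pat a ω} ≤ (1 - 1 / (M : ℝ)) ^ I.card := by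
  classical
  have hMr : (0 : ℝ) < M := by exact_mod_cast hM
  have hM1 : (0 : ℝ) ≤ 1 - 1 / (M : ℝ) := by
    rw [sub_nonneg, div_le_one hMr]
    exact_mod_cast hM
  induction I using Finset.induction_on with
  | empty =>
    simp only [Finset.notMem_empty, false_implies, implies_true, Finset.card_empty, pow_zero]
    unfold pr
    rcases Nat.eq_zero_or_pos (Fintype.card Ω) with h0 | h0
    · rw [h0]; simp
    · rw [div_le_one (by exact_mod_cast h0)]
      have := Set.ncard_le_card (α := Ω) {ω : Ω | True}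
      rw [Nat.card_eq_fintype_card] at this
      exact_mod_cast this
  | @insert a I ha ih =>
    rw [Finset.card_insert_of_notMem ha, pow_succ]
    set E : Finset Ω := Finset.univ.filter (fun ω => ∀ b ∈ I, ¬ Pat b ω) with hE
    set E1 : Finset Ω := E.filter (fun ω => ¬ Pat a ω) with hE1
    set E2 : Finset Ω := E.filter (fun ω => Pat a ω) with hE2
    have hsum : E2.card + E1.card = E.card := Finset.card_filter_add_card_filter_not _
    have himg : (E.image (φ a)) ⊆ E2 := by
      intro ω hω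
      rw [Finset.mem_image] at hω
      obtain ⟨ω', hω', rfl⟩ := hω
      rw [hE, Finset.mem_filter] at hω'
      rw [hE2, Finset.mem_filter, hE, Finset.mem_filter]
      refine ⟨⟨Finset.mem_univ _, fun b hb hp => ?_⟩, h1 a ω'⟩
      have hne : b ≠ a := fun h => ha (h ▸ hb)
      exact hω'.2 b hb ((h2 a b ω' hne).1 hp)
    have hcard : E.card ≤ M * E2.card := by
      have := Finset.card_le_mul_card_image (f := φ a) E M (by
        intro b _
        refine le_trans (Finset.card_le_card ?_) (h3 a b)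
        intro x hx
        rw [Finset.mem_filter] at hx ⊢
        exact ⟨Finset.mem_univ _, hx.2⟩)
      exact this.trans (Nat.mul_le_mul_left _ (Finset.card_le_card himg))
    have hr : (E1.card : ℝ) ≤ (1 - 1 / (M : ℝ)) * E.card := by
      have e1 : (E2.card : ℝ) + E1.card = E.card := by exact_mod_cast hsum
      have e2 : (E.card : ℝ) ≤ M * E2.card := by exact_mod_cast hcard
      have e3 : (E.card : ℝ) / M ≤ E2.card := by
        rw [div_le_iff₀ hMr]; linarith
      have e4 : (1 - 1 / (M : ℝ)) * E.card = E.card - E.card / M := by ring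
      rw [e4]; linarith
    have hset : {ω | ∀ b ∈ insert a I, ¬ Pat b ω} = (E1 : Set Ω) := by
      ext ω
      simp only [Finset.mem_insert, forall_eq_or_imp, Set.mem_setOf_eq, hE1, hE,
        Finset.coe_filter, Finset.mem_filter, Finset.mem_univ, true_and]
      tauto
    have hset2 : {ω | ∀ b ∈ I, ¬ Pat b ω} = (E : Set Ω) := by
      ext ω
      simp [hE]
    rw [hset2] at ih
    rw [hset]
    unfold pr at ih ⊢
    rw [Set.ncard_coe_finset] at ih ⊢
    have hc : (0 : ℝ) ≤ Fintype.card Ω := by positivity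
    calc (E1.card : ℝ) / Fintype.card Ω ≤ ((1 - 1 / (M : ℝ)) * E.card) / Fintype.card Ω :=
          div_le_div_of_nonneg_right hr hc
      _ = ((E.card : ℝ) / Fintype.card Ω) * (1 - 1 / (M : ℝ)) := by ring
      _ ≤ (1 - 1 / (M : ℝ)) ^ I.card * (1 - 1 / (M : ℝ)) :=
          mul_le_mul_of_nonneg_right ih hM1

private theorem H_pow_exp (M N : ℕ) (hM : 0 < M) :
    (1 - 1 / (M : ℝ)) ^ N ≤ Real.exp (-(N : ℝ) / M) := by
  have hMr : (0 : ℝ) < M := by exact_mod_cast hM
  have hM1 : (0 : ℝ) ≤ 1 - 1 / (M : ℝ) := by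
    rw [sub_nonneg, div_le_one hMr]
    exact_mod_cast hM
  have h := Real.one_sub_le_exp_neg (1 / (M : ℝ))
  calc (1 - 1 / (M : ℝ)) ^ N ≤ (Real.exp (-(1 / (M : ℝ)))) ^ N := pow_le_pow_left₀ hM1 h N
    _ = Real.exp (-(N : ℝ) / M) := by
        rw [← Real.exp_nat_mul]; congr 1; ring

private theorem H_choose {k n1 : ℕ} :
    (((Finset.univ : Finset (Row k n1)).powersetCard k).card : ℝ) ≤ ((k * n1 : ℕ) : ℝ) ^ k := by
  rw [Finset.card_powersetCard, Finset.card_univ]
  have h : Fintype.card (Row k n1) = k * n1 := by simp [Row]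
  rw [h]
  exact_mod_cast Nat.choose_le_pow (k * n1) k

theorem kill_E {n k n1 d0 s : ℕ} (σ : Fin n) (hk : 0 < k) (hkd : k ≤ d0) :
    pr {ω : OmNE n k n1 d0 s | ¬ ∀ S : Finset (Row k n1), S.card = k →
      ∃ a, a ≠ σ ∧ ∀ c : Fin k, ∃ v ∈ S, (ω.1 (a, v)).val = c.val} ≤
      ((k * n1 : ℕ) : ℝ) ^ k * Real.exp (-((n - 1 : ℕ) : ℝ) / (d0 : ℝ) ^ k) := by
  classical
  have hd : 0 < d0 := lt_of_lt_of_le hk hkd
  have hMp : 0 < d0 ^ k := pow_pos hd k
  have hsub : {ω : OmNE n k n1 d0 s | ¬ ∀ S : Finset (Row k n1), S.card = k →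
      ∃ a, a ≠ σ ∧ ∀ c : Fin k, ∃ v ∈ S, (ω.1 (a, v)).val = c.val} ⊆
      ⋃ S ∈ (Finset.univ : Finset (Row k n1)).powersetCard k,
        {ω : OmNE n k n1 d0 s | ∀ a, a ≠ σ → ¬ ∀ c : Fin k, ∃ v ∈ S, (ω.1 (a, v)).val = c.val} := by
    intro ω hω
    simp only [Set.mem_setOf_eq, not_forall] at hω
    obtain ⟨S, hS, hω⟩ := hω
    simp only [Set.mem_iUnion]
    refine ⟨S, by simp [Finset.mem_powersetCard, hS], ?_⟩
    intro a ha hc
    exact hω ⟨a, ha, hc⟩
  refine (H_pr_mono hsub).trans ?_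
  refine (H_pr_biUnion _ _ (Real.exp (-((n - 1 : ℕ) : ℝ) / (d0 : ℝ) ^ k)) ?_).trans ?_
  · intro S hS
    rw [Finset.mem_powersetCard] at hS
    have hScard := hS.2
    let e : S ≃ Fin k := Fintype.equivFinOfCardEq (by simpa using hScard)
    let t : Row k n1 → Fin d0 := fun v =>
      if h : v ∈ S then ⟨(e ⟨v, h⟩).val, lt_of_lt_of_le (e ⟨v, h⟩).isLt hkd⟩ else ⟨0, hd⟩
    have hk1 := kill_abs (Ω := OmNE n k n1 d0 s) (A := Fin n)
      (fun a ω => ∀ v ∈ S, ω.1 (a, v) = t v)
      (fun a ω => (fun z => if z.1 = a ∧ z.2 ∈ S then t z.2 else ω.1 z, ω.2)) (d0 ^ k) hMp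
      (by
        intro a ω v hv
        simp [hv])
      (by
        intro a a' ω hne
        simp [hne])
      (by
        intro a ω0
        have hc : Fintype.card (S → Fin d0) ≤ d0 ^ k := by
          simp [hScard]
        refine le_trans ?_ hc
        rw [← Finset.card_univ]
        refine Finset.card_le_card_of_injOn (fun ω v => ω.1 (a, v.1)) (fun _ _ => by simp) ?_
        intro ω hω ω' hω' heq
        simp only [Finset.coe_filter, Finset.mem_univ, true_and, Set.mem_setOf_eq] at hω hω'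
        have hh := hω.trans hω'.symm
        rw [Prod.ext_iff] at hh
        refine Prod.ext ?_ hh.2
        funext z
        by_cases hz : z.1 = a ∧ z.2 ∈ S
        · have := congrFun heq ⟨z.2, hz.2⟩
          obtain ⟨z1, z2⟩ := z
          simp only at hz this
          rw [hz.1]; exact this
        · have := congrFun hh.1 z
          simpa [hz] using this)
      (Finset.univ.erase σ)
    rw [Finset.card_erase_of_mem (Finset.mem_univ _), Finset.card_univ, Fintype.card_fin] at hk1
    refine le_trans (H_pr_mono ?_) (hk1.trans ?_)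
    · intro ω hω a ha hp
      rw [Finset.mem_erase] at ha
      refine hω a ha.1 (fun c => ?_)
      refine ⟨(e.symm c).1, (e.symm c).2, ?_⟩
      rw [hp _ (e.symm c).2]
      simp [t]
    · have := H_pow_exp (d0 ^ k) (n - 1) hMp
      push_cast at this ⊢
      exact this
  · exact mul_le_mul_of_nonneg_right H_choose (Real.exp_pos _).le

theorem kill_O {n k n1 d0 s : ℕ} (σ : Fin n) (hd : 0 < d0) :
    pr {ω : OmNO n k n1 d0 s | ¬ ∀ S : Finset (Row k n1), S.card = k →
      (∃ a, a ≠ σ ∧ ∀ v ∈ S, (ω.1 (a, v)).val = 0) ∧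
      ∀ p : NodeEQ n s, ∃ a, ∀ v ∈ S, (ω.2.2 (p, a, v)).val = 0} ≤
      ((k * n1 : ℕ) : ℝ) ^ k * ((n : ℝ) ^ (2 * s) + 1) *
        Real.exp (-((n - 1 : ℕ) : ℝ) / (d0 : ℝ) ^ k) := by
  classical
  have hMp : 0 < d0 ^ k := pow_pos hd k
  set b : ℝ := Real.exp (-((n - 1 : ℕ) : ℝ) / (d0 : ℝ) ^ k) with hb
  have hsub : {ω : OmNO n k n1 d0 s | ¬ ∀ S : Finset (Row k n1), S.card = k →
      (∃ a, a ≠ σ ∧ ∀ v ∈ S, (ω.1 (a, v)).val = 0) ∧
      ∀ p : NodeEQ n s, ∃ a, ∀ v ∈ S, (ω.2.2 (p, a, v)).val = 0} ⊆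
      (⋃ S ∈ (Finset.univ : Finset (Row k n1)).powersetCard k,
        ({ω : OmNO n k n1 d0 s | ∀ a, a ≠ σ → ¬ ∀ v ∈ S, (ω.1 (a, v)).val = 0} ∪
        ⋃ p ∈ (Finset.univ : Finset (NodeEQ n s)),
        {ω : OmNO n k n1 d0 s | ∀ a, ¬ ∀ v ∈ S, (ω.2.2 (p, a, v)).val = 0})) := by
    intro ω hω
    rw [Set.mem_setOf_eq] at hω
    push Not at hω
    obtain ⟨S, hS, hω⟩ := hω
    simp only [Set.mem_iUnion]
    refine ⟨S, by simp [Finset.mem_powersetCard, hS], ?_⟩
    by_cases h1 : ∃ a, a ≠ σ ∧ ∀ v ∈ S, (ω.1 (a, v)).val = 0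
    · right
      obtain ⟨p, hp⟩ := hω h1
      simp only [Set.mem_iUnion]
      refine ⟨p, Finset.mem_univ _, ?_⟩
      intro a hc
      obtain ⟨v, hv, hv2⟩ := hp a
      exact hv2 (hc v hv)
    · left
      intro a ha hc
      exact h1 ⟨a, ha, hc⟩
  refine (H_pr_mono hsub).trans ?_
  have hnode : (Fintype.card (NodeEQ n s) : ℝ) ≤ (n : ℝ) ^ (2 * s) := by
    have h1 : Fintype.card (NodeEQ n s) = Fintype.card (List.Vector (Fin n × Fin n) s) :=
      Fintype.card_congr (Equiv.refl _)
    rw [h1, card_vector]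
    simp only [Fintype.card_prod, Fintype.card_fin]
    push_cast
    rw [pow_mul, pow_two]
  have key1 : ∀ S : Finset (Row k n1), S.card = k →
      pr {ω : OmNO n k n1 d0 s | ∀ a, a ≠ σ → ¬ ∀ v ∈ S, (ω.1 (a, v)).val = 0} ≤ b := by
    intro S hScard
    have hk1 := kill_abs (Ω := OmNO n k n1 d0 s) (A := Fin n)
      (fun a ω => ∀ v ∈ S, (ω.1 (a, v)).val = 0)
      (fun a ω => (fun z => if z.1 = a ∧ z.2 ∈ S then ⟨0, hd⟩ else ω.1 z, ω.2)) (d0 ^ k) hMp
      (by
        intro a ω v hv
        simp [hv])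
      (by
        intro a a' ω hne
        simp [hne])
      (by
        intro a ω0
        have hc : Fintype.card (S → Fin d0) ≤ d0 ^ k := by
          simp [hScard]
        refine le_trans ?_ hc
        rw [← Finset.card_univ]
        refine Finset.card_le_card_of_injOn (fun ω v => ω.1 (a, v.1)) (fun _ _ => by simp) ?_
        intro ω hω ω' hω' heq
        simp only [Finset.coe_filter, Finset.mem_univ, true_and, Set.mem_setOf_eq] at hω hω'
        have hh := hω.trans hω'.symm
        rw [Prod.ext_iff] at hh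
        refine Prod.ext ?_ hh.2
        funext z
        by_cases hz : z.1 = a ∧ z.2 ∈ S
        · have := congrFun heq ⟨z.2, hz.2⟩
          obtain ⟨z1, z2⟩ := z
          simp only at hz this
          rw [hz.1]; exact this
        · have := congrFun hh.1 z
          simpa [hz] using this)
      (Finset.univ.erase σ)
    rw [Finset.card_erase_of_mem (Finset.mem_univ _), Finset.card_univ, Fintype.card_fin] at hk1
    refine le_trans (H_pr_mono ?_) (hk1.trans ?_)
    · intro ω hω a ha hp
      rw [Finset.mem_erase] at ha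
      exact hω a ha.1 hp
    · have := H_pow_exp (d0 ^ k) (n - 1) hMp
      push_cast at this ⊢
      exact this
  have key2 : ∀ (S : Finset (Row k n1)), S.card = k → ∀ p : NodeEQ n s,
      pr {ω : OmNO n k n1 d0 s | ∀ a, ¬ ∀ v ∈ S, (ω.2.2 (p, a, v)).val = 0} ≤ b := by
    intro S hScard p
    have hk1 := kill_abs (Ω := OmNO n k n1 d0 s) (A := Fin n)
      (fun a ω => ∀ v ∈ S, (ω.2.2 (p, a, v)).val = 0)
      (fun a ω => (ω.1, ω.2.1, fun z => if z.1 = p ∧ z.2.1 = a ∧ z.2.2 ∈ S then ⟨0, hd⟩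
        else ω.2.2 z)) (d0 ^ k) hMp
      (by
        intro a ω v hv
        simp [hv])
      (by
        intro a a' ω hne
        simp [hne])
      (by
        intro a ω0
        have hc : Fintype.card (S → Fin d0) ≤ d0 ^ k := by
          simp [hScard]
        refine le_trans ?_ hc
        rw [← Finset.card_univ]
        refine Finset.card_le_card_of_injOn (fun ω v => ω.2.2 (p, a, v.1))
          (fun _ _ => by simp) ?_
        intro ω hω ω' hω' heq
        simp only [Finset.coe_filter, Finset.mem_univ, true_and, Set.mem_setOf_eq] at hω hω'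
        have hh := hω.trans hω'.symm
        simp only [Prod.ext_iff] at hh
        refine Prod.ext hh.1 (Prod.ext hh.2.1 ?_)
        funext z
        by_cases hz : z.1 = p ∧ z.2.1 = a ∧ z.2.2 ∈ S
        · have := congrFun heq ⟨z.2.2, hz.2.2⟩
          obtain ⟨z0, z1, z2⟩ := z
          simp only at hz this
          rw [hz.1, hz.2.1]; exact this
        · have := congrFun hh.2.2 z
          simpa [hz] using this)
      (Finset.univ.erase σ)
    rw [Finset.card_erase_of_mem (Finset.mem_univ _), Finset.card_univ, Fintype.card_fin] at hk1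
    refine le_trans (H_pr_mono ?_) (hk1.trans ?_)
    · intro ω hω a _ hp
      exact hω a hp
    · have := H_pow_exp (d0 ^ k) (n - 1) hMp
      push_cast at this ⊢
      exact this
  have hb0 : 0 ≤ b := (Real.exp_pos _).le
  refine (H_pr_biUnion _ _ ((n : ℝ) ^ (2 * s) * b + b) ?_).trans ?_
  · intro S hS
    rw [Finset.mem_powersetCard] at hS
    refine (H_pr_union _ _).trans ?_
    have h1 := key1 S hS.2
    have h2 := H_pr_biUnion (Finset.univ : Finset (NodeEQ n s))
      (fun p => {ω : OmNO n k n1 d0 s | ∀ a, ¬ ∀ v ∈ S, (ω.2.2 (p, a, v)).val = 0}) b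
      (fun p _ => key2 S hS.2 p)
    rw [Finset.card_univ] at h2
    have h3 := mul_le_mul_of_nonneg_right hnode hb0
    linarith
  · have h1 : (0 : ℝ) ≤ (n : ℝ) ^ (2 * s) * b + b := by positivity
    calc _ ≤ ((k * n1 : ℕ) : ℝ) ^ k * ((n : ℝ) ^ (2 * s) * b + b) :=
          mul_le_mul_of_nonneg_right H_choose h1
      _ = _ := by ring

private theorem H_small {X : Type} [Fintype X] [DecidableEq X] (k : ℕ) :
    ((Finset.univ : Finset (Finset X)).filter (fun S => S.card ≤ k)).card ≤
      (Fintype.card X + 1) ^ k := by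
  classical
  have h : Fintype.card (Fin k → Option X) = (Fintype.card X + 1) ^ k := by simp
  rw [← h, ← Finset.card_univ]
  refine Finset.card_le_card_of_surjOn
    (fun g : Fin k → Option X => Finset.univ.filter (fun x => ∃ i, g i = some x)) ?_
  intro S hS
  simp only [Finset.coe_filter, Finset.mem_univ, true_and, Set.mem_setOf_eq] at hS
  refine ⟨fun i => S.toList[i.val]?, by simp, ?_⟩
  ext x
  simp only [Finset.mem_filter, Finset.mem_univ, true_and]
  constructor
  · rintro ⟨i, hi⟩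
    rw [← Finset.mem_toList]
    exact List.mem_of_getElem? hi
  · intro hx
    rw [← Finset.mem_toList] at hx
    obtain ⟨i, hi⟩ := List.mem_iff_getElem?.1 hx
    have hlt : i < S.toList.length := by
      obtain ⟨h, _⟩ := List.getElem?_eq_some_iff.1 hi
      exact h
    rw [Finset.length_toList] at hlt
    exact ⟨⟨i, lt_of_lt_of_le hlt hS⟩, hi⟩

theorem kill_0 {m n k n1 d0 : ℕ} (hd : 0 < d0) :
    pr {ω : Fin m → OmNO n k n1 d0 0 | ¬ Good0 ω} ≤
      ((m * (k * n1) + 1 : ℕ) : ℝ) ^ k * Real.exp (-(n : ℝ) / (d0 : ℝ) ^ k) := by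
  classical
  have hMp : 0 < d0 ^ k := pow_pos hd k
  set p0 : NodeEQ n 0 := ⟨[], rfl⟩ with hp0
  have hsub : {ω : Fin m → OmNO n k n1 d0 0 | ¬ Good0 ω} ⊆
      ⋃ S ∈ (Finset.univ : Finset (Finset (Fin m × Row k n1))).filter (fun S => S.card ≤ k),
        {ω : Fin m → OmNO n k n1 d0 0 | ∀ a, ¬ ∀ v ∈ S, ((ω v.1).2.2 (p0, a, v.2)).val = 0} := by
    intro ω hω
    unfold Good0 at hω
    rw [Set.mem_setOf_eq] at hω
    push Not at hω
    obtain ⟨S, hS, hω⟩ := hω
    simp only [Set.mem_iUnion]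
    refine ⟨S, by simp [hS], ?_⟩
    intro a hc
    obtain ⟨v, hv, hv2⟩ := hω a
    exact hv2 (hc v hv)
  refine (H_pr_mono hsub).trans ?_
  refine (H_pr_biUnion _ _ (Real.exp (-(n : ℝ) / (d0 : ℝ) ^ k)) ?_).trans ?_
  · intro S hS
    rw [Finset.mem_filter] at hS
    have hScard := hS.2
    have hk1 := kill_abs (Ω := Fin m → OmNO n k n1 d0 0) (A := Fin n)
      (fun a ω => ∀ v ∈ S, ((ω v.1).2.2 (p0, a, v.2)).val = 0)
      (fun a ω j => ((ω j).1, (ω j).2.1, fun z =>
        if z.1 = p0 ∧ z.2.1 = a ∧ (j, z.2.2) ∈ S then ⟨0, hd⟩ else (ω j).2.2 z)) (d0 ^ k) hMp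
      (by
        intro a ω v hv
        have : (v.1, v.2) ∈ S := hv
        simp [this])
      (by
        intro a a' ω hne
        simp [hne])
      (by
        intro a ω0
        have hc : Fintype.card (S → Fin d0) ≤ d0 ^ k := by
          simp only [Fintype.card_pi, Fintype.card_fin, Finset.prod_const, Finset.card_univ,
            Fintype.card_coe]
          exact Nat.pow_le_pow_right hd hScard
        refine le_trans ?_ hc
        rw [← Finset.card_univ]
        refine Finset.card_le_card_of_injOn (fun ω v => (ω v.1.1).2.2 (p0, a, v.1.2))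
          (fun _ _ => by simp) ?_
        intro ω hω ω' hω' heq
        simp only [Finset.coe_filter, Finset.mem_univ, true_and, Set.mem_setOf_eq] at hω hω'
        have hh := hω.trans hω'.symm
        funext j
        have hj := congrFun hh j
        simp only [Prod.ext_iff] at hj
        refine Prod.ext hj.1 (Prod.ext hj.2.1 ?_)
        funext z
        by_cases hz : z.1 = p0 ∧ z.2.1 = a ∧ (j, z.2.2) ∈ S
        · have := congrFun heq ⟨(j, z.2.2), hz.2.2⟩
          obtain ⟨z0, z1, z2⟩ := z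
          simp only at hz this
          rw [hz.1, hz.2.1]; exact this
        · have := congrFun hj.2.2 z
          simpa [hz] using this)
      Finset.univ
    rw [Finset.card_univ, Fintype.card_fin] at hk1
    refine le_trans (H_pr_mono ?_) (hk1.trans ?_)
    · intro ω hω a _ hp
      exact hω a hp
    · have := H_pow_exp (d0 ^ k) n hMp
      push_cast at this ⊢
      exact this
  · refine mul_le_mul_of_nonneg_right ?_ (Real.exp_pos _).le
    have h1 := H_small (X := Fin m × Row k n1) k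
    have h2 : Fintype.card (Fin m × Row k n1) = m * (k * n1) := by simp [Row]
    rw [h2] at h1
    exact_mod_cast h1

end Pool.Agent.H679R2.WH
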