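import Mathlib
import Pool.Agent.H679R2.WH.Nums

/-!
# Task Q2: numerics, even number of source levels
-/

set_option autoImplicit false

namespace Pool.Agent.H679R2.WH

open Filter

namespace Q2

theorem ev_u (k : ℕ) (hk : 0 < k) (C : ℝ) :
    ∀ᶠ n : ℕ in atTop, C ≤ (n : ℝ) ^ (1 / (4 * k : ℝ)) := by
  have h1 : 0 < 1 / (4 * k : ℝ) := by positivity
  exact ((tendsto_rpow_atTop h1).comp tendsto_natCast_atTop_atTop).eventually_ge_atTop C

theorem ev_log (k : ℕ) (hk : 0 < k) (C : ℝ) (hC : 0 ≤ C) :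
    ∀ᶠ n : ℕ in atTop, C * ((Nat.log 2 n + 1 : ℕ) : ℝ) ≤ (n : ℝ) ^ (1 / (4 * k : ℝ)) := by
  have h1 : 0 < 1 / (4 * k : ℝ) := by positivity
  have h2 := (isLittleO_log_rpow_atTop h1).bound (c := Real.log 2 / (2 * (C + 1)))
    (by have := Real.log_pos (by norm_num : (1 : ℝ) < 2); positivity)
  have h3 := tendsto_natCast_atTop_atTop (R := ℝ) |>.eventually h2
  filter_upwards [h3, ev_u k hk (2 * C), eventually_ge_atTop 1] with n hn hn2 hn1
  have hl2 := Real.log_pos (by norm_num : (1 : ℝ) < 2)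
  have hn0 : (1 : ℝ) ≤ n := by exact_mod_cast hn1
  set y := (n : ℝ) ^ (1 / (4 * k : ℝ)) with hy
  have hy0 : 0 < y := by positivity
  rw [Real.norm_of_nonneg (Real.log_nonneg hn0), Real.norm_of_nonneg hy0.le] at hn
  have h4 : ((Nat.log 2 n : ℕ) : ℝ) ≤ Real.log n / Real.log 2 := by
    have := Real.natLog_le_logb n 2
    simpa [Real.logb] using this
  have h5 : Real.log n / Real.log 2 ≤ y / (2 * (C + 1)) := by
    rw [div_le_iff₀ hl2]
    calc Real.log n ≤ Real.log 2 / (2 * (C + 1)) * y := hn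
      _ = y / (2 * (C + 1)) * Real.log 2 := by ring
  push_cast
  have h6 : C * (y / (2 * (C + 1))) ≤ y / 2 := by
    rw [← mul_div_assoc, div_le_div_iff₀ (by positivity) (by norm_num)]
    nlinarith
  have h7 : C * (Nat.log 2 n : ℝ) ≤ C * (y / (2 * (C + 1))) :=
    mul_le_mul_of_nonneg_left (h4.trans h5) hC
  linarith

theorem ev_exp (a : ℕ) :
    ∀ᶠ n : ℕ in atTop, 2 * (n : ℝ) ^ a * Real.exp (-(Real.sqrt n / 2)) ≤ 1 / 4 := by
  have h1 := Real.tendsto_pow_mul_exp_neg_atTop_nhds_zero (2 * a)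
  have h2 : Tendsto (fun n : ℕ => Real.sqrt n / 2) atTop atTop := by
    have := (Real.tendsto_sqrt_atTop.comp tendsto_natCast_atTop_atTop).atTop_div_const
      (by norm_num : (0 : ℝ) < 2)
    exact this
  have h3 := h1.comp h2
  have h4 : 0 < 1 / (8 * 4 ^ a : ℝ) := by positivity
  filter_upwards [h3.eventually (gt_mem_nhds h4)] with n hn
  simp only [Function.comp] at hn
  have h5 : (n : ℝ) ^ a = 4 ^ a * (Real.sqrt n / 2) ^ (2 * a) := by
    rw [pow_mul, ← mul_pow]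
    congr 1
    rw [div_pow, Real.sq_sqrt (by positivity)]
    ring
  rw [h5]
  have h6 : (0 : ℝ) < 4 ^ a := by positivity
  calc 2 * (4 ^ a * (Real.sqrt n / 2) ^ (2 * a)) * Real.exp (-(Real.sqrt n / 2)) =
      2 * 4 ^ a * ((Real.sqrt n / 2) ^ (2 * a) * Real.exp (-(Real.sqrt n / 2))) := by ring
    _ ≤ 2 * 4 ^ a * (1 / (8 * 4 ^ a)) := by gcongr
    _ = 1 / 4 := by field_simp; norm_num

/-- floor of a number at least 1 is at least half of it -/
theorem half_le_floor (y : ℝ) (hy : 1 ≤ y) : y / 2 ≤ (⌊y⌋₊ : ℝ) := by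
  have h1 := Nat.lt_floor_add_one y
  have h2 : 1 ≤ ⌊y⌋₊ := Nat.le_floor (by simpa using hy)
  have h3 : (1 : ℝ) ≤ (⌊y⌋₊ : ℝ) := by exact_mod_cast h2
  linarith

theorem geom_exp (j w D L : ℕ) (hw : w = 2 ^ (j + 1) * (D + 1) * L) (n : ℝ) (hn : 0 < n)
    (hL : Real.log n ≤ L) :
    (1 - (1 / 2 : ℝ) ^ (j + 1)) ^ w ≤ 1 / n ^ (D + 1) := by
  have h0 : (0 : ℝ) < (1 / 2) ^ (j + 1) := by positivity
  have h1 : (1 / 2 : ℝ) ^ (j + 1) ≤ 1 := pow_le_one₀ (by norm_num) (by norm_num)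
  have h2 : 1 - (1 / 2 : ℝ) ^ (j + 1) ≤ Real.exp (-(1 / 2 : ℝ) ^ (j + 1)) := by
    have := Real.add_one_le_exp (-(1 / 2 : ℝ) ^ (j + 1))
    linarith
  calc (1 - (1 / 2 : ℝ) ^ (j + 1)) ^ w ≤ (Real.exp (-(1 / 2 : ℝ) ^ (j + 1))) ^ w :=
        pow_le_pow_left₀ (by linarith) h2 w
    _ = Real.exp (-((D + 1 : ℕ) : ℝ) * L) := by
        rw [← Real.exp_nat_mul, hw]
        congr 1
        push_cast
        rw [one_div, inv_pow]
        field_simp
    _ ≤ Real.exp (-((D + 1 : ℕ) : ℝ) * Real.log n) := by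
        apply Real.exp_le_exp.2
        have : (0 : ℝ) ≤ ((D + 1 : ℕ) : ℝ) := by positivity
        nlinarith
    _ = 1 / n ^ (D + 1) := by
        rw [neg_mul, Real.exp_neg, ← Real.log_pow, Real.exp_log (by positivity), one_div]

end Q2

open Q2 in
theorem num_O (s c q : ℕ) (hs : 1 ≤ s) (hq : 1 ≤ q) : ∃ k : ℕ, 0 < k ∧ ∀ F g : ℕ, ∃ n0 : ℕ,
    ∀ n ≥ n0, ∃ m n1 d0 : ℕ, m * (k * n1) ≤ n ∧ k ≤ n ∧
      (∀ P : ℕ, P ^ q ≤ n ^ (q - 1) → 2 * P ≤ m) ∧
      (m : ℝ) * (((k * n1 : ℕ) : ℝ) ^ k * ((n : ℝ) ^ (2 * s) + 1) *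
        Real.exp (-((n - 1 : ℕ) : ℝ) / (d0 : ℝ) ^ k)) ≤ 1 / 4 ∧
      ∀ A N S0 : ℕ, 1 ≤ A → A ≤ F * n ^ c → N ≤ F * n ^ c →
        S0 ≤ F * n ^ c + n + 2 * N * A ^ (2 * s) → NumO n k n1 d0 s A N g S0 := by
  obtain ⟨D, hD⟩ : ∃ D, D = (c + 1) * (2 * s + 5) := ⟨_, rfl⟩
  obtain ⟨w1, hw1⟩ : ∃ w1, w1 = 4 * q * (D + 1) := ⟨_, rfl⟩
  obtain ⟨k, hk⟩ : ∃ k, k = 2 * w1 := ⟨_, rfl⟩
  obtain ⟨K, hK⟩ : ∃ K, K = 4 * k * (2 * D + 4) := ⟨_, rfl⟩
  have hw0 : 0 < w1 := by rw [hw1]; positivity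
  have hk0 : 0 < k := by omega
  have hk8 : k = 8 * q * (D + 1) := by rw [hk, hw1]; ring
  have hK0 : 0 < K := by rw [hK]; positivity
  refine ⟨k, hk0, fun F g => ?_⟩
  obtain ⟨c0, hc0⟩ : ∃ c0, c0 = 2 * (c + 1) * g + 1 := ⟨_, rfl⟩
  obtain ⟨w', hw'⟩ : ∃ w', w' = c0 + 8 * (D + 1) := ⟨_, rfl⟩
  -- constants
  obtain ⟨C0, hC0⟩ : ∃ C0 : ℝ, C0 = 16 + F + s + K * 2 ^ (K + 2) + 16 * w' * k + 2 * k + 16 :=
    ⟨_, rfl⟩
  obtain ⟨C1, hC1⟩ : ∃ C1 : ℝ, C1 = 2 * ((2 * g + 1) * (K * (2 ^ (K + 1) * (D + 1)))) :=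
    ⟨_, rfl⟩
  have hC1' : 0 ≤ C1 := by rw [hC1]; positivity
  obtain ⟨n0, hn0⟩ := eventually_atTop.1 ((ev_u k hk0 C0).and ((ev_log k hk0 C1 hC1').and
    ((ev_exp (k + 1 + 2 * s)).and (eventually_ge_atTop 16))))
  refine ⟨n0, fun n hn => ?_⟩
  obtain ⟨h1, h2, h3, h4⟩ := hn0 n hn
  set u : ℝ := (n : ℝ) ^ (1 / (4 * k : ℝ)) with hu
  obtain ⟨L, hL⟩ : ∃ L, L = Nat.log 2 n + 1 := ⟨_, rfl⟩
  rw [← hL] at h2
  have hnpos : (0 : ℝ) < n := by
    have : 0 < n := by omega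
    exact_mod_cast this
  have hu4k : u ^ (4 * k) = n := by
    rw [hu, ← Real.rpow_natCast, ← Real.rpow_mul hnpos.le]
    push_cast
    rw [one_div, inv_mul_cancel₀ (by positivity), Real.rpow_one]
  have hu16 : 16 ≤ u := by
    have : (0 : ℝ) ≤ F + s + K * 2 ^ (K + 2) + 16 * w' * k + 2 * k + 16 := by positivity
    linarith
  have huF : (F : ℝ) ≤ u := by
    have : (0 : ℝ) ≤ 16 + s + K * 2 ^ (K + 2) + 16 * w' * k + 2 * k + 16 := by positivity
    linarith
  have hus : (s : ℝ) ≤ u := by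
    have : (0 : ℝ) ≤ 16 + F + K * 2 ^ (K + 2) + 16 * w' * k + 2 * k + 16 := by positivity
    linarith
  have huK : (K : ℝ) * 2 ^ (K + 2) ≤ u := by
    have : (0 : ℝ) ≤ 16 + F + s + 16 * w' * k + 2 * k + 16 := by positivity
    linarith
  have huw : 16 * (w' : ℝ) * k ≤ u := by
    have : (0 : ℝ) ≤ 16 + F + s + K * 2 ^ (K + 2) + 2 * k + 16 := by positivity
    linarith
  have huk : 2 * (k : ℝ) ≤ u := by
    have : (0 : ℝ) ≤ 16 + F + s + K * 2 ^ (K + 2) + 16 * w' * k + 16 := by positivity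
    linarith
  have hu1 : 1 ≤ u := by linarith
  have hu0 : 0 < u := by linarith
  have hun : u ≤ n := by
    rw [← hu4k]
    exact le_self_pow₀ hu1 (by positivity)
  have hn1 : (1 : ℝ) ≤ n := hu1.trans hun
  have hn16 : (16 : ℝ) ≤ n := hu16.trans hun
  -- n1
  obtain ⟨y, hy⟩ : ∃ y : ℝ, y = u ^ (16 * (D + 1)) := ⟨_, rfl⟩
  obtain ⟨n1, hn1d⟩ : ∃ n1, n1 = ⌊y⌋₊ := ⟨_, rfl⟩
  have hy1 : 1 ≤ y := by rw [hy]; exact one_le_pow₀ hu1
  have huy : u ≤ y := by rw [hy]; exact le_self_pow₀ hu1 (by positivity)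
  have hyn : y ^ (2 * q) = n := by
    rw [hy, ← pow_mul, ← hu4k, hk8]
    congr 1
    ring
  have hn1le : (n1 : ℝ) ≤ y := by rw [hn1d]; exact Nat.floor_le (by linarith)
  have hn1ge : y / 2 ≤ n1 := by rw [hn1d]; exact half_le_floor y hy1
  have hn1pos : (0 : ℝ) < n1 := by linarith
  have hn1pos' : 0 < n1 := by exact_mod_cast hn1pos
  -- d0
  obtain ⟨d0, hd0⟩ : ∃ d0, d0 = ⌊u ^ 2⌋₊ := ⟨_, rfl⟩
  have hd0le : (d0 : ℝ) ≤ u ^ 2 := by rw [hd0]; exact Nat.floor_le (by positivity)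
  have hd0ge : u ^ 2 / 2 ≤ d0 := by rw [hd0]; exact half_le_floor _ (one_le_pow₀ hu1)
  have hd0pos : (0 : ℝ) < d0 := by
    have : 0 < u ^ 2 := by positivity
    linarith
  have hd0pos' : 0 < d0 := by exact_mod_cast hd0pos
  -- sqrt n
  have hsq : Real.sqrt n = u ^ (2 * k) := by
    rw [← hu4k, show 4 * k = (2 * k) * 2 by ring, pow_mul, Real.sqrt_sq (by positivity)]
  have hknn : k ≤ n := by
    have : (k : ℝ) ≤ n := by
      have : (0 : ℝ) ≤ k := by positivity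
      linarith
    exact_mod_cast this
  -- y^2 <= n
  have hy2n : y ^ 2 ≤ n := by
    rw [← hyn]
    exact pow_le_pow_right₀ hy1 (by omega)
  have hkn1 : (k : ℝ) * n1 ≤ n := by
    calc (k : ℝ) * n1 ≤ y * y := by
          apply mul_le_mul _ hn1le hn1pos.le (by linarith)
          have : (0 : ℝ) ≤ k := by positivity
          linarith
      _ = y ^ 2 := by ring
      _ ≤ n := hy2n
  refine ⟨n / (k * n1), n1, d0, Nat.div_mul_le_self _ _, hknn, ?_, ?_, ?_⟩
  · -- 2 P <= m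
    intro P hP
    rw [Nat.le_div_iff_mul_le (by positivity)]
    have hPr : (P : ℝ) * y ^ 2 ≤ n := by
      have e1 : ((P : ℝ) * y ^ 2) ^ q ≤ (n : ℝ) ^ q := by
        rw [mul_pow, ← pow_mul, hyn]
        have e2 : ((P : ℝ)) ^ q ≤ (n : ℝ) ^ (q - 1) := by exact_mod_cast hP
        calc (P : ℝ) ^ q * n ≤ (n : ℝ) ^ (q - 1) * n := by gcongr
          _ = (n : ℝ) ^ q := by
            rw [← pow_succ]
            congr 1
            omega
      exact le_of_pow_le_pow_left₀ (by omega) hnpos.le e1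
    have : (2 * P * (k * n1) : ℝ) ≤ n := by
      calc (2 * P * (k * n1) : ℝ) = (2 * k) * n1 * P := by ring
        _ ≤ y * y * P := by
          gcongr
          exact huk.trans huy
        _ = (P : ℝ) * y ^ 2 := by ring
        _ ≤ n := hPr
    exact_mod_cast this
  · -- killing
    have e1 : ((n / (k * n1) : ℕ) : ℝ) ≤ n := by
      have : n / (k * n1) ≤ n := Nat.div_le_self _ _
      exact_mod_cast this
    have e2 : (((k * n1 : ℕ) : ℝ)) ^ k ≤ (n : ℝ) ^ k := by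
      apply pow_le_pow_left₀ (by positivity)
      push_cast
      exact hkn1
    have e3 : (n : ℝ) ^ (2 * s) + 1 ≤ 2 * (n : ℝ) ^ (2 * s) := by
      have := one_le_pow₀ (n := 2 * s) hn1
      linarith
    have e4 : Real.exp (-((n - 1 : ℕ) : ℝ) / (d0 : ℝ) ^ k) ≤ Real.exp (-(Real.sqrt n / 2)) := by
      apply Real.exp_le_exp.2
      rw [neg_div]
      apply neg_le_neg
      rw [le_div_iff₀ (by positivity)]
      have e5 : (d0 : ℝ) ^ k ≤ Real.sqrt n := by
        rw [hsq, pow_mul]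
        exact pow_le_pow_left₀ hd0pos.le hd0le k
      have e6 : Real.sqrt n * Real.sqrt n = n := Real.mul_self_sqrt hnpos.le
      have e7 : ((n - 1 : ℕ) : ℝ) = n - 1 := by
        rw [Nat.cast_sub (by omega)]
        simp
      rw [e7]
      calc Real.sqrt n / 2 * (d0 : ℝ) ^ k ≤ Real.sqrt n / 2 * Real.sqrt n := by gcongr
        _ = n / 2 := by rw [div_mul_eq_mul_div, e6]
        _ ≤ n - 1 := by linarith
    calc ((n / (k * n1) : ℕ) : ℝ) * (((k * n1 : ℕ) : ℝ) ^ k * ((n : ℝ) ^ (2 * s) + 1) *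
        Real.exp (-((n - 1 : ℕ) : ℝ) / (d0 : ℝ) ^ k)) ≤
        (n : ℝ) * ((n : ℝ) ^ k * (2 * (n : ℝ) ^ (2 * s)) * Real.exp (-(Real.sqrt n / 2))) := by
          gcongr
      _ = 2 * (n : ℝ) ^ (k + 1 + 2 * s) * Real.exp (-(Real.sqrt n / 2)) := by ring
      _ ≤ 1 / 4 := h3
  · -- NumO
    intro A N S0 hA hAF hNF hS0
    have hFn : F ≤ n := by
      have : (F : ℝ) ≤ n := huF.trans hun
      exact_mod_cast this
    have hFnc : F * n ^ c ≤ n ^ (c + 1) := by
      rw [pow_succ, mul_comm]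
      exact Nat.mul_le_mul_left _ hFn
    have hAn : A ≤ n ^ (c + 1) := hAF.trans hFnc
    have hNn : N ≤ n ^ (c + 1) := hNF.trans hFnc
    have hn1' : 1 ≤ n := by omega
    have hA2 : A ^ (2 * s) ≤ n ^ ((c + 1) * (2 * s)) := by
      rw [pow_mul n]
      exact Nat.pow_le_pow_left hAn _
    have hS : S0 + A ^ (2 * s) * (2 * N + 1) ^ 2 ≤ n ^ D := by
      set E := n ^ (c + 1) with hE
      set B := n ^ ((c + 1) * (2 * s)) with hB
      have hE1 : 1 ≤ E := Nat.one_le_pow _ _ (by omega)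
      have hB1 : 1 ≤ B := Nat.one_le_pow _ _ (by omega)
      have hEn : n ≤ E := by rw [hE]; exact Nat.le_self_pow (by omega) n
      have a1 : S0 ≤ E + E + 2 * E * B := by
        calc S0 ≤ F * n ^ c + n + 2 * N * A ^ (2 * s) := hS0
          _ ≤ E + E + 2 * E * B := by gcongr
      have a2 : A ^ (2 * s) * (2 * N + 1) ^ 2 ≤ B * (3 * E) ^ 2 := by
        apply Nat.mul_le_mul hA2
        apply Nat.pow_le_pow_left
        omega
      have a3 : E + E + 2 * E * B + B * (3 * E) ^ 2 ≤ 13 * (B * E ^ 2) := by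
        have b1 : E ≤ B * E ^ 2 := by
          calc E = 1 * (E * 1) := by ring
            _ ≤ B * (E * E) := by gcongr
            _ = B * E ^ 2 := by ring
        have b2 : E * B ≤ B * E ^ 2 := by
          calc E * B = B * (E * 1) := by ring
            _ ≤ B * (E * E) := by gcongr
            _ = B * E ^ 2 := by ring
        calc E + E + 2 * E * B + B * (3 * E) ^ 2 = E + E + 2 * (E * B) + 9 * (B * E ^ 2) := by ring
          _ ≤ 13 * (B * E ^ 2) := by omega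
      have a4 : 13 * (B * E ^ 2) ≤ n * (B * E ^ 2) := by
        apply Nat.mul_le_mul_right
        omega
      have a5 : n * (B * E ^ 2) ≤ n ^ D := by
        rw [hB, hE, ← pow_mul, ← pow_add, ← pow_succ']
        apply Nat.pow_le_pow_right (by omega)
        have hDe : D = (c + 1) * (2 * s) + (c + 1) * 2 + 1 + (3 * c + 2) := by rw [hD]; ring
        omega
      omega
    have hnl : Real.log n ≤ L := by
      have e1 : n < 2 ^ L := by
        rw [hL]
        exact Nat.lt_pow_succ_log_self (by norm_num) n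
      have e2 : (n : ℝ) ≤ 2 ^ L := by exact_mod_cast e1.le
      calc Real.log n ≤ Real.log (2 ^ L) := Real.log_le_log hnpos e2
        _ = L * Real.log 2 := by rw [Real.log_pow]
        _ ≤ L * 1 := by
          have := Real.log_two_lt_d9
          gcongr
          linarith
        _ = L := mul_one _
    have hAr : (A : ℝ) ^ (2 * s) ≤ (n : ℝ) ^ D := by
      have : A ^ (2 * s) ≤ n ^ D := by
        refine hA2.trans (Nat.pow_le_pow_right (by omega) ?_)
        rw [hD]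
        exact Nat.mul_le_mul_left _ (by omega)
      exact_mod_cast this
    obtain ⟨w2, hw2⟩ : ∃ w2, w2 = 2 ^ (K + 1) * (D + 1) * L := ⟨_, rfl⟩
    obtain ⟨W, hW⟩ : ∃ W, W = K * w2 := ⟨_, rfl⟩
    have hL1 : 1 ≤ L := by omega
    have hW1 : 1 ≤ W := by
      rw [hW, hw2]
      exact Nat.succ_le_of_lt (by positivity)
    have hWu : 2 * ((2 * g + 1) * (W : ℝ)) ≤ u := by
      have : 2 * ((2 * g + 1) * (W : ℝ)) = C1 * L := by
        rw [hC1, hW, hw2]
        push_cast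
        ring
      rw [this]
      exact h2
    have hWd : (((2 * g + 1) * W : ℕ) : ℝ) / d0 ≤ 1 / u := by
      rw [div_le_div_iff₀ hd0pos hu0]
      push_cast
      calc (2 * (g : ℝ) + 1) * W * u ≤ (u / 2) * u := by
            gcongr
            linarith
        _ = u ^ 2 / 2 := by ring
        _ ≤ 1 * d0 := by linarith
    have hWd' : (W : ℝ) / d0 ≤ 1 / u := by
      refine le_trans ?_ hWd
      apply div_le_div_of_nonneg_right _ hd0pos.le
      push_cast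
      have : (0 : ℝ) ≤ g * W := by positivity
      linarith
    have hKu : (K : ℝ) ≤ u := by
      have h5 : (1 : ℝ) ≤ 2 ^ (K + 2) := one_le_pow₀ (by norm_num)
      exact (le_mul_of_one_le_right (Nat.cast_nonneg K) h5).trans huK
    have hw'n : (w' : ℝ) / n ≤ 1 / u := by
      rw [div_le_div_iff₀ hnpos hu0]
      have e1 : (w' : ℝ) ≤ u := by
        have h5 : (1 : ℝ) ≤ k := by exact_mod_cast hk0
        have h6 : (w' : ℝ) ≤ w' * k := le_mul_of_one_le_right (Nat.cast_nonneg w') h5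
        have h7 : (0 : ℝ) ≤ w' * k := by positivity
        linarith
      calc (w' : ℝ) * u ≤ u * u := by gcongr
        _ = u ^ 2 := by ring
        _ ≤ u ^ (4 * k) := pow_le_pow_right₀ hu1 (by omega)
        _ = 1 * n := by rw [hu4k, one_mul]
    have huK1 : (1 / u) ^ (K + 1) ≤ 1 / (n : ℝ) ^ (2 * D + 4) := by
      calc (1 / u) ^ (K + 1) ≤ (1 / u) ^ K := by
            apply pow_le_pow_of_le_one (by positivity) _ (by omega)
            rw [div_le_one hu0]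
            exact hu1
        _ = 1 / (n : ℝ) ^ (2 * D + 4) := by
            rw [div_pow, one_pow, hK, pow_mul, hu4k]
    refine ⟨by omega, hs, hn1pos', ?_, hk0, hd0pos', hA, n ^ D, W, K, w1, w2, K, w', c0, hS, hW1,
      hK0, le_of_eq hW.symm, by omega, ?_, ?_, ?_, by omega, ?_, ?_, ?_⟩
    · -- n1 <= n
      have : (n1 : ℝ) ≤ n := by
        calc (n1 : ℝ) ≤ y := hn1le
          _ ≤ y ^ 2 := le_self_pow₀ hy1 (by norm_num)
          _ ≤ n := hy2n
      exact_mod_cast this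
    · -- K / n1 <= (1/2)^(K+1)
      rw [div_le_iff₀ hn1pos, one_div, inv_pow, ← div_eq_inv_mul, le_div_iff₀ (by positivity)]
      have : (K : ℝ) * 2 ^ (K + 1) * 2 ≤ y := by
        calc (K : ℝ) * 2 ^ (K + 1) * 2 = K * 2 ^ (K + 2) := by ring
          _ ≤ u := huK
          _ ≤ y := huy
      linarith
    · -- S (...)
      push_cast
      have e1 : ((2 : ℝ) ^ K * K / n1) ^ w1 ≤ 1 / (n : ℝ) ^ (D + 1) := by
        have f1 : (2 : ℝ) ^ K * K / n1 ≤ 1 / u ^ (8 * (D + 1)) := by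
          rw [div_le_div_iff₀ hn1pos (by positivity)]
          have f2 : (2 : ℝ) ^ K * K ≤ u / 2 := by
            have : (2 : ℝ) ^ K * K * 4 = K * 2 ^ (K + 2) := by ring
            have hp : (0 : ℝ) ≤ 2 ^ K * K := by positivity
            linarith
          calc (2 : ℝ) ^ K * K * u ^ (8 * (D + 1)) ≤ (u / 2) * u ^ (8 * (D + 1)) := by gcongr
            _ = u ^ (8 * (D + 1) + 1) / 2 := by ring
            _ ≤ u ^ (16 * (D + 1)) / 2 := by
              gcongr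
              omega
            _ ≤ 1 * n1 := by rw [one_mul, ← hy]; exact hn1ge
        calc ((2 : ℝ) ^ K * K / n1) ^ w1 ≤ (1 / u ^ (8 * (D + 1))) ^ w1 :=
              pow_le_pow_left₀ (by positivity) f1 w1
          _ = 1 / (n : ℝ) ^ (D + 1) := by
            rw [div_pow, one_pow, ← hu4k, ← pow_mul, ← pow_mul, hw1, hk8]
            congr 2
            ring
      have e2 := geom_exp K w2 D L hw2 n hnpos hnl
      have e3 : (n : ℝ) ^ D * (1 / (n : ℝ) ^ (D + 1)) = 1 / n := by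
        rw [pow_succ]
        field_simp
      have e4 : 1 / (n : ℝ) ≤ 1 / 4 := by
        apply one_div_le_one_div_of_le (by norm_num)
        linarith
      calc (n : ℝ) ^ D * ((2 ^ K * K / n1) ^ w1 + (1 - (1 / 2) ^ (K + 1)) ^ w2) ≤
          (n : ℝ) ^ D * (1 / (n : ℝ) ^ (D + 1) + 1 / (n : ℝ) ^ (D + 1)) := by gcongr
        _ = 1 / n + 1 / n := by rw [mul_add, e3]
        _ ≤ 1 / 2 := by linarith
    · -- 2 N^g < sqrt n ^ (c0+1)
      have e1 : (Real.sqrt n) ^ (c0 + 1) = (n : ℝ) ^ ((c + 1) * g) * n := by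
        rw [hc0, show 2 * (c + 1) * g + 1 + 1 = 2 * ((c + 1) * g + 1) by ring, pow_mul,
          Real.sq_sqrt hnpos.le, pow_succ]
      rw [e1]
      have e2 : (N : ℝ) ^ g ≤ (n : ℝ) ^ ((c + 1) * g) := by
        rw [pow_mul]
        apply pow_le_pow_left₀ (by positivity)
        exact_mod_cast hNn
      have e3 : (0 : ℝ) < (n : ℝ) ^ ((c + 1) * g) := by positivity
      calc 2 * (N : ℝ) ^ g ≤ 2 * (n : ℝ) ^ ((c + 1) * g) := by gcongr
        _ < n * (n : ℝ) ^ ((c + 1) * g) := by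
          apply mul_lt_mul_of_pos_right _ e3
          linarith
        _ = _ := mul_comm _ _
    · -- A^(2s) s (K/sqrt n)^(w'-c0) < 1
      have e0 : w' - c0 = 8 * (D + 1) := by omega
      rw [e0]
      have e1 : (K : ℝ) / Real.sqrt n ≤ 1 / u ^ k := by
        rw [hsq, div_le_div_iff₀ (by positivity) (by positivity)]
        calc (K : ℝ) * u ^ k ≤ u ^ k * u ^ k := by
              gcongr
              exact hKu.trans (le_self_pow₀ hu1 (by omega))
          _ = 1 * u ^ (2 * k) := by ring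
      have e2 : ((K : ℝ) / Real.sqrt n) ^ (8 * (D + 1)) ≤ 1 / (n : ℝ) ^ (2 * (D + 1)) := by
        calc ((K : ℝ) / Real.sqrt n) ^ (8 * (D + 1)) ≤ (1 / u ^ k) ^ (8 * (D + 1)) :=
              pow_le_pow_left₀ (by positivity) e1 _
          _ = 1 / (n : ℝ) ^ (2 * (D + 1)) := by
            rw [div_pow, one_pow, ← hu4k, ← pow_mul, ← pow_mul]
            congr 2
            ring
      have e3 : (s : ℝ) ≤ n := hus.trans hun
      calc (A : ℝ) ^ (2 * s) * s * ((K : ℝ) / Real.sqrt n) ^ (8 * (D + 1)) ≤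
          (n : ℝ) ^ D * n * (1 / (n : ℝ) ^ (2 * (D + 1))) := by gcongr
        _ = 1 / (n : ℝ) ^ (D + 1) := by
          rw [show 2 * (D + 1) = (D + 1) + (D + 1) by ring, pow_add, pow_succ]
          field_simp
        _ < 1 := by
          rw [div_lt_one (by positivity)]
          exact one_lt_pow₀ (by linarith) (by omega)
    · -- K / sqrt n <= 1
      rw [div_le_one (by rw [hsq]; positivity), hsq]
      exact hKu.trans (le_self_pow₀ hu1 (by omega))
    · -- the last one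
      have e1 : ((W : ℝ) / d0) ^ (K + 1) ≤ 1 / (n : ℝ) ^ (2 * D + 4) :=
        (pow_le_pow_left₀ (by positivity) hWd' _).trans huK1
      have e2 : ((((2 * g + 1) * W : ℕ) : ℝ) / d0) ^ (K + 1) ≤ 1 / (n : ℝ) ^ (2 * D + 4) :=
        (pow_le_pow_left₀ (by positivity) hWd _).trans huK1
      have e3 : ((w' : ℝ) / n) ^ (K + 1) ≤ 1 / (n : ℝ) ^ (2 * D + 4) :=
        (pow_le_pow_left₀ (by positivity) hw'n _).trans huK1
      have e4 : (w' : ℝ) * k / d0 ≤ 1 / 8 := by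
        rw [div_le_div_iff₀ hd0pos (by norm_num)]
        have : u ≤ u ^ 2 := le_self_pow₀ hu1 (by norm_num)
        linarith
      have e5 : (s : ℝ) ≤ n := hus.trans hun
      have e6 : (1 : ℝ) ≤ (n : ℝ) ^ D := one_le_pow₀ hn1
      have e7 : (n : ℝ) ≤ (n : ℝ) ^ D * n := le_mul_of_one_le_left hnpos.le e6
      push_cast at e2 ⊢
      have e8 : (A : ℝ) ^ (2 * s) * ((n : ℝ) ^ D * ((W : ℝ) / d0) ^ (K + 1) +
          ((2 * (g : ℝ) + 1) * W / d0) ^ (K + 1) + s * ((w' : ℝ) / n) ^ (K + 1)) ≤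
          (n : ℝ) ^ D * ((n : ℝ) ^ D * (1 / (n : ℝ) ^ (2 * D + 4)) +
          (n : ℝ) ^ D * (1 / (n : ℝ) ^ (2 * D + 4)) +
          ((n : ℝ) ^ D * n) * (1 / (n : ℝ) ^ (2 * D + 4))) := by
        have g1 : (0 : ℝ) ≤ 1 / (n : ℝ) ^ (2 * D + 4) := by positivity
        have g2 : ((2 * (g : ℝ) + 1) * W / d0) ^ (K + 1) ≤
            (n : ℝ) ^ D * (1 / (n : ℝ) ^ (2 * D + 4)) := by
          exact e2.trans (le_mul_of_one_le_left g1 e6)
        have g3 : (s : ℝ) * ((w' : ℝ) / n) ^ (K + 1) ≤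
            ((n : ℝ) ^ D * n) * (1 / (n : ℝ) ^ (2 * D + 4)) :=
          mul_le_mul (e5.trans e7) e3 (by positivity) (by positivity)
        have g4 : (n : ℝ) ^ D * ((W : ℝ) / d0) ^ (K + 1) ≤
            (n : ℝ) ^ D * (1 / (n : ℝ) ^ (2 * D + 4)) :=
          mul_le_mul_of_nonneg_left e1 (by positivity)
        exact mul_le_mul hAr (by linarith) (by positivity) (by positivity)
      have e9 : (n : ℝ) ^ D * ((n : ℝ) ^ D * (1 / (n : ℝ) ^ (2 * D + 4)) +
          (n : ℝ) ^ D * (1 / (n : ℝ) ^ (2 * D + 4)) +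
          ((n : ℝ) ^ D * n) * (1 / (n : ℝ) ^ (2 * D + 4))) = 1 / (n : ℝ) ^ 4 + 1 / (n : ℝ) ^ 4 +
            1 / (n : ℝ) ^ 3 := by
        rw [show 2 * D + 4 = D + D + 4 by ring, pow_add, pow_add]
        field_simp
      have e10 : 1 / (n : ℝ) ^ 3 ≤ 1 / 64 := by
        apply one_div_le_one_div_of_le (by norm_num)
        calc (64 : ℝ) ≤ 16 ^ 3 := by norm_num
          _ ≤ (n : ℝ) ^ 3 := by gcongr
      have e11 : 1 / (n : ℝ) ^ 4 ≤ 1 / 64 := by
        apply one_div_le_one_div_of_le (by norm_num)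
        calc (64 : ℝ) ≤ 16 ^ 4 := by norm_num
          _ ≤ (n : ℝ) ^ 4 := by gcongr
      linarith

end Pool.Agent.H679R2.WH
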