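import Pool.Agent.H679R2.WH.ParE
import Pool.Agent.H679R2.WH.NumO02

/-! Task P3: final parameters. -/

set_option autoImplicit false

namespace Pool.Agent.H679R2.WH

theorem par_O0 (c q : ℕ) (hq : 1 ≤ q) : ∃ k : ℕ, 0 < k ∧ ∀ F g : ℕ, ∃ n0 : ℕ,
    ∀ n ≥ n0, ∃ h b n1 d0 : ℕ, 0 < h ∧
      h * b + 1 + (2 + k) + k * h + 2 ≤ n ∧ 2 * h + h * (k * n1) ≤ n ∧
      (∀ P : ℕ, P ^ q ≤ n ^ (2 * (q - 1)) → 2 * P ≤ h ^ 2) ∧
      ((h ^ 2 : ℕ) : ℝ) * (((k * n1 : ℕ) : ℝ) ^ k * ((b : ℝ) ^ (2 * 0) + 1) *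
        Real.exp (-((b - 1 : ℕ) : ℝ) / (d0 : ℝ) ^ k)) ≤ 1 / 4 ∧
      ∀ N S0 : ℕ, N ≤ F * n ^ c →
        S0 ≤ F * n ^ c + n ^ 2 + (2 * N) ^ 2 → NumO0 b k n1 d0 N g S0 := by
  obtain ⟨k, hk, H⟩ := num_O02 (2 * q * (c + 2)) 1 le_rfl
  refine ⟨k, hk, fun F g => ?_⟩
  obtain ⟨n1', hn1'⟩ := H ((F + 1) * 2 ^ (2 * q * (c + 2))) g (2 * q * 2 + 1)
  obtain ⟨n0, hn0⟩ := split_n q (2 * k + 6) (n1' + 2 ^ (2 * q * 2)) hq (by omega)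
  refine ⟨n0, fun n hn => ?_⟩
  obtain ⟨b, h, hB, hb1, hh1, hbn, hnb, hC, hh2⟩ := hn0 n hn
  obtain ⟨m, n1, d0, hm1, -, hm2, -, hm3, hm4⟩ := hn1' b (le_trans (Nat.le_add_right _ _) hB)
  have hm : 2 ≤ m := by
    have := hm2 1 (by simp)
    omega
  have hkn : k * n1 ≤ b := by nlinarith [Nat.zero_le (k * n1)]
  have hhb : 1 ≤ h * b := Nat.mul_pos hh1 hb1
  have hh3 : h ≤ h * b := Nat.le_mul_of_pos_right _ hb1
  have hb3 : b ≤ h * b := Nat.le_mul_of_pos_left _ hh1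
  have hn1 : 1 ≤ n := by nlinarith
  refine ⟨h, b, n1, d0, hh1, ?_, ?_, ?_, ?_, ?_⟩
  · nlinarith [Nat.mul_le_mul_left k hh3, Nat.mul_le_mul_left (k + 5) hhb]
  · nlinarith [Nat.mul_le_mul_left 2 hh3, Nat.mul_le_mul_left h hkn,
      Nat.zero_le (k * (h * b))]
  · exact fun P hP => par_big q 2 n h P hq (by omega) hh2 hP
  · refine par_real h b 2 (2 * q * 2 + 1) _ (by positivity)
      (par_hpow q 2 n h b (le_trans (Nat.le_add_left _ _) hB) ?_ hnb) hm3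
    nlinarith
  · intro N S0 hN hS0
    have hp := par_poly q 2 c F n b hn1 hnb
    refine hm4 N S0 (by omega) ?_
    refine hS0.trans ?_
    have : F * n ^ c + n ^ 2 + (2 * N) ^ 2
        ≤ (F + 1) * 2 ^ (2 * q * (c + 2)) * b ^ (2 * q * (c + 2)) + b + (2 * N) ^ 2 := by omega
    exact this

end Pool.Agent.H679R2.WH
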