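import Mathlib
import Pool.Agent.H679R2.WH.Codes2

/-!
# Realizations of the meanings, and indexing of the blocks
-/

set_option autoImplicit false

namespace Pool.Agent.H679R2.WH

private theorem s1_partial {T : Type} [Finite T] [Nonempty T] {n : ℕ} {D : Type} (f : T → D) (d0 : D)
    (hT : Nat.card T ≤ n) : ∃ dc : Fin n → D, (∀ t, ∃ a, dc a = f t) ∧
      ∀ a, dc a = d0 ∨ ∃ t, dc a = f t := by
  classical
  letI := Fintype.ofFinite T
  have hc : Fintype.card T ≤ Fintype.card (Fin n) := by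
    rw [Fintype.card_fin, ← Nat.card_eq_fintype_card]; exact hT
  obtain ⟨e⟩ := Function.Embedding.nonempty_of_card_le hc
  refine ⟨fun a => if h : ∃ t, e t = a then f h.choose else d0, ?_, ?_⟩
  · intro t
    refine ⟨e t, ?_⟩
    have h : ∃ t', e t' = e t := ⟨t, rfl⟩
    have h2 : h.choose = t := e.injective h.choose_spec
    simp only [dif_pos h]
    rw [h2]
  · intro a
    by_cases h : ∃ t, e t = a
    · right
      exact ⟨h.choose, by simp only [dif_pos h]⟩
    · left
      simp only [dif_neg h]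

theorem realz_exists {n h b k n1 co : ℕ} (h1 : h * b + 1 + (co + k) + k * h + co ≤ n)
    (h2 : co * h + h * (k * n1) ≤ n) (h3 : h ≤ n) :
    ∃ (dc : Fin n → Ch h b) (vc : Fin n → Vr h k n1), Realz co dc vc := by
  classical
  let T : Type := ((((Fin h × Fin b) ⊕ Unit) ⊕ Fin (co + k)) ⊕ (Fin k × Fin h)) ⊕ Fin co
  let f : T → Ch h b := fun t => match t with
    | .inl (.inl (.inl (.inl (α, x)))) => .reg α x
    | .inl (.inl (.inl (.inr _))) => .skip
    | .inl (.inl (.inr g)) => .grp g.val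
    | .inl (.inr (c, γ)) => .con c.val γ.val
    | .inr i => .chk i.val
  have hT : Nat.card T ≤ n := by
    have : Nat.card T = h * b + 1 + (co + k) + k * h + co := by
      simp [T]
    omega
  have : Nonempty T := ⟨.inl (.inl (.inl (.inr ())))⟩
  obtain ⟨dc, hdc1, hdc2⟩ := s1_partial f Ch.junk hT
  let U : Type := (Fin co × Fin h) ⊕ (Fin h × Row k n1)
  let g : Option U → Vr h k n1 := fun t => match t with
    | some (.inl (c, j)) => .ad c.val j
    | some (.inr (γ, x)) => .rw γ x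
    | Option.none => .none
  have hvc : ∃ vc : Fin n → Vr h k n1, ∀ t : U, ∃ a, vc a = g (some t) := by
    have hU : Nat.card U ≤ n := by
      have : Nat.card U = co * h + h * (k * n1) := by
        simp [U, Row]
      omega
    by_cases hne : Nonempty U
    · obtain ⟨vc, hvc1, -⟩ := s1_partial (fun t : U => g (some t)) Vr.none hU
      exact ⟨vc, hvc1⟩
    · exact ⟨fun _ => .none, fun t => absurd ⟨t⟩ hne⟩
  obtain ⟨vc, hvc⟩ := hvc
  refine ⟨dc, vc, ?_, ?_, ?_, ?_, ?_, ?_, ?_, ?_, ?_, h3⟩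
  · intro α x
    exact hdc1 (.inl (.inl (.inl (.inl (α, x)))))
  · exact hdc1 (.inl (.inl (.inl (.inr ()))))
  · intro g hg
    exact hdc1 (.inl (.inl (.inr ⟨g, hg⟩)))
  · intro a g hg
    rcases hdc2 a with h | ⟨t, h⟩
    · rw [h] at hg; cases hg
    · rw [h] at hg
      rcases t with (((⟨α, x⟩ | _) | g') | ⟨c, γ⟩) | i
      · cases hg
      · cases hg
      · simp only [f, Ch.grp.injEq] at hg
        omega
      · cases hg
      · cases hg
  · intro c hc γ hγ
    exact hdc1 (.inl (.inr (⟨c, hc⟩, ⟨γ, hγ⟩)))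
  · intro a c γ hg
    rcases hdc2 a with h | ⟨t, h⟩
    · rw [h] at hg; cases hg
    · rw [h] at hg
      rcases t with (((⟨α, x⟩ | _) | g') | ⟨c', γ'⟩) | i
      · cases hg
      · cases hg
      · cases hg
      · simp only [f, Ch.con.injEq] at hg
        omega
      · cases hg
  · intro i hi
    exact hdc1 (.inr ⟨i, hi⟩)
  · intro c hc j
    exact hvc (.inl (⟨c, hc⟩, j))
  · intro γ x
    exact hvc (.inr (γ, x))

private theorem s1_index {T : Type} [Finite T] {m N : ℕ} (hN : Nat.card T = N) (hm : m ≤ N)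
    (hm0 : 0 < m) : ∃ f : T → Fin m, Function.Surjective f := by
  classical
  letI := Fintype.ofFinite T
  have hc : Fintype.card (Fin m) ≤ Fintype.card T := by
    rw [Fintype.card_fin, ← Nat.card_eq_fintype_card, hN]; exact hm
  obtain ⟨e⟩ := Function.Embedding.nonempty_of_card_le hc
  have : Nonempty (Fin m) := ⟨⟨0, hm0⟩⟩
  exact ⟨Function.invFun e, Function.invFun_surjective e.injective⟩

private theorem s1_card (h s : ℕ) :
    Nat.card (List.Vector (Fin h × Fin h) s) = h ^ (2 * s) := by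
  rw [Nat.card_eq_fintype_card, card_vector, Fintype.card_prod, Fintype.card_fin, pow_mul, sq]

theorem ixE_exists {h s m : ℕ} (hh : 0 < h) (hm : m ≤ h ^ (2 * s + 1)) (hm0 : 0 < m) :
    ∃ ix : Node h × Fin h → Fin m, ∀ j, ∃ ad γ, ad.length = s ∧ ix (ad, γ) = j := by
  classical
  have hN : Nat.card (List.Vector (Fin h × Fin h) s × Fin h) = h ^ (2 * s + 1) := by
    rw [Nat.card_prod, s1_card, Nat.card_eq_fintype_card, Fintype.card_fin, pow_succ]
  obtain ⟨f, hf⟩ := s1_index hN hm hm0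
  refine ⟨fun p => if hp : p.1.length = s then f (⟨p.1, hp⟩, p.2) else ⟨0, hm0⟩, ?_⟩
  intro j
  obtain ⟨⟨⟨l, hl⟩, γ⟩, hj⟩ := hf j
  refine ⟨l, γ, hl, ?_⟩
  simp only [dif_pos hl]
  exact hj

theorem ixO_exists {h s m : ℕ} (hh : 0 < h) (hm : m ≤ h ^ (2 * s + 2)) (hm0 : 0 < m) :
    ∃ ix : Node h × Fin h × Fin h → Fin m,
      ∀ j, ∃ ad α γ, ad.length = s ∧ ix (ad, α, γ) = j := by
  classical
  have hN : Nat.card (List.Vector (Fin h × Fin h) s × (Fin h × Fin h)) = h ^ (2 * s + 2) := by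
    rw [Nat.card_prod, s1_card, Nat.card_prod, Nat.card_eq_fintype_card, Fintype.card_fin,
      pow_succ, pow_succ, mul_assoc]
  obtain ⟨f, hf⟩ := s1_index hN hm hm0
  refine ⟨fun p => if hp : p.1.length = s then f (⟨p.1, hp⟩, p.2) else ⟨0, hm0⟩, ?_⟩
  intro j
  obtain ⟨⟨⟨l, hl⟩, α, γ⟩, hj⟩ := hf j
  refine ⟨l, α, γ, hl, ?_⟩
  simp only [dif_pos hl]
  exact hj

end Pool.Agent.H679R2.WH
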