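import Pool.Agent.H679R2.WH.Gap

/-!
# Leaves
-/

set_option autoImplicit false

namespace Pool.Agent.H679R2.WH

open Pool.Agent.H520R2 Pool.Agent.H520R2.NM

private theorem leafK_ext {X : Type} {B : Set (X → Bool)} {L : List (X → Bool)}
    (hL : MProg B L) {P : Type} [Fintype P]
    (Q : P → List (X → Bool) → Prop) (M : ℕ) (hQ : ∀ p L1 L2, Q p L1 → Q p (L2 ++ L1))
    (hstep : ∀ p L1, MProg B (L1 ++ L) →
      ∃ L', MProg B (L' ++ (L1 ++ L)) ∧ L'.length ≤ M ∧ Q p (L' ++ (L1 ++ L))) :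
    ∃ L', MProg B (L' ++ L) ∧ L'.length ≤ Fintype.card P * M ∧ ∀ p, Q p (L' ++ L) := by
  classical
  have key : ∀ l : List P, ∃ L', MProg B (L' ++ L) ∧ L'.length ≤ l.length * M ∧
      ∀ p ∈ l, Q p (L' ++ L) := by
    intro l
    induction l with
    | nil => exact ⟨[], by simpa using hL, by simp, by simp⟩
    | cons p l ih =>
      obtain ⟨L1, h1, hlen1, hq1⟩ := ih
      obtain ⟨L2, h2, hlen2, hq2⟩ := hstep p L1 h1
      refine ⟨L2 ++ L1, by simpa using h2, ?_, ?_⟩
      · simp only [List.length_append, List.length_cons]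
        nlinarith
      · intro p' hp'
        rcases List.mem_cons.1 hp' with rfl | hp'
        · simpa using hq2
        · have := hQ p' _ L2 (hq1 p' hp')
          simpa using this
  obtain ⟨L', h1, h2, h3⟩ := key Finset.univ.toList
  refine ⟨L', h1, by simpa using h2, fun p => h3 p (by simp)⟩

theorem leaf_and {V : Type} {L : List (Set V → Bool)} (hL : MProg (B0 V) L) {A N d : ℕ} (g : ℕ)
    (r : CIdx A N d → Set V → Bool) (hr : ∀ o, Av (B0 V) L (r o)) :
    ∃ L', MProg (B0 V) (L' ++ L) ∧ L'.length ≤ A ^ d * (2 * N + 1) ^ 2 ∧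
      ∃ leaf : {S : Finset (Fin N) // S.card = g} → (Fin d → Fin A) → Fin (2 * g + 1) →
          Set V → Bool,
        (∀ z p j, Av (B0 V) (L' ++ L) (leaf z p j)) ∧
        ∀ z p x, (∀ l, r (p, l) x = true ∨ lit z.1 l) ↔ ∀ j, leaf z p j x = true := by
  classical
  obtain ⟨e, he⟩ := units N
  obtain ⟨L', h1, h2, h3⟩ := leafK_ext hL (P := Fin d → Fin A)
    (fun p L1 => ∀ a b : ℕ, ∃ h : Set V → Bool, Av (B0 V) L1 h ∧
        ∀ x, h x = true ↔ ∀ i : Fin (2 * N), a ≤ i.val → i.val < b → r (p, e i) x = true)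
    ((2 * N) ^ 2)
    (fun p L1 L2 h a b => by
      obtain ⟨f, hf, hf'⟩ := h a b
      exact ⟨f, hf.mono L2, hf'⟩)
    (fun p L1 hL1 => gap_and hL1 (fun i => r (p, e i)) (fun i => (hr _).mono L1))
  refine ⟨L', h1, ?_, ?_⟩
  · refine h2.trans ?_
    rw [Fintype.card_fun, Fintype.card_fin, Fintype.card_fin]
    exact Nat.mul_le_mul_left _ (Nat.pow_le_pow_left (by omega) 2)
  · choose h hav hh using h3
    choose I hI using fun z : {S : Finset (Fin N) // S.card = g} => (he g z.1 z.2).1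
    refine ⟨fun z p j => h p (I z j).1 (I z j).2, fun z p j => hav _ _ _, fun z p x => ?_⟩
    constructor
    · intro H j
      rw [hh]
      intro i hi1 hi2
      have := (hI z i).2 ⟨j, hi1, hi2⟩
      exact (H (e i)).resolve_right this
    · intro H l
      by_cases hl : lit z.1 l
      · exact Or.inr hl
      · left
        have h4 : ¬ lit z.1 (e (e.symm l)) := by simpa using hl
        obtain ⟨j, hj1, hj2⟩ := (hI z (e.symm l)).1 h4
        have := (hh _ _ _ _).1 (H j) (e.symm l) hj1 hj2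
        simpa using this

theorem leaf_or {V : Type} {L : List (Set V → Bool)} (hL : MProg (B0 V) L) {A N d : ℕ} (g : ℕ)
    (r : CIdx A N d → Set V → Bool) (hr : ∀ o, Av (B0 V) L (r o)) :
    ∃ L', MProg (B0 V) (L' ++ L) ∧ L'.length ≤ A ^ d * (2 * N + 1) ^ 2 ∧
      ∃ leaf : {S : Finset (Fin N) // S.card = g} → (Fin d → Fin A) → Fin (2 * g + 1) →
          Set V → Bool,
        (∀ z p j, Av (B0 V) (L' ++ L) (leaf z p j)) ∧
        ∀ z p x, (∃ l, r (p, l) x = true ∧ lit z.1 l) ↔ ∃ j, leaf z p j x = true := by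
  classical
  obtain ⟨e, he⟩ := units N
  obtain ⟨L', h1, h2, h3⟩ := leafK_ext hL (P := Fin d → Fin A)
    (fun p L1 => ∀ a b : ℕ, ∃ h : Set V → Bool, Av (B0 V) L1 h ∧
        ∀ x, h x = true ↔ ∃ i : Fin (2 * N), a ≤ i.val ∧ i.val < b ∧ r (p, e i) x = true)
    ((2 * N) ^ 2)
    (fun p L1 L2 h a b => by
      obtain ⟨f, hf, hf'⟩ := h a b
      exact ⟨f, hf.mono L2, hf'⟩)
    (fun p L1 hL1 => gap_or hL1 (fun i => r (p, e i)) (fun i => (hr _).mono L1))
  refine ⟨L', h1, ?_, ?_⟩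
  · refine h2.trans ?_
    rw [Fintype.card_fun, Fintype.card_fin, Fintype.card_fin]
    exact Nat.mul_le_mul_left _ (Nat.pow_le_pow_left (by omega) 2)
  · choose h hav hh using h3
    choose I hI using fun z : {S : Finset (Fin N) // S.card = g} => (he g z.1 z.2).2
    refine ⟨fun z p j => h p (I z j).1 (I z j).2, fun z p j => hav _ _ _, fun z p x => ?_⟩
    constructor
    · rintro ⟨l, hl1, hl2⟩
      have h4 : lit z.1 (e (e.symm l)) := by simpa using hl2
      obtain ⟨j, hj1, hj2⟩ := (hI z (e.symm l)).1 h4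
      exact ⟨j, (hh _ _ _ _).2 ⟨e.symm l, hj1, hj2, by simpa using hl1⟩⟩
    · rintro ⟨j, hj⟩
      obtain ⟨i, hi1, hi2, hi3⟩ := (hh _ _ _ _).1 hj
      exact ⟨e i, hi3, (hI z i).2 ⟨j, hi1, hi2⟩⟩

theorem leaf_pair {V : Type} {L : List (Set V → Bool)} (hL : MProg (B0 V) L) {N : ℕ} (g : ℕ)
    (r : (Fin N × Bool) × (Fin N × Bool) → Set V → Bool) (hr : ∀ o, Av (B0 V) L (r o)) :
    ∃ L', MProg (B0 V) (L' ++ L) ∧ L'.length ≤ 2 * (2 * N + 1) ^ 4 ∧
      ∃ leaf : {S : Finset (Fin N) // S.card = g} → Fin ((2 * g + 1) ^ 2) → Set V → Bool,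
        (∀ z j, Av (B0 V) (L' ++ L) (leaf z j)) ∧
        ∀ z x, (∀ l l', r (l, l') x = true ∨ lit z.1 l ∨ lit z.1 l') ↔
          ∀ j, leaf z j x = true := by
  classical
  obtain ⟨e, he⟩ := units N
  -- first stage
  obtain ⟨L1, h1, h2, h3⟩ := leafK_ext hL (P := Fin (2 * N))
    (fun l' L1 => ∀ a b : ℕ, ∃ h : Set V → Bool, Av (B0 V) L1 h ∧
        ∀ x, h x = true ↔ ∀ i : Fin (2 * N), a ≤ i.val → i.val < b → r (e i, e l') x = true)
    ((2 * N) ^ 2)
    (fun p L1 L2 h a b => by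
      obtain ⟨f, hf, hf'⟩ := h a b
      exact ⟨f, hf.mono L2, hf'⟩)
    (fun l' L1 hL1 => gap_and hL1 (fun i => r (e i, e l')) (fun i => (hr _).mono L1))
  choose h hav hh using h3
  -- second stage
  obtain ⟨L2, h4, h5, h6⟩ := leafK_ext h1 (P := Fin (2 * N + 1) × Fin (2 * N + 1))
    (fun ab L1 => ∀ a' b' : ℕ, ∃ h' : Set V → Bool, Av (B0 V) L1 h' ∧
        ∀ x, h' x = true ↔ ∀ i' : Fin (2 * N), a' ≤ i'.val → i'.val < b' →
          h i' ab.1.val ab.2.val x = true)
    ((2 * N) ^ 2)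
    (fun p L1 L2 h a b => by
      obtain ⟨f, hf, hf'⟩ := h a b
      exact ⟨f, hf.mono L2, hf'⟩)
    (fun ab L3 hL3 => gap_and hL3 (fun i' => h i' ab.1.val ab.2.val)
      (fun i => (hav _ _ _).mono L3))
  choose h' hav' hh' using h6
  refine ⟨L2 ++ L1, by simpa using h4, ?_, ?_⟩
  · rw [Fintype.card_fin] at h2
    rw [Fintype.card_prod, Fintype.card_fin] at h5
    rw [List.length_append]
    have e1 : 2 * N * (2 * N) ^ 2 ≤ (2 * N + 1) ^ 4 := by
      calc 2 * N * (2 * N) ^ 2 ≤ (2 * N + 1) * (2 * N + 1) ^ 2 :=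
            Nat.mul_le_mul (by omega) (Nat.pow_le_pow_left (by omega) 2)
        _ = (2 * N + 1) ^ 3 := by ring
        _ ≤ (2 * N + 1) ^ 4 := Nat.pow_le_pow_right (by omega) (by omega)
    have e2 : (2 * N + 1) * (2 * N + 1) * (2 * N) ^ 2 ≤ (2 * N + 1) ^ 4 := by
      calc (2 * N + 1) * (2 * N + 1) * (2 * N) ^ 2 ≤ (2 * N + 1) * (2 * N + 1) * (2 * N + 1) ^ 2 :=
            Nat.mul_le_mul_left _ (Nat.pow_le_pow_left (by omega) 2)
        _ = (2 * N + 1) ^ 4 := by ring
    omega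
  · choose I hI using fun z : {S : Finset (Fin N) // S.card = g} => (he g z.1 z.2).1
    let E : Fin ((2 * g + 1) ^ 2) ≃ Fin (2 * g + 1) × Fin (2 * g + 1) :=
      (finCongr (sq _)).trans finProdFinEquiv.symm
    let mn : ℕ → Fin (2 * N + 1) := fun a => ⟨min a (2 * N), by omega⟩
    refine ⟨fun z j => h' (mn (I z (E j).1).1, mn (I z (E j).1).2) (I z (E j).2).1
      (I z (E j).2).2, fun z j => by simpa using hav' _ _ _, fun z x => ?_⟩
    constructor
    · intro H j
      rw [hh']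
      intro i' hi1' hi2'
      rw [hh]
      intro i hi1 hi2
      have hi := i.isLt
      simp only [mn] at hi1 hi2
      have n1 := (hI z i).2 ⟨(E j).1, by omega, by omega⟩
      have n2 := (hI z i').2 ⟨(E j).2, hi1', hi2'⟩
      rcases H (e i) (e i') with h | h | h
      · exact h
      · exact absurd h n1
      · exact absurd h n2
    · intro H l l'
      by_cases hl : lit z.1 l
      · exact Or.inr (Or.inl hl)
      by_cases hl' : lit z.1 l'
      · exact Or.inr (Or.inr hl')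
      left
      have n1 : ¬ lit z.1 (e (e.symm l)) := by simpa using hl
      have n2 : ¬ lit z.1 (e (e.symm l')) := by simpa using hl'
      obtain ⟨j, hj1, hj2⟩ := (hI z (e.symm l)).1 n1
      obtain ⟨j', hj1', hj2'⟩ := (hI z (e.symm l')).1 n2
      have h7 := H (E.symm (j, j'))
      simp only [Equiv.apply_symm_apply] at h7
      rw [hh'] at h7
      have h8 := h7 (e.symm l') hj1' hj2'
      rw [hh] at h8
      have h9 := h8 (e.symm l) (by have := (e.symm l).isLt; simp only [mn]; omega)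
        (by have := (e.symm l).isLt; simp only [mn]; omega)
      simpa using h9

end Pool.Agent.H679R2.WH
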