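import Pool.Agent.H679R2.WH.Defs
import Pool.Agent.H679R2.WH.Branch

/-! Task D1 (helper92): switching lemma, negative tests, odd case. -/

set_option autoImplicit false

namespace Pool.Agent.H679R2.WH

open Pool.Agent.H520R2

namespace D1

theorem sum_image_le {α β : Type} [DecidableEq β] (R : Finset α) (g : α → β) (f : β → ℝ)
    (hf : ∀ b, 0 ≤ f b) : ∑ b ∈ R.image g, f b ≤ ∑ a ∈ R, f (g a) := by
  classical
  induction R using Finset.induction_on with
  | empty => simp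
  | insert a R ha ih =>
    rw [Finset.image_insert, Finset.sum_insert ha]
    by_cases h : g a ∈ R.image g
    · rw [Finset.insert_eq_of_mem h]
      linarith [hf (g a)]
    · rw [Finset.sum_insert h]
      linarith

theorem sum_biUnion_le {α β : Type} [DecidableEq β] (R : Finset α) (g : α → Finset β) (f : β → ℝ)
    (hf : ∀ b, 0 ≤ f b) : ∑ b ∈ R.biUnion g, f b ≤ ∑ a ∈ R, ∑ b ∈ g a, f b := by
  classical
  induction R using Finset.induction_on with
  | empty => simp
  | insert a R ha ih =>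
    rw [Finset.biUnion_insert, Finset.sum_insert ha]
    have h1 := Finset.sum_union_inter (s₁ := g a) (s₂ := R.biUnion g) (f := f)
    have h2 : 0 ≤ ∑ b ∈ g a ∩ R.biUnion g, f b := Finset.sum_nonneg fun b _ => hf b
    linarith

/-- a state: counter, revealed labels, revealed path nodes -/
abbrev St (n k n1 d0 s : ℕ) :=
  ℕ × Finset ((Fin n × Row k n1) × Fin d0) × Finset (NodeEQ n s × Fin k)

def Ev {n k n1 d0 s : ℕ} (σ : St n k n1 d0 s) : Set (OmNE n k n1 d0 s) :=
  {ω | (∀ z ∈ σ.2.1, ω.1 z.1 = z.2) ∧ ∀ z ∈ σ.2.2, ω.2.2 z.1 = z.2 ∧ Fol ω.2.1 z.1.1}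

noncomputable def wt {n k n1 d0 s : ℕ} (σ : St n k n1 d0 s) : ℝ :=
  (1 / (d0 : ℝ)) ^ σ.2.1.card * (1 / (k : ℝ)) ^ σ.2.2.card

theorem wt_nonneg {n k n1 d0 s : ℕ} (σ : St n k n1 d0 s) : 0 ≤ wt σ := by
  unfold wt; positivity

def Inv {n k n1 d0 s : ℕ} (σ : St n k n1 d0 s) : Prop := σ.2.1.card ≤ σ.1 ∧ σ.2.2.card ≤ σ.1

theorem pr_Ev {n k n1 d0 s : ℕ} (hk : 0 < k) (hkd : k ≤ d0) (σ : St n k n1 d0 s) :
    pr (Ev σ) ≤ wt σ := by
  have : Nonempty (Fin k) := ⟨⟨0, hk⟩⟩
  have : Nonempty (Fin d0) := ⟨⟨0, by omega⟩⟩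
  have h1 : Ev σ ⊆ {ω : OmNE n k n1 d0 s | ω.1 ∈ {f : Fin n × Row k n1 → Fin d0 |
      ∀ z ∈ σ.2.1, f z.1 = z.2} ∧ ω.2 ∈ {ω' : (NodeLT n s → Fin n) × (NodeEQ n s → Fin k) |
      ω'.1 ∈ (Set.univ : Set (NodeLT n s → Fin n)) ∧
      ω'.2 ∈ {f : NodeEQ n s → Fin k | ∀ z ∈ σ.2.2, f z.1 = z.2}}} := by
    rintro ω ⟨h1, h2⟩
    exact ⟨h1, Set.mem_univ _, fun z hz => (h2 z hz).1⟩
  refine (msr_pr.mono _ _ h1).trans ?_
  rw [pr_prod, pr_prod]
  have e1 := cyl (ι := Fin n × Row k n1) (κ := Fin d0) σ.2.1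
  have e2 := cyl (ι := NodeEQ n s) (κ := Fin k) σ.2.2
  rw [Fintype.card_fin] at e1 e2
  have e3 : pr (Set.univ : Set (NodeLT n s → Fin n)) ≤ 1 := pr_le_one _
  have e4 : pr (Set.univ : Set (NodeLT n s → Fin n)) *
      pr {f : NodeEQ n s → Fin k | ∀ z ∈ σ.2.2, f z.1 = z.2} ≤ (1 / (k : ℝ)) ^ σ.2.2.card := by
    calc _ ≤ 1 * pr {f : NodeEQ n s → Fin k | ∀ z ∈ σ.2.2, f z.1 = z.2} :=
          mul_le_mul_of_nonneg_right e3 (msr_pr.nonneg _)
      _ ≤ _ := by rw [one_mul]; exact e2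
  unfold wt
  exact mul_le_mul e1 e4 (mul_nonneg (msr_pr.nonneg _) (msr_pr.nonneg _)) (by positivity)

open Classical in
/-- the known zero entries -/
noncomputable def Z {n k n1 d0 s : ℕ} (σ : St n k n1 d0 s) : Finset (Node n × Row k n1) :=
  ((σ.2.2 ×ˢ σ.2.1).filter (fun q => ftop q.1.1.1 = some q.2.1.1 ∧ q.2.2.val = q.1.2.val)).image
    (fun q => (q.1.1.1, q.2.1.2))

theorem Z_card {n k n1 d0 s : ℕ} (σ : St n k n1 d0 s) : (Z σ).card ≤ σ.2.2.card * σ.2.1.card := by
  unfold Z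
  refine Finset.card_image_le.trans ((Finset.card_filter_le _ _).trans ?_)
  rw [Finset.card_product]

theorem Z_zero {n k n1 d0 s : ℕ} (σ : St n k n1 d0 s) (ω : OmNE n k n1 d0 s) (hω : ω ∈ Ev σ)
    (x : Node n × Row k n1) (hx : x ∈ Z σ) : x ∉ NegE ω := by
  unfold Z at hx
  obtain ⟨⟨⟨p, i⟩, ⟨⟨a, v⟩, d⟩⟩, hq, rfl⟩ := Finset.mem_image.mp hx
  rw [Finset.mem_filter, Finset.mem_product] at hq
  obtain ⟨⟨hq1, hq2⟩, hq3, hq4⟩ := hq
  simp only at hq1 hq2 hq3 hq4
  intro hn
  apply hn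
  refine ⟨p.2, a, hq3, (hω.2 _ hq1).2, ?_⟩
  have e1 := hω.1 _ hq2
  have e2 := (hω.2 _ hq1).1
  simp only at e1 e2
  show (ω.1 (a, v)).val = (ω.2.2 ⟨p.1, p.2⟩).val
  rw [e1, hq4]
  have : (⟨p.1, p.2⟩ : NodeEQ n s) = p := rfl
  rw [this, e2]

theorem mem_Z {n k n1 d0 s : ℕ} (σ : St n k n1 d0 s) (p : NodeEQ n s) (a : Fin n)
    (v : Row k n1) (i : Fin k) (d : Fin d0) (h1 : ftop p.1 = some a) (h2 : (p, i) ∈ σ.2.2)
    (h3 : ((a, v), d) ∈ σ.2.1) (h4 : d.val = i.val) : (p.1, v) ∈ Z σ := by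
  unfold Z
  exact Finset.mem_image.mpr ⟨((p, i), ((a, v), d)), Finset.mem_filter.mpr
    ⟨Finset.mem_product.mpr ⟨h2, h3⟩, h1, h4⟩, rfl⟩

/-- one entry -/
theorem step_x {n k n1 d0 s : ℕ} (hk : 0 < k) (hkd : k ≤ d0) (σ : St n k n1 d0 s) (hσ : Inv σ)
    (x : Node n × Row k n1) (hx : x ∉ Z σ) :
    ∃ F : Finset (St n k n1 d0 s), (∀ τ ∈ F, Inv τ ∧ τ.1 = σ.1 + 1) ∧
      (∀ ω ∈ Ev σ, x ∉ NegE ω → ∃ τ ∈ F, ω ∈ Ev τ) ∧ ∑ τ ∈ F, wt τ ≤ 1 / (k : ℝ) * wt σ := by
  classical
  have hkr : (0 : ℝ) < k := by exact_mod_cast hk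
  have hdr : (0 : ℝ) < d0 := by exact_mod_cast (lt_of_lt_of_le hk hkd)
  have hdk : (1 : ℝ) / d0 ≤ 1 / k := by
    apply one_div_le_one_div_of_le hkr
    exact_mod_cast hkd
  obtain ⟨p, v⟩ := x
  obtain ⟨j, L, P⟩ := σ
  have hempty : (∀ ω ∈ Ev (j, L, P), (p, v) ∉ NegE ω → False) → 
      ∃ F : Finset (St n k n1 d0 s), (∀ τ ∈ F, Inv τ ∧ τ.1 = j + 1) ∧
      (∀ ω ∈ Ev (j, L, P), (p, v) ∉ NegE ω → ∃ τ ∈ F, ω ∈ Ev τ) ∧
      ∑ τ ∈ F, wt τ ≤ 1 / (k : ℝ) * wt ((j, L, P) : St n k n1 d0 s) := by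
    intro h
    refine ⟨∅, by simp, fun ω h1 h2 => (h ω h1 h2).elim, ?_⟩
    rw [Finset.sum_empty]
    exact mul_nonneg (by positivity) (wt_nonneg _)
  by_cases hp : p.length = s
  swap
  · apply hempty
    intro ω _ h2
    apply h2
    rintro ⟨h, -⟩
    exact hp h
  rcases hft : ftop p with _ | a
  · apply hempty
    intro ω _ h2
    apply h2
    rintro ⟨h, b, hb, -⟩
    simp only at hb
    rw [hft] at hb
    exact absurd hb (by simp)
  -- the zero condition
  have hzero : ∀ ω : OmNE n k n1 d0 s, (p, v) ∉ NegE ω → Fol ω.2.1 p ∧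
      (ω.1 (a, v)).val = (ω.2.2 ⟨p, hp⟩).val := by
    intro ω h
    by_contra hcon
    apply h
    rintro ⟨h', b, hb, hF, he⟩
    simp only at hb hF he
    rw [hft] at hb
    obtain rfl := Option.some.inj hb
    exact hcon ⟨hF, he⟩
  set p' : NodeEQ n s := ⟨p, hp⟩ with hp'
  by_cases hL : ∃ d, ((a, v), d) ∈ L
  · obtain ⟨d, hd⟩ := hL
    by_cases hP : ∃ i, (p', i) ∈ P
    · obtain ⟨i, hi⟩ := hP
      apply hempty
      intro ω h1 h2
      obtain ⟨hF, he⟩ := hzero ω h2
      have e1 := h1.1 _ hd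
      have e2 := (h1.2 _ hi).1
      simp only at e1 e2
      rw [e1, e2] at he
      exact hx (mem_Z (j, L, P) p' a v i d hft hi hd he)
    · push Not at hP
      by_cases hdk' : d.val < k
      · refine ⟨{(j + 1, L, insert (p', ⟨d.val, hdk'⟩) P)}, ?_, ?_, ?_⟩
        · intro τ hτ
          rw [Finset.mem_singleton] at hτ
          subst hτ
          refine ⟨⟨?_, ?_⟩, rfl⟩
          · have := hσ.1
            simp only at this ⊢
            omega
          · have := hσ.2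
            refine (Finset.card_insert_le _ _).trans ?_
            simp only at this ⊢
            omega
        · intro ω h1 h2
          obtain ⟨hF, he⟩ := hzero ω h2
          refine ⟨_, Finset.mem_singleton_self _, h1.1, ?_⟩
          intro z hz
          rcases Finset.mem_insert.mp hz with h | h
          · subst h
            refine ⟨?_, hF⟩
            apply Fin.ext
            have e1 := h1.1 _ hd
            simp only at e1
            rw [e1] at he
            exact he.symm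
          · exact h1.2 z h
        · rw [Finset.sum_singleton]
          unfold wt
          rw [Finset.card_insert_of_notMem (hP _), pow_succ]
          apply le_of_eq
          ring
      · apply hempty
        intro ω h1 h2
        obtain ⟨hF, he⟩ := hzero ω h2
        have e1 := h1.1 _ hd
        simp only at e1
        rw [e1] at he
        exact hdk' (he ▸ (ω.2.2 p').2)
  · push Not at hL
    by_cases hP : ∃ i, (p', i) ∈ P
    · obtain ⟨i, hi⟩ := hP
      refine ⟨{(j + 1, insert ((a, v), ⟨i.val, lt_of_lt_of_le i.2 hkd⟩) L, P)}, ?_, ?_, ?_⟩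
      · intro τ hτ
        rw [Finset.mem_singleton] at hτ
        subst hτ
        refine ⟨⟨?_, ?_⟩, rfl⟩
        · have := hσ.1
          refine (Finset.card_insert_le _ _).trans ?_
          simp only at this ⊢
          omega
        · have := hσ.2
          simp only at this ⊢
          omega
      · intro ω h1 h2
        obtain ⟨hF, he⟩ := hzero ω h2
        refine ⟨_, Finset.mem_singleton_self _, ?_, h1.2⟩
        intro z hz
        rcases Finset.mem_insert.mp hz with h | h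
        · subst h
          apply Fin.ext
          have e2 := (h1.2 _ hi).1
          simp only at e2
          rw [e2] at he
          exact he
        · exact h1.1 z h
      · rw [Finset.sum_singleton]
        unfold wt
        rw [Finset.card_insert_of_notMem (hL _), pow_succ]
        calc (1 / (d0 : ℝ)) ^ L.card * (1 / d0) * (1 / (k : ℝ)) ^ P.card
            ≤ (1 / (d0 : ℝ)) ^ L.card * (1 / k) * (1 / (k : ℝ)) ^ P.card := by gcongr
          _ = _ := by ring
    · push Not at hP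
      let g : Fin k → St n k n1 d0 s := fun i =>
        (j + 1, insert ((a, v), ⟨i.val, lt_of_lt_of_le i.2 hkd⟩) L, insert (p', i) P)
      refine ⟨Finset.univ.image g, ?_, ?_, ?_⟩
      · intro τ hτ
        obtain ⟨i, -, rfl⟩ := Finset.mem_image.mp hτ
        refine ⟨⟨?_, ?_⟩, rfl⟩
        · have := hσ.1
          refine (Finset.card_insert_le _ _).trans ?_
          simp only [g] at this ⊢
          omega
        · have := hσ.2
          refine (Finset.card_insert_le _ _).trans ?_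
          simp only [g] at this ⊢
          omega
      · intro ω h1 h2
        obtain ⟨hF, he⟩ := hzero ω h2
        refine ⟨g (ω.2.2 p'), Finset.mem_image_of_mem _ (Finset.mem_univ _), ?_, ?_⟩
        · intro z hz
          rcases Finset.mem_insert.mp hz with h | h
          · subst h
            exact Fin.ext he
          · exact h1.1 z h
        · intro z hz
          rcases Finset.mem_insert.mp hz with h | h
          · subst h
            exact ⟨rfl, hF⟩
          · exact h1.2 z h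
      · calc ∑ τ ∈ Finset.univ.image g, wt τ ≤ ∑ i : Fin k, wt (g i) :=
              sum_image_le _ g wt wt_nonneg
          _ = ∑ _i : Fin k, (1 / (d0 : ℝ)) ^ L.card * (1 / d0) *
                ((1 / (k : ℝ)) ^ P.card * (1 / k)) := by
              refine Finset.sum_congr rfl fun i _ => ?_
              show (1 / (d0 : ℝ)) ^ (insert _ L).card * (1 / (k : ℝ)) ^ (insert _ P).card = _
              rw [Finset.card_insert_of_notMem (hL _), Finset.card_insert_of_notMem (hP _),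
                pow_succ, pow_succ]
          _ = (k : ℝ) * ((1 / (d0 : ℝ)) ^ L.card * (1 / d0) *
                ((1 / (k : ℝ)) ^ P.card * (1 / k))) := by
              rw [Finset.sum_const, Finset.card_univ, Fintype.card_fin, nsmul_eq_mul]
          _ = 1 / (d0 : ℝ) * wt ((j, L, P) : St n k n1 d0 s) := by
              unfold wt
              field_simp
          _ ≤ 1 / (k : ℝ) * wt ((j, L, P) : St n k n1 d0 s) :=
              mul_le_mul_of_nonneg_right hdk (wt_nonneg _)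

end D1

theorem switchN_E {n k n1 d0 s W K r : ℕ} (hk : 0 < k) (hkd : k ≤ d0) (hn : 0 < n)
    (hr : r * r ≤ K) :
    SwitchN (NegE : OmNE n k n1 d0 s → Set (Node n × Row k n1)) W K (((W : ℝ) / k) ^ r) := by
  classical
  intro D hD
  have hkr : (0 : ℝ) < k := by exact_mod_cast hk
  set B : Set (OmNE n k n1 d0 s) := {ω | (∀ T ∈ D, ¬ ((T : Set (Node n × Row k n1)) ⊆ NegE ω)) ∧
      ∀ R : Finset (Node n × Row k n1), R.card ≤ K → (∀ T ∈ D, ∃ v ∈ R, v ∈ T) →
        ∃ v ∈ R, v ∈ NegE ω} with hB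
  have key := branch (m := (pr : Set (OmNE n k n1 d0 s) → ℝ)) msr_pr B D1.Ev D1.wt
    (fun σ => σ.1) D1.Inv r ((W : ℝ) / k) (by positivity) D1.wt_nonneg
    (fun σ _ _ => D1.pr_Ev hk hkd σ) ?_ (0, ∅, ∅) ⟨by simp, by simp⟩ (Nat.zero_le _)
  · have h1 : D1.Ev ((0, ∅, ∅) : D1.St n k n1 d0 s) = Set.univ := by
      ext ω
      simp [D1.Ev]
    have h2 : D1.wt ((0, ∅, ∅) : D1.St n k n1 d0 s) = 1 := by
      simp [D1.wt]
    rw [h1, h2, Set.inter_univ, mul_one, Nat.sub_zero] at key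
    exact key
  · intro σ hσ hj
    by_cases hT : ∀ T ∈ D, ∃ v ∈ D1.Z σ, v ∈ T
    · left
      rw [Set.eq_empty_iff_forall_notMem]
      rintro ω ⟨hω, hE⟩
      obtain ⟨v, hv, hv'⟩ := hω.2 (D1.Z σ) ((D1.Z_card σ).trans
        ((Nat.mul_le_mul (hσ.2.trans hj.le) (hσ.1.trans hj.le)).trans hr)) hT
      exact D1.Z_zero σ ω hE v hv hv'
    · right
      push Not at hT
      obtain ⟨T, hT, hTZ⟩ := hT
      have hx : ∀ x ∈ T, x ∉ D1.Z σ := fun x hx hz => hTZ x hz hx
      choose! F hF1 hF2 hF3 using fun x (hxT : x ∈ T) => D1.step_x hk hkd σ hσ x (hx x hxT)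
      refine ⟨T.biUnion F, ?_, ?_, ?_⟩
      · intro τ hτ
        obtain ⟨x, hxT, hxτ⟩ := Finset.mem_biUnion.mp hτ
        exact hF1 x hxT τ hxτ
      · rintro ω ⟨hω, hE⟩
        have h1 := hω.1 T hT
        rw [Set.not_subset] at h1
        obtain ⟨x, hxT, hxN⟩ := h1
        obtain ⟨τ, hτ, hωτ⟩ := hF2 x hxT ω hE hxN
        exact Set.mem_iUnion₂.mpr ⟨τ, Finset.mem_biUnion.mpr ⟨x, hxT, hτ⟩, hωτ⟩
      · calc ∑ τ ∈ T.biUnion F, D1.wt τ ≤ ∑ x ∈ T, ∑ τ ∈ F x, D1.wt τ :=
              D1.sum_biUnion_le T F D1.wt D1.wt_nonneg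
          _ ≤ ∑ x ∈ T, 1 / (k : ℝ) * D1.wt σ := Finset.sum_le_sum fun x hx => hF3 x hx
          _ = (T.card : ℝ) * (1 / (k : ℝ) * D1.wt σ) := by
              rw [Finset.sum_const, nsmul_eq_mul]
          _ ≤ (W : ℝ) * (1 / (k : ℝ) * D1.wt σ) := by
              have : (T.card : ℝ) ≤ W := by exact_mod_cast hD T hT
              exact mul_le_mul_of_nonneg_right this
                (mul_nonneg (by positivity) (D1.wt_nonneg _))
          _ = (W : ℝ) / k * D1.wt σ := by ring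

end Pool.Agent.H679R2.WH
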