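import Pool.Agent.H679R2.WH.Defs
import Pool.Agent.H679R2.WH.Branch
import Pool.Agent.H679R2.WH.Nodes

/-! Task D2 (helper92): switching lemma, positive tests, odd case. -/

set_option autoImplicit false

namespace Pool.Agent.H679R2.WH

open Pool.Agent.H520R2

namespace D2

theorem sum_image_le {α β : Type} [DecidableEq β] (R : Finset α) (g : α → β) (f : β → ℝ) (hf : ∀ b, 0 ≤ f b) :
    ∑ b ∈ R.image g, f b ≤ ∑ a ∈ R, f (g a) := by
  classical
  induction R using Finset.induction_on with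
  | empty => simp
  | insert a R ha ih =>
    rw [Finset.image_insert, Finset.sum_insert ha]
    by_cases h : g a ∈ R.image g
    · rw [Finset.insert_eq_of_mem h]
      linarith [hf (g a)]
    · rw [Finset.sum_insert h]
      linarith

/-- a state: counter, rows, nodes -/
abbrev St (n k n1 : ℕ) := ℕ × Finset (Fin k × Fin n1) × Finset (Node n)

def Ev {n k n1 s : ℕ} (σ : St n k n1) : Set (OmPE n k n1 s) :=
  {ω | ω.1 ∈ {y : Fin k → Fin n1 | ∀ x ∈ σ.2.1, y x.1 = x.2} ∧
    ω.2 ∈ {β : NodeLT n s × Fin n → Fin n | ∀ p ∈ σ.2.2, InP β p}}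

noncomputable def wt {n k n1 : ℕ} (σ : St n k n1) : ℝ :=
  (1 / (n1 : ℝ)) ^ σ.2.1.card * (1 / (n : ℝ)) ^ σ.2.2.card

theorem pow_card_insert {α : Type} [DecidableEq α] (c : ℝ) (h0 : 0 ≤ c) (h1 : c ≤ 1) (x : α)
    (J : Finset α) : c ^ (insert x J).card ≤ c ^ J.card :=
  pow_le_pow_of_le_one h0 h1 (Finset.card_le_card (Finset.subset_insert x J))

end D2

open D2 in
open Classical in
theorem switchP_E {n k n1 s W K w : ℕ} (hs : 1 ≤ s) (hn1 : 0 < n1) (hn : n1 ≤ n)
    (hw : w * w ≤ W) :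
    SwitchP (PosE : OmPE n k n1 s → Set (Node n × Row k n1)) W K (((K : ℝ) / n1) ^ w) := by
  intro C hC
  have hn0 : 0 < n := by omega
  have hn1r : (0 : ℝ) < n1 := by exact_mod_cast hn1
  have hnr : (0 : ℝ) < n := by exact_mod_cast hn0
  have hn1' : (1 : ℝ) ≤ n1 := by exact_mod_cast hn1
  have hn' : (1 : ℝ) ≤ n := by exact_mod_cast hn0
  have hc1 : (0 : ℝ) ≤ 1 / n1 := by positivity
  have hc1' : (1 : ℝ) / n1 ≤ 1 := by rw [div_le_one hn1r]; exact hn1'
  have hc : (0 : ℝ) ≤ 1 / n := by positivity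
  have hc' : (1 : ℝ) / n ≤ 1 := by rw [div_le_one hnr]; exact hn'
  have hcc : (1 : ℝ) / n ≤ 1 / n1 := by
    apply one_div_le_one_div_of_le hn1r
    exact_mod_cast hn
  have : Nonempty (Fin n1) := ⟨⟨0, hn1⟩⟩
  set B : Set (OmPE n k n1 s) := {ω | (∀ R ∈ C, ∃ v ∈ R, v ∈ PosE ω) ∧
      ¬ ∃ T : Finset (Node n × Row k n1), T.card ≤ W ∧ (T : Set (Node n × Row k n1)) ⊆ PosE ω ∧
        ∀ R ∈ C, ∃ v ∈ R, v ∈ T} with hB
  let Inv : St n k n1 → Prop := fun σ =>
    σ.2.1.card ≤ σ.1 ∧ σ.2.2.card ≤ σ.1 ∧ ∀ p ∈ σ.2.2, p.length = s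
  have key := branch (m := (pr : Set (OmPE n k n1 s) → ℝ)) msr_pr B (D2.Ev (s := s)) D2.wt
    (fun σ => σ.1) Inv w ((K : ℝ) / n1) (by positivity) (fun σ => by unfold D2.wt; positivity)
    ?_ ?_ (0, ∅, ∅) ⟨by simp, by simp, by simp⟩ (Nat.zero_le _)
  · have h1 : D2.Ev (s := s) ((0, ∅, ∅) : St n k n1) = Set.univ := by
      ext ω
      simp [D2.Ev]
    have h2 : D2.wt ((0, ∅, ∅) : St n k n1) = 1 := by
      simp [D2.wt]
    rw [h1, h2, Set.inter_univ, mul_one, Nat.sub_zero] at key
    exact key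
  · -- weights
    rintro ⟨j, J, τ⟩ ⟨-, -, h3⟩ -
    unfold D2.Ev D2.wt
    rw [pr_prod]
    have e1 : pr {y : Fin k → Fin n1 | ∀ x ∈ J, y x.1 = x.2} ≤ (1 / (n1 : ℝ)) ^ J.card := by
      have := cyl (ι := Fin k) (κ := Fin n1) J
      rwa [Fintype.card_fin] at this
    have e2 : pr {β : NodeLT n s × Fin n → Fin n | ∀ p ∈ τ, InP β p} ≤ (1 / (n : ℝ)) ^ τ.card := by
      refine pr_inP hn0 τ (fun p hp => ?_)
      intro h0
      have := h3 p hp
      rw [h0] at this
      simp at this
      omega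
    exact mul_le_mul e1 e2 (msr_pr.nonneg _) (by positivity)
  · -- step
    rintro ⟨j, J, τ⟩ ⟨h1, h2, h3⟩ hj
    simp only at h1 h2 h3 hj
    by_cases hT : ∀ R ∈ C, ∃ v ∈ R, v ∈ τ ×ˢ J
    · left
      rw [Set.eq_empty_iff_forall_notMem]
      rintro ω ⟨hω, hE1, hE2⟩
      apply hω.2
      refine ⟨τ ×ˢ J, ?_, ?_, hT⟩
      · rw [Finset.card_product]
        calc τ.card * J.card ≤ w * w := Nat.mul_le_mul (by omega) (by omega)
          _ ≤ W := hw
      · rintro ⟨p, x⟩ hx
        rw [Finset.mem_coe, Finset.mem_product] at hx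
        exact ⟨h3 p hx.1, hE2 p hx.1, hE1 x hx.2⟩
    · right
      push Not at hT
      obtain ⟨R, hR, hRT⟩ := hT
      let g : Node n × Row k n1 → St n k n1 := fun v => (j + 1, insert v.2 J, insert v.1 τ)
      refine ⟨(R.filter fun v => v.1.length = s).image g, ?_, ?_, ?_⟩
      · intro σ' hσ'
        obtain ⟨v, hv, rfl⟩ := Finset.mem_image.mp hσ'
        rw [Finset.mem_filter] at hv
        refine ⟨⟨?_, ?_, ?_⟩, rfl⟩
        · exact (Finset.card_insert_le _ _).trans (by simp only [g]; omega)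
        · exact (Finset.card_insert_le _ _).trans (by simp only [g]; omega)
        · intro p hp
          rcases Finset.mem_insert.mp hp with h | h
          · rw [h]; exact hv.2
          · exact h3 p h
      · rintro ω ⟨hω, hE1, hE2⟩
        obtain ⟨v, hv, hv1, hv2, hv3⟩ := hω.1 R hR
        refine Set.mem_iUnion₂.mpr ⟨g v, Finset.mem_image.mpr ⟨v, Finset.mem_filter.mpr
          ⟨hv, hv1⟩, rfl⟩, ?_, ?_⟩
        · intro x hx
          rcases Finset.mem_insert.mp hx with h | h
          · rw [h]; exact hv3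
          · exact hE1 x h
        · intro p hp
          rcases Finset.mem_insert.mp hp with h | h
          · rw [h]; exact hv2
          · exact hE2 p h
      · have hw0 : 0 ≤ D2.wt ((j, J, τ) : St n k n1) := by unfold D2.wt; positivity
        calc ∑ σ' ∈ (R.filter fun v => v.1.length = s).image g, D2.wt σ'
            ≤ ∑ v ∈ R.filter (fun v => v.1.length = s), D2.wt (g v) :=
              D2.sum_image_le _ g D2.wt (fun σ => by unfold D2.wt; positivity)
          _ ≤ ∑ v ∈ R.filter (fun v => v.1.length = s), 1 / (n1 : ℝ) * D2.wt ((j, J, τ) : St n k n1) := by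
              refine Finset.sum_le_sum fun v hv => ?_
              have hv' := hRT v (Finset.mem_filter.mp hv).1
              rw [Finset.mem_product, not_and_or] at hv'
              show (1 / (n1 : ℝ)) ^ (insert v.2 J).card * (1 / (n : ℝ)) ^ (insert v.1 τ).card ≤
                1 / (n1 : ℝ) * ((1 / (n1 : ℝ)) ^ J.card * (1 / (n : ℝ)) ^ τ.card)
              rcases hv' with h | h
              · have e1 : (1 / (n1 : ℝ)) ^ (insert v.2 J).card ≤ (1 / (n1 : ℝ)) ^ J.card :=
                  D2.pow_card_insert _ hc1 hc1' _ _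
                rw [Finset.card_insert_of_notMem h, pow_succ]
                calc (1 / (n1 : ℝ)) ^ (insert v.2 J).card * ((1 / (n : ℝ)) ^ τ.card * (1 / n))
                    ≤ (1 / (n1 : ℝ)) ^ J.card * ((1 / (n : ℝ)) ^ τ.card * (1 / n1)) := by gcongr
                  _ = _ := by ring
              · have e1 : (1 / (n : ℝ)) ^ (insert v.1 τ).card ≤ (1 / (n : ℝ)) ^ τ.card :=
                  D2.pow_card_insert _ hc hc' _ _
                rw [Finset.card_insert_of_notMem h, pow_succ]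
                calc (1 / (n1 : ℝ)) ^ J.card * (1 / n1) * (1 / (n : ℝ)) ^ (insert v.1 τ).card
                    ≤ (1 / (n1 : ℝ)) ^ J.card * (1 / n1) * (1 / (n : ℝ)) ^ τ.card := by gcongr
                  _ = _ := by ring
          _ = ((R.filter (fun v => v.1.length = s)).card : ℝ) *
                (1 / (n1 : ℝ) * D2.wt ((j, J, τ) : St n k n1)) := by
              rw [Finset.sum_const, nsmul_eq_mul]
          _ ≤ (K : ℝ) * (1 / (n1 : ℝ) * D2.wt ((j, J, τ) : St n k n1)) := by
              have : ((R.filter (fun v => v.1.length = s)).card : ℝ) ≤ K := by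
                exact_mod_cast (Finset.card_filter_le _ _).trans (hC R hR)
              gcongr
          _ = (K : ℝ) / n1 * D2.wt ((j, J, τ) : St n k n1) := by ring

end Pool.Agent.H679R2.WH
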