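import Pool.Agent.H679R2.WH.Nums
import Pool.Agent.H679R2.WH.Leaf
import Pool.Agent.H679R2.WH.Val
import Pool.Agent.H679R2.WH.BTE
import Pool.Agent.H679R2.WH.SwitchNE
import Pool.Agent.H679R2.WH.SwitchPE

/-! # Targets with an odd number of source levels -/

set_option autoImplicit false

namespace Pool.Agent.H679R2.WH

open Pool.Agent.H520R2 Pool.Agent.H520R2.NM

theorem tgtE_card (N g : ℕ) :
    (Fintype.card {S : Finset (Fin N) // S.card = g} : ℝ) ≤ (N : ℝ) ^ g := by
  have h : Fintype.card {S : Finset (Fin N) // S.card = g} = N.choose g := by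
    rw [Fintype.card_finset_len, Fintype.card_fin]
  rw [h]
  exact_mod_cast Nat.choose_le_pow N g

theorem tgt_E {n k n1 d0 r A N g S0 : ℕ} (hnum : NumE n k n1 d0 (r + 1) A N g S0)
    (L : List (Set (Node n × Row k n1) → Bool))
    (f : CIdx A N (2 * r + 1) → Set (Node n × Row k n1) → Bool) (hL : MProg (B0 _) L)
    (hlen : L.length ≤ S0) (hf : ∀ o, Av (B0 _) L (f o))
    (hpos : ∀ ω : OmPE n k n1 (r + 1), WSat (2 * r + 1) g (fun o => f o (PosE ω))) :
    pr {ω : OmNE n k n1 d0 (r + 1) | ¬ WSat (2 * r + 1) g (fun o => f o (NegE ω))} ≤ 1 / 4 := by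
  obtain ⟨hn, hs, hn1, hn1n, hk, hkd, hA, S, W, K, r', w, κ, w', c0, hS, hW, hK, hrK, hwW,
    hεP2, hκ, hc0, hcw, hsmall, hκn, hfin⟩ := hnum
  obtain ⟨L', hL', hL'len, leaf', hleaf', hiff⟩ := leaf_or hL g f hf
  have hkey : ∀ X : Set (Node n × Row k n1), WSat (2 * r + 1) g (fun o => f o X) ↔
      ∃ z : {S : Finset (Fin N) // S.card = g}, AE A (r + 1 - 1) (fun l => ∀ a, ∃ j,
        leaf' z (pth hA (2 * r + 1) (flat l ++ [a])) j X = true) := by
    intro X
    have hone : ∀ z : {S : Finset (Fin N) // S.card = g},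
        (Val z.1 (2 * r + 1) true (fun o => f o X) ↔ AE A (r + 1 - 1) (fun l => ∀ a, ∃ j,
          leaf' z (pth hA (2 * r + 1) (flat l ++ [a])) j X = true)) := by
      intro z
      rw [Val_odd hA z.1 r (fun o => f o X)]
      have he : (fun l : List (Fin A × Fin A) => ∀ a : Fin A, ∃ l' : Fin N × Bool,
          f (pth hA (2 * r + 1) (flat l ++ [a]), l') X = true ∧ lit z.1 l') =
          (fun l => ∀ a, ∃ j, leaf' z (pth hA (2 * r + 1) (flat l ++ [a])) j X = true) := by
        funext l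
        exact propext (forall_congr' fun a => hiff z _ X)
      rw [he]
      exact Iff.rfl
    constructor
    · rintro ⟨S', hS', hV⟩
      exact ⟨⟨S', hS'⟩, (hone ⟨S', hS'⟩).1 hV⟩
    · rintro ⟨z, hz⟩
      exact ⟨z.1, z.2, (hone z).2 hz⟩
  have hlen' : (L' ++ L).length ≤ S := by
    rw [List.length_append]
    have : 2 * (r + 1) - 1 = 2 * r + 1 := by omega
    rw [this] at hS
    omega
  have hBT := BT_E (n := n) (k := k) (n1 := n1) (d0 := d0) (s := r + 1) hn hs hn1 hk hkd
    (W := W) (K := K) (S := S) (εN := ((W : ℝ) / k) ^ r') (εP := ((K : ℝ) / n1) ^ w) hW hK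
    (switchN_E hk hkd hn hrK) (switchP_E hs hn1 hn1n hwW) (by positivity) (by positivity)
    hεP2 hL' hlen' (A := A) (G := 2 * g + 1) hA (Z := {S : Finset (Fin N) // S.card = g})
    (fun z l a j => leaf' z (pth hA (2 * r + 1) (flat l ++ [a])) j)
    (fun z l a j => hleaf' z _ j) (fun ω => (hkey _).1 (hpos ω)) κ w' c0 hκ
    (lt_of_le_of_lt (mul_le_mul_of_nonneg_left (tgtE_card N g) (by norm_num)) hc0) hcw
    hsmall hκn
  have hset : {ω : OmNE n k n1 d0 (r + 1) | ¬ WSat (2 * r + 1) g (fun o => f o (NegE ω))} =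
      {ω : OmNE n k n1 d0 (r + 1) | ¬ ∃ z : {S : Finset (Fin N) // S.card = g},
        AE A (r + 1 - 1) (fun l => ∀ a, ∃ j,
          leaf' z (pth hA (2 * r + 1) (flat l ++ [a])) j (NegE ω) = true)} := by
    ext ω
    exact not_congr (hkey (NegE ω))
  rw [hset]
  exact hBT.trans hfin

end Pool.Agent.H679R2.WH
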