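import Pool.Agent.H679R2.WH.Defs
import Pool.Agent.H679R2.WH.ProbA
import Pool.Agent.H679R2.WH.Branch

/-!
# Switching lemma, negative tests, even source levels
-/

set_option autoImplicit false

namespace Pool.Agent.H679R2.WH

open Pool.Agent.H520R2

/-- the probability of a set of zero entries -/
theorem E1_pr {n k n1 d0 s : ℕ} (hd : 0 < d0) (Z : Finset (Node n × Fin n × Row k n1))
    (hZ : ∀ x ∈ Z, x.1.length = s) :
    pr {ω : OmNO n k n1 d0 s | ∀ x ∈ Z, x ∉ NegO ω} ≤ (1 / (d0 : ℝ)) ^ Z.card := by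
  classical
  have : Nonempty (Fin d0) := ⟨⟨0, hd⟩⟩
  have hc : (0 : ℝ) ≤ (1 / (d0 : ℝ)) ^ Z.card := by positivity
  refine pr_fubini _ _ hc fun M => ?_
  refine pr_fubini _ _ hc fun as => ?_
  set Z' : Finset ((NodeEQ n s × Fin n × Row k n1) × Fin d0) :=
    Z.attach.image (fun x => ((⟨x.1.1, hZ x.1 x.2⟩, x.1.2), ⟨0, hd⟩)) with hZ'
  have hcard : Z'.card = Z.card := by
    rw [hZ', Finset.card_image_of_injective, Finset.card_attach]
    rintro ⟨x, hx⟩ ⟨y, hy⟩ h
    have h1 := congrArg (fun t : (NodeEQ n s × Fin n × Row k n1) × Fin d0 =>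
      (Subtype.val t.1.1 : Node n)) h
    have h2 := congrArg (fun t : (NodeEQ n s × Fin n × Row k n1) × Fin d0 => t.1.2) h
    exact Subtype.ext (Prod.ext h1 h2)
  have h1 := cyl Z'
  rw [hcard, Fintype.card_fin] at h1
  refine le_trans (msr_pr.mono _ _ ?_) h1
  intro u hu z hz
  rw [hZ', Finset.mem_image] at hz
  obtain ⟨⟨x, hx⟩, _, rfl⟩ := hz
  have h2 := hu x hx
  simp only [NegO, Set.mem_ofPred_eq, not_not] at h2
  obtain ⟨_, _, _, h3⟩ := h2
  exact Fin.ext h3

theorem switchN_O {n k n1 d0 s W K : ℕ} (hd : 0 < d0) (hn : 0 < n) :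
    SwitchN (NegO : OmNO n k n1 d0 s → Set (Node n × Fin n × Row k n1)) W K
      (((W : ℝ) / d0) ^ (K + 1)) := by
  classical
  intro D hD
  set B : Set (OmNO n k n1 d0 s) := {ω | (∀ T ∈ D, ¬ ((T : Set _) ⊆ NegO ω)) ∧
      ∀ R : Finset (Node n × Fin n × Row k n1), R.card ≤ K → (∀ T ∈ D, ∃ v ∈ R, v ∈ T) →
        ∃ v ∈ R, v ∈ NegO ω} with hB
  have hd' : (0 : ℝ) < d0 := by exact_mod_cast hd
  have key := branch (S := Finset (Node n × Fin n × Row k n1)) (msr_pr) B
    (fun Z => {ω : OmNO n k n1 d0 s | ∀ x ∈ Z, x ∉ NegO ω})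
    (fun Z => (1 / (d0 : ℝ)) ^ Z.card) (fun Z => Z.card) (fun Z => ∀ x ∈ Z, x.1.length = s)
    (K + 1) ((W : ℝ) / d0) (by positivity) (fun Z => by positivity)
    (fun Z hZ _ => E1_pr hd Z hZ) ?_ ∅ (by simp) (by simp)
  · simpa using key
  · intro Z hZ hlt
    by_cases hmeet : ∀ T ∈ D, ∃ v ∈ Z, v ∈ T
    · left
      rw [Set.eq_empty_iff_forall_notMem]
      rintro ω ⟨hω1, hω2⟩
      obtain ⟨v, hv, hv'⟩ := hω1.2 Z (Nat.lt_succ_iff.1 hlt) hmeet
      exact hω2 v hv hv'
    · right
      push Not at hmeet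
      obtain ⟨T, hT, hT'⟩ := hmeet
      have hnot : ∀ x ∈ T, x ∉ Z := fun x hx hxZ => hT' x hxZ hx
      refine ⟨(T.filter (fun x => x.1.length = s)).image (fun x => insert x Z), ?_, ?_, ?_⟩
      · intro τ hτ
        rw [Finset.mem_image] at hτ
        obtain ⟨x, hx, rfl⟩ := hτ
        rw [Finset.mem_filter] at hx
        refine ⟨?_, ?_⟩
        · intro y hy
          rw [Finset.mem_insert] at hy
          rcases hy with rfl | hy
          · exact hx.2
          · exact hZ y hy
        · rw [Finset.card_insert_of_notMem (hnot x hx.1)]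
      · rintro ω ⟨hω1, hω2⟩
        obtain ⟨x, hx, hx'⟩ := Set.not_subset.1 (hω1.1 T hT)
        have hlen : x.1.length = s := by
          have h2 := hx'
          simp only [NegO, Set.mem_ofPred_eq, not_not] at h2
          exact h2.1
        rw [Set.mem_iUnion₂]
        refine ⟨insert x Z, Finset.mem_image.2 ⟨x, Finset.mem_filter.2 ⟨hx, hlen⟩, rfl⟩, ?_⟩
        intro y hy
        rw [Finset.mem_insert] at hy
        rcases hy with rfl | hy
        · exact hx'
        · exact hω2 y hy
      · calc ∑ τ ∈ (T.filter (fun x => x.1.length = s)).image (fun x => insert x Z),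
              (1 / (d0 : ℝ)) ^ τ.card
            = ∑ τ ∈ (T.filter (fun x => x.1.length = s)).image (fun x => insert x Z),
              (1 / (d0 : ℝ)) ^ (Z.card + 1) := by
              refine Finset.sum_congr rfl fun τ hτ => ?_
              rw [Finset.mem_image] at hτ
              obtain ⟨x, hx, rfl⟩ := hτ
              rw [Finset.card_insert_of_notMem (hnot x (Finset.mem_filter.1 hx).1)]
          _ = (((T.filter (fun x => x.1.length = s)).image (fun x => insert x Z)).card : ℝ) *
              (1 / (d0 : ℝ)) ^ (Z.card + 1) := by rw [Finset.sum_const, nsmul_eq_mul]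
          _ ≤ W * (1 / (d0 : ℝ)) ^ (Z.card + 1) := by
              refine mul_le_mul_of_nonneg_right ?_ (by positivity)
              exact_mod_cast (Finset.card_image_le.trans (Finset.card_filter_le _ _)).trans
                (hD T hT)
          _ = (W : ℝ) / d0 * (1 / (d0 : ℝ)) ^ Z.card := by
              rw [pow_succ]
              ring

end Pool.Agent.H679R2.WH
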