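import Pool.Agent.H679R2.WH.Defs
import Pool.Agent.H679R2.WH.ProbA
import Pool.Agent.H679R2.WH.Branch
import Pool.Agent.H679R2.WH.Nodes

/-!
# Switching lemma, positive tests, even source levels
-/

set_option autoImplicit false

namespace Pool.Agent.H679R2.WH

open Pool.Agent.H520R2

/-- states of the branching process -/
structure E2St (n k n1 s : ℕ) where
  ja : ℕ
  jb : ℕ
  J : Finset (Fin k × Fin n1)
  tau : Finset (Node n)
  Rev : Finset ((NodeEQ n s × Fin n) × Fin k)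

section
variable {n k n1 s : ℕ}

/-- the event of a state -/
def E2Ev (σ : E2St n k n1 s) : Set (OmPO n k n1 s) :=
  {ω | (∀ z ∈ σ.J, ω.1 z.1 = z.2) ∧ (∀ p ∈ σ.tau, InP ω.2.1 p) ∧ ∀ z ∈ σ.Rev, ω.2.2 z.1 = z.2}

/-- the weight of a state -/
noncomputable def E2wt (σ : E2St n k n1 s) : ℝ :=
  (1 / (n1 : ℝ)) ^ σ.J.card * ((1 / (n : ℝ)) ^ σ.tau.card * (1 / (k : ℝ)) ^ σ.Rev.card)

/-- the invariant -/
def E2Inv (K : ℕ) (σ : E2St n k n1 s) : Prop :=
  σ.J.card ≤ σ.ja ∧ σ.Rev.card ≤ K * σ.jb ∧ (∀ p ∈ σ.tau, p ≠ []) ∧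
    ∀ z ∈ σ.Rev, (Subtype.val z.1.1 : Node n) ∈ σ.tau ∨ (Subtype.val z.1.1 : Node n) = []

theorem E2wt_nonneg (σ : E2St n k n1 s) : 0 ≤ E2wt σ := by
  unfold E2wt
  positivity

theorem E2pr (hn1 : 0 < n1) (hn : 0 < n) (hk : 0 < k) {K : ℕ} (σ : E2St n k n1 s)
    (hσ : E2Inv K σ) : pr (E2Ev σ) ≤ E2wt σ := by
  classical
  have : Nonempty (Fin n1) := ⟨⟨0, hn1⟩⟩
  have : Nonempty (Fin k) := ⟨⟨0, hk⟩⟩
  have h1 := cyl σ.J
  have h2 := pr_inP (s := s) hn σ.tau hσ.2.2.1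
  have h3 := cyl σ.Rev
  rw [Fintype.card_fin] at h1 h3
  have e1 := pr_prod {y : Fin k → Fin n1 | ∀ z ∈ σ.J, y z.1 = z.2}
    {w : (NodeLT n s × Fin n → Fin n) × (NodeEQ n s × Fin n → Fin k) |
      w.1 ∈ {β : NodeLT n s × Fin n → Fin n | ∀ p ∈ σ.tau, InP β p} ∧
      w.2 ∈ {l : NodeEQ n s × Fin n → Fin k | ∀ z ∈ σ.Rev, l z.1 = z.2}}
  have e2 := pr_prod {β : NodeLT n s × Fin n → Fin n | ∀ p ∈ σ.tau, InP β p}
    {l : NodeEQ n s × Fin n → Fin k | ∀ z ∈ σ.Rev, l z.1 = z.2}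
  have e3 : E2Ev σ = {ω : (Fin k → Fin n1) ×
      (NodeLT n s × Fin n → Fin n) × (NodeEQ n s × Fin n → Fin k) |
      ω.1 ∈ {y : Fin k → Fin n1 | ∀ z ∈ σ.J, y z.1 = z.2} ∧
      ω.2 ∈ {w : (NodeLT n s × Fin n → Fin n) × (NodeEQ n s × Fin n → Fin k) |
      w.1 ∈ {β : NodeLT n s × Fin n → Fin n | ∀ p ∈ σ.tau, InP β p} ∧
      w.2 ∈ {l : NodeEQ n s × Fin n → Fin k | ∀ z ∈ σ.Rev, l z.1 = z.2}}} := rfl
  rw [e3, e1, e2]
  unfold E2wt
  refine mul_le_mul h1 (mul_le_mul h2 h3 (msr_pr.nonneg _) (by positivity)) ?_ (by positivity)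
  exact mul_nonneg (msr_pr.nonneg _) (msr_pr.nonneg _)

open Classical in
/-- the successor states of type A -/
noncomputable def E2A (σ : E2St n k n1 s) (x : Node n × Fin n × Row k n1) : E2St n k n1 s where
  ja := σ.ja + 1
  jb := σ.jb
  J := insert x.2.2 σ.J
  tau := if x.1 = [] then σ.tau else insert x.1 σ.tau
  Rev := σ.Rev

theorem E2A_wt (hn1 : 0 < n1) (hn : n1 ≤ n) (σ : E2St n k n1 s) (x : Node n × Fin n × Row k n1)
    (hx : x.2.2 ∉ σ.J ∨ (x.1 ≠ [] ∧ x.1 ∉ σ.tau)) :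
    E2wt (E2A σ x) ≤ 1 / n1 * E2wt σ := by
  classical
  have hn1' : (1 : ℝ) ≤ n1 := by exact_mod_cast hn1
  have hn' : (n1 : ℝ) ≤ n := by exact_mod_cast hn
  have ha1 : (1 : ℝ) / n1 ≤ 1 := by
    rw [div_le_one (by linarith)]
    exact hn1'
  have ha2 : (1 : ℝ) / n ≤ 1 / n1 := one_div_le_one_div_of_le (by linarith) hn'
  have ha3 : (0 : ℝ) ≤ 1 / n := by positivity
  have ha4 : (0 : ℝ) ≤ 1 / n1 := by positivity
  have ht : σ.tau.card ≤ (E2A σ x).tau.card := by
    show _ ≤ (if x.1 = [] then σ.tau else insert x.1 σ.tau).card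
    split_ifs
    · exact le_rfl
    · exact Finset.card_le_card (Finset.subset_insert _ _)
  have hJ : σ.J.card ≤ (E2A σ x).J.card := Finset.card_le_card (Finset.subset_insert _ _)
  have hkey : (1 / (n1 : ℝ)) ^ (E2A σ x).J.card * (1 / (n : ℝ)) ^ (E2A σ x).tau.card ≤
      1 / n1 * ((1 / (n1 : ℝ)) ^ σ.J.card * (1 / (n : ℝ)) ^ σ.tau.card) := by
    rcases hx with hx | ⟨hx1, hx2⟩
    · have e : (E2A σ x).J.card = σ.J.card + 1 := Finset.card_insert_of_notMem hx
      rw [e, pow_succ]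
      have h1 : (1 / (n : ℝ)) ^ (E2A σ x).tau.card ≤ (1 / (n : ℝ)) ^ σ.tau.card :=
        pow_le_pow_of_le_one ha3 (ha2.trans ha1) ht
      have h2 : (0 : ℝ) ≤ (1 / (n1 : ℝ)) ^ σ.J.card * (1 / n1) := by positivity
      calc (1 / (n1 : ℝ)) ^ σ.J.card * (1 / n1) * (1 / (n : ℝ)) ^ (E2A σ x).tau.card
          ≤ (1 / (n1 : ℝ)) ^ σ.J.card * (1 / n1) * (1 / (n : ℝ)) ^ σ.tau.card :=
            mul_le_mul_of_nonneg_left h1 h2
        _ = _ := by ring
    · have e : (E2A σ x).tau.card = σ.tau.card + 1 := by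
        show (if x.1 = [] then σ.tau else insert x.1 σ.tau).card = _
        rw [if_neg hx1, Finset.card_insert_of_notMem hx2]
      rw [e, pow_succ]
      have h1 : (1 / (n1 : ℝ)) ^ (E2A σ x).J.card ≤ (1 / (n1 : ℝ)) ^ σ.J.card :=
        pow_le_pow_of_le_one ha4 ha1 hJ
      have h2 : (0 : ℝ) ≤ (1 / (n : ℝ)) ^ σ.tau.card := by positivity
      calc (1 / (n1 : ℝ)) ^ (E2A σ x).J.card * ((1 / (n : ℝ)) ^ σ.tau.card * (1 / n))
          ≤ (1 / (n1 : ℝ)) ^ σ.J.card * ((1 / (n : ℝ)) ^ σ.tau.card * (1 / n1)) :=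
            mul_le_mul h1 (mul_le_mul_of_nonneg_left ha2 h2) (by positivity) (by positivity)
        _ = _ := by ring
  have h3 : (0 : ℝ) ≤ (1 / (k : ℝ)) ^ σ.Rev.card := by positivity
  have h4 := mul_le_mul_of_nonneg_right hkey h3
  unfold E2wt
  have e5 : (E2A σ x).Rev = σ.Rev := rfl
  rw [e5]
  calc _ = (1 / (n1 : ℝ)) ^ (E2A σ x).J.card * (1 / (n : ℝ)) ^ (E2A σ x).tau.card *
        (1 / (k : ℝ)) ^ σ.Rev.card := by ring
    _ ≤ _ := h4
    _ = _ := by ring

open Classical in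
/-- the successor states of type B -/
noncomputable def E2B (σ : E2St n k n1 s) (Q : Finset (NodeEQ n s × Fin n)) (φ : Q → Fin k) :
    E2St n k n1 s where
  ja := σ.ja
  jb := σ.jb + 1
  J := σ.J
  tau := σ.tau
  Rev := σ.Rev ∪ Q.attach.image (fun c => (c.1, φ c))

theorem E2B_card (σ : E2St n k n1 s) (Q : Finset (NodeEQ n s × Fin n))
    (hQ : ∀ c ∈ Q, ∀ i, (c, i) ∉ σ.Rev) (φ : Q → Fin k) :
    (E2B σ Q φ).Rev.card = σ.Rev.card + Q.card := by
  classical
  show (σ.Rev ∪ Q.attach.image (fun c => (c.1, φ c))).card = _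
  rw [Finset.card_union_of_disjoint, Finset.card_image_of_injective, Finset.card_attach]
  · intro c c' h
    exact Subtype.ext (Prod.ext_iff.1 h).1
  · rw [Finset.disjoint_left]
    intro z hz hz'
    rw [Finset.mem_image] at hz'
    obtain ⟨c, _, rfl⟩ := hz'
    exact hQ c.1 c.2 _ hz

/-- number of colourings of `Q` using a colour of `J` -/
theorem E2_count {Q : Type} [Fintype Q] [DecidableEq Q] (hk : 0 < k) (A : Finset (Fin k))
    (hA : 2 * A.card ≤ k) {K : ℕ} (hQ : Fintype.card Q ≤ K) :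
    (((Finset.univ.filter (fun φ : Q → Fin k => ∃ c, φ c ∈ A)).card : ℕ) : ℝ) *
      (1 / (k : ℝ)) ^ Fintype.card Q ≤ 1 - (1 / 2) ^ K := by
  classical
  have h1 : Finset.univ.filter (fun φ : Q → Fin k => ¬ ∃ c, φ c ∈ A) =
      Fintype.piFinset (fun _ : Q => Finset.univ \ A) := by
    ext φ
    simp [Fintype.mem_piFinset]
  have h2 := Finset.card_filter_add_card_filter_not (s := (Finset.univ : Finset (Q → Fin k)))
    (fun φ : Q → Fin k => ∃ c, φ c ∈ A)
  rw [h1, Fintype.card_piFinset, Finset.prod_const, Finset.card_univ, Finset.card_univ,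
    Finset.card_sdiff_of_subset (Finset.subset_univ A), Finset.card_univ, Fintype.card_fin,
    Fintype.card_fun, Fintype.card_fin] at h2
  have hk' : (0 : ℝ) < k := by exact_mod_cast hk
  have h3 : (((Finset.univ.filter (fun φ : Q → Fin k => ∃ c, φ c ∈ A)).card : ℕ) : ℝ) =
      (k : ℝ) ^ Fintype.card Q - ((k - A.card : ℕ) : ℝ) ^ Fintype.card Q := by
    have := congrArg (fun t : ℕ => (t : ℝ)) h2
    push_cast at this
    linarith
  rw [h3, sub_mul, ← mul_pow, ← mul_pow, mul_one_div, div_self hk'.ne', one_pow]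
  have h4 : (1 / 2 : ℝ) ≤ ((k - A.card : ℕ) : ℝ) * (1 / k) := by
    have h5 : (k : ℝ) ≤ 2 * ((k - A.card : ℕ) : ℝ) := by
      have : k ≤ 2 * (k - A.card) := by omega
      exact_mod_cast this
    rw [mul_one_div, div_le_div_iff₀ (by norm_num) hk']
    linarith
  have h6 : (1 / 2 : ℝ) ^ K ≤ (((k - A.card : ℕ) : ℝ) * (1 / k)) ^ Fintype.card Q :=
    (pow_le_pow_of_le_one (by norm_num) (by norm_num) hQ).trans
      (pow_le_pow_left₀ (by norm_num) h4 _)
  linarith

end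

theorem switchP_O {n k n1 s W K w1 w2 : ℕ} (hn1 : 0 < n1) (hn : n1 ≤ n) (hk : 0 < k)
    (hW : K * w2 ≤ W) (hw1 : 2 * w1 ≤ k) (hK : 1 ≤ K)
    (hsmall : (K : ℝ) / n1 ≤ (1 / 2) ^ (K + 1)) :
    SwitchP (PosO : OmPO n k n1 s → Set (Node n × Fin n × Row k n1)) W K
      ((2 ^ K * K / n1) ^ w1 + (1 - (1 / 2) ^ (K + 1)) ^ w2) := by
  classical
  intro C hC
  set B : Set (OmPO n k n1 s) := {ω | (∀ R ∈ C, ∃ v ∈ R, v ∈ PosO ω) ∧
      ¬ ∃ T : Finset (Node n × Fin n × Row k n1), T.card ≤ W ∧ (T : Set _) ⊆ PosO ω ∧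
        ∀ R ∈ C, ∃ v ∈ R, v ∈ T} with hB
  have hn1' : (0 : ℝ) < n1 := by exact_mod_cast hn1
  have hK' : (1 : ℝ) ≤ K := by exact_mod_cast hK
  have hhalf : (1 / 2 : ℝ) ^ (K + 1) = (1 / 2) ^ K / 2 := by
    rw [pow_succ]
    ring
  have hhalf0 : (0 : ℝ) < (1 / 2) ^ K := by positivity
  have hhalf1 : (1 / 2 : ℝ) ^ K ≤ 1 := pow_le_one₀ (by norm_num) (by norm_num)
  have h2K : (2 : ℝ) ^ K * (1 / 2) ^ K = 1 := by
    rw [← mul_pow]
    norm_num
  have key := branch2 (S := E2St n k n1 s) (msr_pr) B E2Ev E2wt (fun σ => σ.ja)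
    (fun σ => σ.jb) (E2Inv K) w1 w2 ((K : ℝ) / n1) (1 - (1 / 2) ^ K) (2 ^ K * K / n1)
    (1 - (1 / 2) ^ (K + 1)) (by positivity) (by linarith) (by positivity)
    (by rw [hhalf]; linarith) ?_ ?_ E2wt_nonneg
    (fun σ hσ => E2pr hn1 (hn1.trans_le hn) hk σ hσ) ?_
    ⟨0, 0, ∅, ∅, ∅⟩ ⟨by simp, by simp, by simp, by simp⟩ (Nat.zero_le _) (Nat.zero_le _)
  · have e1 : E2Ev (⟨0, 0, ∅, ∅, ∅⟩ : E2St n k n1 s) = Set.univ := by
      ext ω
      simp [E2Ev]
    have e2 : E2wt (⟨0, 0, ∅, ∅, ∅⟩ : E2St n k n1 s) = 1 := by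
      simp [E2wt]
    rw [e1, e2, Set.inter_univ, mul_one] at key
    simpa using key
  · have e : (2 : ℝ) ^ K * K / n1 * (1 / 2) ^ K = K / n1 := by
      calc (2 : ℝ) ^ K * K / n1 * (1 / 2) ^ K = (2 : ℝ) ^ K * (1 / 2) ^ K * (K / n1) := by ring
        _ = _ := by rw [h2K, one_mul]
    have : (K : ℝ) / n1 + (1 - (1 / 2) ^ K) * (2 ^ K * K / n1) =
        2 ^ K * K / n1 + (K / n1 - (2 : ℝ) ^ K * K / n1 * (1 / 2) ^ K) := by ring
    rw [this, e, sub_self, add_zero]
  · have h1 : (K : ℝ) / n1 * (1 - (1 / 2) ^ (K + 1)) ≤ K / n1 := by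
      apply mul_le_of_le_one_right (by positivity)
      have : (0 : ℝ) ≤ (1 / 2) ^ (K + 1) := by positivity
      linarith
    rw [hhalf] at h1 hsmall ⊢
    linarith
  · intro σ hσ hlta hltb
    by_cases hne : B ∩ E2Ev σ = ∅
    · exact Or.inl hne
    right
    obtain ⟨ω0, hω0B, hω0E⟩ := Set.nonempty_iff_ne_empty.2 hne
    obtain ⟨hI1, hI2, hI3, hI4⟩ := hσ
    -- the term of the state
    set T : Finset (Node n × Fin n × Row k n1) :=
      (σ.Rev.filter (fun z => (z.2, ω0.1 z.2) ∈ σ.J)).image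
        (fun z => ((Subtype.val z.1.1 : Node n), z.1.2, (z.2, ω0.1 z.2))) with hT
    have hTW : T.card ≤ W := by
      refine (Finset.card_image_le.trans (Finset.card_filter_le _ _)).trans (hI2.trans ?_)
      exact (Nat.mul_le_mul_left K hltb.le).trans hW
    have hTpos : (T : Set _) ⊆ PosO ω0 := by
      intro x hx
      rw [Finset.mem_coe, hT, Finset.mem_image] at hx
      obtain ⟨z, hz, rfl⟩ := hx
      rw [Finset.mem_filter] at hz
      have e1 := hω0E.2.2 z hz.1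
      refine ⟨z.1.1.2, ?_, ?_⟩
      · rcases hI4 z hz.1 with h | h
        · exact hω0E.2.1 _ h
        · show InP _ (Subtype.val z.1.1 : Node n)
          rw [h]
          trivial
      · show (z.2, ω0.1 z.2) = (ω0.2.2 (⟨(Subtype.val z.1.1 : Node n), _⟩, z.1.2),
          ω0.1 (ω0.2.2 (⟨(Subtype.val z.1.1 : Node n), _⟩, z.1.2)))
        have e2 : ω0.2.2 (⟨(Subtype.val z.1.1 : Node n), z.1.1.2⟩, z.1.2) = z.2 := e1
        rw [e2]
    obtain ⟨R, hR, hRT⟩ : ∃ R ∈ C, ∀ v ∈ R, v ∉ T := by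
      by_contra hcon
      push Not at hcon
      exact hω0B.2 ⟨T, hTW, hTpos, hcon⟩
    set Q : Finset (NodeEQ n s × Fin n) := Finset.univ.filter (fun c =>
      ((Subtype.val c.1 : Node n) ∈ σ.tau ∨ (Subtype.val c.1 : Node n) = []) ∧
      (∀ i, (c, i) ∉ σ.Rev) ∧ ∃ x ∈ R, x.1 = (Subtype.val c.1 : Node n) ∧ x.2.1 = c.2) with hQ
    have hQcard : Q.card ≤ K := by
      refine le_trans ?_ (hC R hR)
      have h1 : (Q.image (fun c => ((Subtype.val c.1 : Node n), c.2))).card = Q.card := by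
        apply Finset.card_image_of_injective
        intro c c' h
        obtain ⟨h2, h3⟩ := Prod.ext_iff.1 h
        exact Prod.ext (Subtype.ext h2) h3
      rw [← h1]
      refine le_trans (Finset.card_le_card ?_)
        (Finset.card_image_le (s := R) (f := fun x => (x.1, x.2.1)))
      intro y hy
      rw [Finset.mem_image] at hy
      obtain ⟨c, hc, rfl⟩ := hy
      rw [hQ, Finset.mem_filter] at hc
      obtain ⟨x, hx, h2, h3⟩ := hc.2.2.2
      exact Finset.mem_image.2 ⟨x, hx, Prod.ext h2 h3⟩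
    have hQtau : ∀ c ∈ Q, (Subtype.val c.1 : Node n) ∈ σ.tau ∨
        (Subtype.val c.1 : Node n) = [] := by
      intro c hc
      rw [hQ, Finset.mem_filter] at hc
      exact hc.2.1
    have hQrev : ∀ c ∈ Q, ∀ i, (c, i) ∉ σ.Rev := by
      intro c hc
      rw [hQ, Finset.mem_filter] at hc
      exact hc.2.2.1
    refine ⟨(R.filter (fun x => x.2.2 ∉ σ.J ∨ (x.1 ≠ [] ∧ x.1 ∉ σ.tau))).image (E2A σ),
      (Finset.univ.filter (fun φ : Q → Fin k => ∃ c, φ c ∈ σ.J.image Prod.fst)).image (E2B σ Q),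
      ?_, ?_, ?_, ?_, ?_⟩
    · intro τ hτ
      rw [Finset.mem_image] at hτ
      obtain ⟨x, hx, rfl⟩ := hτ
      refine ⟨⟨?_, hI2, ?_, ?_⟩, rfl, rfl⟩
      · exact (Finset.card_insert_le _ _).trans (Nat.add_le_add_right hI1 1)
      · intro p hp
        have hp' : p ∈ (if x.1 = [] then σ.tau else insert x.1 σ.tau) := hp
        split_ifs at hp' with h
        · exact hI3 p hp'
        · rw [Finset.mem_insert] at hp'
          rcases hp' with rfl | hp'
          · exact h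
          · exact hI3 p hp'
      · intro z hz
        rcases hI4 z hz with h | h
        · left
          show (Subtype.val z.1.1 : Node n) ∈ (if x.1 = [] then σ.tau else insert x.1 σ.tau)
          split_ifs
          · exact h
          · exact Finset.mem_insert_of_mem h
        · exact Or.inr h
    · intro τ hτ
      rw [Finset.mem_image] at hτ
      obtain ⟨φ, hφ, rfl⟩ := hτ
      refine ⟨⟨hI1, ?_, hI3, ?_⟩, rfl, rfl⟩
      · rw [E2B_card σ Q hQrev φ]
        show _ ≤ K * (σ.jb + 1)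
        rw [Nat.mul_succ]
        exact Nat.add_le_add hI2 hQcard
      · intro z hz
        have hz' : z ∈ σ.Rev ∪ Q.attach.image (fun c => (c.1, φ c)) := hz
        rw [Finset.mem_union, Finset.mem_image] at hz'
        rcases hz' with hz' | ⟨c, _, rfl⟩
        · exact hI4 z hz'
        · exact hQtau c.1 c.2
    · rintro ω ⟨hωB, hωE⟩
      obtain ⟨x, hx, hlen, hin, hval⟩ := hωB.1 R hR
      by_cases hA : x.2.2 ∉ σ.J ∨ (x.1 ≠ [] ∧ x.1 ∉ σ.tau)
      · left
        rw [Set.mem_iUnion₂]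
        refine ⟨E2A σ x, Finset.mem_image.2 ⟨x, Finset.mem_filter.2 ⟨hx, hA⟩, rfl⟩, ?_, ?_, ?_⟩
        · intro z hz
          rcases Finset.mem_insert.1 hz with rfl | hz
          · rw [hval]
          · exact hωE.1 z hz
        · intro p hp
          have hp' : p ∈ (if x.1 = [] then σ.tau else insert x.1 σ.tau) := hp
          split_ifs at hp' with h
          · exact hωE.2.1 p hp'
          · rw [Finset.mem_insert] at hp'
            rcases hp' with rfl | hp'
            · exact hin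
            · exact hωE.2.1 p hp'
        · exact hωE.2.2
      · right
        rw [not_or, not_not, not_and_or, not_not, not_not] at hA
        obtain ⟨hA1, hA2⟩ := hA
        have hc : ((⟨x.1, hlen⟩, x.2.1) : NodeEQ n s × Fin n) ∈ Q := by
          rw [hQ, Finset.mem_filter]
          refine ⟨Finset.mem_univ _, hA2.symm, ?_, x, hx, rfl, rfl⟩
          intro i hi
          have e1 : ω.2.2 (⟨x.1, hlen⟩, x.2.1) = i := hωE.2.2 _ hi
          rw [e1] at hval
          have e2 : ω0.1 i = ω.1 i := by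
            have := hω0E.1 x.2.2 hA1
            rw [hval] at this
            exact this
          apply hRT x hx
          rw [hT, Finset.mem_image]
          refine ⟨_, Finset.mem_filter.2 ⟨hi, ?_⟩, ?_⟩
          · show (i, ω0.1 i) ∈ σ.J
            rw [e2, ← hval]
            exact hA1
          · show (x.1, x.2.1, (i, ω0.1 i)) = x
            rw [e2, ← hval]
        rw [Set.mem_iUnion₂]
        refine ⟨E2B σ Q (fun c => ω.2.2 c.1), Finset.mem_image.2 ⟨_, Finset.mem_filter.2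
          ⟨Finset.mem_univ _, ⟨_, hc⟩, ?_⟩, rfl⟩, hωE.1, hωE.2.1, ?_⟩
        · rw [Finset.mem_image]
          refine ⟨x.2.2, hA1, ?_⟩
          rw [hval]
        · intro z hz
          have hz' : z ∈ σ.Rev ∪ Q.attach.image (fun c => (c.1, ω.2.2 c.1)) := hz
          rw [Finset.mem_union, Finset.mem_image] at hz'
          rcases hz' with hz' | ⟨c, _, rfl⟩
          · exact hωE.2.2 z hz'
          · rfl
    · calc ∑ τ ∈ (R.filter (fun x => x.2.2 ∉ σ.J ∨ (x.1 ≠ [] ∧ x.1 ∉ σ.tau))).image (E2A σ),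
            E2wt τ
          ≤ ∑ τ ∈ (R.filter (fun x => x.2.2 ∉ σ.J ∨ (x.1 ≠ [] ∧ x.1 ∉ σ.tau))).image (E2A σ),
            (1 / n1 * E2wt σ) := by
            refine Finset.sum_le_sum fun τ hτ => ?_
            rw [Finset.mem_image] at hτ
            obtain ⟨x, hx, rfl⟩ := hτ
            exact E2A_wt hn1 hn σ x (Finset.mem_filter.1 hx).2
        _ = (((R.filter (fun x => x.2.2 ∉ σ.J ∨ (x.1 ≠ [] ∧ x.1 ∉ σ.tau))).image
              (E2A σ)).card : ℝ) * (1 / n1 * E2wt σ) := by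
            rw [Finset.sum_const, nsmul_eq_mul]
        _ ≤ K * (1 / n1 * E2wt σ) := by
            refine mul_le_mul_of_nonneg_right ?_ (mul_nonneg (by positivity) (E2wt_nonneg σ))
            exact_mod_cast (Finset.card_image_le.trans (Finset.card_filter_le _ _)).trans
              (hC R hR)
        _ = (K : ℝ) / n1 * E2wt σ := by ring
    · have hwtB : ∀ φ : Q → Fin k, E2wt (E2B σ Q φ) = E2wt σ * (1 / (k : ℝ)) ^ Q.card := by
        intro φ
        unfold E2wt
        rw [E2B_card σ Q hQrev φ, pow_add]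
        show (1 / (n1 : ℝ)) ^ σ.J.card * ((1 / (n : ℝ)) ^ σ.tau.card * _) = _
        ring
      have hcount := E2_count (k := k) (Q := Q) hk (σ.J.image Prod.fst)
        (by
          have h1 : (σ.J.image Prod.fst).card ≤ σ.ja := Finset.card_image_le.trans hI1
          have h2 : σ.ja < w1 := hlta
          omega) (K := K) (by rw [Fintype.card_coe]; exact hQcard)
      rw [Fintype.card_coe] at hcount
      calc ∑ τ ∈ (Finset.univ.filter
              (fun φ : Q → Fin k => ∃ c, φ c ∈ σ.J.image Prod.fst)).image (E2B σ Q), E2wt τ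
          = ∑ τ ∈ (Finset.univ.filter
              (fun φ : Q → Fin k => ∃ c, φ c ∈ σ.J.image Prod.fst)).image (E2B σ Q),
              (E2wt σ * (1 / (k : ℝ)) ^ Q.card) := by
            refine Finset.sum_congr rfl fun τ hτ => ?_
            rw [Finset.mem_image] at hτ
            obtain ⟨φ, _, rfl⟩ := hτ
            exact hwtB φ
        _ = ((((Finset.univ.filter
              (fun φ : Q → Fin k => ∃ c, φ c ∈ σ.J.image Prod.fst)).image
                (E2B σ Q)).card : ℕ) : ℝ) * (E2wt σ * (1 / (k : ℝ)) ^ Q.card) := by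
            rw [Finset.sum_const, nsmul_eq_mul]
        _ ≤ (((Finset.univ.filter
              (fun φ : Q → Fin k => ∃ c, φ c ∈ σ.J.image Prod.fst)).card : ℕ) : ℝ) *
              (E2wt σ * (1 / (k : ℝ)) ^ Q.card) := by
            refine mul_le_mul_of_nonneg_right ?_ (mul_nonneg (E2wt_nonneg σ) (by positivity))
            exact_mod_cast Finset.card_image_le
        _ = (((Finset.univ.filter
              (fun φ : Q → Fin k => ∃ c, φ c ∈ σ.J.image Prod.fst)).card : ℕ) : ℝ) *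
              (1 / (k : ℝ)) ^ Q.card * E2wt σ := by ring
        _ ≤ (1 - (1 / 2) ^ K) * E2wt σ := mul_le_mul_of_nonneg_right hcount (E2wt_nonneg σ)

end Pool.Agent.H679R2.WH
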