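import Pool.Agent.H679R2.WH.Nums
import Pool.Agent.H679R2.WH.Leaf
import Pool.Agent.H679R2.WH.Val
import Pool.Agent.H679R2.WH.BTO0
import Pool.Agent.H679R2.WH.BTO1
import Pool.Agent.H679R2.WH.SwitchNO
import Pool.Agent.H679R2.WH.SwitchPO

/-! # Targets with an even number of source levels -/

set_option autoImplicit false

namespace Pool.Agent.H679R2.WH

open Pool.Agent.H520R2 Pool.Agent.H520R2.NM

theorem tgtO_card (N g : ℕ) :
    (Fintype.card {S : Finset (Fin N) // S.card = g} : ℝ) ≤ (N : ℝ) ^ g := by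
  have h : Fintype.card {S : Finset (Fin N) // S.card = g} = N.choose g := by
    rw [Fintype.card_finset_len, Fintype.card_fin]
  rw [h]
  exact_mod_cast Nat.choose_le_pow N g

theorem tgt_O {n k n1 d0 s A N g S0 : ℕ} (hnum : NumO n k n1 d0 s A N g S0)
    (L : List (Set (Node n × Fin n × Row k n1) → Bool))
    (f : CIdx A N (2 * s) → Set (Node n × Fin n × Row k n1) → Bool) (hL : MProg (B0 _) L)
    (hlen : L.length ≤ S0) (hf : ∀ o, Av (B0 _) L (f o))
    (hpos : ∀ ω : OmPO n k n1 s, WSat (2 * s) g (fun o => f o (PosO ω))) :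
    pr {ω : OmNO n k n1 d0 s | ¬ WSat (2 * s) g (fun o => f o (NegO ω))} ≤ 1 / 4 := by
  obtain ⟨hn, hs, hn1, hn1n, hk, hd0, hA, S, W, K, w1, w2, κ, w', c0, hS, hW, hK, hKW, hw1,
    hsm, hεP2, hc0, hcw, hsmall, hκn, hfin⟩ := hnum
  obtain ⟨L', hL', hL'len, leaf', hleaf', hiff⟩ := leaf_and hL g f hf
  have hkey : ∀ X : Set (Node n × Fin n × Row k n1), WSat (2 * s) g (fun o => f o X) ↔
      ∃ z : {S : Finset (Fin N) // S.card = g}, AE A s (fun l => ∀ j,
        leaf' z (pth hA (2 * s) (flat l)) j X = true) := by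
    intro X
    have hone : ∀ z : {S : Finset (Fin N) // S.card = g},
        (Val z.1 (2 * s) true (fun o => f o X) ↔ AE A s (fun l => ∀ j,
          leaf' z (pth hA (2 * s) (flat l)) j X = true)) := by
      intro z
      rw [Val_even hA z.1 s (fun o => f o X)]
      have he : (fun l : List (Fin A × Fin A) => ∀ l' : Fin N × Bool,
          f (pth hA (2 * s) (flat l), l') X = true ∨ lit z.1 l') =
          (fun l => ∀ j, leaf' z (pth hA (2 * s) (flat l)) j X = true) := by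
        funext l
        exact propext (hiff z _ X)
      rw [he]
    constructor
    · rintro ⟨S', hS', hV⟩
      exact ⟨⟨S', hS'⟩, (hone ⟨S', hS'⟩).1 hV⟩
    · rintro ⟨z, hz⟩
      exact ⟨z.1, z.2, (hone z).2 hz⟩
  have hlen' : (L' ++ L).length ≤ S := by
    rw [List.length_append]
    omega
  have hb : (0 : ℝ) ≤ 1 - (1 / 2) ^ (K + 1) := by
    have : ((1 : ℝ) / 2) ^ (K + 1) ≤ 1 := pow_le_one₀ (by norm_num) (by norm_num)
    linarith
  have hBT := BT_O1 (n := n) (k := k) (n1 := n1) (d0 := d0) (s := s) hn hs hn1 hk hd0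
    (W := W) (K := K) (S := S) (εN := ((W : ℝ) / d0) ^ (K + 1))
    (εN2 := ((((2 * g + 1) * W : ℕ) : ℝ) / d0) ^ (κ + 1))
    (εP := (2 ^ K * K / n1) ^ w1 + (1 - (1 / 2) ^ (K + 1)) ^ w2) hW hK
    (switchN_O hd0 hn) (switchP_O hn1 hn1n hk hKW hw1 hK hsm) (by positivity)
    (by positivity)
    hεP2 hL' hlen' (A := A) (G := 2 * g + 1) hA (Z := {S : Finset (Fin N) // S.card = g})
    (fun z l j => leaf' z (pth hA (2 * s) (flat l)) j)
    (fun z l j => hleaf' z _ j) (fun ω => (hkey _).1 (hpos ω)) κ w' c0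
    (switchN_O hd0 hn) (by positivity)
    (lt_of_le_of_lt (mul_le_mul_of_nonneg_left (tgtO_card N g) (by norm_num)) hc0) hcw
    hsmall hκn
  have hset : {ω : OmNO n k n1 d0 s | ¬ WSat (2 * s) g (fun o => f o (NegO ω))} =
      {ω : OmNO n k n1 d0 s | ¬ ∃ z : {S : Finset (Fin N) // S.card = g},
        AE A s (fun l => ∀ j, leaf' z (pth hA (2 * s) (flat l)) j (NegO ω) = true)} := by
    ext ω
    exact not_congr (hkey (NegO ω))
  rw [hset]
  exact hBT.trans hfin

theorem tgt_O0 {n k n1 d0 N g S0 : ℕ} (hnum : NumO0 n k n1 d0 N g S0)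
    (L : List (Set (Node n × Fin n × Row k n1) → Bool))
    (f : (Fin N × Bool) × (Fin N × Bool) → Set (Node n × Fin n × Row k n1) → Bool)
    (hL : MProg (B0 _) L) (hlen : L.length ≤ S0) (hf : ∀ o, Av (B0 _) L (f o))
    (hpos : ∀ ω : OmPO n k n1 0, WSat2 g (fun o => f o (PosO ω))) :
    pr {ω : OmNO n k n1 d0 0 | ¬ WSat2 g (fun o => f o (NegO ω))} ≤ 1 / 4 := by
  obtain ⟨hn, hn1, hn1n, hk, hd0, S, W, K, w1, w2, hS, hW, hK, hKW, hw1,
    hsm, hεP2, hfin⟩ := hnum
  obtain ⟨L', hL', hL'len, leaf', hleaf', hiff⟩ := leaf_pair hL g f hf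
  have hkey : ∀ X : Set (Node n × Fin n × Row k n1), WSat2 g (fun o => f o X) ↔
      ∃ z : {S : Finset (Fin N) // S.card = g}, ∀ j, leaf' z j X = true := by
    intro X
    constructor
    · rintro ⟨S', hS', hV⟩
      exact ⟨⟨S', hS'⟩, (hiff ⟨S', hS'⟩ X).1 hV⟩
    · rintro ⟨z, hz⟩
      exact ⟨z.1, z.2, (hiff z X).2 hz⟩
  have hlen' : (L' ++ L).length ≤ S := by
    rw [List.length_append]
    omega
  have hb : (0 : ℝ) ≤ 1 - (1 / 2) ^ (K + 1) := by
    have : ((1 : ℝ) / 2) ^ (K + 1) ≤ 1 := pow_le_one₀ (by norm_num) (by norm_num)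
    linarith
  have hBT := BT_O0 (n := n) (k := k) (n1 := n1) (d0 := d0) hn hn1 hk hd0
    (W := W) (K := K) (S := S) (εN := ((W : ℝ) / d0) ^ (K + 1))
    (εP := (2 ^ K * K / n1) ^ w1 + (1 - (1 / 2) ^ (K + 1)) ^ w2) hW hK
    (switchN_O hd0 hn) (switchP_O hn1 hn1n hk hKW hw1 hK hsm) (by positivity)
    (by positivity)
    hεP2 hL' hlen' (G := (2 * g + 1) ^ 2) (Z := {S : Finset (Fin N) // S.card = g})
    (fun z j => leaf' z j)
    (fun z j => hleaf' z j) (fun ω => (hkey _).1 (hpos ω))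
  have hset : {ω : OmNO n k n1 d0 0 | ¬ WSat2 g (fun o => f o (NegO ω))} =
      {ω : OmNO n k n1 d0 0 | ¬ ∃ z : {S : Finset (Fin N) // S.card = g},
        ∀ j, leaf' z j (NegO ω) = true} := by
    ext ω
    exact not_congr (hkey (NegO ω))
  rw [hset]
  exact hBT.trans hfin

end Pool.Agent.H679R2.WH
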