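import Pool.Agent.H679R2.WH.Flip
import Pool.Agent.H679R2.WH.Kill
import Pool.Agent.H679R2.WH.Inst2Basic
import Pool.Agent.H679R2.WH.Inst2EPos
import Pool.Agent.H679R2.WH.Inst2ENeg
import Pool.Agent.H679R2.WH.Inst2OPos
import Pool.Agent.H679R2.WH.Inst2ONeg
import Pool.Agent.H679R2.WH.Realz
import Pool.Agent.H679R2.WH.TgtE
import Pool.Agent.H679R2.WH.TgtO
import Pool.Agent.H679R2.WH.ParO
import Pool.Agent.H679R2.WH.ParO0

set_option autoImplicit false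

namespace Pool.Agent.H679R2.WH

open Pool.Agent.H520R2 Pool.Agent.H520R2.NM

theorem WSat_mono {A N d k : ℕ} (x y : CIdx A N d → Bool) (h : x ≤ y) (hx : WSat d k x) :
    WSat d k y := by
  obtain ⟨S, hS, hv⟩ := hx
  exact ⟨S, hS, Val_mono S true x y h hv⟩

theorem WSat_top {A N d k : ℕ} (x : CIdx A N d → Bool) (hx : WSat d k x) :
    WSat d k (fun _ : CIdx A N d => true) :=
  WSat_mono x _ (fun _ => Bool.le_true _) hx

theorem WSat_zero {N d k : ℕ} (x : CIdx 0 N (d + 1) → Bool) :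
    WSat (d + 1) k x ↔ ∃ S : Finset (Fin N), S.card = k := by
  constructor
  · rintro ⟨S, h, _⟩
    exact ⟨S, h⟩
  · rintro ⟨S, h⟩
    refine ⟨S, h, ?_⟩
    simp only [Val]
    exact fun a => a.elim0

theorem WSat2_mono {N k : ℕ} (x y : (Fin N × Bool) × (Fin N × Bool) → Bool) (h : x ≤ y)
    (hx : WSat2 k x) : WSat2 k y := by
  obtain ⟨S, hS, hv⟩ := hx
  refine ⟨S, hS, fun l l' => ?_⟩
  rcases hv l l' with h1 | h1
  · left
    have := h (l, l')
    rw [h1] at this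
    exact top_le_iff.mp this
  · exact Or.inr h1

theorem prod_le_pow {P n q e : ℕ} (hq : 1 ≤ q) (hn : 0 < n) (h : P ^ q ≤ n ^ (e * (q - 1))) :
    P ≤ n ^ e := by
  by_contra hlt
  rw [not_le] at hlt
  have h1 : (n ^ e) ^ q < P ^ q := Nat.pow_lt_pow_left hlt (by omega)
  have h2 : n ^ (e * (q - 1)) ≤ n ^ (e * q) :=
    Nat.pow_le_pow_right hn (Nat.mul_le_mul_left e (by omega))
  rw [← pow_mul] at h1
  omega

theorem card_CIdx (A N d : ℕ) : Fintype.card (CIdx A N d) = A ^ d * (N * 2) := by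
  simp [CIdx, Fintype.card_prod]

theorem exists_good {Ω : Type} [Fintype Ω] [Nonempty Ω] (G : Set Ω) (h : pr Gᶜ ≤ 1 / 4) :
    ∃ ω, ω ∈ G := by
  by_contra hne
  push Not at hne
  have : Gᶜ = Set.univ := by
    ext ω
    simp [hne ω]
  rw [this, pr_univ] at h
  norm_num at h

/-- Levels `t = 2 (r + 1)`. -/
theorem main2_E (r c q : ℕ) (hq : 1 ≤ q) : ∃ k : ℕ, ∀ F g : ℕ, ∃ n0 : ℕ, ∀ n ≥ n0,
    ∀ A N : ℕ, A ≤ F * n ^ c → N ≤ F * n ^ c →
    ∀ (M : ℕ) (C : Circuit (CIdx n n (2 * (r + 1))) M)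
      (out : CIdx A N (2 * r + 1) → Wire (CIdx n n (2 * (r + 1))) M),
      C.size ≤ F * n ^ c →
      (C.fanins.map (· + 1)).prod ^ q ≤ n ^ ((2 * (r + 1) + 1) * (q - 1)) →
      ¬ ∀ x, (∀ p v, x (p, (v, true)) = true) →
        (WSat (2 * (r + 1)) k x ↔ WSat (2 * r + 1) g (fun o => (out o).eval x (C.vals x))) := by
  obtain ⟨k, hk, hnum⟩ := par_E (r + 1) c q (by omega) hq
  refine ⟨2 * (r + 1) + k, fun F g => ?_⟩
  obtain ⟨n0, hn0⟩ := hnum (F + 1) g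
  refine ⟨max n0 1, fun n hn A N hA hN M C out hsize hprod hred => ?_⟩
  have hnpos : 0 < n := lt_of_lt_of_le Nat.zero_lt_one (le_trans (le_max_right _ _) hn)
  obtain ⟨h, b, n1, d0, hh, hdc, hvc, hP, hkill, hall⟩ := hn0 n (le_trans (le_max_left _ _) hn)
  have hF : F * n ^ c ≤ (F + 1) * n ^ c := Nat.mul_le_mul_right _ (Nat.le_succ F)
  have hnc : 1 ≤ (F + 1) * n ^ c := Nat.mul_pos (Nat.succ_pos F) (Nat.pow_pos hnpos)
  have hN1 := hall 1 0 0 le_rfl hnc (Nat.zero_le _) (Nat.zero_le _)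
  obtain ⟨hb, -, hn1, hn1b, -, hkd, -, -⟩ := hN1
  have hd0 : 0 < d0 := lt_of_lt_of_le hk hkd
  have hhn : h ≤ n := by
    have : h ≤ h * b := Nat.le_mul_of_pos_right h hb
    omega
  obtain ⟨dc, vc, R⟩ := realz_exists (co := 2 * (r + 1)) hdc hvc hhn
  have hm0 : 0 < h ^ (2 * (r + 1) + 1) := Nat.pow_pos hh
  obtain ⟨ix, hix⟩ := ixE_exists (s := r + 1) hh le_rfl hm0
  have hne : Nonempty (OmNE b k n1 d0 (r + 1)) :=
    ⟨(fun _ => ⟨0, hd0⟩, fun _ => ⟨0, hb⟩, fun _ => ⟨0, hk⟩)⟩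
  let σ : Fin b := ⟨0, hb⟩
  have hred' : ∀ Y : Fin (h ^ (2 * (r + 1) + 1)) → Set (Node b × Row k n1),
      WSat (2 * (r + 1)) (2 * (r + 1) + k) (instE2 (s := r + 1) hnpos dc vc ix Y) ↔
      WSat (2 * r + 1) g (fun o => (out o).eval (instE2 (s := r + 1) hnpos dc vc ix Y)
        (C.vals (instE2 (s := r + 1) hnpos dc vc ix Y))) := by
    intro Y
    refine hred _ (fun p v => ?_)
    rw [instE2_iff]
    exact Or.inl rfl
  have hgood : pr {ω : Fin (h ^ (2 * (r + 1) + 1)) → OmNE b k n1 d0 (r + 1) |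
      ∀ j, GoodE σ (ω j)}ᶜ ≤ 1 / 4 := by
    have h1 := pr_pi_bad (m := h ^ (2 * (r + 1) + 1))
      {ω : OmNE b k n1 d0 (r + 1) | GoodE σ ω}
    have h2 := kill_E (n := b) (k := k) (n1 := n1) (d0 := d0) (s := r + 1) σ hk hkd
    refine h1.trans (le_trans ?_ hkill)
    exact mul_le_mul_of_nonneg_left h2 (Nat.cast_nonneg _)
  rcases Nat.eq_zero_or_pos A with hA0 | hA1
  · subst hA0
    obtain ⟨ω, hω⟩ := exists_good _ hgood
    have h1 := instE2_neg (m := h ^ (2 * (r + 1) + 1)) hnpos (by omega) hk hh dc vc R ix σ ω hω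
    have h2 := instE2_pos (n1 := n1) hnpos (by omega) dc vc R ix hix (fun _ => ∅) ⟨0, hm0⟩
      (fun _ => ⟨0, hn1⟩, fun _ => ⟨0, hb⟩)
    rw [hred', WSat_zero] at h1 h2
    exact h1 h2
  · have hS0 : C.size + C.fanins.sum + Fintype.card (CIdx A N (2 * r + 1)) ≤
        (F + 1) * n ^ c + n ^ (2 * (r + 1) + 1) + 2 * N * A ^ (2 * (r + 1) - 1) := by
      have h1 := sum_le_prod C.fanins
      have h2 := prod_le_pow hq hnpos hprod
      rw [card_CIdx]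
      have h3 : 2 * (r + 1) - 1 = 2 * r + 1 := by omega
      rw [h3]
      have h4 : A ^ (2 * r + 1) * (N * 2) = 2 * N * A ^ (2 * r + 1) := by ring
      omega
    have hN' := hall A N _ hA1 (hA.trans hF) (hN.trans hF) hS0
    have hfl := flip_abs (m := h ^ (2 * (r + 1) + 1)) C out (instE2 (s := r + 1) hnpos dc vc ix)
      (fun Y Y' h => instE2_mono hnpos dc vc ix Y Y' h)
      (fun Y j i => instE2_coord hnpos dc vc ix Y j i)
      (WSat (2 * (r + 1)) (2 * (r + 1) + k)) (fun x y hxy hx => WSat_mono x y hxy hx)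
      (WSat (2 * r + 1) g) (fun x hx => WSat_top x hx) hred'
      (PosE : OmPE b k n1 (r + 1) → _) (NegE : OmNE b k n1 d0 (r + 1) → _)
      (fun Y j ω => instE2_pos hnpos (by omega) dc vc R ix hix Y j ω)
      {ω | ∀ j, GoodE σ (ω j)}
      (fun ω hω => instE2_neg hnpos (by omega) hk hh dc vc R ix σ ω hω)
      hgood ?_
    · have h2P := hP _ hprod
      omega
    · intro L f hL hlen hf hpos
      exact tgt_E hN' L f hL hlen hf hpos

/-- Levels `t = 2 s + 1`, `s ≥ 1`. -/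
theorem main2_O (s c q : ℕ) (hs : 1 ≤ s) (hq : 1 ≤ q) : ∃ k : ℕ, ∀ F g : ℕ, ∃ n0 : ℕ, ∀ n ≥ n0,
    ∀ A N : ℕ, A ≤ F * n ^ c → N ≤ F * n ^ c →
    ∀ (M : ℕ) (C : Circuit (CIdx n n (2 * s + 1)) M)
      (out : CIdx A N (2 * s) → Wire (CIdx n n (2 * s + 1)) M),
      C.size ≤ F * n ^ c →
      (C.fanins.map (· + 1)).prod ^ q ≤ n ^ ((2 * s + 2) * (q - 1)) →
      ¬ ∀ x, (∀ p v, x (p, (v, false)) = false) →
        (WSat (2 * s + 1) k x ↔ WSat (2 * s) g (fun o => (out o).eval x (C.vals x))) := by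
  obtain ⟨k, hk, hnum⟩ := par_O s c q hs hq
  refine ⟨2 * s + 2 + k, fun F g => ?_⟩
  obtain ⟨n0, hn0⟩ := hnum (F + 1) g
  refine ⟨max n0 1, fun n hn A N hA hN M C out hsize hprod hred => ?_⟩
  have hnpos : 0 < n := lt_of_lt_of_le Nat.zero_lt_one (le_trans (le_max_right _ _) hn)
  obtain ⟨h, b, n1, d0, hh, hdc, hvc, hP, hkill, hall⟩ := hn0 n (le_trans (le_max_left _ _) hn)
  have hF : F * n ^ c ≤ (F + 1) * n ^ c := Nat.mul_le_mul_right _ (Nat.le_succ F)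
  have hnc : 1 ≤ (F + 1) * n ^ c := Nat.mul_pos (Nat.succ_pos F) (Nat.pow_pos hnpos)
  have hN1 := hall 1 0 0 le_rfl hnc (Nat.zero_le _) (Nat.zero_le _)
  obtain ⟨hb, -, hn1, hn1b, -, hd0, -, -⟩ := hN1
  have hhn : h ≤ n := by
    have : h ≤ h * b := Nat.le_mul_of_pos_right h hb
    omega
  obtain ⟨dc, vc, R⟩ := realz_exists (co := 2 * s + 2) hdc hvc hhn
  have hm0 : 0 < h ^ (2 * s + 2) := Nat.pow_pos hh
  obtain ⟨ix, hix⟩ := ixO_exists (s := s) hh le_rfl hm0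
  have hne : Nonempty (OmNO b k n1 d0 s) :=
    ⟨(fun _ => ⟨0, hd0⟩, fun _ => ⟨0, hb⟩, fun _ => ⟨0, hd0⟩)⟩
  let σ : Fin b := ⟨0, hb⟩
  have hred' : ∀ Y : Fin (h ^ (2 * s + 2)) → Set (Node b × Fin b × Row k n1),
      WSat (2 * s + 1) (2 * s + 2 + k) (instO2 (s := s) hnpos dc vc ix Y) ↔
      WSat (2 * s) g (fun o => (out o).eval (instO2 (s := s) hnpos dc vc ix Y)
        (C.vals (instO2 (s := s) hnpos dc vc ix Y))) := by
    intro Y
    refine hred _ (fun p v => ?_)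
    rw [← Bool.not_eq_true, instO2_iff]
    rintro ⟨h1, _⟩
    exact absurd h1 (by simp)
  have hgood : pr {ω : Fin (h ^ (2 * s + 2)) → OmNO b k n1 d0 s |
      ∀ j, GoodO σ (ω j)}ᶜ ≤ 1 / 4 := by
    have h1 := pr_pi_bad (m := h ^ (2 * s + 2)) {ω : OmNO b k n1 d0 s | GoodO σ ω}
    have h2 := kill_O (n := b) (k := k) (n1 := n1) (d0 := d0) (s := s) σ hd0
    refine h1.trans (le_trans ?_ hkill)
    exact mul_le_mul_of_nonneg_left h2 (Nat.cast_nonneg _)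
  rcases Nat.eq_zero_or_pos A with hA0 | hA1
  · subst hA0
    obtain ⟨s', rfl⟩ : ∃ s', s = s' + 1 := ⟨s - 1, by omega⟩
    obtain ⟨ω, hω⟩ := exists_good _ hgood
    have h1 := instO2_neg (m := h ^ (2 * (s' + 1) + 2)) hnpos hk hh dc vc R ix σ ω hω
    have h2 := instO2_pos (n1 := n1) hnpos hk dc vc R ix hix (fun _ => ∅) ⟨0, hm0⟩
      (fun _ => ⟨0, hn1⟩, fun _ => ⟨0, hb⟩, fun _ => ⟨0, hk⟩)
    have hz : ∀ x : CIdx 0 N (2 * (s' + 1)) → Bool, WSat (2 * (s' + 1)) g x ↔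
        ∃ S : Finset (Fin N), S.card = g := fun x => WSat_zero (d := 2 * s' + 1) x
    rw [hred', hz] at h1 h2
    exact h1 h2
  · have hS0 : C.size + C.fanins.sum + Fintype.card (CIdx A N (2 * s)) ≤
        (F + 1) * n ^ c + n ^ (2 * s + 2) + 2 * N * A ^ (2 * s) := by
      have h1 := sum_le_prod C.fanins
      have h2 := prod_le_pow hq hnpos hprod
      rw [card_CIdx]
      have h4 : A ^ (2 * s) * (N * 2) = 2 * N * A ^ (2 * s) := by ring
      omega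
    have hN' := hall A N _ hA1 (hA.trans hF) (hN.trans hF) hS0
    have hfl := flip_abs (m := h ^ (2 * s + 2)) C out (instO2 (s := s) hnpos dc vc ix)
      (fun Y Y' h => instO2_mono hnpos dc vc ix Y Y' h)
      (fun Y j i => instO2_coord hnpos dc vc ix Y j i)
      (WSat (2 * s + 1) (2 * s + 2 + k)) (fun x y hxy hx => WSat_mono x y hxy hx)
      (WSat (2 * s) g) (fun x hx => WSat_top x hx) hred'
      (PosO : OmPO b k n1 s → _) (NegO : OmNO b k n1 d0 s → _)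
      (fun Y j ω => instO2_pos hnpos hk dc vc R ix hix Y j ω)
      {ω | ∀ j, GoodO σ (ω j)}
      (fun ω hω => instO2_neg hnpos hk hh dc vc R ix σ ω hω)
      hgood ?_
    · have h2P := hP _ hprod
      omega
    · intro L f hL hlen hf hpos
      exact tgt_O hN' L f hL hlen hf hpos

/-- Level `t = 1`. -/
theorem main2_1 (c q : ℕ) (hq : 1 ≤ q) : ∃ k : ℕ, ∀ F g : ℕ, ∃ n0 : ℕ, ∀ n ≥ n0,
    ∀ N : ℕ, N ≤ F * n ^ c →
    ∀ (M : ℕ) (C : Circuit (CIdx n n 1) M)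
      (out : (Fin N × Bool) × (Fin N × Bool) → Wire (CIdx n n 1) M),
      C.size ≤ F * n ^ c →
      (C.fanins.map (· + 1)).prod ^ q ≤ n ^ (2 * (q - 1)) →
      ¬ ∀ x, (∀ p v, x (p, (v, false)) = false) →
        (WSat 1 k x ↔ WSat2 g (fun o => (out o).eval x (C.vals x))) := by
  obtain ⟨k, hk, hnum⟩ := par_O0 c q hq
  refine ⟨2 * 0 + 2 + k, fun F g => ?_⟩
  obtain ⟨n0, hn0⟩ := hnum F g
  refine ⟨max n0 1, fun n hn N hN M C out hsize hprod hred => ?_⟩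
  have hnpos : 0 < n := lt_of_lt_of_le Nat.zero_lt_one (le_trans (le_max_right _ _) hn)
  obtain ⟨h, b, n1, d0, hh, hdc, hvc, hP, hkill, hall⟩ := hn0 n (le_trans (le_max_left _ _) hn)
  have hN1 := hall 0 0 (Nat.zero_le _) (Nat.zero_le _)
  obtain ⟨hb, hn1, hn1b, -, hd0, -⟩ := hN1
  have hhn : h ≤ n := by
    have : h ≤ h * b := Nat.le_mul_of_pos_right h hb
    omega
  obtain ⟨dc, vc, R⟩ := realz_exists (co := 2 * 0 + 2) hdc hvc hhn
  have hm0 : 0 < h ^ (2 * 0 + 2) := Nat.pow_pos hh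
  obtain ⟨ix, hix⟩ := ixO_exists (s := 0) hh le_rfl hm0
  have hne : Nonempty (OmNO b k n1 d0 0) :=
    ⟨(fun _ => ⟨0, hd0⟩, fun _ => ⟨0, hb⟩, fun _ => ⟨0, hd0⟩)⟩
  let σ : Fin b := ⟨0, hb⟩
  have hred' : ∀ Y : Fin (h ^ (2 * 0 + 2)) → Set (Node b × Fin b × Row k n1),
      WSat (2 * 0 + 1) (2 * 0 + 2 + k) (instO2 (s := 0) hnpos dc vc ix Y) ↔
      WSat2 g (fun o => (out o).eval (instO2 (s := 0) hnpos dc vc ix Y)
        (C.vals (instO2 (s := 0) hnpos dc vc ix Y))) := by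
    intro Y
    refine hred _ (fun p v => ?_)
    rw [← Bool.not_eq_true, instO2_iff]
    rintro ⟨h1, _⟩
    exact absurd h1 (by simp)
  have hgood : pr {ω : Fin (h ^ (2 * 0 + 2)) → OmNO b k n1 d0 0 |
      ∀ j, GoodO σ (ω j)}ᶜ ≤ 1 / 4 := by
    have h1 := pr_pi_bad (m := h ^ (2 * 0 + 2)) {ω : OmNO b k n1 d0 0 | GoodO σ ω}
    have h2 := kill_O (n := b) (k := k) (n1 := n1) (d0 := d0) (s := 0) σ hd0
    refine h1.trans (le_trans ?_ hkill)
    exact mul_le_mul_of_nonneg_left h2 (Nat.cast_nonneg _)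
  have hS0 : C.size + C.fanins.sum + Fintype.card ((Fin N × Bool) × (Fin N × Bool)) ≤
      F * n ^ c + n ^ 2 + (2 * N) ^ 2 := by
    have h1 := sum_le_prod C.fanins
    have h2 := prod_le_pow hq hnpos hprod
    have h3 : Fintype.card ((Fin N × Bool) × (Fin N × Bool)) = (2 * N) ^ 2 := by
      simp [Fintype.card_prod]; ring
    rw [h3]
    omega
  have hN' := hall N _ hN hS0
  have hfl := flip_abs (m := h ^ (2 * 0 + 2)) C out (instO2 (s := 0) hnpos dc vc ix)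
    (fun Y Y' h => instO2_mono hnpos dc vc ix Y Y' h)
    (fun Y j i => instO2_coord (s := 0) hnpos dc vc ix Y j i)
    (WSat (2 * 0 + 1) (2 * 0 + 2 + k)) (fun x y hxy hx => WSat_mono x y hxy hx)
    (WSat2 g) (fun x hx => WSat2_mono x _ (fun _ => Bool.le_true _) hx) hred'
    (PosO : OmPO b k n1 0 → _) (NegO : OmNO b k n1 d0 0 → _)
    (fun Y j ω => instO2_pos hnpos hk dc vc R ix hix Y j ω)
    {ω | ∀ j, GoodO σ (ω j)}
    (fun ω hω => instO2_neg hnpos hk hh dc vc R ix σ ω hω)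
    hgood ?_
  · have h2P := hP _ hprod
    have h3 : h ^ (2 * 0 + 2) = h ^ 2 := rfl
    omega
  · intro L f hL hlen hf hpos
    exact tgt_O0 hN' L f hL hlen hf hpos

end Pool.Agent.H679R2.WH
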