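import Pool.Agent.H679R2.WH.Codes
import Pool.Agent.H679R2.WH.Main

/-!
# All levels in one statement
-/

set_option autoImplicit false

namespace Pool.Agent.H679R2.WH

open Pool.Agent.H520R2 Pool.Agent.H520R2.NM

/-- Indices of the bits of the code of a formula of the target class of level `d + 1`: `2`-CNF
(`Γ_{1,2}`) if `d = 0`, and `Γ_{d+1,1}` if `d ≥ 1`. -/
def TIdx (A N : ℕ) : ℕ → Type
  | 0 => (Fin N × Bool) × (Fin N × Bool)
  | d + 1 => CIdx A N (d + 1)

/-- The formula with code `x` (a `2`-CNF if `d = 0`, in `Γ_{d+1,1}` if `d ≥ 1`) is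
`g`-satisfiable. -/
def TSat {A N : ℕ} (g : ℕ) : (d : ℕ) → (TIdx A N d → Bool) → Prop
  | 0, x => WSat2 g x
  | d + 1, x => WSat (d + 1) g x

/-- The formula with code `x` has no positive literals if `d` is even, and no negative literals
if `d` is odd. -/
def OneSigned {A N d : ℕ} (x : CIdx A N d → Bool) : Prop :=
  ∀ p v, x (p, (v, decide (Even d))) = decide (Even d)

/-- A bound that is uniform in the target parameter. -/
theorem sup_bound (P : ℕ → ℕ → Prop) (h : ∀ g, ∃ n0, ∀ n ≥ n0, P g n) (g : ℕ) :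
    ∃ n0, ∀ n ≥ n0, ∀ g' ≤ g, P g' n := by
  choose f hf using h
  refine ⟨(Finset.range (g + 1)).sup f, fun n hn g' hg' => hf g' n (le_trans ?_ hn)⟩
  exact Finset.le_sup (f := f) (Finset.mem_range.2 (by omega))

theorem all_levels (d c q : ℕ) (hq : 1 ≤ q) : ∃ k : ℕ, ∀ F g : ℕ, ∃ n0 : ℕ, ∀ n ≥ n0,
    ∀ g' ≤ g, ∀ A N : ℕ, A ≤ F * n ^ c → N ≤ F * n ^ c →
    ∀ (M : ℕ) (C : Circuit (CIdx n n (d + 1)) M) (out : TIdx A N d → Wire (CIdx n n (d + 1)) M),
      C.size ≤ F * n ^ c →
      (C.fanins.map (· + 1)).prod ^ q ≤ n ^ ((d + 2) * (q - 1)) →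
      ¬ ∀ x, OneSigned x →
        (WSat (d + 1) k x ↔ TSat g' d (fun o => (out o).eval x (C.vals x))) := by
  cases d with
  | zero =>
    obtain ⟨k, hk⟩ := main2_1 c q hq
    refine ⟨k, fun F g => sup_bound (fun g' n => ∀ A N : ℕ, A ≤ F * n ^ c → N ≤ F * n ^ c →
      ∀ (M : ℕ) (C : Circuit (CIdx n n (0 + 1)) M)
        (out : TIdx A N 0 → Wire (CIdx n n (0 + 1)) M), C.size ≤ F * n ^ c →
        (C.fanins.map (· + 1)).prod ^ q ≤ n ^ ((0 + 2) * (q - 1)) →
        ¬ ∀ x, OneSigned x →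
          (WSat (0 + 1) k x ↔ TSat g' 0 (fun o => (out o).eval x (C.vals x)))) (fun g' => ?_) g⟩
    obtain ⟨n0, hn0⟩ := hk F g'
    refine ⟨n0, fun n hn A N _ hN M C out hsize hprod hred => ?_⟩
    refine hn0 n hn N hN M C out hsize (by simpa using hprod) (fun x hx => ?_)
    refine hred x (fun p v => ?_)
    have : decide (Even (0 + 1)) = false := by decide
    rw [this]
    exact hx p v
  | succ d =>
    rcases Nat.even_or_odd' d with ⟨r, hr | hr⟩
    · -- `t = d + 2 = 2 (r + 1)`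
      subst hr
      obtain ⟨k, hk⟩ := main2_E r c q hq
      refine ⟨k, fun F g => sup_bound (fun g' n => ∀ A N : ℕ, A ≤ F * n ^ c → N ≤ F * n ^ c →
        ∀ (M : ℕ) (C : Circuit (CIdx n n (2 * r + 1 + 1)) M)
          (out : TIdx A N (2 * r + 1) → Wire (CIdx n n (2 * r + 1 + 1)) M),
          C.size ≤ F * n ^ c →
          (C.fanins.map (· + 1)).prod ^ q ≤ n ^ ((2 * r + 1 + 2) * (q - 1)) →
          ¬ ∀ x, OneSigned x → (WSat (2 * r + 1 + 1) k x ↔
            TSat g' (2 * r + 1) (fun o => (out o).eval x (C.vals x)))) (fun g' => ?_) g⟩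
      obtain ⟨n0, hn0⟩ := hk F g'
      refine ⟨n0, fun n hn A N hA hN M C out hsize hprod hred => ?_⟩
      refine hn0 n hn A N hA hN M C out hsize ?_ (fun x hx => ?_)
      · have : 2 * (r + 1) + 1 = 2 * r + 1 + 2 := by ring
        rw [this]
        exact hprod
      · refine hred x (fun p v => ?_)
        have : decide (Even (2 * r + 1 + 1)) = true := by
          rw [decide_eq_true_iff]
          exact ⟨r + 1, by ring⟩
        rw [this]
        exact hx p v
    · -- `t = d + 2 = 2 (r + 1) + 1`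
      subst hr
      obtain ⟨k, hk⟩ := main2_O (r + 1) c q (by omega) hq
      refine ⟨k, fun F g => sup_bound (fun g' n => ∀ A N : ℕ, A ≤ F * n ^ c → N ≤ F * n ^ c →
        ∀ (M : ℕ) (C : Circuit (CIdx n n (2 * r + 1 + 1 + 1)) M)
          (out : TIdx A N (2 * r + 1 + 1) → Wire (CIdx n n (2 * r + 1 + 1 + 1)) M),
          C.size ≤ F * n ^ c →
          (C.fanins.map (· + 1)).prod ^ q ≤ n ^ ((2 * r + 1 + 1 + 2) * (q - 1)) →
          ¬ ∀ x, OneSigned x → (WSat (2 * r + 1 + 1 + 1) k x ↔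
            TSat g' (2 * r + 1 + 1) (fun o => (out o).eval x (C.vals x)))) (fun g' => ?_) g⟩
      obtain ⟨n0, hn0⟩ := hk F g'
      refine ⟨n0, fun n hn A N hA hN M C out hsize hprod hred => ?_⟩
      refine hn0 n hn A N hA hN M C out hsize ?_ (fun x hx => ?_)
      · have : 2 * (r + 1) + 2 = 2 * r + 1 + 1 + 2 := by ring
        rw [this]
        exact hprod
      · refine hred x (fun p v => ?_)
        have : decide (Even (2 * r + 1 + 1 + 1)) = false := by
          rw [decide_eq_false_iff_not, Nat.not_even_iff_odd]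
          exact ⟨r + 1, by ring⟩
        rw [this]
        exact hx p v

end Pool.Agent.H679R2.WH
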