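import Pool.Agent.H679R2.WH.ProbA

/-!
# Flips
-/

set_option autoImplicit false

namespace Pool.Agent.H679R2.WH

open Pool.Agent.H520R2 Pool.Agent.H520R2.NM

theorem sum_le_prod (l : List ℕ) : l.sum ≤ (l.map (· + 1)).prod := by
  induction l with
  | nil => simp
  | cons a l ih =>
    simp only [List.sum_cons, List.map_cons, List.prod_cons]
    have h1 : 1 ≤ (l.map (· + 1)).prod := by
      refine Nat.one_le_iff_ne_zero.2 ?_
      rw [Ne, List.prod_eq_zero_iff]
      simp
    nlinarith

private theorem flipI_pr_mono {Ω : Type} [Fintype Ω] {A B : Set Ω} (h : A ⊆ B) : pr A ≤ pr B := by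
  unfold pr
  have h1 : A.ncard ≤ B.ncard := Set.ncard_le_ncard h (Set.toFinite _)
  have h2 : (A.ncard : ℝ) ≤ B.ncard := by exact_mod_cast h1
  exact div_le_div_of_nonneg_right h2 (Nat.cast_nonneg _)

private theorem flipI_pr_union {Ω : Type} [Fintype Ω] (A B : Set Ω) :
    pr (A ∪ B) ≤ pr A + pr B := by
  unfold pr
  rw [← add_div]
  have h2 : ((A ∪ B).ncard : ℝ) ≤ A.ncard + B.ncard := by
    exact_mod_cast Set.ncard_union_le A B
  exact div_le_div_of_nonneg_right h2 (Nat.cast_nonneg _)

private theorem flipI_out {ι O : Type} {L : List ((ι → Bool) → Bool)} {B : Set ((ι → Bool) → Bool)}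
    (hL : MProg B L) (f : O → (ι → Bool) → Bool) (hf : ∀ o, Av B L (f o))
    (H : (ι → Bool) → Bool) (hH : Av B L H) (l : List O) :
    ∃ L', MProg B (L' ++ L) ∧ L'.length ≤ l.length ∧
      ∀ o ∈ l, Av B (L' ++ L) (fun x => f o x || H x) := by
  induction l with
  | nil => exact ⟨[], by simpa using hL, by simp, by simp⟩
  | cons o l ih =>
    obtain ⟨L', h1, h2, h3⟩ := ih
    have p1 := MProg.or h1 ((hf o).mono L') (hH.mono L')
    refine ⟨_ :: L', p1, by simpa using h2, ?_⟩
    intro o' ho'
    rcases List.mem_cons.1 ho' with rfl | ho'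
    · exact Or.inr List.mem_cons_self
    · exact (h3 o' ho').cons _

/-- The one-step lemma: freezing at `x0`. -/
private theorem flipI_step {ι O V : Type} [Fintype O] {M : ℕ}
    (C : Circuit ι M) (out : O → Wire ι M) (x0 : ι → Bool) (e : Set V → ι → Bool)
    (he : ∀ i, (∃ b, ∀ Z, e Z i = b) ∨ ∃ v, ∀ Z, e Z i = true ↔ v ∈ Z)
    (hle : ∀ Z, x0 ≤ e Z) :
    ∃ (L : List (Set V → Bool)) (r : O → Set V → Bool), MProg (B0 V) L ∧
      L.length ≤ C.size + C.fanins.sum + Fintype.card O ∧ (∀ o, Av (B0 V) L (r o)) ∧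
      (∀ Z, (∀ o, r o Z = (out o).eval (e Z) (C.vals (e Z))) ∨ ∀ o, r o Z = true) ∧
      (∀ Z, C.probes (e Z) = C.probes x0 →
        ∀ o, r o Z = (out o).eval (e Z) (C.vals (e Z))) := by
  classical
  obtain ⟨L, ρ, ps, hL, hlen, h1, h2, h3, h4, h5⟩ := C.frozen x0
  let qs := ps.filter (fun p => !(p x0))
  obtain ⟨L', hL', hlen', hav⟩ := or_prog hL (fun _ => false) (Or.inl (Or.inl ⟨false, rfl⟩)) qs
    (fun g hg => h3 g (List.mem_filter.mp hg).1)
  obtain ⟨L2, hL2, hlen2, hav2⟩ := flipI_out (O := O) hL' (fun o => (out o).pseudo ρ)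
    (fun o => (Wire.pseudo_av h1 (out o)).mono L') _ hav Finset.univ.toList
  have hB : ∀ b ∈ VB ι, b ∘ e ∈ B0 V := by
    intro b hb
    rcases hb with ⟨c, rfl⟩ | ⟨i, rfl⟩
    · exact Or.inl ⟨c, rfl⟩
    · rcases he i with ⟨b, hb⟩ | ⟨v, hv⟩
      · exact Or.inl ⟨b, funext hb⟩
      · exact Or.inr ⟨v, fun Y => hv Y⟩
  have hP := hL2.comp e hB
  have hA : ∀ x, x0 ≤ x → ((∀ p ∈ ps, p x = p x0) ∧ qs.any (fun g => g x) = false) ∨
      qs.any (fun g => g x) = true := by
    intro x hx
    by_cases hall : ∀ p ∈ ps, p x = p x0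
    · left
      refine ⟨hall, ?_⟩
      rw [List.any_eq_false]
      intro p hp
      rw [List.mem_filter] at hp
      rw [hall p hp.1]
      simpa using hp.2
    · right
      push Not at hall
      obtain ⟨p, hp, hpx⟩ := hall
      have hle := mono_of_av hL p (h3 p hp) x0 x hx
      have hp0 : p x0 = false := by
        revert hle hpx
        cases p x <;> cases p x0 <;> simp
      have hp1 : p x = true := by
        revert hpx
        rw [hp0]
        cases p x <;> simp
      rw [List.any_eq_true]
      exact ⟨p, List.mem_filter.mpr ⟨hp, by simp [hp0]⟩, hp1⟩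
  refine ⟨_, fun o Z => (out o).pseudo ρ (e Z) || (false || qs.any (fun g => g (e Z))), hP,
    ?_, ?_, ?_, ?_⟩
  · have : qs.length ≤ ps.length := List.length_filter_le _ _
    simp only [List.length_append, List.length_map]
    have h6 : L2.length ≤ Fintype.card O := by simpa using hlen2
    omega
  · intro o
    have := hav2 o (by simp)
    rcases this with h | h
    · exact Or.inl (hB _ h)
    · exact Or.inr (List.mem_map_of_mem (f := fun f => f ∘ e) h)
  · intro Z
    rcases hA (e Z) (hle Z) with ⟨h6, h7⟩ | h6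
    · left
      intro o
      have h8 := (h4 (e Z) h6).2
      simp only [h7, Bool.or_false]
      exact Wire.pseudo_eq h8 (out o)
    · right
      intro o
      simp [h6]
  · intro Z hZ o
    have h6 := h5 (e Z) hZ
    have h8 := (h4 (e Z) h6).2
    have h7 : qs.any (fun g => g (e Z)) = false := by
      rw [List.any_eq_false]
      intro p hp
      rw [List.mem_filter] at hp
      rw [h6 p hp.1]
      simpa using hp.2
    simp only [h7, Bool.or_false]
    exact Wire.pseudo_eq h8 (out o)

private theorem flipI_pr_filter {Ω : Type} [Fintype Ω] (P : Ω → Prop) [DecidablePred P] :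
    pr {ω | P ω} = ((Finset.univ.filter P).card : ℝ) / Fintype.card Ω := by
  unfold pr
  congr 2
  rw [← Set.ncard_coe_finset]
  congr 1
  ext x
  simp

theorem flip_abs {ι O V ΩP ΩN : Type} [Fintype O] [Fintype ΩN] [Nonempty ΩN] {M m : ℕ}
    (C : Circuit ι M) (out : O → Wire ι M) (inst : (Fin m → Set V) → ι → Bool)
    (hmono : ∀ Y Y', (∀ j, Y j ⊆ Y' j) → inst Y ≤ inst Y')
    (hcoord : ∀ (Y : Fin m → Set V) (j : Fin m) (i : ι),
      (∃ b, ∀ Z, inst (Function.update Y j Z) i = b) ∨
      ∃ v, ∀ Z, inst (Function.update Y j Z) i = true ↔ v ∈ Z)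
    (Src : (ι → Bool) → Prop) (hSrc : ∀ x y, x ≤ y → Src x → Src y)
    (Tgt : (O → Bool) → Prop) (hTgt : ∀ r, Tgt r → Tgt (fun _ => true))
    (hred : ∀ Y, Src (inst Y) ↔ Tgt (fun o => (out o).eval (inst Y) (C.vals (inst Y))))
    (Pos : ΩP → Set V) (Neg : ΩN → Set V)
    (hpos : ∀ Y j ω, Src (inst (Function.update Y j (Pos ω))))
    (Good : Set (Fin m → ΩN)) (hneg : ∀ ω ∈ Good, ¬ Src (inst (fun j => Neg (ω j))))
    (hkill : pr Goodᶜ ≤ 1 / 4)
    (hBT : ∀ (L : List (Set V → Bool)) (r : O → Set V → Bool), MProg (B0 V) L →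
      L.length ≤ C.size + C.fanins.sum + Fintype.card O → (∀ o, Av (B0 V) L (r o)) →
      (∀ ω, Tgt (fun o => r o (Pos ω))) → pr {ω | ¬ Tgt (fun o => r o (Neg ω))} ≤ 1 / 4) :
    m < 2 * (C.fanins.map (· + 1)).prod := by
  classical
  let X : (Fin m → ΩN) → ℕ → ι → Bool :=
    fun ω j => inst (fun i => if i.val < j then Neg (ω i) else ∅)
  have hX1 : ∀ ω j, X ω j ≤ X ω (j + 1) := by
    intro ω j
    refine hmono _ _ (fun i => ?_)
    by_cases h : i.val < j
    · rw [if_pos h, if_pos (by omega)]
    · rw [if_neg h]; exact Set.empty_subset _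
  have hX2 : ∀ ω j, X ω j ≤ inst (fun i => Neg (ω i)) := by
    intro ω j
    refine hmono _ _ (fun i => ?_)
    by_cases h : i.val < j
    · rw [if_pos h]
    · rw [if_neg h]; exact Set.empty_subset _
  -- the step
  have hstep : ∀ j : Fin m,
      pr {ω | ω ∈ Good ∧ C.probes (X ω j.val) = C.probes (X ω (j.val + 1))} ≤ 1 / 4 := by
    intro j
    refine pr_update _ j _ (by norm_num) (fun ω => ?_)
    let Y : Fin m → Set V := fun i => if i.val < j.val then Neg (ω i) else ∅
    have hYj : Y j = ∅ := if_neg (lt_irrefl _)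
    have hx0 : ∀ y, X (Function.update ω j y) j.val = inst Y := by
      intro y
      simp only [X, Y]
      congr 1
      funext i
      by_cases h : i.val < j.val
      · rw [if_pos h, if_pos h, Function.update_of_ne]
        rintro rfl
        exact lt_irrefl _ h
      · rw [if_neg h, if_neg h]
    have hx1 : ∀ y, X (Function.update ω j y) (j.val + 1) =
        inst (Function.update Y j (Neg y)) := by
      intro y
      simp only [X]
      congr 1
      funext i
      by_cases hij : i = j
      · subst hij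
        simp
      · rw [Function.update_of_ne hij, Function.update_of_ne hij]
        have : i.val ≠ j.val := fun h => hij (Fin.ext h)
        simp only [Y]
        by_cases h : i.val < j.val
        · rw [if_pos h, if_pos (by omega)]
        · rw [if_neg h, if_neg (by omega)]
    obtain ⟨L, r, hL, hlen, hav, h1, h2⟩ := flipI_step C out (inst Y)
      (fun Z => inst (Function.update Y j Z)) (fun i => hcoord Y j i) (fun Z => by
        refine hmono _ _ (fun i => ?_)
        by_cases hij : i = j
        · subst hij; rw [hYj]; exact Set.empty_subset _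
        · rw [Function.update_of_ne hij])
    have h3 := hBT L r hL hlen hav (fun ω' => by
      have h4 := (hred _).1 (hpos Y j ω')
      rcases h1 (Pos ω') with h5 | h5
      · have : (fun o => r o (Pos ω')) = fun o =>
            (out o).eval (inst (Function.update Y j (Pos ω')))
              (C.vals (inst (Function.update Y j (Pos ω')))) := funext h5
        rw [this]
        exact h4
      · have : (fun o => r o (Pos ω')) = fun _ => true := funext h5
        rw [this]
        exact hTgt _ h4)
    refine (flipI_pr_mono ?_).trans h3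
    intro y hy
    obtain ⟨hy1, hy2⟩ := hy
    rw [hx0, hx1] at hy2
    have h5 := h2 (Neg y) hy2.symm
    have : (fun o => r o (Neg y)) = fun o =>
        (out o).eval (inst (Function.update Y j (Neg y)))
          (C.vals (inst (Function.update Y j (Neg y)))) := funext h5
    show ¬ Tgt (fun o => r o (Neg y))
    rw [this, ← hred, ← hx1 y]
    intro h6
    exact hneg _ hy1 (hSrc _ _ (hX2 _ _) h6)
  -- rank count
  have hcount : ∀ ω, (Finset.univ.filter (fun j : Fin m =>
      ¬ C.probes (X ω j.val) = C.probes (X ω (j.val + 1)))).card + 1 ≤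
      (C.fanins.map (· + 1)).prod := by
    intro ω
    have hr : ∀ t, ((Finset.range t).filter (fun j =>
        ¬ C.probes (X ω j) = C.probes (X ω (j + 1)))).card ≤ C.rank (X ω t) := by
      intro t
      induction t with
      | zero => simp
      | succ t ih =>
        rw [Finset.range_add_one, Finset.filter_insert]
        by_cases h : C.probes (X ω t) = C.probes (X ω (t + 1))
        · rw [if_neg (not_not.2 h)]
          rcases C.rank_mono (hX1 ω t) with h8 | ⟨h8, _⟩
          · omega
          · omega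
        · rw [if_pos h]
          have h7 := Finset.card_insert_le t ((Finset.range t).filter (fun j =>
            ¬ C.probes (X ω j) = C.probes (X ω (j + 1))))
          rcases C.rank_mono (hX1 ω t) with h8 | ⟨_, h8, _⟩
          · omega
          · exact absurd h8 h
    have h1 := hr m
    have h2 := C.rank_lt (X ω m)
    have h3 : (Finset.univ.filter (fun j : Fin m =>
        ¬ C.probes (X ω j.val) = C.probes (X ω (j.val + 1)))).card =
        ((Finset.range m).filter (fun j =>
          ¬ C.probes (X ω j) = C.probes (X ω (j + 1)))).card := by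
      refine Finset.card_bij (fun j _ => j.val) ?_ ?_ ?_
      · intro j hj
        rw [Finset.mem_filter] at hj ⊢
        exact ⟨Finset.mem_range.2 j.isLt, hj.2⟩
      · intro a _ b _ h
        exact Fin.ext h
      · intro b hb
        rw [Finset.mem_filter] at hb
        exact ⟨⟨b, Finset.mem_range.1 hb.1⟩, Finset.mem_filter.2 ⟨Finset.mem_univ _, hb.2⟩, rfl⟩
    omega
  -- conclusion
  generalize (C.fanins.map (· + 1)).prod = P at hcount ⊢
  have hT : 0 < Fintype.card (Fin m → ΩN) := Fintype.card_pos
  have hTr : (0 : ℝ) < Fintype.card (Fin m → ΩN) := by exact_mod_cast hT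
  have heq : ∀ j : Fin m, pr {ω | C.probes (X ω j.val) = C.probes (X ω (j.val + 1))} ≤ 1 / 2 := by
    intro j
    have h1 : {ω | C.probes (X ω j.val) = C.probes (X ω (j.val + 1))} ⊆
        Goodᶜ ∪ {ω | ω ∈ Good ∧ C.probes (X ω j.val) = C.probes (X ω (j.val + 1))} := by
      intro ω hω
      by_cases hg : ω ∈ Good
      · exact Or.inr ⟨hg, hω⟩
      · exact Or.inl hg
    have h2 := (flipI_pr_mono h1).trans (flipI_pr_union _ _)
    have h3 := hstep j
    linarith
  have hsum1 : ∀ j : Fin m,
      ((Finset.univ.filter (fun ω : Fin m → ΩN =>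
        C.probes (X ω j.val) = C.probes (X ω (j.val + 1)))).card : ℝ) ≤
        Fintype.card (Fin m → ΩN) / 2 := by
    intro j
    have h1 := heq j
    rw [flipI_pr_filter, div_le_iff₀ hTr] at h1
    linarith
  have hsum2 : ∀ j : Fin m,
      (Fintype.card (Fin m → ΩN) : ℝ) / 2 ≤ ((Finset.univ.filter (fun ω : Fin m → ΩN =>
        ¬ C.probes (X ω j.val) = C.probes (X ω (j.val + 1)))).card : ℝ) := by
    intro j
    have h1 := hsum1 j
    have h2 := Finset.card_filter_add_card_filter_not (s := (Finset.univ : Finset (Fin m → ΩN)))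
      (fun ω => C.probes (X ω j.val) = C.probes (X ω (j.val + 1)))
    rw [Finset.card_univ] at h2
    have h3 : (((Finset.univ.filter (fun ω : Fin m → ΩN =>
        C.probes (X ω j.val) = C.probes (X ω (j.val + 1)))).card : ℝ) +
        ((Finset.univ.filter (fun ω : Fin m → ΩN =>
        ¬ C.probes (X ω j.val) = C.probes (X ω (j.val + 1)))).card : ℝ)) =
        Fintype.card (Fin m → ΩN) := by exact_mod_cast h2
    linarith
  have hdc : ∑ j : Fin m, (Finset.univ.filter (fun ω : Fin m → ΩN =>
        ¬ C.probes (X ω j.val) = C.probes (X ω (j.val + 1)))).card =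
      ∑ ω : Fin m → ΩN, (Finset.univ.filter (fun j : Fin m =>
        ¬ C.probes (X ω j.val) = C.probes (X ω (j.val + 1)))).card := by
    simp only [Finset.card_filter]
    exact Finset.sum_comm
  have hle2 : ∑ ω : Fin m → ΩN, ((Finset.univ.filter (fun j : Fin m =>
        ¬ C.probes (X ω j.val) = C.probes (X ω (j.val + 1)))).card + 1) ≤
      ∑ _ω : Fin m → ΩN, P := Finset.sum_le_sum (fun ω _ => hcount ω)
  rw [Finset.sum_add_distrib, ← hdc] at hle2
  simp only [Finset.sum_const, Finset.card_univ, smul_eq_mul, mul_one] at hle2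
  have hle3 : ∑ j : Fin m, (Fintype.card (Fin m → ΩN) : ℝ) / 2 ≤
      ∑ j : Fin m, ((Finset.univ.filter (fun ω : Fin m → ΩN =>
        ¬ C.probes (X ω j.val) = C.probes (X ω (j.val + 1)))).card : ℝ) :=
    Finset.sum_le_sum (fun j _ => hsum2 j)
  rw [Finset.sum_const, Finset.card_univ, Fintype.card_fin, nsmul_eq_mul] at hle3
  have hle4 : (∑ j : Fin m, ((Finset.univ.filter (fun ω : Fin m → ΩN =>
        ¬ C.probes (X ω j.val) = C.probes (X ω (j.val + 1)))).card : ℝ)) +
        (Fintype.card (Fin m → ΩN) : ℝ) ≤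
        (Fintype.card (Fin m → ΩN) : ℝ) * (P : ℝ) := by
    exact_mod_cast hle2
  have hfin : (m : ℝ) < 2 * (P : ℝ) := by
    have h9 : (m : ℝ) * (Fintype.card (Fin m → ΩN) : ℝ) + 2 * (Fintype.card (Fin m → ΩN) : ℝ) ≤
        2 * (P : ℝ) * (Fintype.card (Fin m → ΩN) : ℝ) := by linarith
    nlinarith
  exact_mod_cast hfin

end Pool.Agent.H679R2.WH
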