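import Pool.Agent.H679R2.WH.Codes

/-!
# Interval gates
-/

set_option autoImplicit false

namespace Pool.Agent.H679R2.WH

open Pool.Agent.H520R2

/-- The conjunction over an interval. -/
def iand {V : Type} {M : ℕ} (f : Fin M → Set V → Bool) (a b : ℕ) : Set V → Bool :=
  fun x => decide (∀ i : Fin M, a ≤ i.val → i.val < b → f i x = true)

/-- The disjunction over an interval. -/
def ior {V : Type} {M : ℕ} (f : Fin M → Set V → Bool) (a b : ℕ) : Set V → Bool :=
  fun x => decide (∃ i : Fin M, a ≤ i.val ∧ i.val < b ∧ f i x = true)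

theorem iand_triv {V : Type} {M : ℕ} (f : Fin M → Set V → Bool) (a b : ℕ) (h : b ≤ a) :
    iand f a b = fun _ => true := by
  funext x
  simp only [iand, decide_eq_true_eq]
  intro i h1 h2
  omega

theorem ior_triv {V : Type} {M : ℕ} (f : Fin M → Set V → Bool) (a b : ℕ) (h : b ≤ a) :
    ior f a b = fun _ => false := by
  funext x
  simp only [ior, decide_eq_false_iff_not]
  rintro ⟨i, h1, h2, -⟩
  omega

theorem iand_succ {V : Type} {M : ℕ} (f : Fin M → Set V → Bool) (a c : ℕ) (h : a ≤ c)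
    (hc : c < M) : iand f a (c + 1) = fun x => iand f a c x && f ⟨c, hc⟩ x := by
  funext x
  rw [Bool.eq_iff_iff]
  simp only [iand, decide_eq_true_eq, Bool.and_eq_true]
  constructor
  · intro hx
    exact ⟨fun i h1 h2 => hx i h1 (by omega), hx ⟨c, hc⟩ h (by simp)⟩
  · rintro ⟨h1, h2⟩ i hi1 hi2
    rcases Nat.lt_or_ge i.val c with h3 | h3
    · exact h1 i hi1 h3
    · have : i = ⟨c, hc⟩ := Fin.ext (by simp; omega)
      rw [this]; exact h2

theorem ior_succ {V : Type} {M : ℕ} (f : Fin M → Set V → Bool) (a c : ℕ) (h : a ≤ c)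
    (hc : c < M) : ior f a (c + 1) = fun x => ior f a c x || f ⟨c, hc⟩ x := by
  funext x
  rw [Bool.eq_iff_iff]
  simp only [ior, decide_eq_true_eq, Bool.or_eq_true]
  constructor
  · rintro ⟨i, h1, h2, h3⟩
    rcases Nat.lt_or_ge i.val c with h4 | h4
    · exact Or.inl ⟨i, h1, h4, h3⟩
    · have : i = ⟨c, hc⟩ := Fin.ext (by simp; omega)
      rw [this] at h3
      exact Or.inr h3
  · rintro (⟨i, h1, h2, h3⟩ | h3)
    · exact ⟨i, h1, by omega, h3⟩
    · exact ⟨⟨c, hc⟩, h, by simp, h3⟩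

/-- One row. -/
theorem row_aux {V : Type} {M : ℕ} (F : ℕ → ℕ → Set V → Bool) (a : ℕ)
    (h0 : ∀ b, b ≤ a → F a b ∈ B0 V) {L : List (Set V → Bool)} (hL : MProg (B0 V) L)
    (hstep : ∀ c, a ≤ c → c < M → ∀ L', MProg (B0 V) (L' ++ L) → Av (B0 V) (L' ++ L) (F a c) →
      MProg (B0 V) (F a (c + 1) :: (L' ++ L))) (c : ℕ) (hc : c ≤ M) :
    ∃ L', MProg (B0 V) (L' ++ L) ∧ L'.length ≤ c ∧
      ∀ b ≤ c, Av (B0 V) (L' ++ L) (F a b) := by
  induction c with
  | zero =>
    refine ⟨[], by simpa using hL, by simp, ?_⟩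
    intro b hb
    exact Or.inl (h0 b (by omega))
  | succ c ih =>
    obtain ⟨L', hL', hlen, hav⟩ := ih (by omega)
    rcases Nat.lt_or_ge c a with hca | hca
    · refine ⟨L', hL', by omega, ?_⟩
      intro b hb
      rcases Nat.lt_or_ge b (c + 1) with hb' | hb'
      · exact hav b (by omega)
      · exact Or.inl (h0 b (by omega))
    · refine ⟨F a (c + 1) :: L', ?_, by simp; omega, ?_⟩
      · exact hstep c hca (by omega) L' hL' (hav c le_rfl)
      · intro b hb
        rcases Nat.lt_or_ge b (c + 1) with hb' | hb'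
        · exact (hav b (by omega)).cons _
        · have : b = c + 1 := by omega
          subst this
          exact Or.inr (List.mem_cons_self)

/-- All rows. -/
theorem rows_aux {V : Type} {M : ℕ} (F : ℕ → ℕ → Set V → Bool)
    (h0 : ∀ a b, b ≤ a → F a b ∈ B0 V) {L : List (Set V → Bool)} (hL : MProg (B0 V) L)
    (hstep : ∀ a c, a ≤ c → c < M → ∀ L', MProg (B0 V) (L' ++ L) →
      Av (B0 V) (L' ++ L) (F a c) → MProg (B0 V) (F a (c + 1) :: (L' ++ L))) (d : ℕ) :
    ∃ L', MProg (B0 V) (L' ++ L) ∧ L'.length ≤ d * M ∧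
      ∀ a < d, ∀ b ≤ M, Av (B0 V) (L' ++ L) (F a b) := by
  induction d with
  | zero => exact ⟨[], by simpa using hL, by simp, fun a ha => by omega⟩
  | succ d ih =>
    obtain ⟨L', hL', hlen, hav⟩ := ih
    obtain ⟨L2, hL2, hlen2, hav2⟩ := row_aux (M := M) F d (h0 d) hL'
      (fun c h1 h2 L3 h3 h4 => by
        have := hstep d c h1 h2 (L3 ++ L') (by rw [List.append_assoc]; exact h3)
          (by rw [List.append_assoc]; exact h4)
        rw [List.append_assoc] at this
        exact this) M le_rfl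
    refine ⟨L2 ++ L', by rw [List.append_assoc]; exact hL2, ?_, ?_⟩
    · rw [List.length_append]; nlinarith
    · intro a ha b hb
      rw [List.append_assoc]
      rcases Nat.lt_or_ge a d with ha' | ha'
      · exact (hav a ha' b hb).mono _
      · have : a = d := by omega
        subst this
        exact hav2 b hb

theorem gap_and {V : Type} {L : List (Set V → Bool)} (hL : MProg (B0 V) L) {M : ℕ}
    (f : Fin M → Set V → Bool) (hf : ∀ i, Av (B0 V) L (f i)) :
    ∃ L', MProg (B0 V) (L' ++ L) ∧ L'.length ≤ M ^ 2 ∧ ∀ a b : ℕ,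
      ∃ h : Set V → Bool, Av (B0 V) (L' ++ L) h ∧
        ∀ x, h x = true ↔ ∀ i : Fin M, a ≤ i.val → i.val < b → f i x = true := by
  obtain ⟨L', hL', hlen, hav⟩ := rows_aux (M := M) (iand f)
    (fun a b h => by rw [iand_triv f a b h]; exact Or.inl ⟨true, rfl⟩) hL
    (fun a c h1 h2 L' h3 h4 => by
      rw [iand_succ f a c h1 h2]
      exact MProg.and h3 h4 ((hf _).mono L')) M
  refine ⟨L', hL', by rw [sq]; exact hlen, ?_⟩
  intro a b
  rcases Nat.lt_or_ge a M with ha | ha
  · refine ⟨iand f a (min b M), hav a ha _ (min_le_right _ _), ?_⟩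
    intro x
    simp only [iand, decide_eq_true_eq]
    constructor
    · intro h i h1 h2
      exact h i h1 (lt_min h2 i.isLt)
    · intro h i h1 h2
      exact h i h1 (lt_of_lt_of_le h2 (min_le_left _ _))
  · refine ⟨fun _ => true, Or.inl (Or.inl ⟨true, rfl⟩), ?_⟩
    intro x
    simp only [true_iff]
    intro i h1 h2
    have := i.isLt
    omega

theorem gap_or {V : Type} {L : List (Set V → Bool)} (hL : MProg (B0 V) L) {M : ℕ}
    (f : Fin M → Set V → Bool) (hf : ∀ i, Av (B0 V) L (f i)) :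
    ∃ L', MProg (B0 V) (L' ++ L) ∧ L'.length ≤ M ^ 2 ∧ ∀ a b : ℕ,
      ∃ h : Set V → Bool, Av (B0 V) (L' ++ L) h ∧
        ∀ x, h x = true ↔ ∃ i : Fin M, a ≤ i.val ∧ i.val < b ∧ f i x = true := by
  obtain ⟨L', hL', hlen, hav⟩ := rows_aux (M := M) (ior f)
    (fun a b h => by rw [ior_triv f a b h]; exact Or.inl ⟨false, rfl⟩) hL
    (fun a c h1 h2 L' h3 h4 => by
      rw [ior_succ f a c h1 h2]
      exact MProg.or h3 h4 ((hf _).mono L')) M
  refine ⟨L', hL', by rw [sq]; exact hlen, ?_⟩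
  intro a b
  rcases Nat.lt_or_ge a M with ha | ha
  · refine ⟨ior f a (min b M), hav a ha _ (min_le_right _ _), ?_⟩
    intro x
    simp only [ior, decide_eq_true_eq]
    constructor
    · rintro ⟨i, h1, h2, h3⟩
      exact ⟨i, h1, lt_of_lt_of_le h2 (min_le_left _ _), h3⟩
    · rintro ⟨i, h1, h2, h3⟩
      exact ⟨i, h1, lt_min h2 i.isLt, h3⟩
  · refine ⟨fun _ => false, Or.inl (Or.inl ⟨false, rfl⟩), ?_⟩
    intro x
    simp only [Bool.false_eq_true, false_iff]
    rintro ⟨i, h1, h2, -⟩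
    have := i.isLt
    omega

/-- The complement of a set as a union of intervals. -/
theorem compl_intervals (S : Finset ℕ) : ∀ N : ℕ, (∀ x ∈ S, x < N) →
    ∃ l : List (ℕ × ℕ), l.length = S.card + 1 ∧ (∀ p ∈ l, p.2 ≤ N) ∧
      ∀ i, i < N → (i ∉ S ↔ ∃ p ∈ l, p.1 ≤ i ∧ i < p.2) := by
  induction S using Finset.induction_on_max with
  | empty =>
    intro N _
    refine ⟨[(0, N)], by simp, by simp, ?_⟩
    intro i hi
    simp [hi]
  | insert a S hS ih =>
    intro N hN
    have haN : a < N := hN a (Finset.mem_insert_self _ _)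
    have haS : a ∉ S := fun h => lt_irrefl _ (hS a h)
    obtain ⟨l, h1, h2, h3⟩ := ih a hS
    refine ⟨(a + 1, N) :: l, by simp [h1, Finset.card_insert_of_notMem haS], ?_, ?_⟩
    · intro p hp
      rcases List.mem_cons.1 hp with rfl | hp
      · simp
      · have := h2 p hp
        omega
    · intro i hi
      simp only [Finset.mem_insert, not_or, List.mem_cons, exists_eq_or_imp]
      rcases lt_trichotomy i a with hia | hia | hia
      · have h4 := h3 i hia
        constructor
        · rintro ⟨-, h5⟩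
          exact Or.inr (h4.1 h5)
        · rintro (⟨h5, -⟩ | h5)
          · omega
          · exact ⟨by omega, h4.2 h5⟩
      · subst hia
        constructor
        · rintro ⟨h5, -⟩
          exact absurd rfl h5
        · rintro (⟨h5, -⟩ | ⟨p, hp, h5, h6⟩)
          · omega
          · have := h2 p hp
            omega
      · constructor
        · intro _
          exact Or.inl ⟨hia, hi⟩
        · intro _
          refine ⟨by omega, fun h => ?_⟩
          have := hS i h
          omega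

/-- A set as a union of intervals. -/
theorem self_intervals (S : Finset ℕ) (N : ℕ) (hS : ∀ x ∈ S, x < N) :
    ∃ l : List (ℕ × ℕ), l.length = S.card ∧ (∀ p ∈ l, p.2 ≤ N) ∧
      ∀ i, (i ∈ S ↔ ∃ p ∈ l, p.1 ≤ i ∧ i < p.2) := by
  refine ⟨S.toList.map (fun s => (s, s + 1)), by simp, ?_, ?_⟩
  · intro p hp
    simp only [List.mem_map, Finset.mem_toList] at hp
    obtain ⟨s, hs, rfl⟩ := hp
    have := hS s hs
    simp only
    omega
  · intro i
    simp only [List.mem_map, Finset.mem_toList]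
    constructor
    · intro hi
      exact ⟨(i, i + 1), ⟨i, hi, rfl⟩, by simp, by simp⟩
    · rintro ⟨p, ⟨s, hs, rfl⟩, h1, h2⟩
      simp only at h1 h2
      have : i = s := by omega
      rw [this]; exact hs

/-- The enumeration of the literals. -/
def litEquiv (N : ℕ) : Fin (2 * N) ≃ Fin N × Bool where
  toFun i := if h : i.val < N then (⟨i.val, h⟩, true) else (⟨i.val - N, by omega⟩, false)
  invFun p := if p.2 then ⟨p.1.val, by omega⟩ else ⟨p.1.val + N, by omega⟩
  left_inv i := by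
    by_cases h : i.val < N
    · simp [h]
    · simp only [h, dif_neg, not_false_eq_true]
      apply Fin.ext
      simp
      omega
  right_inv := by
    rintro ⟨v, b⟩
    cases b with
    | true => simp
    | false => simp

theorem litEquiv_lt {N : ℕ} (i : Fin (2 * N)) (h : i.val < N) :
    litEquiv N i = (⟨i.val, h⟩, true) := by
  simp [litEquiv, h]

theorem litEquiv_ge {N : ℕ} (i : Fin (2 * N)) (h : ¬ i.val < N) :
    litEquiv N i = (⟨i.val - N, by omega⟩, false) := by
  simp [litEquiv, h]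

/-- Combining two lists of intervals. -/
theorem combine_intervals {N c : ℕ} (l1 l2 : List (ℕ × ℕ)) (hl : l1.length + l2.length = c)
    (P Q : ℕ → Prop) (h1 : ∀ p ∈ l1, p.2 ≤ N)
    (hP : ∀ i, i < N → (P i ↔ ∃ p ∈ l1, p.1 ≤ i ∧ i < p.2))
    (hQ : ∀ i, i < N → (Q i ↔ ∃ p ∈ l2, p.1 ≤ i ∧ i < p.2)) :
    ∃ I : Fin c → ℕ × ℕ, ∀ i : Fin (2 * N),
      ((∃ j, (I j).1 ≤ i.val ∧ i.val < (I j).2) ↔
        if i.val < N then P i.val else Q (i.val - N)) := by
  subst hl
  let l : List (ℕ × ℕ) := l1 ++ l2.map (fun p => (p.1 + N, p.2 + N))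
  have hlen : l.length = l1.length + l2.length := by simp [l]
  refine ⟨fun j => l.get (j.cast hlen.symm), ?_⟩
  intro i
  have h2 : (∃ j : Fin (l1.length + l2.length), (l.get (j.cast hlen.symm)).1 ≤ i.val ∧
      i.val < (l.get (j.cast hlen.symm)).2) ↔ ∃ p ∈ l, p.1 ≤ i.val ∧ i.val < p.2 := by
    constructor
    · rintro ⟨j, hj⟩
      exact ⟨_, List.get_mem _ _, hj⟩
    · rintro ⟨p, hp, hj⟩
      obtain ⟨k, hk⟩ := List.get_of_mem hp
      refine ⟨k.cast hlen, ?_⟩
      have : (k.cast hlen).cast hlen.symm = k := by ext; simp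
      rw [this, hk]
      exact hj
  rw [h2]
  split_ifs with hi
  · rw [hP i.val hi]
    constructor
    · rintro ⟨p, hp, h3, h4⟩
      rcases List.mem_append.1 hp with hp | hp
      · exact ⟨p, hp, h3, h4⟩
      · obtain ⟨q, hq, rfl⟩ := List.mem_map.1 hp
        simp only at h3
        omega
    · rintro ⟨p, hp, h3, h4⟩
      exact ⟨p, List.mem_append_left _ hp, h3, h4⟩
  · rw [hQ (i.val - N) (by omega)]
    constructor
    · rintro ⟨p, hp, h3, h4⟩
      rcases List.mem_append.1 hp with hp | hp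
      · have := h1 p hp
        omega
      · obtain ⟨q, hq, rfl⟩ := List.mem_map.1 hp
        simp only at h3 h4
        exact ⟨q, hq, by omega, by omega⟩
    · rintro ⟨p, hp, h3, h4⟩
      exact ⟨(p.1 + N, p.2 + N), List.mem_append_right _ (List.mem_map.2 ⟨p, hp, rfl⟩),
        by simp only; omega, by simp only; omega⟩

theorem units (N : ℕ) : ∃ e : Fin (2 * N) ≃ Fin N × Bool, ∀ (g : ℕ) (S : Finset (Fin N)),
    S.card = g →
    (∃ I : Fin (2 * g + 1) → ℕ × ℕ, ∀ i, ¬ lit S (e i) ↔ ∃ j, (I j).1 ≤ i.val ∧ i.val < (I j).2) ∧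
    (∃ I : Fin (2 * g + 1) → ℕ × ℕ, ∀ i, lit S (e i) ↔ ∃ j, (I j).1 ≤ i.val ∧ i.val < (I j).2) := by
  refine ⟨litEquiv N, ?_⟩
  intro g S hS
  let S' : Finset ℕ := S.map Fin.valEmbedding
  have hcard : S'.card = g := by simp [S', hS]
  have hmem : ∀ (v : ℕ) (hv : v < N), v ∈ S' ↔ (⟨v, hv⟩ : Fin N) ∈ S := by
    intro v hv
    simp only [S', Finset.mem_map, Fin.valEmbedding_apply]
    constructor
    · rintro ⟨w, hw, rfl⟩
      exact hw
    · intro h
      exact ⟨_, h, rfl⟩
  have hlt : ∀ x ∈ S', x < N := by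
    intro x hx
    simp only [S', Finset.mem_map, Fin.valEmbedding_apply] at hx
    obtain ⟨w, -, rfl⟩ := hx
    exact w.isLt
  obtain ⟨lc, hc1, hc2, hc3⟩ := compl_intervals S' N hlt
  obtain ⟨ls, hs1, hs2, hs3⟩ := self_intervals S' N hlt
  constructor
  · obtain ⟨I, hI⟩ := combine_intervals (N := N) (c := 2 * g + 1) lc ls (by omega)
      (fun i => i ∉ S') (fun i => i ∈ S') hc2 hc3 (fun i _ => hs3 i)
    refine ⟨I, ?_⟩
    intro i
    rw [hI i]
    by_cases hi : i.val < N
    · rw [if_pos hi, litEquiv_lt i hi, hmem _ hi]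
      simp [lit]
    · rw [if_neg hi, litEquiv_ge i hi, hmem _ (by omega)]
      simp [lit]
  · obtain ⟨I, hI⟩ := combine_intervals (N := N) (c := 2 * g + 1) ls lc (by omega)
      (fun i => i ∈ S') (fun i => i ∉ S') hs2 (fun i _ => hs3 i) hc3
    refine ⟨I, ?_⟩
    intro i
    rw [hI i]
    by_cases hi : i.val < N
    · rw [if_pos hi, litEquiv_lt i hi, hmem _ hi]
      simp [lit]
    · rw [if_neg hi, litEquiv_ge i hi, hmem _ (by omega)]
      simp [lit]

end Pool.Agent.H679R2.WH
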