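import Mathlib

/-!
# Numerical side conditions: common lemmas (helper559)
-/

set_option autoImplicit false

namespace Pool.Agent.H679R2.WH

open Filter Topology

theorem nb_root (e : ℕ) (he : 1 ≤ e) (n : ℕ) : ∃ y : ℕ, y ^ e ≤ n ∧ n < (y + 1) ^ e := by
  classical
  have hex : ∃ z : ℕ, n < (z + 1) ^ e := by
    refine ⟨n, ?_⟩
    calc n < n + 1 := Nat.lt_succ_self n
      _ = (n + 1) ^ 1 := (pow_one _).symm
      _ ≤ (n + 1) ^ e := Nat.pow_le_pow_right (Nat.succ_pos n) he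
  refine ⟨Nat.find hex, ?_, Nat.find_spec hex⟩
  rcases Nat.eq_zero_or_pos (Nat.find hex) with h0 | h0
  · rw [h0, zero_pow (by omega)]
    exact Nat.zero_le _
  · have h1 := Nat.find_min hex (m := Nat.find hex - 1) (by omega)
    rw [not_lt, Nat.sub_add_cancel h0] at h1
    exact h1

theorem nb_root_ge {e n y y0 : ℕ} (h : n < (y + 1) ^ e) (hn : y0 ^ e ≤ n) : y0 ≤ y := by
  by_contra hc
  have h1 : y + 1 ≤ y0 := by omega
  have h2 : (y + 1) ^ e ≤ y0 ^ e := Nat.pow_le_pow_left h1 e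
  omega

theorem nb_lg {e n y : ℕ} (hn : 0 < n) (h : n < (y + 1) ^ e) :
    Nat.log 2 n + 1 ≤ e * (Nat.log 2 y + 1) := by
  have h1 : y + 1 ≤ 2 ^ (Nat.log 2 y + 1) := Nat.lt_pow_succ_log_self (by norm_num) y
  have h2 : (y + 1) ^ e ≤ 2 ^ (e * (Nat.log 2 y + 1)) := by
    calc (y + 1) ^ e ≤ (2 ^ (Nat.log 2 y + 1)) ^ e := Nat.pow_le_pow_left h1 e
      _ = 2 ^ (e * (Nat.log 2 y + 1)) := by rw [← pow_mul, mul_comm]
  have h3 : Nat.log 2 n < e * (Nat.log 2 y + 1) :=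
    Nat.log_lt_of_lt_pow hn.ne' (lt_of_lt_of_le h h2)
  omega

/-- Polynomials of the logarithm are small. -/
theorem nb_polylog (C a e : ℕ) : ∀ᶠ y : ℕ in atTop, C * (e * (Nat.log 2 y + 1)) ^ a ≤ y := by
  have h1 : ∀ᶠ l : ℕ in atTop, C * (e * (l + 1)) ^ a ≤ 2 ^ l := by
    have h2 : Tendsto (fun l : ℕ => (l : ℝ) ^ a / (2 : ℝ) ^ l) atTop (𝓝 0) :=
      tendsto_pow_const_div_const_pow_of_one_lt a (by norm_num)
    have h3 : Tendsto (fun l : ℕ => ((l + 1 : ℕ) : ℝ) ^ a / (2 : ℝ) ^ (l + 1)) atTop (𝓝 0) :=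
      (tendsto_add_atTop_iff_nat 1).2 h2
    have h4 : Tendsto (fun l : ℕ => (2 * C * e ^ a : ℝ) *
        (((l + 1 : ℕ) : ℝ) ^ a / (2 : ℝ) ^ (l + 1))) atTop (𝓝 0) := by
      have := h3.const_mul (2 * C * e ^ a : ℝ)
      rwa [mul_zero] at this
    have h5 := h4.eventually_lt_const (show (0 : ℝ) < 1 by norm_num)
    filter_upwards [h5] with l hl
    have h6 : (0 : ℝ) < 2 ^ (l + 1) := by positivity
    rw [← mul_div_assoc, div_lt_one h6, pow_succ] at hl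
    have h7 : ((C * (e * (l + 1)) ^ a : ℕ) : ℝ) ≤ ((2 ^ l : ℕ) : ℝ) := by
      push_cast at hl ⊢
      rw [mul_pow]
      nlinarith [hl]
    exact_mod_cast h7
  obtain ⟨l0, hl0⟩ := eventually_atTop.1 h1
  refine eventually_atTop.2 ⟨2 ^ l0, fun y hy => ?_⟩
  have hy0 : y ≠ 0 := by
    have : 0 < 2 ^ l0 := by positivity
    omega
  have h8 : l0 ≤ Nat.log 2 y := by
    have := Nat.log_mono_right (b := 2) hy
    rwa [Nat.log_pow (by norm_num)] at this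
  exact (hl0 _ h8).trans (Nat.pow_log_le_self 2 hy0)

theorem nb_exp (e k : ℕ) (C : ℝ) : ∀ᶠ u : ℕ in atTop,
    (2 ^ e * (u : ℝ) ^ 2) ^ k * C * Real.exp (1 - u) ≤ 1 / 4 := by
  have h1 : Tendsto (fun x : ℝ => x ^ (2 * k) * Real.exp (-x)) atTop (𝓝 0) :=
    Real.tendsto_pow_mul_exp_neg_atTop_nhds_zero (2 * k)
  have h2 : Tendsto (fun u : ℕ => ((u : ℝ)) ^ (2 * k) * Real.exp (-(u : ℝ))) atTop (𝓝 0) :=
    h1.comp tendsto_natCast_atTop_atTop
  have h3 := h2.const_mul ((2 ^ e) ^ k * C * Real.exp 1)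
  rw [mul_zero] at h3
  filter_upwards [h3.eventually_lt_const (show (0 : ℝ) < 1 / 4 by norm_num)] with u hu
  refine le_of_eq_of_le ?_ hu.le
  rw [mul_pow, ← pow_mul (u : ℝ), show (1 : ℝ) - u = 1 + -(u : ℝ) by ring, Real.exp_add]
  ring

theorem nb_sqrt {n u : ℕ} (h : u * u ≤ n) : (u : ℝ) ≤ Real.sqrt n := by
  apply Real.le_sqrt_of_sq_le
  rw [sq]
  exact_mod_cast h

end Pool.Agent.H679R2.WH
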