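import Pool.Agent.H679R2.WH.NumE

/-!
# Task Q1v2: numerics, odd case, with one more conjunct (helper619, from `NumE.lean` by helper559)
-/

set_option autoImplicit false

namespace Pool.Agent.H679R2.WH

open Filter Topology

namespace NBPar

variable {q k e n y : ℕ} (P : NBPar q k e n y)
include P

theorem kil2 (t : ℕ) (hk : k * y ^ (2 * k) ≤ n) {C : ℝ} (hC : 0 ≤ C)
    (h : (2 ^ e * ((y ^ (2 * q * k) : ℕ) : ℝ) ^ 2) ^ (k + t) * C *
      Real.exp (1 - ((y ^ (2 * q * k) : ℕ) : ℝ)) ≤ 1 / 4) :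
    (n : ℝ) ^ t * (((k * y ^ (2 * k) : ℕ) : ℝ) ^ k * C *
      Real.exp (-((n - 1 : ℕ) : ℝ) / ((y ^ (2 * q) : ℕ) : ℝ) ^ k)) ≤ 1 / 4 := by
  set u : ℕ := y ^ (2 * q * k) with hu
  have hup : 0 < u := pow_pos P.ypos _
  have hur : (0 : ℝ) < u := by exact_mod_cast hup
  have h1 : ((y ^ (2 * q) : ℕ) : ℝ) ^ k = u := by
    rw [hu]
    push_cast
    rw [← pow_mul]
  rw [h1]
  have h2 : Real.exp (-((n - 1 : ℕ) : ℝ) / u) ≤ Real.exp (1 - u) := by
    refine Real.exp_le_exp.2 ?_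
    rw [div_le_iff₀ hur]
    have h3 : u * u ≤ (n - 1) + 1 := by
      rw [Nat.sub_add_cancel P.npos]
      exact P.usq
    have h4 : (u : ℝ) * u ≤ ((n - 1 : ℕ) : ℝ) + 1 := by exact_mod_cast h3
    have h5 : (1 : ℝ) ≤ u := by exact_mod_cast hup
    nlinarith
  have h6 : (n : ℝ) ≤ 2 ^ e * (u : ℝ) ^ 2 := by
    have h7 : n ≤ 2 ^ e * u ^ 2 := by
      refine P.up2.trans (Nat.mul_le_mul_left _ (le_of_eq ?_))
      rw [hu, ← pow_mul, P.he]
      congr 1
      ring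
    exact_mod_cast h7
  have h8 : (n : ℝ) ^ t ≤ (2 ^ e * (u : ℝ) ^ 2) ^ t := pow_le_pow_left₀ (Nat.cast_nonneg _) h6 t
  have h9 : ((k * y ^ (2 * k) : ℕ) : ℝ) ≤ 2 ^ e * (u : ℝ) ^ 2 := le_trans (by exact_mod_cast hk) h6
  refine le_trans ?_ h
  calc (n : ℝ) ^ t * (((k * y ^ (2 * k) : ℕ) : ℝ) ^ k * C * Real.exp (-((n - 1 : ℕ) : ℝ) / u))
      ≤ (2 ^ e * (u : ℝ) ^ 2) ^ t * ((2 ^ e * (u : ℝ) ^ 2) ^ k * C * Real.exp (1 - u)) := by
        refine mul_le_mul h8 (mul_le_mul (mul_le_mul_of_nonneg_right ?_ hC) h2 (Real.exp_pos _).le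
          (by positivity)) (by positivity) (by positivity)
        exact pow_le_pow_left₀ (by positivity) h9 k
    _ = _ := by rw [pow_add]; ring

end NBPar

theorem num_E2 (s c q : ℕ) (hs : 1 ≤ s) (hq : 1 ≤ q) : ∃ k : ℕ, 0 < k ∧ ∀ F g e : ℕ,
    ∃ n0 : ℕ, ∀ n ≥ n0, ∃ m n1 d0 : ℕ, m * (k * n1) ≤ n ∧ k ≤ n ∧
      (∀ P : ℕ, P ^ q ≤ n ^ (q - 1) → 2 * P ≤ m) ∧
      (m : ℝ) * (((k * n1 : ℕ) : ℝ) ^ k * Real.exp (-((n - 1 : ℕ) : ℝ) / (d0 : ℝ) ^ k)) ≤ 1 / 4 ∧
      (n : ℝ) ^ e * (((k * n1 : ℕ) : ℝ) ^ k *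
        Real.exp (-((n - 1 : ℕ) : ℝ) / (d0 : ℝ) ^ k)) ≤ 1 / 4 ∧
      ∀ A N S0 : ℕ, 1 ≤ A → A ≤ F * n ^ c → N ≤ F * n ^ c →
        S0 ≤ F * n ^ c + n + 2 * N * A ^ (2 * s - 1) → NumE n k n1 d0 s A N g S0 := by
  obtain ⟨D, hD⟩ : ∃ D, D = (c + 1) * (2 * s + 4) := ⟨_, rfl⟩
  obtain ⟨w, hw⟩ : ∃ w, w = 4 * q * (D + 1) := ⟨_, rfl⟩
  obtain ⟨k, hk⟩ : ∃ k, k = 2 * (w * w) := ⟨_, rfl⟩
  obtain ⟨e, he⟩ : ∃ e, e = 4 * q * k := ⟨_, rfl⟩
  have hw1 : 1 ≤ w := by
    rw [hw]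
    exact Nat.mul_pos (by omega) (Nat.succ_pos _)
  have hww : 1 ≤ w * w := Nat.mul_pos hw1 hw1
  have hk1 : 1 ≤ k := by omega
  have hqk : 1 ≤ q * k := Nat.mul_pos hq hk1
  have he1 : 1 ≤ e := by
    rw [he]
    exact Nat.mul_pos (by omega) hk1
  refine ⟨k, hk1, fun F g t => ?_⟩
  obtain ⟨c0, hc0⟩ : ∃ c0, c0 = 2 * (c + 1) * g + 1 := ⟨_, rfl⟩
  obtain ⟨w', hw'⟩ : ∃ w', w' = c0 + 8 * (D + 1) := ⟨_, rfl⟩
  have ev1 := nb_polylog ((2 * g + 1) * (4 * (D + 1)) ^ 2) 2 e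
  have ev2 := nb_exp e (k + 1) 1
  have ev3 := nb_exp e (k + t) 1
  obtain ⟨y1, hy1⟩ := eventually_atTop.1 ev1
  obtain ⟨y2, hy2⟩ := eventually_atTop.1 ev2
  obtain ⟨y3, hy3⟩ := eventually_atTop.1 ev3
  obtain ⟨b1, hb1⟩ : ∃ b, b = 2 ^ (D + 1) := ⟨_, rfl⟩
  obtain ⟨b2, hb2⟩ : ∃ b, b = (2 * k) ^ q := ⟨_, rfl⟩
  obtain ⟨b3, hb3⟩ : ∃ b, b = 12 * (w' * k * k) := ⟨_, rfl⟩
  obtain ⟨b4, hb4⟩ : ∃ b, b = w' * w' := ⟨_, rfl⟩
  obtain ⟨B, hB⟩ : ∃ B, B = y1 + y2 + y3 + F + 13 + b1 + k + b2 + b3 + b4 + s := ⟨_, rfl⟩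
  refine ⟨B ^ e, fun n hn => ?_⟩
  obtain ⟨y, hyl, hyu⟩ := nb_root e he1 n
  have hBy : B ≤ y := nb_root_ge hyu hn
  have hyy1 : y1 ≤ y := by omega
  have hyy2 : y2 ≤ y := by omega
  have hyy3 : y3 ≤ y := by omega
  have hyF : F ≤ y := by omega
  have hy13 : 13 ≤ y := by omega
  have hyb1 : 2 ^ (D + 1) ≤ y := by rw [← hb1]; omega
  have hyk : k ≤ y := by omega
  have hyb2 : (2 * k) ^ q ≤ y := by rw [← hb2]; omega
  have hyb3 : 12 * (w' * k * k) ≤ y := by rw [← hb3]; omega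
  have hyb4 : w' * w' ≤ y := by rw [← hb4]; omega
  have hys : s < y := by omega
  clear hB hBy
  have P : NBPar q k e n y := ⟨hq, hk1, he, le_trans (by norm_num) hy13, hyl, hyu⟩
  have hyn := P.yn
  have hn13 : 13 ≤ n := hy13.trans hyn
  have hnr : (0 : ℝ) < n := by exact_mod_cast P.npos
  have hn13r : (13 : ℝ) ≤ n := by exact_mod_cast hn13
  -- the logarithm
  obtain ⟨r, hr⟩ : ∃ r, r = 4 * (D + 1) * (Nat.log 2 n + 1) := ⟨_, rfl⟩
  obtain ⟨K, hK⟩ : ∃ K, K = r * r := ⟨_, rfl⟩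
  have hκy : (2 * g + 1) * K ≤ y := by
    refine le_trans ?_ (hy1 y hyy1)
    have h1 := nb_lg P.npos hyu
    rw [hK, hr]
    calc (2 * g + 1) * (4 * (D + 1) * (Nat.log 2 n + 1) * (4 * (D + 1) * (Nat.log 2 n + 1)))
        = (2 * g + 1) * (4 * (D + 1)) ^ 2 * (Nat.log 2 n + 1) ^ 2 := by ring
      _ ≤ _ := Nat.mul_le_mul_left _ (Nat.pow_le_pow_left h1 2)
  have hKg : K ≤ (2 * g + 1) * K := Nat.le_mul_of_pos_left _ (Nat.succ_pos _)
  have hKy : K ≤ y := hKg.trans hκy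
  have hr4 : 4 * (D + 1) ≤ r := by
    rw [hr]
    exact Nat.le_mul_of_pos_right _ (Nat.succ_pos _)
  have hKr : 2 * (D + 2) ≤ K := by
    rw [hK]
    calc 2 * (D + 2) ≤ 4 * (4 * (D + 1)) := by omega
      _ ≤ r * r := Nat.mul_le_mul (by omega) hr4
  have hm : n / (k * y ^ (2 * k)) * (k * y ^ (2 * k)) ≤ n := Nat.div_mul_le_self _ _
  refine ⟨n / (k * y ^ (2 * k)), y ^ (2 * k), y ^ (2 * q), hm, hyk.trans hyn, ?_, ?_, ?_, ?_⟩
  · intro R hR
    exact P.two_mul_le hyb2 hR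
  · have h1 := P.kil (m := n / (k * y ^ (2 * k))) (Nat.div_le_self _ _) (P.kn1 hyk)
      (C := 1) zero_le_one (hy2 _ (le_trans hyy2 P.yu))
    rwa [mul_one] at h1
  · have h1 := P.kil2 t (P.kn1 hyk) (C := 1) zero_le_one (hy3 _ (le_trans hyy3 P.yu))
    rwa [mul_one] at h1
  · intro A N S0 hA hAF hNF hS0
    have hFn : F ≤ n := hyF.trans hyn
    have hAn : A ≤ n ^ (c + 1) := hAF.trans (nb_pow_le hFn)
    have hNn : N ≤ n ^ (c + 1) := hNF.trans (nb_pow_le hFn)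
    have hAD : A ^ (2 * s) ≤ n ^ D := by
      calc A ^ (2 * s) ≤ (n ^ (c + 1)) ^ (2 * s) := Nat.pow_le_pow_left hAn _
        _ = n ^ ((c + 1) * (2 * s)) := (pow_mul _ _ _).symm
        _ ≤ n ^ D := Nat.pow_le_pow_right P.npos (by
            rw [hD]
            exact Nat.mul_le_mul_left _ (by omega))
    have hADr : (A : ℝ) ^ (2 * s) ≤ (n : ℝ) ^ D := by exact_mod_cast hAD
    have hyr : (0 : ℝ) < y := by exact_mod_cast P.ypos
    refine ⟨P.npos, hs, pow_pos P.ypos _, ?_, hk1, ?_, hA, n ^ D, w * w, K, r, w,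
      (2 * g + 1) * K, w', c0, ?_, hww, by omega, hK.ge, le_rfl, ?_, le_rfl, ?_, by omega, ?_, ?_,
      ?_⟩
    · exact (Nat.le_mul_of_pos_left _ hk1).trans (P.kn1 hyk)
    · calc k ≤ y := hyk
        _ = y ^ 1 := (pow_one y).symm
        _ ≤ y ^ (2 * q) := Nat.pow_le_pow_right P.ypos (by omega)
    · -- the total size
      obtain ⟨a, ha⟩ : ∃ a, a = n ^ (c + 1) := ⟨_, rfl⟩
      rw [← ha] at hAn hNn
      have ha1 : 1 ≤ a := by rw [ha]; exact pow_pos P.npos _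
      have hna : n ≤ a := by
        rw [ha]
        calc n = n ^ 1 := (pow_one n).symm
          _ ≤ n ^ (c + 1) := Nat.pow_le_pow_right P.npos (by omega)
      have hFa : F * n ^ c ≤ a := by rw [ha]; exact nb_pow_le hFn
      obtain ⟨b, hb⟩ : ∃ b, b = a ^ (2 * s - 1) := ⟨_, rfl⟩
      have ha0 : 0 < a := ha1
      have hb1 : 1 ≤ b := by rw [hb]; exact pow_pos ha0 _
      have hAb : A ^ (2 * s - 1) ≤ b := by rw [hb]; exact Nat.pow_le_pow_left hAn _
      have h1 : S0 ≤ a + a + 2 * a * b :=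
        hS0.trans (Nat.add_le_add (Nat.add_le_add hFa hna)
          (Nat.mul_le_mul (Nat.mul_le_mul_left _ hNn) hAb))
      have h2 : A ^ (2 * s - 1) * (2 * N + 1) ^ 2 ≤ b * (9 * (a * a)) := by
        refine Nat.mul_le_mul hAb ?_
        have : 2 * N + 1 ≤ 3 * a := by omega
        calc (2 * N + 1) ^ 2 ≤ (3 * a) ^ 2 := Nat.pow_le_pow_left this 2
          _ = 9 * (a * a) := by ring
      have h3 : a ≤ a * a * b := by
        calc a = a * 1 * 1 := by ring
          _ ≤ a * a * b := Nat.mul_le_mul (Nat.mul_le_mul_left _ ha1) hb1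
      have h4 : a * b ≤ a * a * b := by
        calc a * b = 1 * (a * b) := (one_mul _).symm
          _ ≤ a * (a * b) := Nat.mul_le_mul_right _ ha1
          _ = a * a * b := by ring
      calc S0 + A ^ (2 * s - 1) * (2 * N + 1) ^ 2 ≤ a + a + 2 * a * b + b * (9 * (a * a)) :=
            Nat.add_le_add h1 h2
        _ ≤ 13 * (a * a * b) := by
            have e1 : b * (9 * (a * a)) = 9 * (a * a * b) := by ring
            have e2 : 2 * a * b = 2 * (a * b) := by ring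
            rw [e1, e2]
            linarith
        _ ≤ n * (a * a * b) := Nat.mul_le_mul_right _ hn13
        _ = n * a ^ (2 * s + 1) := by
            rw [hb, mul_assoc a a, ← pow_succ', ← pow_succ']
            congr 2
            omega
        _ = n ^ ((c + 1) * (2 * s + 1) + 1) := by
            rw [ha, ← pow_mul, pow_succ]
            ring
        _ ≤ n ^ D := Nat.pow_le_pow_right P.npos (by
            rw [hD, mul_add (c + 1) (2 * s) 4, mul_add (c + 1) (2 * s) 1]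
            omega)
    · have := P.big1 (D := D) (K := K) hw hKy hyb1
      push_cast at this ⊢
      exact this
    · -- `2 N ^ g`
      have h1 : Real.sqrt n ^ (c0 + 1) = (n : ℝ) ^ ((c + 1) * g + 1) := by
        have : c0 + 1 = 2 * ((c + 1) * g + 1) := by rw [hc0]; ring
        rw [this, pow_mul, Real.sq_sqrt hnr.le]
      rw [h1, pow_succ, pow_mul]
      have h2 : (N : ℝ) ^ g ≤ ((n : ℝ) ^ (c + 1)) ^ g := by
        refine pow_le_pow_left₀ (Nat.cast_nonneg _) ?_ g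
        exact_mod_cast hNn
      have h3 : (0 : ℝ) < ((n : ℝ) ^ (c + 1)) ^ g := by positivity
      nlinarith
    · have h1 := P.big2 (D := D) hκy
      have h2 : w' - c0 = 8 * (D + 1) := by omega
      rw [h2]
      have h3 : (s : ℝ) < n := by
        have : s < n := lt_of_lt_of_le hys hyn
        exact_mod_cast this
      have h4 : (0 : ℝ) < (n : ℝ) ^ (D + 1) := by positivity
      calc (A : ℝ) ^ (2 * s) * s * ((((2 * g + 1) * K : ℕ) : ℝ) / Real.sqrt n) ^ (8 * (D + 1))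
          ≤ (n : ℝ) ^ D * s * (1 / (n : ℝ) ^ (D + 1)) :=
            mul_le_mul (mul_le_mul_of_nonneg_right hADr (Nat.cast_nonneg _)) h1 (by positivity)
              (by positivity)
        _ = s / n := by
            rw [pow_succ]
            field_simp
        _ < 1 := (div_lt_one hnr).2 h3
    · rw [div_le_one (Real.sqrt_pos.2 hnr)]
      refine le_trans ?_ P.usqrt
      exact_mod_cast hκy.trans P.yu
    · -- the last condition
      have hwk : ((w * w : ℕ) : ℝ) / k = 1 / 2 := by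
        rw [hk]
        have : (0 : ℝ) < ((w * w : ℕ) : ℝ) := by exact_mod_cast hww
        push_cast at this ⊢
        field_simp
      have h1 : (((w * w : ℕ) : ℝ) / k) ^ r ≤ 1 / (n : ℝ) ^ (4 * (D + 1)) := by
        rw [hwk, div_pow, one_pow]
        refine one_div_le_one_div_of_le (by positivity) ?_
        have h2 : n ≤ 2 ^ (Nat.log 2 n + 1) := (Nat.lt_pow_succ_log_self (by norm_num) n).le
        have h3 : n ^ (4 * (D + 1)) ≤ 2 ^ r := by
          calc n ^ (4 * (D + 1)) ≤ (2 ^ (Nat.log 2 n + 1)) ^ (4 * (D + 1)) :=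
                Nat.pow_le_pow_left h2 _
            _ = 2 ^ r := by rw [← pow_mul, hr, mul_comm]
        exact_mod_cast h3
      have h4 : ((w' : ℝ) / n) ^ ((2 * g + 1) * K + 1) ≤ 1 / (n : ℝ) ^ (D + 2) := by
        have h5 : (w' : ℝ) / n ≤ 1 := by
          rw [div_le_one hnr]
          have : w' ≤ n := by
            exact (Nat.le_mul_self w').trans (hyb4.trans hyn)
          exact_mod_cast this
        have h6 : 2 * (D + 2) ≤ (2 * g + 1) * K + 1 := (hKr.trans hKg).trans (Nat.le_succ _)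
        calc ((w' : ℝ) / n) ^ ((2 * g + 1) * K + 1) ≤ ((w' : ℝ) / n) ^ (2 * (D + 2)) :=
              pow_le_pow_of_le_one (by positivity) h5 h6
          _ = (((w' : ℝ) / n) ^ 2) ^ (D + 2) := by rw [pow_mul]
          _ ≤ (1 / (n : ℝ)) ^ (D + 2) := by
              refine pow_le_pow_left₀ (by positivity) ?_ _
              rw [div_pow, div_le_div_iff₀ (by positivity) hnr]
              have : w' * w' ≤ n := hyb4.trans hyn
              have h7 : (w' : ℝ) * w' ≤ n := by exact_mod_cast this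
              nlinarith
          _ = 1 / (n : ℝ) ^ (D + 2) := by rw [div_pow, one_pow]
      have h8 : (A : ℝ) ^ (2 * s) * (((n ^ D : ℕ) : ℝ) * (((w * w : ℕ) : ℝ) / k) ^ r +
          s * ((w' : ℝ) / n) ^ ((2 * g + 1) * K + 1)) ≤ 1 / 13 + 1 / 13 := by
        have h9 : (A : ℝ) ^ (2 * s) * (((n ^ D : ℕ) : ℝ) * (((w * w : ℕ) : ℝ) / k) ^ r) ≤ 1 / 13 := by
          calc (A : ℝ) ^ (2 * s) * (((n ^ D : ℕ) : ℝ) * (((w * w : ℕ) : ℝ) / k) ^ r)
              ≤ (n : ℝ) ^ D * ((n : ℝ) ^ D * (1 / (n : ℝ) ^ (4 * (D + 1)))) := by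
                refine mul_le_mul hADr ?_ (by positivity) (by positivity)
                push_cast at h1 ⊢
                exact mul_le_mul_of_nonneg_left h1 (by positivity)
            _ = (1 / n) ^ (2 * D + 4) := by
                rw [div_pow, one_pow, show 4 * (D + 1) = D + D + (2 * D + 4) by ring, pow_add,
                  pow_add]
                field_simp
            _ ≤ (1 / n) ^ 1 := pow_le_pow_of_le_one (by positivity)
                (by rw [div_le_one hnr]; linarith) (by omega)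
            _ = 1 / n := pow_one _
            _ ≤ 1 / 13 := one_div_le_one_div_of_le (by norm_num) hn13r
        have h10 : (A : ℝ) ^ (2 * s) * (s * ((w' : ℝ) / n) ^ ((2 * g + 1) * K + 1)) ≤ 1 / 13 := by
          have hsn : (s : ℝ) ≤ n := by
            have : s ≤ n := hys.le.trans hyn
            exact_mod_cast this
          calc (A : ℝ) ^ (2 * s) * (s * ((w' : ℝ) / n) ^ ((2 * g + 1) * K + 1))
              ≤ (n : ℝ) ^ D * (n * (1 / (n : ℝ) ^ (D + 2))) := by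
                refine mul_le_mul hADr ?_ (by positivity) (by positivity)
                exact mul_le_mul hsn h4 (by positivity) hnr.le
            _ = 1 / n := by
                rw [pow_add]
                field_simp
            _ ≤ 1 / 13 := one_div_le_one_div_of_le (by norm_num) hn13r
        rw [mul_add]
        exact add_le_add h9 h10
      have h11 : (w' : ℝ) * k * k / ((y ^ (2 * q) : ℕ) : ℝ) ≤ 1 / 12 := by
        have h12 : 12 * (w' * k * k) ≤ y ^ (2 * q) := by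
          calc 12 * (w' * k * k) ≤ y := hyb3
            _ = y ^ 1 := (pow_one y).symm
            _ ≤ y ^ (2 * q) := Nat.pow_le_pow_right P.ypos (by omega)
        have h13 : (12 : ℝ) * (w' * k * k) ≤ ((y ^ (2 * q) : ℕ) : ℝ) := by exact_mod_cast h12
        have h14 : (0 : ℝ) < ((y ^ (2 * q) : ℕ) : ℝ) := by exact_mod_cast pow_pos P.ypos _
        rw [div_le_div_iff₀ h14 (by norm_num)]
        linarith
      linarith

end Pool.Agent.H679R2.WH
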