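import Pool.Agent.H679R2.WH.NumE

/-!
# Task Q3: numerics, two levels (helper559)
-/

set_option autoImplicit false

namespace Pool.Agent.H679R2.WH

open Filter Topology

namespace NBPar

variable {q k e n y : ℕ} (P : NBPar q k e n y)
include P

/-- `n ^ D / (y ^ e) ^ (D + 1) ≤ 2 ^ D / y` -/
theorem ratio {D : ℕ} (hy : 2 ^ D ≤ y) {z : ℝ} (hz : z ≤ 1 / ((y : ℝ) ^ e) ^ (D + 1)) :
    (n : ℝ) ^ D * z ≤ 2 ^ D / y := by
  have hyp : (0 : ℝ) < y := by exact_mod_cast P.ypos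
  have h3 : (n : ℝ) ^ D ≤ ((2 : ℝ) ^ e * (y : ℝ) ^ e) ^ D := by
    refine pow_le_pow_left₀ (by positivity) ?_ D
    exact_mod_cast P.up2
  have h4 : ((2 : ℝ) ^ e * (y : ℝ) ^ e) ^ D * (1 / ((y : ℝ) ^ e) ^ (D + 1)) =
      ((2 : ℝ) ^ D / y) ^ e := by
    have h6 : ((2 : ℝ) ^ e) ^ D = ((2 : ℝ) ^ D) ^ e := by rw [← pow_mul, ← pow_mul, mul_comm]
    rw [mul_pow, div_pow, pow_succ, h6]
    field_simp
  have h5 : (2 : ℝ) ^ D / y ≤ 1 := by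
    rw [div_le_one hyp]
    exact_mod_cast hy
  calc (n : ℝ) ^ D * z ≤ (n : ℝ) ^ D * (1 / ((y : ℝ) ^ e) ^ (D + 1)) :=
        mul_le_mul_of_nonneg_left hz (by positivity)
    _ ≤ ((2 : ℝ) ^ e * (y : ℝ) ^ e) ^ D * (1 / ((y : ℝ) ^ e) ^ (D + 1)) :=
        mul_le_mul_of_nonneg_right h3 (by positivity)
    _ = ((2 : ℝ) ^ D / y) ^ e := h4
    _ ≤ ((2 : ℝ) ^ D / y) ^ 1 := pow_le_pow_of_le_one (by positivity) h5 P.e1
    _ = 2 ^ D / y := pow_one _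

/-- `(K / n1) ^ w ≤ 1 / (y ^ e) ^ (D + 1)` -/
theorem pw1 {D K w : ℕ} (hw : w = 4 * q * (D + 1)) (hK : K ≤ y) :
    ((K : ℝ) / ((y ^ (2 * k) : ℕ) : ℝ)) ^ w ≤ 1 / ((y : ℝ) ^ e) ^ (D + 1) := by
  have hyp : (0 : ℝ) < y := by exact_mod_cast P.ypos
  have h1 : (K : ℝ) / ((y ^ (2 * k) : ℕ) : ℝ) ≤ 1 / (y : ℝ) ^ k := by
    rw [div_le_div_iff₀ (by exact_mod_cast pow_pos P.ypos _) (by positivity), one_mul]
    have : K * y ^ k ≤ y ^ (2 * k) := by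
      calc K * y ^ k ≤ y * y ^ k := Nat.mul_le_mul_right _ hK
        _ = y ^ (k + 1) := by rw [pow_succ]; ring
        _ ≤ y ^ (2 * k) := Nat.pow_le_pow_right P.ypos (by have := P.hk; omega)
    exact_mod_cast this
  refine le_trans (pow_le_pow_left₀ (by positivity) h1 w) (le_of_eq ?_)
  rw [div_pow, one_pow, ← pow_mul, ← pow_mul, P.he, hw]
  congr 2
  ring

/-- `(W / d0) ^ (K + 1) ≤ 1 / (y ^ e) ^ (D + 1)` -/
theorem pw2 {D K W : ℕ} (hK : 4 * k * (D + 1) ≤ K + 1) (hW : W ≤ y) :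
    ((W : ℝ) / ((y ^ (2 * q) : ℕ) : ℝ)) ^ (K + 1) ≤ 1 / ((y : ℝ) ^ e) ^ (D + 1) := by
  have hyp : (0 : ℝ) < y := by exact_mod_cast P.ypos
  have h1 : (W : ℝ) / ((y ^ (2 * q) : ℕ) : ℝ) ≤ 1 / (y : ℝ) ^ q := by
    rw [div_le_div_iff₀ (by exact_mod_cast pow_pos P.ypos _) (by positivity), one_mul]
    have : W * y ^ q ≤ y ^ (2 * q) := by
      calc W * y ^ q ≤ y * y ^ q := Nat.mul_le_mul_right _ hW
        _ = y ^ (q + 1) := by rw [pow_succ]; ring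
        _ ≤ y ^ (2 * q) := Nat.pow_le_pow_right P.ypos (by have := P.hq; omega)
    exact_mod_cast this
  have h2 : (1 : ℝ) / (y : ℝ) ^ q ≤ 1 := by
    rw [div_le_one (by positivity)]
    exact_mod_cast Nat.one_le_pow q y P.ypos
  calc ((W : ℝ) / ((y ^ (2 * q) : ℕ) : ℝ)) ^ (K + 1) ≤ (1 / (y : ℝ) ^ q) ^ (K + 1) :=
        pow_le_pow_left₀ (by positivity) h1 _
    _ ≤ (1 / (y : ℝ) ^ q) ^ (4 * k * (D + 1)) :=
        pow_le_pow_of_le_one (by positivity) h2 hK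
    _ = 1 / ((y : ℝ) ^ e) ^ (D + 1) := by
        rw [div_pow, one_pow, ← pow_mul, ← pow_mul, P.he]
        congr 2
        ring

theorem kil0 {m : ℕ} (hm : m ≤ n)
    (h : (2 ^ (e + 1) * ((y ^ (2 * q * k) : ℕ) : ℝ) ^ 2) ^ k * 1 *
      Real.exp (1 - ((y ^ (2 * q * k) : ℕ) : ℝ)) ≤ 1 / 4) :
    ((m + 1 : ℕ) : ℝ) ^ k * Real.exp (-(n : ℝ) / ((y ^ (2 * q) : ℕ) : ℝ) ^ k) ≤ 1 / 4 := by
  set u : ℕ := y ^ (2 * q * k) with hu
  have hup : 0 < u := pow_pos P.ypos _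
  have hur : (0 : ℝ) < u := by exact_mod_cast hup
  have h1 : ((y ^ (2 * q) : ℕ) : ℝ) ^ k = u := by
    rw [hu]
    push_cast
    rw [← pow_mul]
  rw [h1]
  have h2 : Real.exp (-(n : ℝ) / u) ≤ Real.exp (1 - u) := by
    refine Real.exp_le_exp.2 ?_
    rw [div_le_iff₀ hur]
    have h4 : (u : ℝ) * u ≤ (n : ℝ) := by exact_mod_cast P.usq
    nlinarith
  have h6 : (n : ℝ) ≤ 2 ^ e * (u : ℝ) ^ 2 := by
    have h7 : n ≤ 2 ^ e * u ^ 2 := by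
      refine P.up2.trans (Nat.mul_le_mul_left _ (le_of_eq ?_))
      rw [hu, ← pow_mul, P.he]
      congr 1
      ring
    exact_mod_cast h7
  have h8 : ((m + 1 : ℕ) : ℝ) ≤ 2 ^ (e + 1) * (u : ℝ) ^ 2 := by
    have h9 : ((m + 1 : ℕ) : ℝ) ≤ 2 * n := by
      have : m + 1 ≤ 2 * n := by
        have := P.npos
        omega
      exact_mod_cast this
    refine h9.trans ?_
    rw [pow_succ]
    linarith
  refine le_trans ?_ h
  rw [mul_one]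
  exact mul_le_mul (pow_le_pow_left₀ (by positivity) h8 k) h2 (Real.exp_pos _).le (by positivity)

end NBPar

/-- `(1 - x) ^ (D + 1) / x ...` -/
theorem nb_geo {n D K w2 : ℕ} (hn : 0 < n)
    (hw2 : w2 = 2 ^ (K + 1) * ((D + 1) * (Nat.log 2 n + 1))) :
    (1 - (1 / 2 : ℝ) ^ (K + 1)) ^ w2 ≤ 1 / (n : ℝ) ^ (D + 1) := by
  have hnr : (0 : ℝ) < n := by exact_mod_cast hn
  have h0 : (1 / 2 : ℝ) ^ (K + 1) ≤ 1 := pow_le_one₀ (by norm_num) (by norm_num)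
  have h1 : 1 - (1 / 2 : ℝ) ^ (K + 1) ≤ Real.exp (-(1 / 2 : ℝ) ^ (K + 1)) := by
    have := Real.add_one_le_exp (-(1 / 2 : ℝ) ^ (K + 1))
    linarith
  have h2 : (1 / 2 : ℝ) ^ (K + 1) * 2 ^ (K + 1) = 1 := by
    rw [← mul_pow]
    norm_num
  calc (1 - (1 / 2 : ℝ) ^ (K + 1)) ^ w2 ≤ (Real.exp (-(1 / 2 : ℝ) ^ (K + 1))) ^ w2 :=
        pow_le_pow_left₀ (by linarith) h1 _
    _ = (Real.exp (-((Nat.log 2 n + 1 : ℕ) : ℝ))) ^ (D + 1) := by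
        rw [← Real.exp_nat_mul, ← Real.exp_nat_mul, hw2]
        congr 1
        push_cast
        linear_combination (-((D : ℝ) + 1) * ((Nat.log 2 n : ℝ) + 1)) * h2
    _ ≤ (1 / (n : ℝ)) ^ (D + 1) := by
        refine pow_le_pow_left₀ (Real.exp_pos _).le ?_ _
        rw [Real.exp_neg, ← one_div]
        refine one_div_le_one_div_of_le hnr ?_
        have h3 : n ≤ 2 ^ (Nat.log 2 n + 1) := (Nat.lt_pow_succ_log_self (by norm_num) n).le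
        have h4 : (n : ℝ) ≤ 2 ^ (Nat.log 2 n + 1) := by exact_mod_cast h3
        refine h4.trans ?_
        have h5 : (2 : ℝ) ≤ Real.exp 1 := by
          have := Real.add_one_le_exp (1 : ℝ)
          linarith
        calc (2 : ℝ) ^ (Nat.log 2 n + 1) ≤ (Real.exp 1) ^ (Nat.log 2 n + 1) :=
              pow_le_pow_left₀ (by norm_num) h5 _
          _ = Real.exp ((Nat.log 2 n + 1 : ℕ) : ℝ) := by
              rw [← Real.exp_nat_mul, mul_one]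
    _ = 1 / (n : ℝ) ^ (D + 1) := by rw [div_pow, one_pow]

theorem num_O0 (c q : ℕ) (hq : 1 ≤ q) : ∃ k : ℕ, 0 < k ∧ ∀ F g : ℕ, ∃ n0 : ℕ,
    ∀ n ≥ n0, ∃ m n1 d0 : ℕ, m * (k * n1) ≤ n ∧ k ≤ n ∧
      (∀ P : ℕ, P ^ q ≤ n ^ (q - 1) → 2 * P ≤ m) ∧
      ((m * (k * n1) + 1 : ℕ) : ℝ) ^ k * Real.exp (-(n : ℝ) / (d0 : ℝ) ^ k) ≤ 1 / 4 ∧
      ∀ N S0 : ℕ, N ≤ F * n ^ c →
        S0 ≤ F * n ^ c + n + (2 * N) ^ 2 → NumO0 n k n1 d0 N g S0 := by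
  obtain ⟨D, hD⟩ : ∃ D, D = 5 * (c + 1) + 3 := ⟨_, rfl⟩
  obtain ⟨w1, hw1⟩ : ∃ w, w = 4 * q * (D + 1) := ⟨_, rfl⟩
  obtain ⟨k, hk⟩ : ∃ k, k = 2 * w1 := ⟨_, rfl⟩
  obtain ⟨e, he⟩ : ∃ e, e = 4 * q * k := ⟨_, rfl⟩
  obtain ⟨K, hK⟩ : ∃ K, K = 4 * k * (D + 2) := ⟨_, rfl⟩
  have hw11 : 1 ≤ w1 := by
    rw [hw1]
    exact Nat.mul_pos (by omega) (Nat.succ_pos _)
  have hk1 : 1 ≤ k := by omega
  have he1 : 1 ≤ e := by
    rw [he]
    exact Nat.mul_pos (by omega) hk1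
  have hK1 : 1 ≤ K := by
    rw [hK]
    exact Nat.mul_pos (by omega) (by omega)
  have hKk : 4 * k * (D + 1) ≤ K + 1 := by
    rw [hK]
    have : 4 * k * (D + 1) ≤ 4 * k * (D + 2) := Nat.mul_le_mul_left _ (by omega)
    omega
  refine ⟨k, hk1, fun F g => ?_⟩
  have ev1 := nb_polylog ((8 * (2 * g + 1) ^ 2) * (K * (2 ^ (K + 1) * (D + 1)))) 1 e
  have ev2 := nb_exp (e + 1) k 1
  obtain ⟨y1, hy1⟩ := eventually_atTop.1 ev1
  obtain ⟨y2, hy2⟩ := eventually_atTop.1 ev2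
  obtain ⟨b1, hb1⟩ : ∃ b, b = 2 ^ D * 8 := ⟨_, rfl⟩
  obtain ⟨b2, hb2⟩ : ∃ b, b = (2 * k) ^ q := ⟨_, rfl⟩
  obtain ⟨b3, hb3⟩ : ∃ b, b = 2 ^ K * K := ⟨_, rfl⟩
  obtain ⟨b4, hb4⟩ : ∃ b, b = K * 2 ^ (K + 1) := ⟨_, rfl⟩
  obtain ⟨B, hB⟩ : ∃ B, B = y1 + y2 + F + 168 + b1 + k + b2 + b3 + b4 := ⟨_, rfl⟩
  refine ⟨B ^ e, fun n hn => ?_⟩
  obtain ⟨y, hyl, hyu⟩ := nb_root e he1 n
  have hBy : B ≤ y := nb_root_ge hyu hn
  have hyy1 : y1 ≤ y := by omega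
  have hyy2 : y2 ≤ y := by omega
  have hyF : F ≤ y := by omega
  have hy13 : 168 ≤ y := by omega
  have hyb1 : 2 ^ D * 8 ≤ y := by rw [← hb1]; omega
  have hyk : k ≤ y := by omega
  have hyb2 : (2 * k) ^ q ≤ y := by rw [← hb2]; omega
  have hyb3 : 2 ^ K * K ≤ y := by rw [← hb3]; omega
  have hyb4 : K * 2 ^ (K + 1) ≤ y := by rw [← hb4]; omega
  clear hB hBy
  have P : NBPar q k e n y := ⟨hq, hk1, he, le_trans (by norm_num) hy13, hyl, hyu⟩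
  have hyn := P.yn
  have hn13 : 168 ≤ n := hy13.trans hyn
  have hnr : (0 : ℝ) < n := by exact_mod_cast P.npos
  have hyr : (0 : ℝ) < y := by exact_mod_cast P.ypos
  have hn13r : (168 : ℝ) ≤ n := by exact_mod_cast hn13
  obtain ⟨w2, hw2⟩ : ∃ w2, w2 = 2 ^ (K + 1) * ((D + 1) * (Nat.log 2 n + 1)) := ⟨_, rfl⟩
  have hw21 : 1 ≤ w2 := by
    rw [hw2]
    exact Nat.mul_pos (by positivity) (Nat.mul_pos (Nat.succ_pos _) (Nat.succ_pos _))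
  have hWg : (8 * (2 * g + 1) ^ 2) * (K * w2) ≤ y := by
    refine le_trans ?_ (hy1 y hyy1)
    have h1 := nb_lg P.npos hyu
    rw [hw2, pow_one]
    calc 8 * (2 * g + 1) ^ 2 * (K * (2 ^ (K + 1) * ((D + 1) * (Nat.log 2 n + 1))))
        = 8 * (2 * g + 1) ^ 2 * (K * (2 ^ (K + 1) * (D + 1))) * (Nat.log 2 n + 1) := by ring
      _ ≤ _ := Nat.mul_le_mul_left _ h1
  have hWy : K * w2 ≤ y :=
    (Nat.le_mul_of_pos_left _ (by positivity)).trans hWg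
  have hm : n / (k * y ^ (2 * k)) * (k * y ^ (2 * k)) ≤ n := Nat.div_mul_le_self _ _
  have h2Dy : (2 : ℝ) ^ D / y ≤ 1 / 8 := by
    rw [div_le_div_iff₀ hyr (by norm_num), one_mul]
    exact_mod_cast hyb1
  have h2D : 2 ^ D ≤ y := (Nat.le_mul_of_pos_right _ (by norm_num)).trans hyb1
  have hyn1 : y ≤ y ^ (2 * k) := by
    calc y = y ^ 1 := (pow_one y).symm
      _ ≤ y ^ (2 * k) := Nat.pow_le_pow_right P.ypos (by omega)
  have hyd0 : y ≤ y ^ (2 * q) := by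
    calc y = y ^ 1 := (pow_one y).symm
      _ ≤ y ^ (2 * q) := Nat.pow_le_pow_right P.ypos (by omega)
  refine ⟨n / (k * y ^ (2 * k)), y ^ (2 * k), y ^ (2 * q), hm, hyk.trans hyn, ?_, ?_, ?_⟩
  · intro R hR
    exact P.two_mul_le hyb2 hR
  · exact P.kil0 hm (hy2 _ (le_trans hyy2 P.yu))
  · intro N S0 hNF hS0
    have hFn : F ≤ n := hyF.trans hyn
    have hNn : N ≤ n ^ (c + 1) := hNF.trans (nb_pow_le hFn)
    refine ⟨P.npos, pow_pos P.ypos _, ?_, hk1, pow_pos P.ypos _, n ^ D, K * w2, K, w1, w2,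
      ?_, Nat.mul_pos hK1 hw21, hK1, le_rfl, hk.ge, ?_, ?_, ?_⟩
    · exact (Nat.le_mul_of_pos_left _ hk1).trans (P.kn1 hyk)
    · obtain ⟨a, ha⟩ : ∃ a, a = n ^ (c + 1) := ⟨_, rfl⟩
      rw [← ha] at hNn
      have ha1 : 1 ≤ a := by rw [ha]; exact Nat.one_le_pow _ _ P.npos
      have hna : n ≤ a := by
        rw [ha]
        calc n = n ^ 1 := (pow_one n).symm
          _ ≤ n ^ (c + 1) := Nat.pow_le_pow_right P.npos (by omega)
      have hFa : F * n ^ c ≤ a := by rw [ha]; exact nb_pow_le hFn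
      have h1 : (2 * N) ^ 2 ≤ 4 * a ^ 4 := by
        calc (2 * N) ^ 2 ≤ (2 * a) ^ 2 := Nat.pow_le_pow_left (by omega) 2
          _ = 4 * a ^ 2 := by ring
          _ ≤ 4 * a ^ 4 := Nat.mul_le_mul_left _ (Nat.pow_le_pow_right ha1 (by norm_num))
      have h2 : (2 * N + 1) ^ 4 ≤ 81 * a ^ 4 := by
        calc (2 * N + 1) ^ 4 ≤ (3 * a) ^ 4 := Nat.pow_le_pow_left (by omega) 4
          _ = 81 * a ^ 4 := by ring
      have h3 : a ≤ a ^ 4 := by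
        calc a = a ^ 1 := (pow_one a).symm
          _ ≤ a ^ 4 := Nat.pow_le_pow_right ha1 (by norm_num)
      calc S0 + 2 * (2 * N + 1) ^ 4 ≤ 168 * a ^ 4 := by omega
        _ ≤ n * a ^ 4 := Nat.mul_le_mul_right _ hn13
        _ = n ^ ((c + 1) * 4 + 1) := by rw [ha, ← pow_mul, pow_succ]; ring
        _ ≤ n ^ D := Nat.pow_le_pow_right P.npos (by omega)
    · rw [div_le_iff₀ (by exact_mod_cast pow_pos P.ypos _), one_div, inv_pow, ← div_eq_inv_mul,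
        le_div_iff₀ (by positivity)]
      exact_mod_cast hyb4.trans hyn1
    · have h1 := P.ratio (D := D) h2D (P.pw1 (D := D) (K := 2 ^ K * K) hw1 hyb3)
      have h2 : (n : ℝ) ^ D * (1 - (1 / 2 : ℝ) ^ (K + 1)) ^ w2 ≤ 1 / 168 := by
        calc (n : ℝ) ^ D * (1 - (1 / 2 : ℝ) ^ (K + 1)) ^ w2 ≤
              (n : ℝ) ^ D * (1 / (n : ℝ) ^ (D + 1)) :=
              mul_le_mul_of_nonneg_left (nb_geo P.npos hw2) (by positivity)
          _ = 1 / n := by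
              rw [pow_succ]
              field_simp
          _ ≤ 1 / 168 := one_div_le_one_div_of_le (by norm_num) hn13r
      push_cast at h1 ⊢
      rw [mul_add]
      linarith
    · have h1 := P.ratio (D := D) h2D (P.pw2 (D := D) (K := K) (W := K * w2) hKk hWy)
      have h2 : (((2 * g + 1) ^ 2 : ℕ) : ℝ) * ((K * w2 : ℕ) : ℝ) / ((y ^ (2 * q) : ℕ) : ℝ) ≤
          1 / 8 := by
        rw [div_le_div_iff₀ (by exact_mod_cast pow_pos P.ypos _) (by norm_num), one_mul]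
        have h3 : (2 * g + 1) ^ 2 * (K * w2) * 8 ≤ y ^ (2 * q) := by
          refine le_trans (le_of_eq ?_) (hWg.trans hyd0)
          ring
        exact_mod_cast h3
      push_cast at h1 h2 ⊢
      linarith

end Pool.Agent.H679R2.WH
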