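import Mathlib

/-! Task P0: splitting `n`. -/

namespace Pool.Agent.H679R2.WH

theorem split_n (q C B : ℕ) (hq : 1 ≤ q) (hC : 1 ≤ C) : ∃ n0 : ℕ, ∀ n ≥ n0, ∃ b h : ℕ,
    B ≤ b ∧ 1 ≤ b ∧ 1 ≤ h ∧ b ^ (2 * q) ≤ n ∧ n ≤ (2 * b) ^ (2 * q) ∧ C * (h * b) ≤ n ∧
    2 ^ q * n ^ (q - 1) ≤ h ^ q := by
  refine ⟨(B + C) ^ (2 * q) + (2 * C) ^ (2 * q) * 4 ^ q, fun n hn => ?_⟩
  have h2q : 2 * q ≠ 0 := by omega
  set b := Nat.findGreatest (fun b => b ^ (2 * q) ≤ n) n with hb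
  have hspec : b ^ (2 * q) ≤ n := by
    have := Nat.findGreatest_spec (P := fun b => b ^ (2 * q) ≤ n) (m := 0) (n := n)
      (Nat.zero_le n) (by simp [h2q])
    exact this
  have hBC : B + C ≤ b := by
    apply Nat.le_findGreatest
    · calc B + C ≤ (B + C) ^ (2 * q) := Nat.le_self_pow h2q _
        _ ≤ n := by omega
    · show (B + C) ^ (2 * q) ≤ n
      omega
  have hb1 : 1 ≤ b := by omega
  have hlt : n < (b + 1) ^ (2 * q) := by
    by_cases hbn : b + 1 ≤ n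
    · have := Nat.findGreatest_is_greatest (P := fun b => b ^ (2 * q) ≤ n) (n := n) (k := b + 1)
        (by rw [← hb]; omega) hbn
      simpa using this
    · calc n < b + 1 := by omega
        _ ≤ (b + 1) ^ (2 * q) := Nat.le_self_pow h2q _
  have hn2 : n ≤ (2 * b) ^ (2 * q) :=
    hlt.le.trans (Nat.pow_le_pow_left (by omega) _)
  have hCb : C * b ≤ n := by
    calc C * b ≤ b * b := Nat.mul_le_mul_right b (by omega)
      _ = b ^ 2 := (sq b).symm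
      _ ≤ b ^ (2 * q) := Nat.pow_le_pow_right hb1 (by omega)
      _ ≤ n := hspec
  have hCb0 : 0 < C * b := Nat.mul_pos (by omega) (by omega)
  set h := n / (C * b) with hh
  have hh1 : 1 ≤ h := (Nat.one_le_div_iff hCb0).mpr hCb
  have hmul : C * (h * b) ≤ n := by
    calc C * (h * b) = h * (C * b) := by ring
      _ ≤ n := Nat.div_mul_le_self n (C * b)
  have hn3 : n ≤ 2 * C * b * h := by
    have h1 : n < C * b * (h + 1) := Nat.lt_mul_div_succ n hCb0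
    nlinarith
  have hn0 : 0 < n := by
    have : 0 < C * b := hCb0
    omega
  refine ⟨b, h, by omega, hb1, hh1, hspec, hn2, hmul, ?_⟩
  have e1 : n ^ (2 * q) ≤ (2 * C) ^ (2 * q) * n * h ^ (2 * q) := by
    calc n ^ (2 * q) ≤ (2 * C * b * h) ^ (2 * q) := Nat.pow_le_pow_left hn3 _
      _ = (2 * C) ^ (2 * q) * b ^ (2 * q) * h ^ (2 * q) := by rw [mul_pow, mul_pow (2 * C) b]
      _ ≤ (2 * C) ^ (2 * q) * n * h ^ (2 * q) :=
        Nat.mul_le_mul_right _ (Nat.mul_le_mul_left _ hspec)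
  have e2 : n ^ (2 * q) = n * n * n ^ (2 * (q - 1)) := by
    rw [← sq, ← pow_add]; congr 1; omega
  have e3 : (2 * C) ^ (2 * q) * (2 ^ q * n ^ (q - 1)) ^ 2 ≤ (2 * C) ^ (2 * q) * (h ^ q) ^ 2 := by
    have e4 : (2 ^ q * n ^ (q - 1)) ^ 2 = 4 ^ q * n ^ (2 * (q - 1)) := by
      rw [mul_pow, ← pow_mul, ← pow_mul, mul_comm q 2, pow_mul, mul_comm (q - 1) 2]
      norm_num
    have e5 : (h ^ q) ^ 2 = h ^ (2 * q) := by rw [← pow_mul, mul_comm]
    rw [e4, e5]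
    have e6 : n * ((2 * C) ^ (2 * q) * (4 ^ q * n ^ (2 * (q - 1)))) ≤
        n * ((2 * C) ^ (2 * q) * h ^ (2 * q)) := by
      calc n * ((2 * C) ^ (2 * q) * (4 ^ q * n ^ (2 * (q - 1))))
          = n * n ^ (2 * (q - 1)) * ((2 * C) ^ (2 * q) * 4 ^ q) := by ring
        _ ≤ n * n ^ (2 * (q - 1)) * n := Nat.mul_le_mul_left _ (by omega)
        _ = n ^ (2 * q) := by rw [e2]; ring
        _ ≤ (2 * C) ^ (2 * q) * n * h ^ (2 * q) := e1
        _ = _ := by ring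
    exact Nat.le_of_mul_le_mul_left e6 hn0
  have e7 : 0 < (2 * C) ^ (2 * q) := by positivity
  have e8 := Nat.le_of_mul_le_mul_left e3 e7
  exact (Nat.pow_le_pow_iff_left (by norm_num : (2 : ℕ) ≠ 0)).mp e8

end Pool.Agent.H679R2.WH
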