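import Pool.Agent.H679R2.WH.NumE2
import Pool.Agent.H679R2.WH.SplitN

/-! Task P1: final parameters, odd case (and common lemmas for P2, P3). -/

set_option autoImplicit false

namespace Pool.Agent.H679R2.WH

theorem par_big (q r n h P : ℕ) (hq : 1 ≤ q) (hr : 1 ≤ r) (hn : 2 ^ q * n ^ (q - 1) ≤ h ^ q)
    (hP : P ^ q ≤ n ^ (r * (q - 1))) : 2 * P ≤ h ^ r := by
  have h1 : (2 * P) ^ q ≤ (h ^ r) ^ q := by
    calc (2 * P) ^ q = 2 ^ q * P ^ q := by rw [mul_pow]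
      _ ≤ 2 ^ q * n ^ (r * (q - 1)) := Nat.mul_le_mul_left _ hP
      _ ≤ (2 ^ q) ^ r * n ^ (r * (q - 1)) :=
          Nat.mul_le_mul_right _ (Nat.le_self_pow (by omega) _)
      _ = (2 ^ q * n ^ (q - 1)) ^ r := by
          rw [mul_pow, ← pow_mul n, mul_comm (q - 1) r]
      _ ≤ (h ^ q) ^ r := Nat.pow_le_pow_left hn r
      _ = (h ^ r) ^ q := by rw [← pow_mul, ← pow_mul, mul_comm]
  exact (Nat.pow_le_pow_iff_left (by omega : q ≠ 0)).1 h1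

theorem par_hpow (q r n h b : ℕ) (hb : 2 ^ (2 * q * r) ≤ b) (hhn : h ≤ n)
    (hnb : n ≤ (2 * b) ^ (2 * q)) : h ^ r ≤ b ^ (2 * q * r + 1) := by
  calc h ^ r ≤ n ^ r := Nat.pow_le_pow_left hhn r
    _ ≤ ((2 * b) ^ (2 * q)) ^ r := Nat.pow_le_pow_left hnb r
    _ = 2 ^ (2 * q * r) * b ^ (2 * q * r) := by rw [← pow_mul, mul_pow]
    _ ≤ b * b ^ (2 * q * r) := Nat.mul_le_mul_right _ hb
    _ = b ^ (2 * q * r + 1) := by rw [pow_succ, mul_comm]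

theorem par_poly (q r c F n b : ℕ) (hn1 : 1 ≤ n) (hnb : n ≤ (2 * b) ^ (2 * q)) :
    F * n ^ c + n ^ r ≤ (F + 1) * 2 ^ (2 * q * (c + r)) * b ^ (2 * q * (c + r)) := by
  have h1 : n ^ (c + r) ≤ 2 ^ (2 * q * (c + r)) * b ^ (2 * q * (c + r)) := by
    calc n ^ (c + r) ≤ ((2 * b) ^ (2 * q)) ^ (c + r) := Nat.pow_le_pow_left hnb _
      _ = 2 ^ (2 * q * (c + r)) * b ^ (2 * q * (c + r)) := by rw [← pow_mul, mul_pow]
  have h2 : n ^ c ≤ n ^ (c + r) := Nat.pow_le_pow_right hn1 (by omega)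
  have h3 : n ^ r ≤ n ^ (c + r) := Nat.pow_le_pow_right hn1 (by omega)
  calc F * n ^ c + n ^ r ≤ F * n ^ (c + r) + n ^ (c + r) :=
        Nat.add_le_add (Nat.mul_le_mul_left _ h2) h3
    _ = (F + 1) * n ^ (c + r) := by ring
    _ ≤ (F + 1) * (2 ^ (2 * q * (c + r)) * b ^ (2 * q * (c + r))) := Nat.mul_le_mul_left _ h1
    _ = _ := by ring

theorem par_real (h b r e : ℕ) (x : ℝ) (hx : 0 ≤ x) (hhb : h ^ r ≤ b ^ e)
    (hle : (b : ℝ) ^ e * x ≤ 1 / 4) : ((h ^ r : ℕ) : ℝ) * x ≤ 1 / 4 := by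
  refine le_trans (mul_le_mul_of_nonneg_right ?_ hx) hle
  exact_mod_cast hhb

theorem par_E (s c q : ℕ) (hs : 1 ≤ s) (hq : 1 ≤ q) : ∃ k : ℕ, 0 < k ∧ ∀ F g : ℕ, ∃ n0 : ℕ,
    ∀ n ≥ n0, ∃ h b n1 d0 : ℕ, 0 < h ∧
      h * b + 1 + (2 * s + k) + k * h + 2 * s ≤ n ∧ 2 * s * h + h * (k * n1) ≤ n ∧
      (∀ P : ℕ, P ^ q ≤ n ^ ((2 * s + 1) * (q - 1)) → 2 * P ≤ h ^ (2 * s + 1)) ∧
      ((h ^ (2 * s + 1) : ℕ) : ℝ) * (((k * n1 : ℕ) : ℝ) ^ k *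
        Real.exp (-((b - 1 : ℕ) : ℝ) / (d0 : ℝ) ^ k)) ≤ 1 / 4 ∧
      ∀ A N S0 : ℕ, 1 ≤ A → A ≤ F * n ^ c → N ≤ F * n ^ c →
        S0 ≤ F * n ^ c + n ^ (2 * s + 1) + 2 * N * A ^ (2 * s - 1) →
        NumE b k n1 d0 s A N g S0 := by
  obtain ⟨k, hk, H⟩ := num_E2 s (2 * q * (c + (2 * s + 1))) 1 hs le_rfl
  refine ⟨k, hk, fun F g => ?_⟩
  obtain ⟨n1', hn1'⟩ := H ((F + 1) * 2 ^ (2 * q * (c + (2 * s + 1)))) g (2 * q * (2 * s + 1) + 1)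
  obtain ⟨n0, hn0⟩ := split_n q (4 * s + 2 * k + 2) (n1' + 2 ^ (2 * q * (2 * s + 1))) hq
    (by omega)
  refine ⟨n0, fun n hn => ?_⟩
  obtain ⟨b, h, hB, hb1, hh1, hbn, hnb, hC, hh2⟩ := hn0 n hn
  obtain ⟨m, n1, d0, hm1, -, hm2, -, hm3, hm4⟩ := hn1' b (le_trans (Nat.le_add_right _ _) hB)
  have hm : 2 ≤ m := by
    have := hm2 1 (by simp)
    omega
  have hkn : k * n1 ≤ b := by nlinarith [Nat.zero_le (k * n1)]
  have hhb : 1 ≤ h * b := Nat.mul_pos hh1 hb1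
  have hh3 : h ≤ h * b := Nat.le_mul_of_pos_right _ hb1
  have hb3 : b ≤ h * b := Nat.le_mul_of_pos_left _ hh1
  have hn1 : 1 ≤ n := by nlinarith
  refine ⟨h, b, n1, d0, hh1, ?_, ?_, ?_, ?_, ?_⟩
  · nlinarith [Nat.mul_le_mul_left k hh3, Nat.mul_le_mul_left (4 * s + k + 1) hhb]
  · nlinarith [Nat.mul_le_mul_left (2 * s) hh3, Nat.mul_le_mul_left h hkn,
      Nat.zero_le (k * (h * b))]
  · exact fun P hP => par_big q (2 * s + 1) n h P hq (by omega) hh2 hP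
  · refine par_real h b (2 * s + 1) (2 * q * (2 * s + 1) + 1) _ (by positivity)
      (par_hpow q (2 * s + 1) n h b (le_trans (Nat.le_add_left _ _) hB) ?_ hnb) hm3
    nlinarith
  · intro A N S0 hA1 hA hN hS0
    have hp := par_poly q (2 * s + 1) c F n b hn1 hnb
    refine hm4 A N S0 hA1 (by omega) (by omega) ?_
    refine hS0.trans ?_
    have : F * n ^ c + n ^ (2 * s + 1) + 2 * N * A ^ (2 * s - 1)
        ≤ (F + 1) * 2 ^ (2 * q * (c + (2 * s + 1))) * b ^ (2 * q * (c + (2 * s + 1))) + b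
          + 2 * N * A ^ (2 * s - 1) := by omega
    exact this

end Pool.Agent.H679R2.WH
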