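import Pool.Agent.H679R2.WH.Val
import Pool.Agent.H679R2.WH.Games

/-!
# The sources with an odd number of levels (Task N, helper354)
-/

set_option autoImplicit false

namespace Pool.Agent.H679R2.WH

private theorem N_le {a b : Bool} (h : a = true → b = true) : a ≤ b := by
  cases a <;> cases b <;> simp_all

/-- The bit at node `p` and variable `v`. -/
private def N_bit {n k n1 m : ℕ} (rv : Fin m × Row k n1 → Fin n) (σ : Fin n)
    (Y : Fin m → Set (Node n × Row k n1)) (p : Node n) (v : Fin n) : Prop :=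
  ∃ j x, rv (j, x) = v ∧ (if ftop p = some σ then fsnd p = j.val else (p, x) ∈ Y j)

private theorem N_inst {n k n1 m s : ℕ} (hn : 0 < n) (rv : Fin m × Row k n1 → Fin n) (σ : Fin n)
    (Y : Fin m → Set (Node n × Row k n1)) (i : CIdx n n (2 * s)) :
    instE hn rv σ Y i = true ↔ (i.2.2 = true ∨ N_bit rv σ Y (nodeOf s (ext hn i.1)) i.2.1) := by
  unfold instE N_bit
  simp only [Bool.or_eq_true, decide_eq_true_iff]

private theorem N_bit_iff {n k n1 m : ℕ} (rv : Fin m × Row k n1 → Fin n)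
    (hrv : Function.Injective rv) (σ : Fin n)
    (Y : Fin m → Set (Node n × Row k n1)) (p : Node n) (j : Fin m) (x : Row k n1) :
    N_bit rv σ Y p (rv (j, x)) ↔ (if ftop p = some σ then fsnd p = j.val else (p, x) ∈ Y j) := by
  constructor
  · rintro ⟨j', x', h1, h2⟩
    have := hrv h1
    simp only [Prod.mk.injEq] at this
    obtain ⟨rfl, rfl⟩ := this
    exact h2
  · intro h
    exact ⟨j, x, rfl, h⟩

theorem instE_mono {n k n1 m s : ℕ} (hn : 0 < n) (rv : Fin m × Row k n1 → Fin n) (σ : Fin n)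
    (Y Y' : Fin m → Set (Node n × Row k n1)) (h : ∀ j, Y j ⊆ Y' j) :
    (instE hn rv σ Y : CIdx n n (2 * s) → Bool) ≤ instE hn rv σ Y' := by
  intro i
  apply N_le
  rw [N_inst, N_inst]
  rintro (h1 | ⟨j, x, h1, h2⟩)
  · exact Or.inl h1
  · refine Or.inr ⟨j, x, h1, ?_⟩
    split_ifs at h2 ⊢ with h3
    · exact h2
    · exact h j h2

theorem instE_coord {n k n1 m s : ℕ} (hn : 0 < n) (rv : Fin m × Row k n1 → Fin n)
    (hrv : Function.Injective rv) (σ : Fin n) (Y : Fin m → Set (Node n × Row k n1))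
    (j : Fin m) (i : CIdx n n (2 * s)) :
    (∃ b, ∀ Z, instE hn rv σ (Function.update Y j Z) i = b) ∨
      ∃ v, ∀ Z, instE hn rv σ (Function.update Y j Z) i = true ↔ v ∈ Z := by
  by_cases hi : i.2.2 = true
  · left
    exact ⟨true, fun Z => (N_inst ..).2 (Or.inl hi)⟩
  by_cases hx : ∃ y, rv y = i.2.1
  · obtain ⟨⟨j', x⟩, hx⟩ := hx
    have key : ∀ Z, instE hn rv σ (Function.update Y j Z) i = true ↔
        (if ftop (nodeOf s (ext hn i.1)) = some σ then fsnd (nodeOf s (ext hn i.1)) = j'.val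
          else (nodeOf s (ext hn i.1), x) ∈ Function.update Y j Z j') := by
      intro Z
      rw [N_inst, ← hx, N_bit_iff rv hrv]
      simp [hi]
    by_cases hf : ftop (nodeOf s (ext hn i.1)) = some σ
    · left
      refine ⟨instE hn rv σ Y i, fun Z => ?_⟩
      rw [Bool.eq_iff_iff, key Z, N_inst, ← hx, N_bit_iff rv hrv]
      simp [hf, hi]
    · by_cases hj : j' = j
      · right
        refine ⟨(nodeOf s (ext hn i.1), x), fun Z => ?_⟩
        rw [key Z]
        subst hj
        simp [hf]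
      · left
        refine ⟨instE hn rv σ Y i, fun Z => ?_⟩
        rw [Bool.eq_iff_iff, key Z, N_inst, ← hx, N_bit_iff rv hrv]
        simp [hf, hi, hj]
  · left
    refine ⟨false, fun Z => ?_⟩
    rw [← Bool.not_eq_true, N_inst]
    rintro (h | ⟨j', x, h1, _⟩)
    · exact hi h
    · exact hx ⟨_, h1⟩

private theorem N_val {n k n1 m s : ℕ} (hn : 0 < n) (rv : Fin m × Row k n1 → Fin n) (σ : Fin n)
    (Y : Fin m → Set (Node n × Row k n1)) (S : Finset (Fin n)) :
    Val S (2 * s) true (instE hn rv σ Y : CIdx n n (2 * s) → Bool) ↔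
      AE n s (fun l => ∀ v ∈ S, N_bit rv σ Y l.reverse v) := by
  rw [Val_even hn]
  have hnode : ∀ l : List (Fin n × Fin n), l.length = s →
      nodeOf s (ext hn (pth hn (2 * s) (flat l))) = l.reverse := by
    intro l hl
    have := nodeOf_pth hn l hl le_rfl []
    rwa [List.append_nil] at this
  constructor
  · refine AE_imp _ _ fun l hl h v hv => ?_
    have h1 := h (v, false)
    rw [N_inst] at h1
    simp only [hnode l hl] at h1
    rcases h1 with (h1 | h1) | h1
    · simp at h1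
    · exact h1
    · rcases h1 with h1 | h1
      · simp at h1
      · exact absurd hv h1.2
  · refine AE_imp _ _ fun l hl h l' => ?_
    obtain ⟨v, b⟩ := l'
    rw [N_inst]
    simp only [hnode l hl]
    cases b with
    | true => exact Or.inl (Or.inl rfl)
    | false =>
      by_cases hv : v ∈ S
      · exact Or.inl (Or.inr (h v hv))
      · exact Or.inr (Or.inr ⟨rfl, hv⟩)

theorem instE_pos {n k n1 m s : ℕ} (hn : 0 < n) (hs : 1 ≤ s) (rv : Fin m × Row k n1 → Fin n)
    (hrv : Function.Injective rv) (hm : m ≤ n) (σ : Fin n)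
    (Y : Fin m → Set (Node n × Row k n1)) (j : Fin m) (ω : OmPE n k n1 s) :
    WSat (2 * s) k (instE hn rv σ (Function.update Y j (PosE ω))) := by
  refine ⟨Finset.univ.image (fun i : Fin k => rv (j, (i, ω.1 i))), ?_, ?_⟩
  · rw [Finset.card_image_of_injective, Finset.card_univ, Fintype.card_fin]
    intro i i' h
    have := hrv h
    simp only [Prod.mk.injEq] at this
    exact this.2.1
  · rw [N_val]
    obtain ⟨β', hβ'⟩ := redirect hs ω.2 σ ⟨j.val, lt_of_lt_of_le j.2 hm⟩
    refine AE_pos β' (fun p => ∀ v ∈ Finset.univ.image (fun i : Fin k => rv (j, (i, ω.1 i))),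
      N_bit rv σ (Function.update Y j (PosE ω)) p v) ?_
    intro p hp hin v hv
    rw [Finset.mem_image] at hv
    obtain ⟨i, _, rfl⟩ := hv
    rw [N_bit_iff rv hrv]
    rcases hβ' p hp hin with ⟨h1, h2⟩ | ⟨h1, h2⟩
    · rw [if_pos h1]
      exact h2
    · rw [if_neg h1, Function.update_self]
      exact ⟨hp, h2, rfl⟩

theorem instE_neg {n k n1 d0 m s : ℕ} (hn : 0 < n) (hs : 1 ≤ s) (hk : 0 < k)
    (rv : Fin m × Row k n1 → Fin n) (hrv : Function.Injective rv) (σ : Fin n)
    (ω : Fin m → OmNE n k n1 d0 s) (h : ∀ j, GoodE σ (ω j)) :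
    ¬ WSat (2 * s) k (instE hn rv σ (fun j => NegE (ω j))) := by
  rintro ⟨S, hcard, hval⟩
  rw [N_val] at hval
  -- the coordinate
  obtain ⟨p, hp, htop, _, hG⟩ := AE_neg hs (fun _ => σ) σ
    (fun p => ∀ v ∈ S, N_bit rv σ (fun j => NegE (ω j)) p v) hval
  have hne : S.Nonempty := by
    rw [← Finset.card_pos, hcard]
    exact hk
  obtain ⟨v0, hv0⟩ := hne
  have hb0 := hG v0 hv0
  unfold N_bit at hb0
  rw [htop] at hb0
  obtain ⟨j0, x0, -, hj0⟩ := hb0
  rw [if_pos rfl] at hj0
  have hblock : ∀ v ∈ S, ∃ x, rv (j0, x) = v := by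
    intro v hv
    have hb := hG v hv
    unfold N_bit at hb
    rw [htop] at hb
    obtain ⟨j1, x1, hx1, hj1⟩ := hb
    rw [if_pos rfl] at hj1
    have : j1 = j0 := Fin.ext (by rw [← hj1, ← hj0])
    subst this
    exact ⟨x1, hx1⟩
  classical
  let S' : Finset (Row k n1) := Finset.univ.filter (fun x => rv (j0, x) ∈ S)
  have hinj : Function.Injective (fun x : Row k n1 => rv (j0, x)) := by
    intro x y hxy
    have := hrv hxy
    simpa using this
  have himg : S'.image (fun x => rv (j0, x)) = S := by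
    ext v
    simp only [S', Finset.mem_image, Finset.mem_filter, Finset.mem_univ, true_and]
    constructor
    · rintro ⟨x, hx, rfl⟩
      exact hx
    · intro hv
      obtain ⟨x, hx⟩ := hblock v hv
      exact ⟨x, by rw [hx]; exact hv, hx⟩
  have hS' : S'.card = k := by
    have h1 := Finset.card_image_of_injective S' hinj
    rw [himg, hcard] at h1
    exact h1.symm
  obtain ⟨a, ha, hc⟩ := h j0 S' hS'
  obtain ⟨p, hp, htop, hfol, hG⟩ := AE_neg hs (ω j0).2.1 a
    (fun p => ∀ v ∈ S, N_bit rv σ (fun j => NegE (ω j)) p v) hval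
  obtain ⟨x, hx, hxc⟩ := hc ((ω j0).2.2 ⟨p, hp⟩)
  have hxS : rv (j0, x) ∈ S := by
    simpa [S'] using hx
  have hb := hG _ hxS
  rw [N_bit_iff rv hrv, htop, if_neg (by simpa using ha)] at hb
  exact hb ⟨hp, a, htop, hfol, hxc⟩

end Pool.Agent.H679R2.WH
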