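import Pool.Agent.H679R2.WH.Codes
import Pool.Agent.H679R2.WH.Val
import Pool.Agent.H679R2.WH.Games

/-!
# Even sources (task O1, helper355)
-/

set_option autoImplicit false

namespace Pool.Agent.H679R2.WH

theorem instO_mono {n k n1 m s : ℕ} (hn : 0 < n) (rv : Fin m × Row k n1 → Fin n) (σ : Fin n)
    (Y Y' : Fin m → Set (Node n × Fin n × Row k n1)) (h : ∀ j, Y j ⊆ Y' j) :
    (instO hn rv σ Y : CIdx n n (2 * s + 1) → Bool) ≤ instO hn rv σ Y' := by
  intro i
  simp only [instO]
  cases hb : i.2.2 with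
  | false => simp
  | true =>
    simp only [Bool.true_and]
    rw [Bool.le_iff_imp]
    simp only [decide_eq_true_eq]
    rintro ⟨j, x, h1, h2⟩
    refine ⟨j, x, h1, ?_⟩
    by_cases hc : ftop (nodeOf s (ext hn i.1)) = some σ
    · rw [if_pos hc] at h2 ⊢
      exact h2
    · rw [if_neg hc] at h2 ⊢
      exact h _ h2

theorem instO_coord {n k n1 m s : ℕ} (hn : 0 < n) (rv : Fin m × Row k n1 → Fin n)
    (hrv : Function.Injective rv) (σ : Fin n) (Y : Fin m → Set (Node n × Fin n × Row k n1))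
    (j : Fin m) (i : CIdx n n (2 * s + 1)) :
    (∃ b, ∀ Z, instO hn rv σ (Function.update Y j Z) i = b) ∨
      ∃ v, ∀ Z, instO hn rv σ (Function.update Y j Z) i = true ↔ v ∈ Z := by
  by_cases hex : ∃ jx, rv jx = i.2.1
  · obtain ⟨⟨j', x⟩, hjx⟩ := hex
    have huniq : ∀ j'' x'', rv (j'', x'') = i.2.1 → j'' = j' ∧ x'' = x := by
      intro j'' x'' h
      have := hrv (h.trans hjx.symm)
      exact ⟨congrArg Prod.fst this, congrArg Prod.snd this⟩
    by_cases hc : ftop (nodeOf s (ext hn i.1)) = some σ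
    · left
      refine ⟨instO hn rv σ Y i, fun Z => ?_⟩
      simp only [instO, if_pos hc]
    · by_cases hj : j' = j
      · subst hj
        cases hb : i.2.2 with
        | false =>
          left
          exact ⟨false, fun Z => by simp [instO, hb]⟩
        | true =>
          right
          refine ⟨(nodeOf s (ext hn i.1), ext hn i.1 (2 * s), x), fun Z => ?_⟩
          simp only [instO, hb, if_neg hc, Bool.true_and, decide_eq_true_eq]
          constructor
          · rintro ⟨j'', x'', h1, h2⟩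
            obtain ⟨rfl, rfl⟩ := huniq _ _ h1
            rwa [Function.update_self] at h2
          · intro h
            refine ⟨j', x, hjx, ?_⟩
            rwa [Function.update_self]
      · left
        refine ⟨instO hn rv σ Y i, fun Z => ?_⟩
        simp only [instO, if_neg hc]
        congr 1
        apply decide_eq_decide.2
        constructor
        · rintro ⟨j'', x'', h1, h2⟩
          obtain ⟨rfl, rfl⟩ := huniq _ _ h1
          rw [Function.update_of_ne hj] at h2
          exact ⟨_, _, h1, h2⟩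
        · rintro ⟨j'', x'', h1, h2⟩
          obtain ⟨rfl, rfl⟩ := huniq _ _ h1
          refine ⟨_, _, h1, ?_⟩
          rw [Function.update_of_ne hj]
          exact h2
  · left
    refine ⟨false, fun Z => ?_⟩
    simp only [instO]
    rw [Bool.and_eq_false_iff]
    right
    rw [decide_eq_false_iff_not]
    rintro ⟨j', x, h1, -⟩
    exact hex ⟨_, h1⟩

/-- The bit of `instO` at the path of a list. -/
theorem instO_bit {n k n1 m s : ℕ} (hn : 0 < n) (rv : Fin m × Row k n1 → Fin n) (σ : Fin n)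
    (Y : Fin m → Set (Node n × Fin n × Row k n1)) (l : List (Fin n × Fin n)) (hl : l.length = s)
    (a : Fin n) (l' : Fin n × Bool) :
    (instO hn rv σ Y : CIdx n n (2 * s + 1) → Bool) (pth hn (2 * s + 1) (flat l ++ [a]), l') = true
      ↔ l'.2 = true ∧ ∃ j x, rv (j, x) = l'.1 ∧
        (if ftop l.reverse = some σ then a.val < k → (fsnd l.reverse = j.val ∧ x.1.val = a.val)
          else (l.reverse, a, x) ∈ Y j) := by
  have h1 := nodeOf_pth (s := s) (d := 2 * s + 1) hn l hl (by omega) [a]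
  have h2 := ext_pth_last (s := s) hn l hl a
  simp only [instO, h1, h2, Bool.and_eq_true, decide_eq_true_eq]

theorem instO_pos {n k n1 m s : ℕ} (hn : 0 < n) (hs : 1 ≤ s) (hk : 0 < k)
    (rv : Fin m × Row k n1 → Fin n)
    (hrv : Function.Injective rv) (hm : m ≤ n) (σ : Fin n)
    (Y : Fin m → Set (Node n × Fin n × Row k n1)) (j : Fin m) (ω : OmPO n k n1 s) :
    WSat (2 * s + 1) k (instO hn rv σ (Function.update Y j (PosO ω))) := by
  classical
  have hinj : Function.Injective (fun i : Fin k => rv (j, (i, ω.1 i))) := by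
    intro i i' h
    have := hrv h
    exact congrArg (fun z => z.2.1) this
  refine ⟨Finset.univ.image (fun i : Fin k => rv (j, (i, ω.1 i))), ?_, ?_⟩
  · rw [Finset.card_image_of_injective _ hinj]
    simp
  · rw [Val_odd hn]
    obtain ⟨β', hβ'⟩ := redirect hs ω.2.1 σ (⟨j.val, lt_of_lt_of_le j.2 hm⟩ : Fin n)
    have hmem : ∀ i : Fin k, rv (j, (i, ω.1 i)) ∈
        Finset.univ.image (fun i : Fin k => rv (j, (i, ω.1 i))) := fun i =>
      Finset.mem_image_of_mem _ (Finset.mem_univ i)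
    have key := AE_pos β' (fun p => ∀ a : Fin n, ∃ l' : Fin n × Bool,
      (l'.2 = true ∧ ∃ j' x, rv (j', x) = l'.1 ∧
        (if ftop p = some σ then a.val < k → (fsnd p = j'.val ∧ x.1.val = a.val)
          else (p, a, x) ∈ Function.update Y j (PosO ω) j')) ∧
      lit (Finset.univ.image (fun i : Fin k => rv (j, (i, ω.1 i)))) l') ?_
    · refine AE_imp _ _ ?_ key
      intro l hl hG a
      obtain ⟨l', h1, h2⟩ := hG a
      exact ⟨l', (instO_bit hn rv σ _ l hl a l').2 h1, h2⟩
    · intro p hp hP a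
      rcases hβ' p hp hP with ⟨h1, h2⟩ | ⟨h1, h2⟩
      · by_cases ha : a.val < k
        · refine ⟨(rv (j, (⟨a.val, ha⟩, ω.1 ⟨a.val, ha⟩)), true), ⟨rfl, j, _, rfl, ?_⟩,
            Or.inl ⟨rfl, hmem _⟩⟩
          rw [if_pos h1]
          exact fun _ => ⟨h2, rfl⟩
        · refine ⟨(rv (j, (⟨0, hk⟩, ω.1 ⟨0, hk⟩)), true), ⟨rfl, j, _, rfl, ?_⟩,
            Or.inl ⟨rfl, hmem _⟩⟩
          rw [if_pos h1]
          exact fun h => absurd h ha
      · refine ⟨(rv (j, (ω.2.2 (⟨p, hp⟩, a), ω.1 (ω.2.2 (⟨p, hp⟩, a)))), true),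
          ⟨rfl, j, _, rfl, ?_⟩, Or.inl ⟨rfl, hmem _⟩⟩
        rw [if_neg h1, Function.update_self]
        exact ⟨hp, h2, rfl⟩

theorem instO_neg {n k n1 d0 m s : ℕ} (hn : 0 < n) (hs : 1 ≤ s) (hk : 0 < k) (hkn : k ≤ n)
    (rv : Fin m × Row k n1 → Fin n) (hrv : Function.Injective rv) (σ : Fin n)
    (ω : Fin m → OmNO n k n1 d0 s) (h : ∀ j, GoodO σ (ω j)) :
    ¬ WSat (2 * s + 1) k (instO hn rv σ (fun j => NegO (ω j))) := by
  classical
  rintro ⟨S, hS, hV⟩
  rw [Val_odd hn] at hV
  obtain ⟨G, hG⟩ : ∃ G : Node n → Prop, G = (fun p : Node n => ∀ a : Fin n,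
      ∃ l' : Fin n × Bool,
      (l'.2 = true ∧ ∃ j' x, rv (j', x) = l'.1 ∧
        (if ftop p = some σ then a.val < k → (fsnd p = j'.val ∧ x.1.val = a.val)
          else (p, a, x) ∈ NegO (ω j'))) ∧ lit S l') := ⟨_, rfl⟩
  have key : AE n s (fun l => G l.reverse) := by
    rw [hG]
    refine AE_imp _ _ ?_ hV
    intro l hl hG a
    obtain ⟨l', h1, h2⟩ := hG a
    exact ⟨l', (instO_bit hn rv σ _ l hl a l').1 h1, h2⟩
  obtain ⟨p, -, hp1, -, hp2⟩ := AE_neg hs (fun _ => σ) σ G key
  rw [hG] at hp2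
  have hex : ∀ i : Fin k, ∃ jx : Fin m × Row k n1, rv jx ∈ S ∧ fsnd p = jx.1.val ∧
      jx.2.1 = i := by
    intro i
    obtain ⟨l', ⟨h1, j', x, h2, h3⟩, h4⟩ := hp2 ⟨i.val, lt_of_lt_of_le i.2 hkn⟩
    rw [if_pos hp1] at h3
    obtain ⟨h5, h6⟩ := h3 i.2
    refine ⟨(j', x), ?_, h5, Fin.ext h6⟩
    rw [h2]
    rcases h4 with h4 | h4
    · exact h4.2
    · rw [h1] at h4
      exact absurd h4.1 (by simp)
  choose jx hjx1 hjx2 hjx3 using hex
  set j0 := (jx ⟨0, hk⟩).1 with hj0
  have hall : ∀ i, (jx i).1 = j0 := by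
    intro i
    apply Fin.ext
    rw [← hjx2 i, hj0, ← hjx2 ⟨0, hk⟩]
  have hxinj : Function.Injective (fun i => (jx i).2) := by
    intro i i' hii
    have h1 : (jx i).2.1 = (jx i').2.1 := congrArg Prod.fst hii
    rwa [hjx3, hjx3] at h1
  have hSeq : Finset.univ.image (fun i => rv (j0, (jx i).2)) = S := by
    apply Finset.eq_of_subset_of_card_le
    · intro v hv
      obtain ⟨i, -, rfl⟩ := Finset.mem_image.1 hv
      have h1 := hjx1 i
      have h2 : jx i = (j0, (jx i).2) := by rw [← hall i]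
      rw [h2] at h1
      exact h1
    · rw [hS, Finset.card_image_of_injective]
      · simp
      · intro i i' hii
        have h1 := hrv hii
        have h2 := congrArg Prod.snd h1
        exact hxinj h2
  have hS' : (Finset.univ.image (fun i => (jx i).2)).card = k := by
    rw [Finset.card_image_of_injective _ hxinj]
    simp
  obtain ⟨⟨a, haσ, hM⟩, hZ⟩ := h j0 _ hS'
  obtain ⟨p', hp'0, hp'1, hp'F, hp'2⟩ := AE_neg hs (ω j0).2.1 a G key
  rw [hG] at hp'2
  obtain ⟨a', ha'⟩ := hZ ⟨p', hp'0⟩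
  obtain ⟨l', ⟨h1, j', x, h2, h3⟩, h4⟩ := hp'2 a'
  have hne : ftop p' ≠ some σ := by
    rw [hp'1]
    intro hc
    exact haσ (Option.some.inj hc)
  rw [if_neg hne] at h3
  have h5 : rv (j', x) ∈ S := by
    rw [h2]
    rcases h4 with h4 | h4
    · exact h4.2
    · rw [h1] at h4
      exact absurd h4.1 (by simp)
  rw [← hSeq] at h5
  obtain ⟨i, -, hi⟩ := Finset.mem_image.1 h5
  have h6 := hrv hi
  have h7 : j' = j0 := (congrArg Prod.fst h6).symm
  have h8 : x = (jx i).2 := (congrArg Prod.snd h6).symm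
  have hx : x ∈ Finset.univ.image (fun i => (jx i).2) :=
    Finset.mem_image.2 ⟨i, Finset.mem_univ _, h8.symm⟩
  rw [h7] at h3
  apply h3
  refine ⟨hp'0, ?_, hp'F, ha' x hx⟩
  intro a'' ha''
  rw [hp'1] at ha''
  have : a = a'' := Option.some.inj ha''
  subst this
  exact hM x hx

end Pool.Agent.H679R2.WH
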