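import Pool.Agent.H679R2.WH.Codes

/-!
# The instances with two levels
-/

set_option autoImplicit false

namespace Pool.Agent.H679R2.WH

theorem instO0_mono {n k n1 m : ℕ} (rv : Fin m × Row k n1 → Fin n)
    (Y Y' : Fin m → Set (Node n × Fin n × Row k n1)) (h : ∀ j, Y j ⊆ Y' j) :
    (instO0 rv Y : CIdx n n 1 → Bool) ≤ instO0 rv Y' := by
  intro i
  have key : instO0 rv Y i = true → instO0 rv Y' i = true := by
    simp only [instO0, Bool.and_eq_true, decide_eq_true_eq]
    rintro ⟨hb, j, x, h1, h2⟩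
    exact ⟨hb, j, x, h1, h j h2⟩
  revert key
  cases instO0 rv Y i <;> cases instO0 rv Y' i <;> simp

theorem instO0_coord {n k n1 m : ℕ} (rv : Fin m × Row k n1 → Fin n)
    (hrv : Function.Injective rv) (Y : Fin m → Set (Node n × Fin n × Row k n1))
    (j : Fin m) (i : CIdx n n 1) :
    (∃ b, ∀ Z, instO0 rv (Function.update Y j Z) i = b) ∨
      ∃ v, ∀ Z, instO0 rv (Function.update Y j Z) i = true ↔ v ∈ Z := by
  by_cases hb : i.2.2 = true
  · by_cases hx : ∃ j' x, rv (j', x) = i.2.1
    · obtain ⟨j', x, hx⟩ := hx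
      have key : ∀ (Y : Fin m → Set (Node n × Fin n × Row k n1)),
          instO0 rv Y i = true ↔ (([], i.1 0, x) : Node n × Fin n × Row k n1) ∈ Y j' := by
        intro Y
        simp only [instO0, hb, Bool.true_and, decide_eq_true_eq]
        constructor
        · rintro ⟨j'', x'', h1, h2⟩
          have := hrv (h1.trans hx.symm)
          rw [Prod.mk.injEq] at this
          obtain ⟨rfl, rfl⟩ := this
          exact h2
        · intro h
          exact ⟨j', x, hx, h⟩
      by_cases hj : j' = j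
      · subst hj
        right
        refine ⟨([], i.1 0, x), fun Z => ?_⟩
        rw [key, Function.update_self]
      · left
        refine ⟨instO0 rv Y i, fun Z => ?_⟩
        rw [Bool.eq_iff_iff, key, key, Function.update_of_ne hj]
    · left
      refine ⟨false, fun Z => ?_⟩
      simp only [instO0, hb, Bool.true_and, decide_eq_false_iff_not]
      rintro ⟨j', x, h1, _⟩
      exact hx ⟨j', x, h1⟩
  · left
    rw [Bool.not_eq_true] at hb
    refine ⟨false, fun Z => ?_⟩
    simp [instO0, hb]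

theorem instO0_pos {n k n1 m : ℕ} (rv : Fin m × Row k n1 → Fin n)
    (hrv : Function.Injective rv) (Y : Fin m → Set (Node n × Fin n × Row k n1)) (j : Fin m)
    (ω : OmPO n k n1 0) : WSat 1 k (instO0 rv (Function.update Y j (PosO ω))) := by
  have hinj : Function.Injective (fun i : Fin k => rv (j, (i, ω.1 i))) := by
    intro i i' h
    have := hrv h
    simp only [Prod.mk.injEq, true_and] at this
    exact this.1
  refine ⟨Finset.univ.map ⟨_, hinj⟩, by simp, ?_⟩
  show ∀ a : Fin n, ∃ l : Fin n × Bool, _ ∧ _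
  intro a
  set c : Fin k := ω.2.2 (⟨[], rfl⟩, a) with hc
  refine ⟨(rv (j, (c, ω.1 c)), true), ?_, ?_⟩
  · simp only [instO0, Bool.true_and, decide_eq_true_eq]
    refine ⟨j, (c, ω.1 c), rfl, ?_⟩
    rw [Function.update_self]
    refine ⟨rfl, trivial, ?_⟩
    rfl
  · left
    refine ⟨rfl, ?_⟩
    rw [Finset.mem_map]
    exact ⟨c, Finset.mem_univ _, rfl⟩

theorem instO0_neg {n k n1 d0 m : ℕ} (rv : Fin m × Row k n1 → Fin n)
    (hrv : Function.Injective rv) (ω : Fin m → OmNO n k n1 d0 0) (h : Good0 ω) :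
    ¬ WSat 1 k (instO0 rv (fun j => NegO (ω j))) := by
  classical
  rintro ⟨S, hS, hv⟩
  have hv' : ∀ a : Fin n, ∃ l : Fin n × Bool,
      instO0 rv (fun j => NegO (ω j)) (Fin.cons a Fin.elim0, l) = true ∧ lit S l := hv
  obtain ⟨a, ha⟩ := h (Finset.univ.filter (fun v => rv v ∈ S)) (by
    refine le_trans ?_ hS.le
    refine Finset.card_le_card_of_injOn rv ?_ hrv.injOn
    intro v hv
    simpa using hv)
  obtain ⟨l, hl1, hl2⟩ := hv' a
  simp only [instO0, Bool.and_eq_true, decide_eq_true_eq] at hl1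
  obtain ⟨hb, j, x, hx, hmem⟩ := hl1
  have hlS : l.1 ∈ S := by
    rcases hl2 with h1 | h1
    · exact h1.2
    · rw [hb] at h1
      exact absurd h1.1 (by simp)
  have hZ := ha (j, x) (by simp [hx, hlS])
  apply hmem
  refine ⟨rfl, ?_, trivial, ?_⟩
  · intro a' ha'
    simp [ftop] at ha'
  · exact hZ

end Pool.Agent.H679R2.WH
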